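import Pool.Agent.WLD.W11a

/-!
# Uniruled threefolds from Artin-Schreier covers
-/

set_option autoImplicit false

namespace Pool.Agent.WLD

open Polynomial Pool.Agent.UQ

universe u

section Weights

variable {k : Type u} [Field k] {σ τ : Type}

theorem wle_iff (w : σ → ℕ) (p : MvPolynomial σ k) (D : ℕ) :
    MvPolynomial.weightedTotalDegree w p ≤ D ↔ ∀ d ∈ p.support, Finsupp.weight w d ≤ D := by
  unfold MvPolynomial.weightedTotalDegree
  exact Finset.sup_le_iff

theorem wle_sub (w : σ → ℕ) (p q : MvPolynomial σ k) (D : ℕ)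
    (hp : MvPolynomial.weightedTotalDegree w p ≤ D) (hq : MvPolynomial.weightedTotalDegree w q ≤ D) :
    MvPolynomial.weightedTotalDegree w (p - q) ≤ D := by
  classical
  rw [wle_iff] at *
  intro d hd
  rcases Finset.mem_union.1 (MvPolynomial.support_sub _ p q hd) with h | h
  · exact hp d h
  · exact hq d h

theorem wle_mul (w : σ → ℕ) (p q : MvPolynomial σ k) (D E : ℕ)
    (hp : MvPolynomial.weightedTotalDegree w p ≤ D) (hq : MvPolynomial.weightedTotalDegree w q ≤ E) :
    MvPolynomial.weightedTotalDegree w (p * q) ≤ D + E := by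
  classical
  rw [wle_iff] at *
  intro d hd
  obtain ⟨a, ha, b, hb, rfl⟩ := Finset.mem_add.1 (MvPolynomial.support_mul p q hd)
  rw [map_add]
  exact add_le_add (hp a ha) (hq b hb)

theorem wle_X_pow (w : σ → ℕ) (i : σ) (n : ℕ) :
    MvPolynomial.weightedTotalDegree w (MvPolynomial.X i ^ n : MvPolynomial σ k) ≤ n * w i := by
  rw [wle_iff]
  intro d hd
  rw [MvPolynomial.support_X_pow, Finset.mem_singleton] at hd
  rw [hd, Finsupp.weight_single]
  simp

theorem wle_one (w : σ → ℕ) :
    MvPolynomial.weightedTotalDegree w (1 : MvPolynomial σ k) ≤ 0 := by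
  classical
  rw [wle_iff]
  intro d hd
  rw [MvPolynomial.mem_support_iff, MvPolynomial.coeff_one] at hd
  have h2 : 0 = d := by
    by_contra h
    exact hd (if_neg h)
  rw [← h2, map_zero]

theorem wle_pow (w : σ → ℕ) (p : MvPolynomial σ k) (n : ℕ) :
    MvPolynomial.weightedTotalDegree w (p ^ n) ≤ n * MvPolynomial.weightedTotalDegree w p := by
  induction n with
  | zero =>
    rw [pow_zero, zero_mul]
    exact wle_one w
  | succ n ih =>
    rw [pow_succ, Nat.succ_mul]
    exact wle_mul w _ _ _ _ ih le_rfl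

theorem wle_rename (w : τ → ℕ) (g : σ → τ) (hg : Function.Injective g) (p : MvPolynomial σ k) (D : ℕ)
    (hp : MvPolynomial.weightedTotalDegree (fun i => w (g i)) p ≤ D) :
    MvPolynomial.weightedTotalDegree w (MvPolynomial.rename g p) ≤ D := by
  classical
  rw [wle_iff] at *
  intro d hd
  rw [MvPolynomial.support_rename_of_injective hg, Finset.mem_image] at hd
  obtain ⟨e, he, rfl⟩ := hd
  refine le_trans (le_of_eq ?_) (hp e he)
  rw [Finsupp.weight_apply, Finsupp.weight_apply, Finsupp.sum_mapDomain_index (by simp)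
    (by intros; simp [add_mul])]

end Weights

section

variable {κ : Type u} [Field κ]

/-- the threefold `φ(w) + a ^ e = f(x) / q(x) ^ e` is uniruled -/
theorem fam_uniW (φ : κ[X]) (hadd : AddPoly φ) (hdeg : 1 < φ.natDegree) (e : ℕ)
    {K₀ L : Type u} [Field K₀] [Field L] [Algebra κ K₀]
    [Algebra κ L] [Algebra K₀ L] [IsScalarTower κ K₀ L] {r : ℕ} (x : Fin r → K₀)
    (hK₀ : IntermediateField.adjoin κ (Set.range x) = ⊤) (htd : Algebra.trdeg κ K₀ = r)
    (f q : MvPolynomial (Fin r) κ) (hq : MvPolynomial.aeval x q ≠ 0) (a w : L)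
    (ha : Transcendental K₀ a)
    (hw : (aeval w φ + a ^ e) * algebraMap K₀ L (MvPolynomial.aeval x q) ^ e =
      algebraMap K₀ L (MvPolynomial.aeval x f))
    (hgen : IntermediateField.adjoin K₀ {a, w} = ⊤) (ω : Fin r → ℕ) (α γ D : ℕ)
    (h1 : MvPolynomial.weightedTotalDegree ω f ≤ D) (h2 : e * α ≤ D)
    (h3 : e * MvPolynomial.weightedTotalDegree ω q + max 1 (φ.natDegree * γ) ≤ D)
    (h4 : D ≤ ∑ i, ω i + α + γ) : Uniruled κ L := by
  classical
  obtain ⟨Q, hQ⟩ : ∃ Q, Q = algebraMap K₀ L (MvPolynomial.aeval x q) := ⟨_, rfl⟩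
  have hQ0 : Q ≠ 0 := by
    rw [hQ]
    exact (_root_.map_ne_zero _).2 hq
  rw [← hQ] at hw
  let g : Fin r → Fin (r + 1 + 1) := fun i => i.castSucc.castSucc
  have hg : Function.Injective g := fun i j h =>
    Fin.castSucc_injective _ (Fin.castSucc_injective _ h)
  let i₀ : Fin (r + 1 + 1) := Fin.last (r + 1)
  let i₁ : Fin (r + 1 + 1) := (Fin.last r).castSucc
  let ξ : Fin (r + 1 + 1) → L := Fin.snoc (Fin.snoc (fun i => algebraMap K₀ L (x i)) (a * Q)) w
  let Ω : Fin (r + 1 + 1) → ℕ := Fin.snoc (Fin.snoc ω α) γ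
  have ξg : ∀ i, ξ (g i) = algebraMap K₀ L (x i) := fun i => by
    simp only [ξ, g, Fin.snoc_castSucc]
  have ξ0 : ξ i₀ = w := by simp only [ξ, i₀, Fin.snoc_last]
  have ξ1 : ξ i₁ = a * Q := by simp only [ξ, i₁, Fin.snoc_castSucc, Fin.snoc_last]
  have Ωg : (fun i => Ω (g i)) = ω := by
    funext i
    simp only [Ω, g, Fin.snoc_castSucc]
  have Ω0 : Ω i₀ = γ := by simp only [Ω, i₀, Fin.snoc_last]
  have Ω1 : Ω i₁ = α := by simp only [Ω, i₁, Fin.snoc_castSucc, Fin.snoc_last]
  have hsum : ∑ i, Ω i = ∑ i, ω i + α + γ := by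
    rw [Fin.sum_univ_castSucc, Fin.sum_univ_castSucc]
    simp only [Ω, Fin.snoc_castSucc, Fin.snoc_last]
  have hr : ∀ P : MvPolynomial (Fin r) κ, MvPolynomial.aeval ξ (MvPolynomial.rename g P) =
        algebraMap K₀ L (MvPolynomial.aeval x P) := by
    intro P
    rw [MvPolynomial.aeval_rename, ← MvPolynomial.aeval_algebraMap_apply (A := K₀) (B := L) x P]
    congr 2
    ext i
    exact ξg i
  have hgi : ∀ i, g i ≠ i₀ := fun i h => Fin.castSucc_ne_last _ h
  have hv : ∀ P : MvPolynomial (Fin r) κ, i₀ ∉ (MvPolynomial.rename g P).vars := by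
    intro P hr
    have := MvPolynomial.vars_rename g P hr
    rw [Finset.mem_image] at this
    obtain ⟨j, -, hj⟩ := this
    exact hgi j hj
  have hi : i₁ ≠ i₀ := fun h => Fin.castSucc_ne_last _ h
  -- generators
  have hgen' : IntermediateField.adjoin κ (Set.range ξ) = ⊤ := by
    set E := IntermediateField.adjoin κ (Set.range ξ) with hE
    have hmem : ∀ i, ξ i ∈ E := fun i => IntermediateField.subset_adjoin κ _ ⟨i, rfl⟩
    have hK : ∀ b : K₀, algebraMap K₀ L b ∈ E := by
      intro b
      have h1 : (⊤ : IntermediateField κ K₀) ≤ E.comap (IsScalarTower.toAlgHom κ K₀ L) := by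
        rw [← hK₀, IntermediateField.adjoin_le_iff]
        rintro _ ⟨i, rfl⟩
        show algebraMap K₀ L (x i) ∈ E
        rw [← ξg]
        exact hmem _
      exact h1 (IntermediateField.mem_top (x := b))
    have hw' : w ∈ E := by
      rw [← ξ0]
      exact hmem _
    have ha' : a ∈ E := by
      have h1 : a * Q ∈ E := by
        rw [← ξ1]
        exact hmem _
      have hQE : Q ∈ E := by
        rw [hQ]
        exact hK _
      have h3 := div_mem h1 hQE
      rwa [mul_div_cancel_right₀ _ hQ0] at h3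
    let E' : IntermediateField K₀ L :=
      { E.toSubfield with
        algebraMap_mem' := hK }
    have h1 : (⊤ : IntermediateField K₀ L) ≤ E' := by
      rw [← hgen, IntermediateField.adjoin_le_iff]
      rintro c (rfl | rfl)
      · exact ha'
      · exact hw'
    rw [eq_top_iff]
    intro b _
    exact h1 (IntermediateField.mem_top (x := b))
  -- the transcendence degree
  have hEss : Algebra.EssFiniteType K₀ L := by
    rw [← IntermediateField.fg_top_iff, ← hgen]
    exact IntermediateField.fg_adjoin_of_finite (Set.toFinite _)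
  have hfin : Algebra.trdeg K₀ L < Cardinal.aleph0 := trdeg_lt_aleph0 K₀ L
  have hadd' := trdeg_add_eq κ K₀ (A := L)
  rw [htd] at hadd'
  have hfin' : Algebra.trdeg κ L < Cardinal.aleph0 := by
    rw [← hadd']
    exact Cardinal.add_lt_aleph0 Cardinal.natCast_lt_aleph0 hfin
  have h1' : (1 : Cardinal) ≤ Algebra.trdeg K₀ L := by
    rw [Cardinal.one_le_iff_ne_zero, trdeg_ne_zero_iff]
    exact ⟨a, ha⟩
  have hG : MvPolynomial.weightedTotalDegree Ω ((MvPolynomial.rename g q) ^ e) ≤
      e * MvPolynomial.weightedTotalDegree ω q :=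
    (wle_pow Ω _ e).trans (Nat.mul_le_mul_left e (wle_rename Ω g hg q _ (by rw [Ωg])))
  refine uniruled_phi φ hadd hdeg ξ hgen' hfin' ?_ i₀
    (MvPolynomial.rename g f - MvPolynomial.X i₁ ^ e)
    ((MvPolynomial.rename g q) ^ e) ?_ ?_ ?_ ?_ Ω D ?_ ?_ ?_ ?_
  · rw [← hadd']
    push_cast
    gcongr
  · intro h
    rcases Finset.mem_union.1 (MvPolynomial.vars_sub_subset _ h) with h | h
    · exact hv _ h
    · have := MvPolynomial.vars_pow _ e h
      rw [MvPolynomial.vars_X, Finset.mem_singleton] at this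
      exact hi this.symm
  · exact fun h => hv q (MvPolynomial.vars_pow _ e h)
  · rw [map_pow, hr, ← hQ]
    exact pow_ne_zero _ hQ0
  · rw [map_pow, map_sub, map_pow, hr, hr, MvPolynomial.aeval_X, ← hQ, ← hw, ξ0, ξ1]
    ring
  · refine wle_sub _ _ _ _ (wle_rename _ g hg _ _ (by rw [Ωg]; exact h1))
      ((wle_X_pow Ω i₁ e).trans ?_)
    rw [Ω1]
    exact h2
  · rw [Ω0]
    have h5 := le_max_right 1 (φ.natDegree * γ)
    omega
  · have h5 := le_max_left 1 (φ.natDegree * γ)
    omega
  · rw [hsum]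
    exact h4

end

section Tower

variable {k : Type u} [Field k]

/-- additive polynomials over an extension -/
theorem AddPoly.map' {φ : k[X]} (hadd : AddPoly φ) {E : Type u} [Field E] [Algebra k E] :
    AddPoly (φ.map (algebraMap k E)) := by
  intro L _ _ a b
  let _ : Algebra k L := ((algebraMap E L).comp (algebraMap k E)).toAlgebra
  have tow : IsScalarTower k E L := IsScalarTower.of_algebraMap_eq (fun _ => rfl)
  rw [aeval_map_algebraMap, aeval_map_algebraMap, aeval_map_algebraMap]
  exact hadd L a b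

/-- change of the base field -/
theorem Uniruled.tower {E L : Type u} [Field E] [Field L] [Algebra k E] [Algebra k L] [Algebra E L]
    [IsScalarTower k E L] (hE : (⊤ : IntermediateField k E).FG) (h : Uniruled E L) :
    Uniruled k L := by
  obtain ⟨M, hM1, hM2, hfg, htr, ⟨j⟩⟩ := h
  let algkM : Algebra k M := ((algebraMap E M).comp (algebraMap k E)).toAlgebra
  have tow : IsScalarTower k E M := IsScalarTower.of_algebraMap_eq (fun _ => rfl)
  refine ⟨M, hM1, algkM, ?_, ?_, ?_⟩
  · have e1 : Algebra.EssFiniteType k E := IntermediateField.fg_top_iff.1 hE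
    have e2 : Algebra.EssFiniteType E M := IntermediateField.fg_top_iff.1 hfg
    rw [IntermediateField.fg_top_iff]
    exact Algebra.EssFiniteType.comp k E M
  · rw [← trdeg_add_eq k E (A := M), ← trdeg_add_eq k E (A := L), ← htr, add_assoc]
  · have tow2 : IsScalarTower k E (RatFunc M) := IsScalarTower.of_algebraMap_eq (fun a => by
      rw [IsScalarTower.algebraMap_apply k M[X] (RatFunc M),
        IsScalarTower.algebraMap_apply E M[X] (RatFunc M)]
      congr 1)
    exact ⟨j.restrictScalars k⟩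

end Tower

end Pool.Agent.WLD
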