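import Pool.Agent.WLD.W11d

/-!
# The families of Artin-Schreier planes
-/

set_option autoImplicit false

namespace Pool.Agent.WLD

open Polynomial Pool.Agent.UQ

universe u

section

variable {k M : Type u} [Field k] [Field M] [Algebra k M]

/-- the explicit families: `K₀ = k(x, y)`, `φ(z) = f(x, y) / q(x, y) ^ e`, and the equation
`(a q) ^ e = f - q ^ e φ(w)` has degree at most `D` for weights `ω` of `x` and `y`, `α` of `a q` and
`γ` of `w` whose sum is at least `D` -/
def FamS (K₀ : IntermediateField k M) (z : M) (φ : k[X]) (e : ℕ) : Prop :=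
  ∃ (x : Fin 2 → M) (f q : MvPolynomial (Fin 2) k) (ω : Fin 2 → ℕ) (α γ D : ℕ),
    K₀ = IntermediateField.adjoin k (Set.range x) ∧ MvPolynomial.aeval x q ≠ 0 ∧
      aeval z φ * MvPolynomial.aeval x q ^ e = MvPolynomial.aeval x f ∧
      MvPolynomial.weightedTotalDegree ω f ≤ D ∧ e * α ≤ D ∧
      e * MvPolynomial.weightedTotalDegree ω q + max 1 (φ.natDegree * γ) ≤ D ∧
      D ≤ ω 0 + ω 1 + α + γ

theorem FamS.fam {K₀ : IntermediateField k M} {z : M} {φ : k[X]} {e : ℕ}
    (h : FamS K₀ z φ e) : FamW K₀ z φ e := by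
  obtain ⟨x, f, q, ω, α, γ, D, rfl, hq, hz, h1, h2, h3, h4⟩ := h
  exact famW_of x f q ω α γ D z φ e hq hz h1 h2 h3 h4

end

end Pool.Agent.WLD
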