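import Pool.Agent.WLD.W11b

/-!
# The Weierstrass polynomial
-/

set_option autoImplicit false

namespace Pool.Agent.WLD

open Polynomial

universe u

section

variable {k : Type u} [Field k]

theorem wle_add {σ : Type} (w : σ → ℕ) (p q : MvPolynomial σ k) (D : ℕ)
    (hp : MvPolynomial.weightedTotalDegree w p ≤ D)
    (hq : MvPolynomial.weightedTotalDegree w q ≤ D) :
    MvPolynomial.weightedTotalDegree w (p + q) ≤ D := by
  classical
  rw [wle_iff] at *
  intro d hd
  rcases Finset.mem_union.1 (MvPolynomial.support_add hd) with h | h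
  · exact hp d h
  · exact hq d h

theorem wle_X {σ : Type} (w : σ → ℕ) (i : σ) :
    MvPolynomial.weightedTotalDegree w (MvPolynomial.X i : MvPolynomial σ k) ≤ w i := by
  have := wle_X_pow (k := k) w i 1
  rwa [pow_one, one_mul] at this

theorem wle_C {σ : Type} (w : σ → ℕ) (c : k) :
    MvPolynomial.weightedTotalDegree w (MvPolynomial.C c : MvPolynomial σ k) ≤ 0 := by
  classical
  rw [wle_iff]
  intro d hd
  rw [MvPolynomial.mem_support_iff, MvPolynomial.coeff_C] at hd
  have h2 : 0 = d := by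
    by_contra h
    exact hd (if_neg h)
  rw [← h2, map_zero]

/-- polynomials in one variable -/
theorem wle_aeval_X {σ : Type} (w : σ → ℕ) (i : σ) (p : k[X]) :
    MvPolynomial.weightedTotalDegree w (aeval (MvPolynomial.X i : MvPolynomial σ k) p) ≤
      p.natDegree * w i := by
  classical
  rw [Polynomial.aeval_eq_sum_range]
  have key : ∀ s : Finset ℕ, (∀ j ∈ s, j ≤ p.natDegree) →
      MvPolynomial.weightedTotalDegree w
        (∑ j ∈ s, p.coeff j • (MvPolynomial.X i : MvPolynomial σ k) ^ j) ≤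
        p.natDegree * w i := by
    intro s
    induction s using Finset.induction_on with
    | empty =>
      intro _
      rw [Finset.sum_empty, MvPolynomial.weightedTotalDegree_zero]
      exact Nat.zero_le _
    | insert a s ha ih =>
      intro hs
      rw [Finset.sum_insert ha]
      refine wle_add w _ _ _ ?_ (ih fun j hj => hs j (Finset.mem_insert_of_mem hj))
      rw [MvPolynomial.smul_eq_C_mul]
      have h1 := wle_mul w (MvPolynomial.C (p.coeff a)) (MvPolynomial.X i ^ a) 0 (a * w i)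
        (wle_C w _) (wle_X_pow w i a)
      rw [zero_add] at h1
      exact h1.trans (Nat.mul_le_mul_right _ (hs a (Finset.mem_insert_self _ _)))
  refine key _ fun j hj => ?_
  rw [Finset.mem_range] at hj
  omega

/-- the Weierstrass polynomial in the variables `x`, `y`, `s` -/
noncomputable def wpoly (W : WeierstrassCurve k[X]) : MvPolynomial (Fin 3) k :=
  MvPolynomial.X 1 ^ 2 + aeval (MvPolynomial.X 2) W.a₁ * (MvPolynomial.X 0 * MvPolynomial.X 1) +
    aeval (MvPolynomial.X 2) W.a₃ * MvPolynomial.X 1 -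
    (MvPolynomial.X 0 ^ 3 + aeval (MvPolynomial.X 2) W.a₂ * MvPolynomial.X 0 ^ 2 +
      aeval (MvPolynomial.X 2) W.a₄ * MvPolynomial.X 0 + aeval (MvPolynomial.X 2) W.a₆)

/-- the degrees of the coefficients, for the weights `2 N`, `3 N`, `σ` of `x`, `y`, `s` -/
def WDeg (W : WeierstrassCurve k[X]) (N σ : ℕ) : Prop :=
  W.a₁.natDegree * σ ≤ N ∧ W.a₂.natDegree * σ ≤ 2 * N ∧ W.a₃.natDegree * σ ≤ 3 * N ∧
    W.a₄.natDegree * σ ≤ 4 * N ∧ W.a₆.natDegree * σ ≤ 6 * N

theorem aeval_wpoly {A : Type*} [CommRing A] [Algebra k A] (W : WeierstrassCurve k[X])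
    (x : Fin 3 → A) :
    MvPolynomial.aeval x (wpoly W) = x 1 ^ 2 + aeval (x 2) W.a₁ * (x 0 * x 1) +
      aeval (x 2) W.a₃ * x 1 - (x 0 ^ 3 + aeval (x 2) W.a₂ * x 0 ^ 2 +
        aeval (x 2) W.a₄ * x 0 + aeval (x 2) W.a₆) := by
  have h : ∀ p : k[X], MvPolynomial.aeval x (aeval (MvPolynomial.X 2 : MvPolynomial (Fin 3) k) p) =
      aeval (x 2) p := by
    intro p
    rw [← Polynomial.aeval_algHom_apply, MvPolynomial.aeval_X]
  simp only [wpoly, map_add, map_sub, map_mul, map_pow, MvPolynomial.aeval_X, h]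

theorem wpoly_ne_zero (W : WeierstrassCurve k[X]) : wpoly W ≠ 0 := by
  intro h
  have h1 := aeval_wpoly W (![0, X, 0] : Fin 3 → k[X])
  rw [h, map_zero] at h1
  have h2 : ∀ p : k[X], aeval (0 : k[X]) p = C (p.coeff 0) := by
    intro p
    rw [← Polynomial.coeff_zero_eq_aeval_zero']
    rfl
  simp only [Matrix.cons_val_zero, Matrix.cons_val_one, Matrix.cons_val, h2] at h1
  have h3 := congrArg (fun q : k[X] => q.coeff 2) h1
  simp at h3

theorem wle_wpoly (W : WeierstrassCurve k[X]) (N σ : ℕ) (h : WDeg W N σ)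
    (w : Fin 3 → ℕ) (w0 : w 0 = 2 * N) (w1 : w 1 = 3 * N) (w2 : w 2 = σ) :
    MvPolynomial.weightedTotalDegree w (wpoly W) ≤ 6 * N := by
  obtain ⟨h1, h2, h3, h4, h6⟩ := h
  have hc : ∀ (p : k[X]) (i d : ℕ) (m : MvPolynomial (Fin 3) k), p.natDegree * σ ≤ i →
      MvPolynomial.weightedTotalDegree w m ≤ d → i + d ≤ 6 * N →
      MvPolynomial.weightedTotalDegree w (aeval (MvPolynomial.X 2) p * m) ≤ 6 * N := by
    intro p i d m hp hm hd
    refine (wle_mul w _ _ i d ?_ hm).trans hd
    have := wle_aeval_X w 2 p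
    rw [w2] at this
    exact this.trans hp
  have hx : ∀ n : ℕ, MvPolynomial.weightedTotalDegree w
      (MvPolynomial.X 0 ^ n : MvPolynomial (Fin 3) k) ≤ n * (2 * N) := fun n => by
    have := wle_X_pow (k := k) w 0 n
    rwa [w0] at this
  have hx1 : MvPolynomial.weightedTotalDegree w (MvPolynomial.X 0 : MvPolynomial (Fin 3) k) ≤
      2 * N := by
    have := wle_X (k := k) w 0
    rwa [w0] at this
  have hy1 : MvPolynomial.weightedTotalDegree w (MvPolynomial.X 1 : MvPolynomial (Fin 3) k) ≤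
      3 * N := by
    have := wle_X (k := k) w 1
    rwa [w1] at this
  have hy : MvPolynomial.weightedTotalDegree w
      (MvPolynomial.X 1 ^ 2 : MvPolynomial (Fin 3) k) ≤ 6 * N := by
    have := wle_X_pow (k := k) w 1 2
    rw [w1] at this
    omega
  have h6' : MvPolynomial.weightedTotalDegree w
      (aeval (MvPolynomial.X 2 : MvPolynomial (Fin 3) k) W.a₆) ≤ 6 * N := by
    have := wle_aeval_X w 2 W.a₆
    rw [w2] at this
    exact this.trans h6
  unfold wpoly
  refine wle_sub w _ _ _ (wle_add w _ _ _ (wle_add w _ _ _ hy ?_) ?_)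
    (wle_add w _ _ _ (wle_add w _ _ _ (wle_add w _ _ _ ?_ ?_) ?_) h6')
  · exact hc W.a₁ N (2 * N + 3 * N) _ h1 (wle_mul w _ _ _ _ hx1 hy1) (by omega)
  · exact hc W.a₃ (3 * N) (3 * N) _ h3 hy1 (by omega)
  · have := hx 3
    omega
  · exact hc W.a₂ (2 * N) (2 * (2 * N)) _ h2 (hx 2) (by omega)
  · exact hc W.a₄ (4 * N) (2 * N) _ h4 hx1 (by omega)

/-- the numerical condition contains the condition for the surface -/
theorem lt_of_num {N σ e p α γ D : ℕ} (he : 2 ≤ e) (hp : 2 ≤ p) (hep : e.Coprime p)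
    (h1 : e * α ≤ D) (h2 : max 1 (p * γ) ≤ D) (h3 : N + D ≤ σ + α + γ) : N < σ := by
  have hD : 1 ≤ D := (le_max_left _ _).trans h2
  have h4 : p * γ ≤ D := (le_max_right _ _).trans h2
  have h5 : 2 * α ≤ D := (Nat.mul_le_mul_right _ he).trans h1
  have h6 : 2 * γ ≤ D := (Nat.mul_le_mul_right _ hp).trans h4
  have h7 : α + γ < D := by
    rcases Nat.lt_or_ge 2 e with h | h
    · have : 3 * α ≤ D := (Nat.mul_le_mul_right _ h).trans h1
      omega
    · have he2 : e = 2 := le_antisymm h he
      have hp3 : 3 ≤ p := by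
        rcases Nat.lt_or_ge 2 p with h | h
        · exact h
        · exfalso
          have : p = 2 := le_antisymm h hp
          rw [he2, this] at hep
          exact absurd hep (by decide)
      have : 3 * γ ≤ D := (Nat.mul_le_mul_right _ hp3).trans h4
      omega
  omega

end

end Pool.Agent.WLD
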