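import Pool.Agent.WLD.EA4
import Pool.Agent.WLD.EBW

/-!
# Uniruled surfaces: the field is contained in a compositum of two fields of degree one
-/

set_option autoImplicit false

namespace Pool.Agent.WLD

open Polynomial Pool.Agent.TBR Pool.Agent.TUQ Pool.Agent.UQ

universe u

section

variable {k M : Type u} [Field k] [Field M] [Algebra k M]

theorem not_nu_of_uniruled [IsAlgClosed M] (K₀ : IntermediateField k M)
    (htd : Algebra.trdeg k M = 2) (hal : ∀ x : M, IsAlgebraic K₀ x) (h : Uniruled k K₀) :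
    ¬ NU K₀ := by
  have hKalg : Algebra.IsAlgebraic K₀ M := ⟨hal⟩
  have htd₀ : Algebra.trdeg k K₀ = 2 := by rw [← trdeg_alg k K₀ M, htd]
  obtain ⟨M', _, _, hM'fg, hM't, ⟨φ⟩⟩ := h
  rw [htd₀] at hM't
  have h0 : Algebra.IsAlgebraic (Polynomial M') (RatFunc M') :=
    IsLocalization.isAlgebraic (RatFunc M') (nonZeroDivisors (Polynomial M'))
  have hR1 : Algebra.trdeg M' (RatFunc M') = 1 := by
    rw [← _root_.trdeg_add_eq M' (Polynomial M') (A := RatFunc M'),
      _root_.trdeg_eq_zero (R := Polynomial M') (A := RatFunc M'), add_zero,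
      Polynomial.trdeg_of_isDomain]
  have hR3 : Algebra.trdeg k (RatFunc M') = 2 := by
    rw [← _root_.trdeg_add_eq k M' (A := RatFunc M'), hR1, hM't]
  have hM'2 : Algebra.trdeg k M' = 1 := by
    have h1 : (1 : Cardinal.{u}) + 1 = 2 := by norm_num
    rw [← h1] at hM't
    exact (Cardinal.add_one_inj).1 hM't
  -- the embedding
  let _ : Algebra K₀ (RatFunc M') := φ.toRingHom.toAlgebra
  have hst : IsScalarTower k K₀ (RatFunc M') :=
    IsScalarTower.of_algebraMap_eq fun x => (φ.commutes x).symm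
  have hRal : Algebra.IsAlgebraic K₀ (RatFunc M') := by
    rw [← trdeg_eq_zero_iff]
    have h1 := _root_.trdeg_add_eq k K₀ (A := RatFunc M')
    rw [htd₀, hR3] at h1
    have h2 : (2 : Cardinal.{u}) + Algebra.trdeg K₀ (RatFunc M') = 2 + 0 := by rw [h1, add_zero]
    refine Cardinal.eq_of_add_eq_add_left h2 ?_
    exact_mod_cast Cardinal.natCast_lt_aleph0 (n := 2)
  let ψ₀ : RatFunc M' →ₐ[K₀] M := IsAlgClosed.lift
  let ψ : RatFunc M' →ₐ[k] M := ψ₀.restrictScalars k
  have hψ : ∀ x : K₀, ψ (φ x) = x := fun x => ψ₀.commutes x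
  let _ : Algebra M' M := (ψ.toRingHom.comp (algebraMap M' (RatFunc M'))).toAlgebra
  have hst' : IsScalarTower k M' M := IsScalarTower.of_algebraMap_eq fun x => by
    change algebraMap k M x = ψ (algebraMap M' (RatFunc M') (algebraMap k M' x))
    rw [← IsScalarTower.algebraMap_apply k M' (RatFunc M'), ψ.commutes]
  let κ : IntermediateField k M := (algebraicClosure M' M).restrictScalars k
  have hκcl : IsAlgClosed κ := by
    have h1 : IsAlgClosure M' (algebraicClosure M' M) := inferInstance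
    exact h1.isAlgClosed
  have hκtr : Algebra.trdeg k κ = 1 := by
    have h1 : Algebra.IsAlgebraic M' (algebraicClosure M' M) :=
      algebraicClosure.isAlgebraic M' M
    have h2 := trdeg_alg k M' (algebraicClosure M' M)
    rw [hM'2] at h2
    exact h2
  have hM'κ : ∀ x : M', algebraMap M' M x ∈ κ := fun x => (algebraicClosure M' M).algebraMap_mem x
  intro hNU
  refine hNU κ (ψ RatFunc.X) hκcl hκtr.le ?_
  have hRH : ∀ x : RatFunc M', ψ x ∈ κ ⊔ IntermediateField.adjoin k {ψ RatFunc.X} := by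
    intro x
    have hpol : ∀ p : M'[X], ψ (algebraMap M'[X] (RatFunc M') p) ∈
        κ ⊔ IntermediateField.adjoin k {ψ RatFunc.X} := by
      intro p
      induction p using Polynomial.induction_on' with
      | add p q hp hq => rw [map_add, map_add]; exact add_mem hp hq
      | monomial n c =>
        rw [← C_mul_X_pow_eq_monomial, map_mul, map_mul, map_pow, map_pow, RatFunc.algebraMap_C,
          RatFunc.algebraMap_X]
        refine mul_mem ?_ (pow_mem ?_ n)
        · exact (le_sup_left : κ ≤ _) (hM'κ c)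
        · exact (le_sup_right : IntermediateField.adjoin k {ψ RatFunc.X} ≤ _)
            (IntermediateField.subset_adjoin k _ rfl)
    obtain ⟨p, q, hq, rfl⟩ := IsFractionRing.div_surjective (A := M'[X]) x
    rw [map_div₀]
    exact div_mem (hpol p) (hpol q)
  intro x hx
  have h1 := hRH (φ ⟨x, hx⟩)
  rw [hψ] at h1
  exact h1

theorem emt_of_uniruled [IsAlgClosed M] (K₀ : IntermediateField k M) (hfg : K₀.FG)
    (htd : Algebra.trdeg k M = 2) (hal : ∀ x : M, IsAlgebraic K₀ x) (h : Uniruled k K₀) :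
    Emt K₀ := by
  obtain ⟨K₁, K₂, h1, h2, h3, h4, h5, h6⟩ := nu_case K₀ hfg hal (not_nu_of_uniruled K₀ htd hal h)
  refine ⟨1, fun _ => K₁ ⊔ K₂, fun _ => ⟨⟨K₁, K₂, h1, h2, h3, h4, rfl⟩, h5⟩, fun ℓ hℓ _ => ?_⟩
  obtain ⟨f, hf⟩ := h6 ℓ hℓ
  exact ⟨MonoidHom.pi fun _ => f, fun _ _ h => hf (congrFun h 0)⟩

/-- hypersurfaces whose degree is less than the sum of the weights -/
theorem uniruled_hyper [IsAlgClosed M] (htd : Algebra.trdeg k M = 2)
    (E : IntermediateField k M) (hE : E.FG) {r : ℕ} (x : Fin r → M)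
    (hr : Algebra.trdeg k E + r = 3) (K₀ : IntermediateField k M)
    (hK₀ : K₀ = E ⊔ IntermediateField.adjoin k (Set.range x)) (hal : ∀ y : M, IsAlgebraic K₀ y)
    (g : MvPolynomial (Fin r) E) (hg0 : g ≠ 0) (hg : MvPolynomial.aeval x g = 0)
    (ω : Fin r → ℕ) (hω : MvPolynomial.weightedTotalDegree ω g < ∑ i, ω i) :
    Uniruled k K₀ := by
  have hle : E ≤ K₀ := by
    rw [hK₀]
    exact le_sup_left
  have hxK : ∀ i, x i ∈ K₀ := fun i => by
    rw [hK₀]
    exact (le_sup_right : IntermediateField.adjoin k (Set.range x) ≤ _)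
      (IntermediateField.subset_adjoin _ _ ⟨i, rfl⟩)
  let ι : E →ₐ[k] K₀ := IntermediateField.inclusion hle
  let algE : Algebra E K₀ := ι.toRingHom.toAlgebra
  have tow2 : IsScalarTower k E K₀ := IsScalarTower.of_algebraMap_eq (fun b => (ι.commutes b).symm)
  have tow4 : IsScalarTower E K₀ M := IsScalarTower.of_algebraMap_eq (fun _ => rfl)
  let ξ : Fin r → K₀ := fun i => ⟨x i, hxK i⟩
  have hval : ∀ P : MvPolynomial (Fin r) E, ((MvPolynomial.aeval ξ P : K₀) : M) =
      MvPolynomial.aeval x P := fun P =>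
    (MvPolynomial.aeval_algebraMap_apply (A := K₀) (B := M) ξ P).symm
  have hgen₀ : IntermediateField.adjoin E (Set.range ξ) = ⊤ := by
    rw [eq_top_iff]
    intro b _
    let N' : IntermediateField k M :=
      ((IntermediateField.adjoin E (Set.range ξ)).restrictScalars k).map K₀.val
    have hE : E ≤ N' := fun c hc => ⟨⟨c, hle hc⟩,
      (IntermediateField.adjoin E (Set.range ξ)).algebraMap_mem ⟨c, hc⟩, rfl⟩
    have hx : IntermediateField.adjoin k (Set.range x) ≤ N' := by
      rw [IntermediateField.adjoin_le_iff]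
      rintro _ ⟨i, rfl⟩
      exact ⟨ξ i, IntermediateField.subset_adjoin E _ ⟨i, rfl⟩, rfl⟩
    have hb : (b : M) ∈ E ⊔ IntermediateField.adjoin k (Set.range x) := by
      rw [← hK₀]
      exact b.2
    obtain ⟨c, hc, hcb⟩ := (sup_le hE hx) hb
    have e : c = b := Subtype.ext hcb
    rw [← e]
    exact hc
  have htd₀ : Algebra.trdeg k K₀ = 2 := by
    have h1 : Algebra.IsAlgebraic K₀ M := ⟨hal⟩
    have h3 := trdeg_add_eq k K₀ (A := M)
    rwa [trdeg_eq_zero_iff.2 h1, add_zero, htd] at h3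
  have hlt : (2 : Cardinal.{u}) < Cardinal.aleph0 := by
    exact_mod_cast Cardinal.natCast_lt_aleph0 (n := 2)
  have h5 := trdeg_add_eq k E (A := K₀)
  rw [htd₀] at h5
  have hE2 : Algebra.trdeg k E ≤ 2 := by
    rw [← h5]
    exact self_le_add_right _ _
  have hfin : Algebra.trdeg E K₀ < Cardinal.aleph0 := by
    refine lt_of_le_of_lt ?_ hlt
    rw [← h5]
    exact self_le_add_left _ _
  have htr : (r : Cardinal) ≤ Algebra.trdeg E K₀ + 1 := by
    have h6 : Algebra.trdeg k E + r = Algebra.trdeg k E + (Algebra.trdeg E K₀ + 1) := by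
      rw [hr, ← add_assoc, h5]
      norm_num
    exact (Cardinal.eq_of_add_eq_add_left h6 (hE2.trans_lt hlt)).le
  have hEfg' : (⊤ : IntermediateField k E).FG := by
    rw [IntermediateField.fg_top_iff]
    exact IntermediateField.essFiniteType_iff.2 hE
  refine Uniruled.tower (E := E) hEfg' (uniruled_strict ξ hgen₀ hfin htr g hg0 ?_ ω hω)
  apply Subtype.ext
  rw [hval, hg]
  rfl

theorem emt_hyper [IsAlgClosed M] (htd : Algebra.trdeg k M = 2)
    (E : IntermediateField k M) (hE : E.FG) {r : ℕ} (x : Fin r → M)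
    (hr : Algebra.trdeg k E + r = 3) (K₀ : IntermediateField k M)
    (hK₀ : K₀ = E ⊔ IntermediateField.adjoin k (Set.range x)) (hal : ∀ y : M, IsAlgebraic K₀ y)
    (g : MvPolynomial (Fin r) E) (hg0 : g ≠ 0) (hg : MvPolynomial.aeval x g = 0)
    (ω : Fin r → ℕ) (hω : MvPolynomial.weightedTotalDegree ω g < ∑ i, ω i) :
    Emt K₀ := by
  classical
  refine emt_of_uniruled K₀ ?_ htd hal (uniruled_hyper htd E hE x hr K₀ hK₀ hal g hg0 hg ω hω)
  rw [hK₀]
  exact IntermediateField.fg_sup hE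
    ⟨Finset.univ.image x, by rw [Finset.coe_image, Finset.coe_univ, Set.image_univ]⟩

/-- the case of a polynomial over `k` in three variables -/
theorem emt_hyper₃ [IsAlgClosed M] (htd : Algebra.trdeg k M = 2)
    (E : IntermediateField k M) (hE : E.FG) (hEtd : Algebra.trdeg k E = 0) (x : Fin 3 → M)
    (K₀ : IntermediateField k M) (hK₀ : K₀ = E ⊔ IntermediateField.adjoin k (Set.range x))
    (hal : ∀ y : M, IsAlgebraic K₀ y) (g : MvPolynomial (Fin 3) k) (hg0 : g ≠ 0)
    (hg : MvPolynomial.aeval x g = 0) (ω : Fin 3 → ℕ)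
    (hω : MvPolynomial.weightedTotalDegree ω g < ω 0 + ω 1 + ω 2) :
    Uniruled k K₀ ∧ Emt K₀ := by
  have h0 : MvPolynomial.map (algebraMap k E) g ≠ 0 := by
    intro h
    apply hg0
    apply MvPolynomial.map_injective (algebraMap k E) (algebraMap k E).injective
    rw [h, map_zero]
  have h1 : MvPolynomial.aeval x (MvPolynomial.map (algebraMap k E) g) = 0 := by
    rw [MvPolynomial.aeval_map_algebraMap, hg]
  have h2 : MvPolynomial.weightedTotalDegree ω (MvPolynomial.map (algebraMap k E) g) <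
      ∑ i, ω i := by
    refine lt_of_le_of_lt ?_ (lt_of_lt_of_eq hω (Fin.sum_univ_three ω).symm)
    rw [wle_iff]
    intro d hd
    exact (wle_iff ω g _).1 le_rfl d (MvPolynomial.support_map_subset _ _ hd)
  have h3 : Algebra.trdeg k E + (3 : ℕ) = 3 := by
    rw [hEtd, zero_add]
    norm_num
  exact ⟨uniruled_hyper htd E hE x h3 K₀ hK₀ hal _ h0 h1 ω h2,
    emt_hyper htd E hE x h3 K₀ hK₀ hal _ h0 h1 ω h2⟩

/-- elliptic surfaces over the line -/
theorem emt_weier [IsAlgClosed M] (htd : Algebra.trdeg k M = 2)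
    (E : IntermediateField k M) (hE : E.FG) (hEtd : Algebra.trdeg k E = 0) (x : Fin 3 → M)
    (K₀ : IntermediateField k M) (hK₀ : K₀ = E ⊔ IntermediateField.adjoin k (Set.range x))
    (hal : ∀ y : M, IsAlgebraic K₀ y) (W : WeierstrassCurve k[X]) (N σ : ℕ) (hN : N < σ)
    (hW : WDeg W N σ) (hx : MvPolynomial.aeval x (wpoly W) = 0) : Uniruled k K₀ ∧ Emt K₀ := by
  refine emt_hyper₃ htd E hE hEtd x K₀ hK₀ hal (wpoly W) (wpoly_ne_zero W) hx
    ![2 * N, 3 * N, σ] ?_
  refine lt_of_le_of_lt (wle_wpoly W N σ hW _ rfl rfl rfl) ?_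
  show 6 * N < 2 * N + 3 * N + σ
  omega

end

end Pool.Agent.WLD
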