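import Mathlib

/-!
# Artin-Schreier: `z ∈ K₀` or `X ^ p - X - F` is irreducible
-/

set_option autoImplicit false

namespace Pool.Agent.WLD

open Polynomial

universe u

section

variable {k M : Type u} [Field k] [Field M] [Algebra k M]

/-- the sum of a multiset whose elements differ from `z` by elements of `E` -/
theorem sum_sub_mem (E : IntermediateField k M)
    (z : M) (s : Multiset M) (h : ∀ y ∈ s, y - z ∈ E) : s.sum - (s.card : M) * z ∈ E := by
  induction s using Multiset.induction with
  | empty => simp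
  | cons a s ih =>
    rw [Multiset.sum_cons, Multiset.card_cons, Nat.cast_succ]
    have h1 := ih fun y hy => h y (Multiset.mem_cons_of_mem hy)
    have h2 := h a (Multiset.mem_cons_self a s)
    have h3 : a + s.sum - ((s.card : M) + 1) * z = (s.sum - (s.card : M) * z) + (a - z) := by ring
    rw [h3]
    exact add_mem h1 h2

/-- the solutions of `u ^ p = u` are in the prime field -/
theorem mem_of_pow_eq (p : ℕ) [Fact p.Prime]
    [CharP M p] (E : IntermediateField k M) (u : M) (hu : u ^ p - u = 0) : u ∈ E := by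
  have h1 : (X ^ p - X : (ZMod p)[X]).Splits := GaloisField.splits_zmod_X_pow_sub_X p
  let i : ZMod p →+* M := ZMod.castHom (dvd_refl p) M
  have h2 := h1.roots_map_of_injective (i := i) i.injective
  have hp : 1 < p := (Fact.out : p.Prime).one_lt
  have h3 : u ∈ ((X ^ p - X : (ZMod p)[X]).map i).roots := by
    rw [mem_roots]
    · simp only [Polynomial.map_sub, Polynomial.map_pow, map_X, IsRoot.def, eval_sub, eval_pow,
        eval_X]
      exact hu
    · simp only [Polynomial.map_sub, Polynomial.map_pow, map_X]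
      exact FiniteField.X_pow_card_sub_X_ne_zero M hp
  rw [h2, Multiset.mem_map] at h3
  obtain ⟨c, -, hc⟩ := h3
  rw [← hc]
  have h4 : i c = ((c.val : ℕ) : M) := by
    conv_lhs => rw [← ZMod.natCast_zmod_val c]
    exact map_natCast i _
  rw [h4]
  exact natCast_mem E _

/-- Artin-Schreier: `z ∈ K₀` or `X ^ p - X - F` is irreducible -/
theorem irr_of_notMem (p : ℕ) [Fact p.Prime]
    [CharP k p] (K₀ : IntermediateField k M) (z : M) (hz : z ∉ K₀)
    (zN : aeval z (X ^ p - X : k[X]) ∈ K₀) :
    Irreducible ((X ^ p - X : k[X]).map (algebraMap k K₀) -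
      C (⟨aeval z (X ^ p - X : k[X]), zN⟩ : K₀)) := by
  have hp : 1 < p := (Fact.out : p.Prime).one_lt
  have : CharP M p := charP_of_injective_algebraMap (algebraMap k M).injective p
  have : CharP K₀ p := charP_of_injective_algebraMap (algebraMap k K₀).injective p
  have hzp : z ^ p - z ∈ K₀ := by
    have h := zN
    simp only [map_sub, map_pow, aeval_X] at h
    exact h
  have hF : (⟨aeval z (X ^ p - X : k[X]), zN⟩ : K₀) = ⟨z ^ p - z, hzp⟩ :=
    Subtype.ext (by simp only [map_sub, map_pow, aeval_X])
  rw [hF]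
  simp only [Polynomial.map_sub, Polynomial.map_pow, map_X]
  set F : K₀ := ⟨z ^ p - z, hzp⟩ with hFd
  have hdeg : (X ^ p - X - C F : K₀[X]).natDegree = p := by
    rw [natDegree_sub_C, FiniteField.X_pow_card_sub_X_natDegree_eq K₀ hp]
  have hmon : (X ^ p - X - C F : K₀[X]).Monic := by
    have h1 : (X ^ p - X - C F : K₀[X]) = X ^ p - (X + C F) := by ring
    rw [h1]
    refine monic_X_pow_sub ?_
    refine (degree_add_le _ _).trans_lt ?_
    rw [degree_X]
    refine max_lt (by exact_mod_cast hp) ((degree_C_le).trans_lt (by exact_mod_cast (by omega)))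
  have hroot : aeval z (X ^ p - X - C F : K₀[X]) = 0 := by
    simp only [map_sub, map_pow, aeval_X, aeval_C]
    rw [hFd]
    exact sub_self _
  have hint : IsIntegral K₀ z := ⟨_, hmon, hroot⟩
  have hdvd : minpoly K₀ z ∣ (X ^ p - X - C F : K₀[X]) := minpoly.dvd K₀ z hroot
  have hmm : (minpoly K₀ z).Monic := minpoly.monic hint
  have hpos : 0 < (minpoly K₀ z).natDegree := minpoly.natDegree_pos hint
  have hle : (minpoly K₀ z).natDegree ≤ p := by
    rw [← hdeg]
    exact natDegree_le_of_dvd hdvd hmon.ne_zero
  rcases hle.lt_or_eq with hlt | heq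
  · exfalso
    apply hz
    -- the polynomial splits over `M`
    have hPM : ((X ^ p - X - C F : K₀[X]).map (algebraMap K₀ M)) =
        (X ^ p - X : M[X]).comp (X - C z) := by
      simp only [Polynomial.map_sub, Polynomial.map_pow, map_X, map_C, sub_comp, pow_comp, X_comp]
      rw [sub_pow_char]
      have h1 : algebraMap K₀ M F = z ^ p - z := rfl
      rw [h1, C_sub, C_pow]
      ring
    have hsp : ((X ^ p - X - C F : K₀[X]).map (algebraMap K₀ M)).Splits := by
      rw [hPM]
      refine Splits.comp_X_sub_C ?_ z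
      have h1 : (X ^ p - X : M[X]) =
          (X ^ p - X : (ZMod p)[X]).map (ZMod.castHom (dvd_refl p) M) := by
        simp only [Polynomial.map_sub, Polynomial.map_pow, map_X]
      rw [h1]
      exact (GaloisField.splits_zmod_X_pow_sub_X p).map _
    have hne : ((X ^ p - X - C F : K₀[X]).map (algebraMap K₀ M)) ≠ 0 :=
      (Polynomial.map_ne_zero_iff (algebraMap K₀ M).injective).2 hmon.ne_zero
    have hd : (minpoly K₀ z).map (algebraMap K₀ M) ∣
        (X ^ p - X - C F : K₀[X]).map (algebraMap K₀ M) := Polynomial.map_dvd _ hdvd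
    have hsm : ((minpoly K₀ z).map (algebraMap K₀ M)).Splits := hsp.of_dvd hne hd
    have hmM : ((minpoly K₀ z).map (algebraMap K₀ M)).Monic := hmm.map _
    have hcard := hsm.natDegree_eq_card_roots
    rw [natDegree_map] at hcard
    have hsum := hsm.nextCoeff_eq_neg_sum_roots_of_monic hmM
    rw [nextCoeff_map_eq] at hsum
    have hmem : ((minpoly K₀ z).map (algebraMap K₀ M)).roots.sum ∈ K₀ := by
      have h1 : ((minpoly K₀ z).map (algebraMap K₀ M)).roots.sum =
          -algebraMap K₀ M (minpoly K₀ z).nextCoeff := by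
        rw [hsum, neg_neg]
      rw [h1]
      exact neg_mem (SetLike.coe_mem (minpoly K₀ z).nextCoeff)
    have hdiff := sum_sub_mem K₀ z ((minpoly K₀ z).map (algebraMap K₀ M)).roots (by
      intro y hy
      have hy1 : y ∈ ((X ^ p - X - C F : K₀[X]).map (algebraMap K₀ M)).roots :=
        Multiset.mem_of_le (roots.le_of_dvd hne hd) hy
      rw [hPM, mem_roots (by rw [← hPM]; exact hne)] at hy1
      simp only [IsRoot.def, eval_comp, eval_sub, eval_pow, eval_X, eval_C] at hy1
      exact mem_of_pow_eq p K₀ (y - z) hy1)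
    rw [← hcard] at hdiff
    have h2 : (((minpoly K₀ z).natDegree : ℕ) : M) * z ∈ K₀ := by
      have h3 := sub_mem hmem hdiff
      rwa [sub_sub_cancel] at h3
    have h4 : (((minpoly K₀ z).natDegree : ℕ) : M) ≠ 0 := by
      rw [Ne, CharP.cast_eq_zero_iff M p]
      intro h
      exact absurd (Nat.le_of_dvd hpos h) (not_le.2 hlt)
    have h5 := mul_mem (inv_mem (natCast_mem K₀ (minpoly K₀ z).natDegree)) h2
    rwa [inv_mul_cancel_left₀ h4] at h5
  · have heq' : (minpoly K₀ z) = X ^ p - X - C F := by
      refine (Polynomial.eq_of_monic_of_dvd_of_natDegree_le hmm hmon hdvd ?_).symm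
      rw [hdeg, heq]
    rw [← heq']
    exact minpoly.irreducible hint

end

end Pool.Agent.WLD
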