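import Pool.Agent.NOC.Main
import Pool.Agent.TUQ.F5
import Pool.Agent.TBM.Br

/-!
# Elementary abelian covers

If `z₁, …, z_r` satisfy `z_i ^ p - z_i ∈ E`, `p` the characteristic, then the group `V_ℓ` of
`E(z₁, …, z_r)` embeds in the product of the groups `V_ℓ` of the fields `E(c₁ z₁ + … + c_r z_r)`,
`c ∈ F_p ^ r`.
-/

set_option autoImplicit false

namespace Pool.Agent.WLD

open Pool.Agent.TBR Pool.Agent.TUQ Pool.Agent.NOC

universe u

section

variable {k Ω : Type u} [Field k] [Field Ω] [Algebra k Ω] [IsAlgClosed Ω]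

theorem zpow_sum_fin {G ι : Type*} [CommGroup G] (s : Finset ι) (f : ι → ℤ) (x : G) :
    ∏ i ∈ s, x ^ f i = x ^ ∑ i ∈ s, f i := by
  classical
  induction s using Finset.induction_on with
  | empty => rw [Finset.prod_empty, Finset.sum_empty, zpow_zero]
  | insert a s ha ih => rw [Finset.prod_insert ha, Finset.sum_insert ha, ih, zpow_add]

/-- **Norm relations.** Let the automorphisms which fix `L j` permute the embeddings `ψ i` of `K`
and preserve the weights `w j i`. If an integral combination of the weights is a multiple of the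
delta function at `i₀` and `ψ i₀ = 1`, then `V_ℓ(K)` embeds in the product of the `V_ℓ(L j)`. -/
theorem inj_rel (K : IntermediateField k Ω) {J ι : Type} [Fintype J] [Fintype ι]
    (L : J → IntermediateField k Ω) (hKfg : K.FG) (hLfg : ∀ j, (L j).FG)
    (hK : ∀ x : Ω, IsAlgebraic K x) (hL : ∀ j, ∀ x : Ω, IsAlgebraic (L j) x)
    (ψ : ι → (Ω ≃ₐ[k] Ω)) (w : J → ι → ℤ)
    (hπ : ∀ j, ∀ g ∈ Fx k (L j : Set Ω), ∃ π : Equiv.Perm ι, ∀ i, w j (π i) = w j i ∧
      ∀ x ∈ K, g (ψ i x) = ψ (π i) x)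
    (a : J → ℤ) (i₀ : ι) (hi₀ : ψ i₀ = 1) (d : ℤ) (hd : d ≠ 0)
    (hrel₀ : ∑ j, a j * w j i₀ = d) (hrel : ∀ i, i ≠ i₀ → ∑ j, a j * w j i = 0)
    {ℓ : ℕ} (hℓ : ℓ.Prime) :
    ∃ f : Vl k K Ω ℓ →* (∀ j, Vl k (L j) Ω ℓ), Function.Injective f := by
  classical
  choose m S hm hf using fun j => inv_fam K (L j) hKfg (hLfg j) hK (hL j) ψ (w j) (hπ j)
  choose f hf using fun j => hf j ℓ
  refine ⟨MonoidHom.mk' (fun a j => f j a) fun a b => funext fun j => map_mul (f j) a b,
    (injective_iff_map_eq_one _).2 fun x hx => ?_⟩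
  obtain ⟨c, rfl⟩ := QuotientGroup.mk_surjective x
  obtain ⟨C, hC, hCc⟩ := sysK K hK ℓ c c.2
  have hx' : ∀ j, f j (QuotientGroup.mk c) = 1 := fun j => congrFun hx j
  have e := fun j => hf j c C hC hCc (hx' j)
  obtain ⟨m', hm'⟩ : ∃ m' : ℕ, m' = ∏ j, m j := ⟨_, rfl⟩
  have hm0 : 0 < m' := by
    rw [hm']
    exact Finset.prod_pos fun j _ => hm j
  have hdvd : ∀ j, ∃ q : ℕ, m' = m j * q := fun j => by
    rw [hm']
    exact Finset.dvd_prod_of_mem m (Finset.mem_univ j)
  choose q hq using hdvd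
  refine mk_one_of_tors K hK hℓ (d * (m' : ℤ)) (mul_ne_zero hd (by exact_mod_cast hm0.ne'))
    (Finset.univ.biUnion S) c C hCc fun n => ?_
  have hG : ∀ j, Ge k ((Finset.univ.biUnion S : Finset Ω) : Set Ω) ≤ Ge k (S j : Set Ω) :=
    fun j => Ge_mono (Finset.coe_subset.2 (Finset.subset_biUnion_of_mem S (Finset.mem_univ j)))
  have h1 : Tri (Ge k ((Finset.univ.biUnion S : Finset Ω) : Set Ω)) (fun σ τ =>
      ∏ j, ((∏ i, cj (ψ i) (C n) σ τ ^ w j i) ^ m j) ^ (a j * (q j : ℤ))) :=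
    tri_prod Finset.univ (c := fun j σ τ =>
      ((∏ i, cj (ψ i) (C n) σ τ ^ w j i) ^ m j) ^ (a j * (q j : ℤ)))
      fun j _ => ((e j n).mono (hG j)).zpow _
  refine h1.congr fun σ _ τ _ => ?_
  have h2 : ∀ j, ((∏ i, cj (ψ i) (C n) σ τ ^ w j i) ^ m j) ^ (a j * (q j : ℤ)) =
      ∏ i, cj (ψ i) (C n) σ τ ^ (a j * w j i * (m' : ℤ)) := by
    intro j
    rw [← zpow_natCast, ← zpow_mul, ← Finset.prod_zpow]
    refine Finset.prod_congr rfl fun i _ => ?_
    rw [← zpow_mul, hq j]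
    congr 1
    push_cast
    ring
  rw [Finset.prod_congr rfl fun j _ => h2 j, Finset.prod_comm]
  have h3 : ∀ i, ∏ j, cj (ψ i) (C n) σ τ ^ (a j * w j i * (m' : ℤ)) =
      cj (ψ i) (C n) σ τ ^ ((∑ j, a j * w j i) * (m' : ℤ)) := by
    intro i
    rw [zpow_sum_fin, Finset.sum_mul]
  rw [Finset.prod_congr rfl fun i _ => h3 i,
    Finset.prod_eq_single i₀ (fun i _ hi => by rw [hrel i hi, zero_mul, zpow_zero])
      (fun h => absurd (Finset.mem_univ _) h), hrel₀, hi₀]
  have h4 : cj (1 : Ω ≃ₐ[k] Ω) (C n) σ τ = C n σ τ := by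
    show (1 : Ω ≃ₐ[k] Ω) • C n ((1 : Ω ≃ₐ[k] Ω)⁻¹ * σ * 1) ((1 : Ω ≃ₐ[k] Ω)⁻¹ * τ * 1) = _
    rw [inv_one, one_mul, mul_one, one_mul, mul_one, one_smul]
  rw [h4]

end

/-- the number of linear forms which vanish at a point -/
theorem card_ker {p : ℕ} [Fact p.Prime] {r : ℕ} (v : Fin r → ZMod p) (hv : v ≠ 0) :
    p * (Finset.univ.filter fun c : Fin r → ZMod p => ∑ i, c i * v i = 0).card =
      Fintype.card (Fin r → ZMod p) := by
  classical
  obtain ⟨i₀, hi₀⟩ : ∃ i, v i ≠ 0 := by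
    by_contra h
    push Not at h
    exact hv (funext h)
  have h1 : ∀ t : ZMod p,
      (Finset.univ.filter fun c : Fin r → ZMod p => ∑ i, c i * v i = t).card =
        (Finset.univ.filter fun c : Fin r → ZMod p => ∑ i, c i * v i = 0).card := by
    intro t
    have key : ∀ (c : Fin r → ZMod p) (s : ZMod p),
        ∑ i, (c + (Pi.single i₀ (s * (v i₀)⁻¹) : Fin r → ZMod p)) i * v i = ∑ i, c i * v i + s := by
      intro c s
      have h2 : ∀ i, (c + (Pi.single i₀ (s * (v i₀)⁻¹) : Fin r → ZMod p)) i * v i =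
          c i * v i + (Pi.single i₀ s : Fin r → ZMod p) i := by
        intro i
        rw [Pi.add_apply, add_mul]
        congr 1
        by_cases hi : i = i₀
        · subst hi
          rw [Pi.single_eq_same, Pi.single_eq_same, mul_assoc, inv_mul_cancel₀ hi₀, mul_one]
        · rw [Pi.single_eq_of_ne hi, Pi.single_eq_of_ne hi, zero_mul]
      rw [Finset.sum_congr rfl fun i _ => h2 i, Finset.sum_add_distrib,
        Finset.sum_pi_single' i₀ s Finset.univ, if_pos (Finset.mem_univ _)]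
    refine Finset.card_bij' (fun c _ => c + Pi.single i₀ (-t * (v i₀)⁻¹))
      (fun c _ => c + Pi.single i₀ (t * (v i₀)⁻¹)) ?_ ?_ ?_ ?_
    · intro c hc
      rw [Finset.mem_filter] at hc ⊢
      exact ⟨Finset.mem_univ _, by rw [key, hc.2, add_neg_cancel]⟩
    · intro c hc
      rw [Finset.mem_filter] at hc ⊢
      exact ⟨Finset.mem_univ _, by rw [key, hc.2, zero_add]⟩
    · intro c _
      rw [add_assoc, ← Pi.single_add, neg_mul, neg_add_cancel, Pi.single_zero, add_zero]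
    · intro c _
      rw [add_assoc, ← Pi.single_add, neg_mul, add_neg_cancel, Pi.single_zero, add_zero]
  have h2 := Finset.card_eq_sum_card_fiberwise (s := (Finset.univ : Finset (Fin r → ZMod p)))
    (t := (Finset.univ : Finset (ZMod p))) (f := fun c => ∑ i, c i * v i)
    (fun _ _ => Finset.mem_coe.2 (Finset.mem_univ _))
  rw [Finset.sum_congr rfl fun t _ => h1 t, Finset.sum_const, Finset.card_univ, Finset.card_univ,
    ZMod.card, smul_eq_mul] at h2
  exact h2.symm

section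

variable {k Ω : Type u} [Field k] [Field Ω] [Algebra k Ω] [IsAlgClosed Ω]

omit [IsAlgClosed Ω] [Algebra k Ω] in
/-- the roots of `X ^ p - X` -/
theorem exists_zmod (p : ℕ) [Fact p.Prime] [CharP Ω p] (x : Ω) (hx : x ^ p = x) :
    ∃ v : ZMod p, x = ((v.val : ℕ) : Ω) := by
  classical
  have hp : p.Prime := Fact.out
  obtain ⟨ρ, hρ⟩ : ∃ ρ : ZMod p →+* Ω, ρ = ZMod.castHom (dvd_refl p) Ω := ⟨_, rfl⟩
  have hval : ∀ v : ZMod p, ρ v = ((v.val : ℕ) : Ω) := by
    intro v
    conv_lhs => rw [← ZMod.natCast_zmod_val v]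
    exact map_natCast ρ _
  let P : Polynomial Ω := Polynomial.X ^ p - Polynomial.X
  have hP0 : P ≠ 0 := FiniteField.X_pow_card_sub_X_ne_zero Ω hp.one_lt
  have hdeg : P.natDegree = p := FiniteField.X_pow_card_sub_X_natDegree_eq Ω hp.one_lt
  have hsub : (Finset.univ.image ρ) ⊆ P.roots.toFinset := by
    intro y hy
    obtain ⟨v, -, rfl⟩ := Finset.mem_image.1 hy
    rw [Multiset.mem_toFinset, Polynomial.mem_roots hP0, Polynomial.IsRoot.def]
    show Polynomial.eval _ (Polynomial.X ^ p - Polynomial.X) = 0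
    rw [Polynomial.eval_sub, Polynomial.eval_pow, Polynomial.eval_X, ← map_pow, ZMod.pow_card,
      sub_self]
  have hcard : P.roots.toFinset.card ≤ (Finset.univ.image ρ).card := by
    rw [Finset.card_image_of_injective _ ρ.injective, Finset.card_univ, ZMod.card]
    calc P.roots.toFinset.card ≤ Multiset.card P.roots := Multiset.toFinset_card_le _
      _ ≤ P.natDegree := Polynomial.card_roots' P
      _ = p := hdeg
  have heq := Finset.eq_of_subset_of_card_le hsub hcard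
  have hx' : x ∈ P.roots.toFinset := by
    rw [Multiset.mem_toFinset, Polynomial.mem_roots hP0, Polynomial.IsRoot.def]
    show Polynomial.eval _ (Polynomial.X ^ p - Polynomial.X) = 0
    rw [Polynomial.eval_sub, Polynomial.eval_pow, Polynomial.eval_X, hx, sub_self]
  rw [← heq] at hx'
  obtain ⟨v, -, rfl⟩ := Finset.mem_image.1 hx'
  exact ⟨v, hval v⟩

/-- `E(z₁, …, z_r)` -/
abbrev KS (E : IntermediateField k Ω) {ι : Type*} (z : ι → Ω) : IntermediateField k Ω :=
  E ⊔ IntermediateField.adjoin k (Set.range z)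

/-- `c₁ z₁ + … + c_r z_r` -/
def lin {p r : ℕ} (z : Fin r → Ω) (c : Fin r → ZMod p) : Ω := ∑ i, ((c i).val : Ω) * z i

omit [IsAlgClosed Ω] in
theorem KS_fg {E : IntermediateField k Ω} (hE : E.FG) {ι : Type*} [Finite ι] (z : ι → Ω) :
    (KS E z).FG :=
  IntermediateField.fg_sup hE ⟨(Set.finite_range z).toFinset, by
    rw [Set.Finite.coe_toFinset]⟩

/-- **Elementary abelian extensions.** -/
theorem ea_inj (E : IntermediateField k Ω) (hEfg : E.FG) (hE : ∀ x : Ω, IsAlgebraic E x)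
    (p : ℕ) [Fact p.Prime] [CharP Ω p] {r : ℕ} (z : Fin r → Ω) (hz : ∀ i, z i ^ p - z i ∈ E)
    {ℓ : ℕ} (hℓ : ℓ.Prime) :
    ∃ f : Vl k (KS E z) Ω ℓ →* (∀ c : Fin r → ZMod p,
      Vl k (E ⊔ IntermediateField.adjoin k {lin z c} : IntermediateField k Ω) Ω ℓ),
      Function.Injective f := by
  classical
  have hp : p.Prime := Fact.out
  have halg : ∀ F : IntermediateField k Ω, ∀ x : Ω,
      IsAlgebraic (E ⊔ F : IntermediateField k Ω) x := fun F x =>
    alg_mono (le_sup_left : E ≤ E ⊔ F) (hE x)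
  -- the ring homomorphism
  obtain ⟨ρ, hρ⟩ : ∃ ρ : ZMod p →+* Ω, ρ = ZMod.castHom (dvd_refl p) Ω := ⟨_, rfl⟩
  have hval : ∀ v : ZMod p, ρ v = ((v.val : ℕ) : Ω) := by
    intro v
    conv_lhs => rw [← ZMod.natCast_zmod_val v]
    exact map_natCast ρ _
  have hg_nat : ∀ (g : Ω ≃ₐ[k] Ω) (v : ZMod p), g (ρ v) = ρ v := by
    intro g v
    rw [hval, map_natCast]
  have hlin : ∀ c : Fin r → ZMod p, lin z c = ∑ i, ρ (c i) * z i := by
    intro c
    rw [lin]
    exact Finset.sum_congr rfl fun i _ => by rw [hval]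
  -- the automorphisms act by translations
  have htr : ∀ g ∈ Fx k (E : Set Ω), ∃ w : Fin r → ZMod p, ∀ i, g (z i) = z i + ρ (w i) := by
    intro g hg
    have h1 : ∀ i, ∃ v : ZMod p, g (z i) - z i = ((v.val : ℕ) : Ω) := by
      intro i
      apply exists_zmod p
      have h2 : g (z i ^ p - z i) = z i ^ p - z i := hg _ (hz i)
      rw [map_sub, map_pow] at h2
      have h3 : (g (z i) - z i) ^ p = g (z i) ^ p - z i ^ p := sub_pow_char _ _
      rw [h3]
      linear_combination h2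
    choose w hw using h1
    exact ⟨w, fun i => by rw [hval, ← hw i]; ring⟩
  let P : (Fin r → ZMod p) → Prop := fun v =>
    ∃ g ∈ Fx k (E : Set Ω), ∀ i, g (z i) = z i + ρ (v i)
  have hP0 : P 0 := ⟨1, (Fx k (E : Set Ω)).one_mem, fun i => by
    show z i = z i + ρ 0
    rw [map_zero, add_zero]⟩
  have hψ : ∀ v : {v // P v}, ∃ g : Ω ≃ₐ[k] Ω, (g ∈ Fx k (E : Set Ω) ∧
      ∀ i, g (z i) = z i + ρ (v.1 i)) ∧ (v = ⟨0, hP0⟩ → g = 1) := by
    intro v
    by_cases h : v = ⟨0, hP0⟩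
    · refine ⟨1, ⟨(Fx k (E : Set Ω)).one_mem, fun i => ?_⟩, fun _ => rfl⟩
      rw [h]
      show z i = z i + ρ 0
      rw [map_zero, add_zero]
    · obtain ⟨g, h1, h2⟩ := v.2
      exact ⟨g, ⟨h1, h2⟩, fun h' => absurd h' h⟩
  choose ψ hψ using hψ
  have hcard := Fintype.card (Fin r → ZMod p)
  let n0 : ℤ := (Fintype.card (Fin r → ZMod p) : ℤ)
  have hn0 : n0 ≠ 0 := by
    show (Fintype.card (Fin r → ZMod p) : ℤ) ≠ 0
    exact_mod_cast Fintype.card_ne_zero
  let w : (Fin r → ZMod p) → {v // P v} → ℤ := fun c v => if ∑ i, c i * v.1 i = 0 then 1 else 0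
  let a : (Fin r → ZMod p) → ℤ := fun c => (p : ℤ) - (if c = 0 then n0 else 0)
  have hsum : ∀ v : {v // P v}, ∑ c, a c * w c v =
      (p : ℤ) * (Finset.univ.filter fun c : Fin r → ZMod p => ∑ i, c i * v.1 i = 0).card - n0 := by
    intro v
    have h1 : ∀ c, a c * w c v = (p : ℤ) * (if ∑ i, c i * v.1 i = 0 then 1 else 0) -
        (if c = 0 then n0 else 0) := by
      intro c
      show ((p : ℤ) - (if c = 0 then n0 else 0)) * (if ∑ i, c i * v.1 i = 0 then 1 else 0) = _
      by_cases hc : c = 0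
      · subst hc
        simp
      · rw [if_neg hc, sub_zero, sub_zero]
    rw [Finset.sum_congr rfl fun c _ => h1 c, Finset.sum_sub_distrib, ← Finset.mul_sum,
      Finset.sum_boole, Finset.sum_ite_eq' Finset.univ (0 : Fin r → ZMod p) (fun _ => n0),
      if_pos (Finset.mem_univ _)]
  refine inj_rel (KS E z)
    (fun c : Fin r → ZMod p => E ⊔ IntermediateField.adjoin k {lin z c})
    (KS_fg hEfg z) (fun c => IntermediateField.fg_sup hEfg ⟨{lin z c}, by
      rw [Finset.coe_singleton]⟩) (halg _) (fun c => halg _) ψ w ?_ a ⟨0, hP0⟩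
    ((hψ _).2 rfl) (((p : ℤ) - 1) * n0) (mul_ne_zero ?_ hn0) ?_ ?_ hℓ
  · -- the permutations
    intro c g hg
    have hgE : g ∈ Fx k (E : Set Ω) := fun x hx =>
      hg x ((le_sup_left : E ≤ E ⊔ IntermediateField.adjoin k {lin z c}) hx)
    obtain ⟨t, ht⟩ := htr g hgE
    have hct : ∑ i, c i * t i = 0 := by
      have h1 : g (lin z c) = lin z c := hg _
        ((le_sup_right : IntermediateField.adjoin k {lin z c} ≤ _)
          (IntermediateField.subset_adjoin k _ rfl))
      rw [hlin, map_sum] at h1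
      have h2 : ∀ i, g (ρ (c i) * z i) = ρ (c i) * z i + ρ (c i * t i) := by
        intro i
        rw [map_mul, hg_nat, ht i, mul_add, map_mul]
      rw [Finset.sum_congr rfl fun i _ => h2 i, Finset.sum_add_distrib, ← map_sum] at h1
      have h3 : ρ (∑ i, c i * t i) = 0 := by
        linear_combination h1
      exact (map_eq_zero ρ).1 h3
    have hPt : ∀ v : {v // P v}, P (v.1 + t) := by
      intro v
      refine ⟨g * ψ v, (Fx k (E : Set Ω)).mul_mem hgE (hψ v).1.1, fun i => ?_⟩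
      show g (ψ v (z i)) = _
      rw [(hψ v).1.2 i, map_add, hg_nat, ht i, Pi.add_apply, map_add]
      ring
    have hinj : Function.Injective (fun v : {v // P v} => (⟨v.1 + t, hPt v⟩ : {v // P v})) := by
      intro v v' h
      exact Subtype.ext (add_right_cancel (congrArg Subtype.val h))
    refine ⟨Equiv.ofBijective _ (Finite.injective_iff_bijective.1 hinj), fun v => ⟨?_, ?_⟩⟩
    · show (if ∑ i, c i * (v.1 + t) i = 0 then (1 : ℤ) else 0) =
        if ∑ i, c i * v.1 i = 0 then 1 else 0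
      have h1 : ∑ i, c i * (v.1 + t) i = ∑ i, c i * v.1 i := by
        have h2 : ∀ i, c i * (v.1 + t) i = c i * v.1 i + c i * t i := fun i => by
          rw [Pi.add_apply, mul_add]
        rw [Finset.sum_congr rfl fun i _ => h2 i, Finset.sum_add_distrib, hct, add_zero]
      rw [h1]
    · intro x hx
      have hadj : KS E z = IntermediateField.adjoin k ((E : Set Ω) ∪ Set.range z) := by
        rw [IntermediateField.adjoin_union, IntermediateField.adjoin_self]
      rw [hadj] at hx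
      refine agree_adjoin (ψ v) (ψ ⟨v.1 + t, hPt v⟩) g ((E : Set Ω) ∪ Set.range z) ?_ x hx
      rintro y (hy | ⟨i, rfl⟩)
      · rw [(hψ v).1.1 y hy, (hψ ⟨v.1 + t, hPt v⟩).1.1 y hy]
        exact hgE y hy
      · rw [(hψ v).1.2 i, (hψ ⟨v.1 + t, hPt v⟩).1.2 i, map_add, hg_nat, ht i]
        show z i + ρ (t i) + ρ (v.1 i) = z i + ρ (v.1 i + t i)
        rw [map_add]
        ring
  · have h1 : (1 : ℤ) < p := by exact_mod_cast hp.one_lt
    omega
  · rw [hsum]
    have h1 : (Finset.univ.filter fun c : Fin r → ZMod p =>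
        ∑ i, c i * (⟨0, hP0⟩ : {v // P v}).1 i = 0) = Finset.univ := by
      refine Finset.filter_true_of_mem fun c _ => ?_
      show ∑ i, c i * (0 : ZMod p) = 0
      simp
    rw [h1, Finset.card_univ]
    ring
  · intro v hv
    rw [hsum]
    have h1 : v.1 ≠ 0 := fun h => hv (Subtype.ext h)
    have h2 := card_ker v.1 h1
    have h3 : (p : ℤ) * (Finset.univ.filter fun c : Fin r → ZMod p =>
        ∑ i, c i * v.1 i = 0).card = n0 := by
      show _ = (Fintype.card (Fin r → ZMod p) : ℤ)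
      rw [← h2]
      push_cast
      rfl
    rw [h3, sub_self]

end

section

variable {k M : Type} [Field k] [Field M] [Algebra k M] [IsAlgClosed M]

/-- `V_ℓ = 0` in terms of `T1` -/
theorem vl_trivial (L : IntermediateField k M) (hL : ∀ x : M, IsAlgebraic L x) {ℓ : ℕ}
    (h : T1B.T1 k L ℓ) (a : Vl k L M ℓ) : a = 1 := by
  have halg : Algebra.IsAlgebraic L M := ⟨hL⟩
  rw [t1_iff k L M ℓ] at h
  obtain ⟨c, rfl⟩ := QuotientGroup.mk_surjective a
  exact (QuotientGroup.eq_one_iff _).2 fun n => h _ c.2 n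

/-- if `V_ℓ(K)` embeds in a product of groups which are zero, it is zero -/
theorem t1_of_inj (K : IntermediateField k M) (hK : ∀ x : M, IsAlgebraic K x) {ℓ : ℕ}
    {J : Type} (L : J → IntermediateField k M) (hL : ∀ j, ∀ x : M, IsAlgebraic (L j) x)
    (h : ∀ j, T1B.T1 k (L j) ℓ)
    (hf : ∃ f : Vl k K M ℓ →* (∀ j, Vl k (L j) M ℓ), Function.Injective f) : T1B.T1 k K ℓ := by
  have halg : Algebra.IsAlgebraic K M := ⟨hK⟩
  rw [t1_iff k K M ℓ]
  obtain ⟨f, hf⟩ := hf
  intro c hc n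
  have h1 : (QuotientGroup.mk (⟨c, hc⟩ : sysG k K M ℓ) : Vl k K M ℓ) = 1 :=
    hf (by rw [map_one]; exact funext fun j => vl_trivial (L j) (hL j) (h j) _)
  exact (QuotientGroup.eq_one_iff _).1 h1 n

/-- **Elementary abelian extensions**, `T1`. -/
theorem t1_ea (E : IntermediateField k M) (hEfg : E.FG) (hE : ∀ x : M, IsAlgebraic E x)
    (p : ℕ) [Fact p.Prime] [CharP M p] {r : ℕ} (z : Fin r → M) (hz : ∀ i, z i ^ p - z i ∈ E)
    {ℓ : ℕ} (hℓ : ℓ.Prime) (h : ∀ c : Fin r → ZMod p,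
      T1B.T1 k (E ⊔ IntermediateField.adjoin k {lin z c} : IntermediateField k M) ℓ) :
    T1B.T1 k (KS E z) ℓ := by
  have halg : ∀ F : IntermediateField k M, ∀ x : M,
      IsAlgebraic (E ⊔ F : IntermediateField k M) x := fun F x =>
    alg_mono (le_sup_left : E ≤ E ⊔ F) (hE x)
  exact t1_of_inj (KS E z) (halg _) _ (fun c => halg _) h (ea_inj E hEfg hE p z hz hℓ)

/-- the form with an additive group of solutions -/
theorem t1_span (p : ℕ) [Fact p.Prime] [CharP k p] (K₀ : IntermediateField k M) (hfg : K₀.FG)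
    (hal : ∀ x : M, IsAlgebraic K₀ x) (ℓ : ℕ) (hℓ : ℓ.Prime) (_hk : (ℓ : k) ≠ 0)
    (W : AddSubgroup M) (hW : ∀ z ∈ W, z ^ p - z ∈ K₀)
    (h1 : ∀ z ∈ W, T1B.T1 k (K₀ ⊔ IntermediateField.adjoin k {z} : IntermediateField k M) ℓ) :
    ∀ S : Finset M, (S : Set M) ⊆ W →
      T1B.T1 k (K₀ ⊔ IntermediateField.adjoin k (S : Set M) : IntermediateField k M) ℓ := by
  intro S hS
  have hMp : CharP M p := charP_of_injective_algebraMap (algebraMap k M).injective p
  obtain ⟨r, z, hr⟩ : ∃ (r : ℕ) (z : Fin r → M), Set.range z = (S : Set M) :=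
    ⟨S.card, fun i => (S.equivFin.symm i : M), by
      ext x
      constructor
      · rintro ⟨i, rfl⟩
        exact (S.equivFin.symm i).2
      · intro hx
        exact ⟨S.equivFin ⟨x, hx⟩, by simp⟩⟩
  have hz : ∀ i, z i ∈ W := fun i => hS (by rw [← hr]; exact ⟨i, rfl⟩)
  have h2 := t1_ea K₀ hfg hal p z (fun i => hW _ (hz i)) hℓ (fun c => h1 _ (by
    refine AddSubgroup.sum_mem _ fun i _ => ?_
    rw [← nsmul_eq_mul]
    exact AddSubgroup.nsmul_mem _ (hz i) _))
  rw [KS, hr] at h2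
  exact h2

end

end Pool.Agent.WLD
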