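import Pool.Agent.WLD.Defs

set_option maxSynthPendingDepth 3

/-!
# The combination of the reciprocity relation and the local statements
-/

set_option autoImplicit false

namespace Pool.Agent.WLD

open Polynomial Pool.Agent.TBR Pool.Agent.TUQ

universe u

/-- the reciprocity relation and the local statements give the theorem -/
theorem combineG {k Ω : Type u} [Field k] [Field Ω] [Algebra k Ω] [hΩ : IsAlgClosed Ω]
    (hR : BlockR k Ω) (A : IntermediateField k Ω) [hA : IsAlgClosed A]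
    (hI : InvSt k A) (Gd : IntermediateField k A → Prop) (hGd : ∀ L, Gd L → L.FG)
    (K : IntermediateField k A) (hfg : K.FG) (hKal : ∀ x : A, IsAlgebraic K x)
    (trA : ∀ x : Ω, x ∉ A → ∀ y : Ω, IsAlgebraic (AA A {x}) y)
    (htd : Algebra.trdeg k A < Cardinal.aleph0) (hex : ∃ a : Ω, a ∉ A) (hG : GSt A Gd K) :
    ∃ (n : ℕ) (L : Fin n → IntermediateField k A),
      (∀ j, Gd (L j) ∧ ∀ x : A, IsAlgebraic (L j) x) ∧
      ∀ ℓ : ℕ, ℓ.Prime → (ℓ : k) ≠ 0 →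
        ∃ f : Vl k K A ℓ →* (∀ j, Vl k (L j) A ℓ), Function.Injective f := by
  classical
  obtain ⟨a, haA⟩ := hex
  obtain ⟨m, ξ, h, h0, hloc, V₀, r₀, hV₀, ⟨i₀, hi₀, hi₀'⟩, hV₀t⟩ := hG
  obtain ⟨G, hGK⟩ := hfg
  obtain ⟨p, hp⟩ := ExpChar.exists k
  let T : Finset Ω := (Finset.univ.image h) ∪ (Finset.univ.image fun i => (h i)⁻¹) ∪
    Finset.univ.biUnion fun i => G.image fun g => ξ i g
  obtain ⟨n, V, r, e, S, hPl, he1, he2, he3, hcov, hrel⟩ :=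
    hR hΩ A hA trA K ⟨G, hGK⟩ hKal htd m ξ h h0 T ⟨a, haA⟩ p hp
  have hψ : ∀ j i, ∃ ψ, (∀ x, ξ i x ∈ V j) → ResE A (V j) (r j) (ξ i) ψ := by
    intro j i
    by_cases hi : ∀ x, ξ i x ∈ V j
    · obtain ⟨ψ, hψ⟩ := exists_resE_F A htd (V j) (r j) (hPl j) (ξ i) hi
      exact ⟨ψ, fun _ => hψ⟩
    · exact ⟨1, fun h' => absurd h' hi⟩
  choose ψ hψ using hψ
  let t0 : Fin n → Prop := fun j => Type0 A K ξ h (V j) (r j)
  let P : Fin n → Fin m → Prop := fun j i => (∀ x, ξ i x ∈ V j) ∧ (V j).valuation (h i) ≠ 1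
  -- the places which are not of type 0
  have hL : ∀ j, ∃ L : IntermediateField k A, ¬ t0 j →
      Gd L ∧ (∀ x : A, IsAlgebraic L x) ∧
      ∀ g ∈ Fx k (L : Set A), ∃ π : Equiv.Perm {i : Fin m // P j i},
        ∀ i, e j (π i) = e j i ∧ ∀ x ∈ K, g (ψ j i x) = ψ j (π i) x := by
    intro j
    by_cases ht : t0 j
    · exact ⟨⊥, fun h' => absurd ht h'⟩
    rcases hloc (V j) (r j) (hPl j) with h1 | ⟨L, h1, h2, h3⟩
    · exact absurd h1 ht
    · refine ⟨L, fun _ => ⟨h1, h2, fun g hg => ?_⟩⟩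
      obtain ⟨π, hπ⟩ := h3 g hg
      refine ⟨π, fun i => ⟨he3 j _ _ (hπ i).1, fun x hx => ?_⟩⟩
      exact (hπ i).2 _ _ (hψ j i i.2.1) (hψ j (π i) (π i).2.1) x hx
  choose L hL using hL
  have hinv : ∀ j, ∃ (μ : ℕ) (Sj : Finset A), ¬ t0 j → 0 < μ ∧ ∀ ℓ : ℕ,
      ∃ f : Vl k K A ℓ →* Vl k (L j) A ℓ,
      ∀ (c : sysG k K A ℓ) (C : ℕ → (A ≃ₐ[k] A) → (A ≃ₐ[k] A) → Aˣ), SysU (K : Set A) ℓ C →
        (∀ n σ τ, C n (rsh K σ) (rsh K τ) =
          (c : ℕ → (A ≃ₐ[K] A) → (A ≃ₐ[K] A) → Aˣ) n σ τ) →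
        f (QuotientGroup.mk c) = 1 →
          ∀ n, Tri (Ge k (Sj : Set A)) (fun σ τ =>
            (∏ i : {i : Fin m // P j i}, tw (ψ j i) (C n) σ τ ^ e j i) ^ μ) := by
    intro j
    by_cases ht : t0 j
    · exact ⟨0, ∅, fun h' => absurd ht h'⟩
    obtain ⟨h1, h2, h3⟩ := hL j ht
    obtain ⟨μ, Sj, h4, h5⟩ := hI hA K (L j) ⟨G, hGK⟩ (hGd _ h1) hKal h2
      {i : Fin m // P j i} inferInstance (fun i => ψ j i) (fun i => e j i) h3
    exact ⟨μ, Sj, fun _ => ⟨h4, h5⟩⟩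
  choose μ Sj hinv using hinv
  -- positivity
  have hpos : 0 < ∑ j, if t0 j then ∑ i, (if P j i then e j i else 0) else 0 := by
    have h1 : ∀ j i, t0 j → P j i → 0 < e j i := fun j i hj hi =>
      (he1 j i).2 (hj i hi.1 hi.2).1
    obtain ⟨j, hj⟩ := hcov V₀ r₀ hV₀ ⟨i₀, hi₀'.ne⟩
    have hmem1 : ∀ i, h i ∈ T := fun i => by
      simp only [T, Finset.mem_union, Finset.mem_image]
      exact Or.inl (Or.inl ⟨i, Finset.mem_univ i, rfl⟩)
    have hmem2 : ∀ i, (h i)⁻¹ ∈ T := fun i => by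
      simp only [T, Finset.mem_union, Finset.mem_image]
      exact Or.inl (Or.inr ⟨i, Finset.mem_univ i, rfl⟩)
    have hmem3 : ∀ i, ∀ g ∈ G, ξ i g ∈ T := fun i g hg => by
      simp only [T, Finset.mem_union, Finset.mem_biUnion, Finset.mem_image]
      exact Or.inr ⟨i, Finset.mem_univ i, g, hg, rfl⟩
    obtain ⟨h2, h3⟩ := Type0.transfer A K ξ h h0 htd V₀ r₀ hV₀ (V j) (r j) (hPl j) G hGK hKal
      (fun i => ⟨(hj _ (hmem1 i)).1, (hj _ (hmem2 i)).1⟩)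
      (fun i g hg => hj _ (hmem3 i g hg)) hV₀t
    obtain ⟨h4, h5⟩ := h3 i₀ hi₀ hi₀'
    refine Finset.sum_pos' (fun j' _ => ?_) ⟨j, Finset.mem_univ j, ?_⟩
    · split_ifs with hj'
      · refine Finset.sum_nonneg fun i _ => ?_
        split_ifs with hi
        · exact (h1 j' i hj' hi).le
        · exact le_rfl
      · exact le_rfl
    · rw [if_pos (show t0 j from h2)]
      refine Finset.sum_pos' (fun i _ => ?_) ⟨i₀, Finset.mem_univ i₀, ?_⟩
      · split_ifs with hi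
        · exact (h1 j i h2 hi).le
        · exact le_rfl
      · rw [if_pos (show P j i₀ from ⟨h4, h5.ne⟩)]
        exact h1 j i₀ h2 ⟨h4, h5.ne⟩
  -- the list of fields
  let J := {j : Fin n // ¬ t0 j}
  let ε : J ≃ Fin (Fintype.card J) := Fintype.equivFin J
  refine ⟨Fintype.card J, fun j => L (ε.symm j), fun j => ?_, fun ℓ hℓ hℓk => ?_⟩
  · obtain ⟨h1, h2, -⟩ := hL _ (ε.symm j).2
    exact ⟨h1, h2⟩
  have hf : ∀ j : J, ∃ f : Vl k K A ℓ →* Vl k (L j) A ℓ,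
      ∀ (c : sysG k K A ℓ) (C : ℕ → (A ≃ₐ[k] A) → (A ≃ₐ[k] A) → Aˣ), SysU (K : Set A) ℓ C →
        (∀ n σ τ, C n (rsh K σ) (rsh K τ) =
          (c : ℕ → (A ≃ₐ[K] A) → (A ≃ₐ[K] A) → Aˣ) n σ τ) →
        f (QuotientGroup.mk c) = 1 →
          ∀ n, Tri (Ge k (Sj j : Set A)) (fun σ τ =>
            (∏ i : {i : Fin m // P j i}, tw (ψ j i) (C n) σ τ ^ e j i) ^ μ j) :=
    fun j => (hinv j j.2).2 ℓ
  choose f hf using hf
  refine pi_inj_aux (V := Vl k K A ℓ) (W := fun j : J => Vl k (L j) A ℓ) f ε fun x hfx => ?_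
  obtain ⟨c, rfl⟩ := QuotientGroup.mk_surjective x
  have hfc : ∀ j : J, f j (QuotientGroup.mk c) = 1 := hfx
  obtain ⟨C, hC, hCc⟩ := sysK K hKal ℓ _ c.2
  -- the set
  let S' : Finset A := S ∪ G ∪ Finset.univ.biUnion Sj
  have hS'K : K ≤ IntermediateField.adjoin k (S' : Set A) := by
    rw [← hGK]
    refine IntermediateField.adjoin.mono k _ _ ?_
    intro x hx
    simp only [S', Finset.coe_union]
    exact Or.inl (Or.inr hx)
  have hGeK : Ge k (S' : Set A) ≤ Ge k (K : Set A) := by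
    have h1 : Ge k (K : Set A) = Ge k (G : Set A) := by rw [← hGK, Ge_adjoin]
    rw [h1]
    refine Ge_mono fun x hx => ?_
    simp only [S', Finset.coe_union]
    exact Or.inl (Or.inr hx)
  have hGeS : Ge k (S' : Set A) ≤ Ge k (S : Set A) := by
    refine Ge_mono fun x hx => ?_
    simp only [S', Finset.coe_union]
    exact Or.inl (Or.inl hx)
  have hGeSj : ∀ j, Ge k (S' : Set A) ≤ Ge k (Sj j : Set A) := by
    intro j
    refine Ge_mono fun x hx => ?_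
    simp only [S', Finset.coe_union, Finset.coe_biUnion]
    exact Or.inr (Set.mem_biUnion (Finset.mem_coe.2 (Finset.mem_univ j)) hx)
  obtain ⟨n₀, hn₀⟩ : ∃ n₀ : ℤ, n₀ = (∑ j, if t0 j then ∑ i, (if P j i then e j i else 0) else 0) *
        ∏ j, (if t0 j then 1 else (μ j : ℤ)) := ⟨_, rfl⟩
  have hn₀0 : n₀ ≠ 0 := by
    rw [hn₀]
    refine mul_ne_zero hpos.ne' (Finset.prod_ne_zero_iff.2 fun j _ => ?_)
    split_ifs with hj
    · exact one_ne_zero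
    · exact_mod_cast ((hinv j hj).1).ne'
  have hfin := fin_step K hKal ℓ hℓ hℓk p _ c.2 C hCc S' hS'K n₀ hn₀0 (fun l => by
    obtain ⟨s, hs⟩ := hrel (C l) (unC_of_sysU hC l) ψ hψ
    refine ⟨s, ?_⟩
    rw [hn₀]
    refine comb_alg (K : Set A) S' (C l) (hC.lc l) (fun g hg => hC.inv l g hg) hGeK P ψ e _
      ((hs.mono hGeS).congr fun σ _ τ _ => ?_) t0 (fun j hj i hi => ?_) μ (fun j hj => ?_)
    · rfl
    · exact (hj i hi.1 hi.2).2 _ (hψ j i hi.1)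
    · exact (hf ⟨j, hj⟩ c C hC hCc (hfc ⟨j, hj⟩) l).mono (hGeSj j))
  refine (QuotientGroup.eq_one_iff c).2 ?_
  rw [Subgroup.mem_subgroupOf]
  exact hfin

end Pool.Agent.WLD
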