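import Pool.Agent.WLD.F3
import Pool.Agent.WLD.F6
import Pool.Agent.TUQ.F9

set_option maxSynthPendingDepth 3

/-!
# The assembly of the theorem
-/

set_option autoImplicit false

namespace Pool.Agent.WLD

open Polynomial Pool.Agent.TBR Pool.Agent.TUQ Pool.Agent.UQ

universe u

theorem GoodW.fg {M : Type u} [Field M] {k : Type u} [Field k] [Algebra k M]
    {K₀ : IntermediateField k M} (hK₀ : K₀.FG) (L : IntermediateField k M)
    (h : GoodW K₀ L) : L.FG := by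
  rcases h with ⟨K₁, K₂, h1, h2, -, -, rfl⟩ | rfl
  · exact IntermediateField.fg_sup h1 h2
  · exact hK₀

theorem GoodW.congr {k M M' : Type u} [Field k] [Field M] [Field M'] [Algebra k M] [Algebra k M']
    (e : M ≃ₐ[k] M') {K₀ : IntermediateField k M} {L : IntermediateField k M'}
    (h : GoodW (K₀.map (e : M →ₐ[k] M')) L) : GoodW K₀ (L.map (e.symm : M' →ₐ[k] M)) := by
  rcases h with ⟨K₁, K₂, h1, h2, h3, h4, rfl⟩ | rfl
  · left
    exact ⟨K₁.map _, K₂.map _, map_fg _ _ h1, map_fg _ _ h2, (map_trdeg _ K₁).le.trans h3,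
      (map_trdeg _ K₂).le.trans h4, IntermediateField.map_sup _ _ _⟩
  · right
    rw [map_map_symm]

/-- the theorem, given the blocks -/
theorem finalW {k M : Type u} [Field k] [Field M] [Algebra k M] [IsAlgClosed M]
    (hR : ∀ (Ω : Type u) [Field Ω] [Algebra k Ω], BlockR k Ω)
    (hG : ∀ (Ω : Type u) [Field Ω] [Algebra k Ω], BlockGW k Ω)
    (hI : ∀ (A : Type u) [Field A] [Algebra k A], InvSt k A)
    (K₀ : IntermediateField k M) (hfg : K₀.FG) (htd : Algebra.trdeg k M = 2)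
    (hal : ∀ x : M, IsAlgebraic K₀ x) (φ : k[X]) (e₀ : ℕ) (had : Ad φ e₀)
    (z : M) (zN : aeval z φ ∈ K₀)
    (irr : Irreducible (φ.map (algebraMap k K₀) - C (⟨aeval z φ, zN⟩ : K₀)))
    (L : Type u) [Field L] [Algebra k L] [Algebra K₀ L] [IsScalarTower k K₀ L] (a w : L)
    (ha : Transcendental K₀ a)
    (hw : aeval w φ + a ^ e₀ = algebraMap K₀ L ⟨aeval z φ, zN⟩)
    (hgen : IntermediateField.adjoin K₀ {a, w} = ⊤) (hL : Uniruled k L) :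
    ∃ (n : ℕ) (L' : Fin n → IntermediateField k M),
      (∀ j, GoodW K₀ (L' j) ∧ ∀ x : M, IsAlgebraic (L' j) x) ∧
      ∀ ℓ : ℕ, ℓ.Prime → (ℓ : k) ≠ 0 →
        ∃ f : Vl k (KZ K₀ z) M ℓ →* (∀ j, Vl k (L' j) M ℓ), Function.Injective f := by
  obtain ⟨K, hKdef⟩ : ∃ K, K = KZ K₀ z := ⟨_, rfl⟩
  have hK₀K : K₀ ≤ K := by rw [hKdef]; exact le_sup_left
  have hKal : ∀ x : M, IsAlgebraic K x := by
    intro x
    obtain ⟨q, hq, hq0⟩ := hal x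
    refine ⟨q.map (IntermediateField.inclusion hK₀K : K₀ →+* K), ?_, ?_⟩
    · exact (Polynomial.map_ne_zero_iff (RingHom.injective _)).2 hq
    · rw [Polynomial.aeval_def, Polynomial.eval₂_map]
      exact hq0
  have hKfg : K.FG := by
    rw [hKdef]
    exact IntermediateField.fg_sup hfg ⟨{z}, by rw [Finset.coe_singleton]⟩
  by_cases hNU : NU K
  swap
  · obtain ⟨K₁, K₂, h1, h2, h3, h4, h5, h6⟩ := nu_case K hKfg hKal hNU
    rw [← hKdef]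
    refine ⟨1, fun _ => K₁ ⊔ K₂, fun _ => ⟨Or.inl ⟨K₁, K₂, h1, h2, h3, h4, rfl⟩, h5⟩,
      fun ℓ hℓ _ => ?_⟩
    obtain ⟨f, hf⟩ := h6 ℓ hℓ
    exact @pi_const_aux _ _ _ _ f hf
  obtain ⟨Ω, _, _, A, H, e, a', w', U, t, hΩ, hA, hH, hc⟩ := setupW K₀ hfg htd hal φ e₀ had z zN
    irr L a w ha hw hgen hL
  have hKZ : (KZ K₀ z).map (e : M →ₐ[k] A) = KZ (K₀.map (e : M →ₐ[k] A)) (e z) :=
    map_sup_adjoin (e : M →ₐ[k] A) K₀ z
  have hNU' : NU (KZ (K₀.map (e : M →ₐ[k] A)) (e z)) := by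
    have h1 := hNU.congr e
    rw [hKdef, hKZ] at h1
    exact h1
  have hKAal : ∀ x : A, IsAlgebraic (KZ (K₀.map (e : M →ₐ[k] A)) (e z)) x := by
    intro x
    obtain ⟨q, hq, hq0⟩ := hc.al x
    have hle : K₀.map (e : M →ₐ[k] A) ≤ KZ (K₀.map (e : M →ₐ[k] A)) (e z) := le_sup_left
    refine ⟨q.map (IntermediateField.inclusion hle : _ →+* _), ?_, ?_⟩
    · exact (Polynomial.map_ne_zero_iff (RingHom.injective _)).2 hq
    · rw [Polynomial.aeval_def, Polynomial.eval₂_map]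
      exact hq0
  have hKAfg : (KZ (K₀.map (e : M →ₐ[k] A)) (e z)).FG :=
    IntermediateField.fg_sup hc.fg ⟨{e z}, by rw [Finset.coe_singleton]⟩
  obtain ⟨n, L₁, hL₁, hf⟩ := combineG (hR Ω) A (hI A) (GoodW (K₀.map (e : M →ₐ[k] A)))
    (fun L h => GoodW.fg hc.fg L h) (KZ (K₀.map (e : M →ₐ[k] A)) (e z)) hKAfg hKAal hc.trA
    (by rw [hc.tdA]; exact Cardinal.ofNat_lt_aleph0) ⟨a', hc.aA⟩
    (hG Ω hΩ A H hA hH (K₀.map (e : M →ₐ[k] A)) (e z) φ e₀ a' w' U t hc hNU')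
  have hL₁e : ∀ j x, x ∈ L₁ j ↔ e.symm x ∈ (L₁ j).map (e.symm : A →ₐ[k] M) := fun j x =>
    mem_map_iff e.symm (L₁ j) x
  refine ⟨n, fun j => (L₁ j).map (e.symm : A →ₐ[k] M), fun j => ⟨(hL₁ j).1.congr e, fun x =>
    algK e.symm (L₁ j) _ (hL₁e j) (hL₁ j).2 x⟩, fun ℓ hℓ hℓk => ?_⟩
  obtain ⟨f, hf⟩ := hf ℓ hℓ hℓk
  have hKe : ∀ x : M, x ∈ KZ K₀ z ↔ e x ∈ KZ (K₀.map (e : M →ₐ[k] A)) (e z) := by
    intro x
    rw [← hKZ]
    exact mem_map_iff e _ x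
  rw [hKdef] at hKal
  exact @pi_comp_aux _ _ _ _ _ _ _ _ _ (vlH e _ _ hKe hKal ℓ) (vlH_injective e _ _ hKe hKal ℓ)
    f hf (fun j => vlH e.symm (L₁ j) _ (hL₁e j) (hL₁ j).2 ℓ)
    (fun j => vlH_injective e.symm (L₁ j) _ (hL₁e j) (hL₁ j).2 ℓ)

end Pool.Agent.WLD
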