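import Pool.Agent.WLD.Defs
import Pool.Agent.TUQ.G12
import Pool.Agent.TUQ.F1

/-!
# The discs of the roots `T i` at the places which do not contain `H`
-/

set_option autoImplicit false

namespace Pool.Agent.WLD

open Polynomial Pool.Agent.TBR Pool.Agent.TUQ Cardinal

universe u

section

variable {k Ω : Type u} [Field k] [Field Ω] [Algebra k Ω]
variable {A H : IntermediateField k Ω} {V : ValuationSubring Ω} {r : V →+* Ω}
variable {K₀ : IntermediateField k A} {z : A} {φ : k[X]} {e : ℕ} {a w U t : Ω}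
variable {A₁ A₂ : H[X]} {m : ℕ} {T : Fin m → Ω}
  {s : Fin m → (Ω ≃ₐ[k] Ω)} {ξ : Fin m → (A →ₐ[k] Ω)} {f : Polynomial Ω}

/-- the values of the embedding `ξ i` on `K₀` belong to `H(T i)` -/
theorem GDW.xi_AA [IsAlgClosed H] (hc : CfW A H K₀ z φ e a w U t)
    (hG : GDW A H K₀ z e a w U t A₁ A₂ T s ξ f) (i : Fin m) (x : A) (hx : x ∈ K₀) :
    ξ i x ∈ AA H {T i} := by
  obtain ⟨p, q, -, hq, hqt, hpq⟩ := exists_frac H t hc.tH x (hc.K₀t x hx)
  rw [Pool.Agent.TBR.V.mem_AA]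
  refine ⟨p, q, ?_⟩
  rw [eq_div_iff (aeval_ne_zero H (T i) (hG.TH i) q hq), hG.ξK i x hx, ← hG.st i,
    ← Fx.aeval (hG.sH i), ← Fx.aeval (hG.sH i), ← map_mul, hpq]

theorem GDW.exists_gauss [IsAlgClosed Ω] [IsAlgClosed H] [IsAlgClosed A]
    (hc : CfW A H K₀ z φ e a w U t) (hNU : NU (KZ K₀ z))
    (hG : GDW A H K₀ z e a w U t A₁ A₂ T s ξ f) (hP : Plc A V r) (hH : ∃ β ∈ H, β ∉ V)
    (i : Fin m) (hi : ∀ x, ξ i x ∈ V) :
    ∃ α π : H, π ≠ 0 ∧ Gen hP.res hP.mem H α π (T i) := by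
  have hr := hP.res
  have hV := hP.mem
  rcases gauss_or_imm hr hV hc.trA H hH (T i) (hG.TH i) with ⟨α, π, θ, hG'⟩ | hI
  · obtain ⟨α', π', -, -, h1, h2⟩ := hG'.gen
    exact ⟨α', π', h1, h2⟩
  exfalso
  obtain ⟨ε, he⟩ := exists_resE hr ((ξ i).comp (KK K₀ z).val) fun x => hi x
  have hκ := kA_closed hr hV H
  have htr : Algebra.trdeg k A < ℵ₀ := by
    rw [hc.tdA]
    exact Cardinal.ofNat_lt_aleph0
  refine g_nu_emb htr (KK K₀ z) (KK_alg hc.al) hNU ε (kA hr hV H) 0 hκ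
    (kA_trdeg hr hV H hH hc.tdH) ?_
  -- the values on `K₀`
  have h1 : ∀ x : A, ∀ hx : x ∈ K₀, ε ⟨x, le_sup_left (a := K₀) hx⟩ ∈ kA hr hV H := by
    intro x hx
    obtain ⟨h2, h3⟩ := he ⟨x, le_sup_left (a := K₀) hx⟩
    rw [mem_kA, ← h3]
    exact imm_res hr hV H (T i) hI _ (hG.xi_AA hc i x hx) h2
  -- the values on `K`
  have h2 : ∀ x, ε x ∈ kA hr hV H := by
    intro x
    refine g_mem_of_alg (kA hr hV H) _ ?_
    obtain ⟨p, hp0, hp⟩ := hc.al (x : A)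
    let g : K₀ →+* kA hr hV H :=
      { toFun := fun y => ⟨ε ⟨y, le_sup_left (a := K₀) y.2⟩, h1 y y.2⟩
        map_one' := Subtype.ext (map_one ε)
        map_mul' := fun x y => Subtype.ext (map_mul ε (⟨x, le_sup_left (a := K₀) x.2⟩ : KK K₀ z)
          ⟨y, le_sup_left (a := K₀) y.2⟩)
        map_zero' := Subtype.ext (map_zero ε)
        map_add' := fun x y => Subtype.ext (map_add ε (⟨x, le_sup_left (a := K₀) x.2⟩ : KK K₀ z)
          ⟨y, le_sup_left (a := K₀) y.2⟩) }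
    refine ⟨p.map g, (Polynomial.map_ne_zero_iff g.injective).2 hp0, ?_⟩
    have hle : K₀ ≤ KK K₀ z := le_sup_left
    have h3 : aeval x (p.map (IntermediateField.inclusion hle : K₀ →+* KK K₀ z)) = 0 := by
      apply (algebraMap (KK K₀ z) A).injective
      rw [map_zero, aeval_def, hom_eval₂, eval₂_map]
      exact hp
    have h4 := congrArg (ε : KK K₀ z →+* A) h3
    rw [map_zero, aeval_def, hom_eval₂, eval₂_map] at h4
    rw [aeval_def, eval₂_map]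
    exact h4
  intro x
  exact (le_sup_left (a := kA hr hV H)) (h2 x)

/-- `s i a = ζ a` for a root of unity `ζ ≠ 1` -/
theorem GDW.exists_zeta [IsAlgClosed H] (hc : CfW A H K₀ z φ e a w U t)
    (hG : GDW A H K₀ z e a w U t A₁ A₂ T s ξ f) (i : Fin m) :
    ∃ ζ : H, (ζ : Ω) ≠ 0 ∧ (ζ : Ω) ≠ 1 ∧ IsAlgebraic k (ζ : Ω) ∧ s i a = ζ * a := by
  have ha0 : a ≠ 0 := by
    rintro rfl
    exact hc.aA (zero_mem A)
  have h1 : (s i a / a) ^ e = 1 := by
    rw [div_pow, hG.se i, div_self (pow_ne_zero _ ha0)]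
  have he : 0 < e := lt_of_lt_of_le Nat.zero_lt_two hc.ad.e2
  have h2 : IsAlgebraic k (s i a / a) := by
    refine ⟨X ^ e - 1, (monic_X_pow_sub_C (1 : k) he.ne').ne_zero, ?_⟩
    rw [map_sub, map_pow, aeval_X, map_one, h1, sub_self]
  refine ⟨⟨s i a / a, s_mem_of_alg H _ h2⟩, ?_, ?_, h2, ?_⟩
  · intro h
    have h3 : s i a / a = 0 := h
    rw [h3, zero_pow he.ne'] at h1
    exact zero_ne_one h1
  · intro h
    have h3 : s i a / a = 1 := h
    rw [div_eq_one_iff_eq ha0] at h3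
    exact hG.sa i h3
  · exact (div_mul_cancel₀ _ ha0).symm

theorem GDW.val_T (hG : GDW A H K₀ z e a w U t A₁ A₂ T s ξ f) (i : Fin m) :
    aeval (T i) A₁ = s i a * aeval (T i) A₂ := by
  have h1 := congrArg (s i) hG.aeq
  rw [map_mul, Fx.aeval (hG.sH i), Fx.aeval (hG.sH i), hG.st i] at h1
  exact h1.symm

theorem GDW.a_gauss [IsAlgClosed Ω] [IsAlgClosed H] [IsAlgClosed A]
    (hc : CfW A H K₀ z φ e a w U t) (haH : a ∉ H)
    (hG : GDW A H K₀ z e a w U t A₁ A₂ T s ξ f) (hP : Plc A V r)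
    (i : Fin m) (α π : H) (hπ : π ≠ 0) (hgen : Gen hP.res hP.mem H α π (T i)) :
    ∃ (α' π' : H) (_ : π' ≠ 0) (hV : (a - α') / π' ∈ V),
      r ⟨(a - α') / π', hV⟩ ∉ kap hP.res hP.mem H := by
  obtain ⟨ζ, hζ0, -, -, hζa⟩ := hG.exists_zeta hc i
  have hval := hG.val_T i
  rw [hζa] at hval
  obtain ⟨γ, ρ, β, P₁, Q₁, hN⟩ := exists_nred hP.res hP.mem H (asub α π A₁) (asub α π A₂)
    (asub_ne_zero α π hπ A₂ hG.A₂0) (by
      intro γ hγ
      have h1 := congrArg (aeval ((T i - α) / π)) hγ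
      rw [map_mul, aeval_C, aeval_asub' α π hπ, aeval_asub' α π hπ, hval] at h1
      have h2 := mul_right_cancel₀ (aeval_ne_zero H (T i) (hG.TH i) A₂ hG.A₂0) h1
      apply haH
      have h3 : a = ((γ / ζ : H) : Ω) := by
        have h4 : ((γ / ζ : H) : Ω) = (γ : Ω) / ζ := map_div₀ (algebraMap H Ω) _ _
        rw [h4, eq_div_iff hζ0, mul_comm]
        exact h2
      rw [h3]
      exact (γ / ζ).2)
  obtain ⟨hT, hT1⟩ := hgen
  obtain ⟨hY, hη, -⟩ := hN.eta (ζ * a) ⟨_, hT⟩ hT1 (by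
    change aeval ((T i - α) / π) (asub α π A₁) = ζ * a * aeval ((T i - α) / π) (asub α π A₂)
    rw [aeval_asub' α π hπ, aeval_asub' α π hπ, hval])
  have hζ0' : ζ ≠ 0 := fun h => hζ0 (by rw [h]; rfl)
  have hρ : (ρ : Ω) ≠ 0 := by simpa using hN.ρ0
  have e1 : (a - ((γ / ζ : H) : Ω)) / ((ρ / ζ : H) : Ω) = (ζ * a - γ) / ρ := by
    have h1 : ((γ / ζ : H) : Ω) = (γ : Ω) / ζ := map_div₀ (algebraMap H Ω) _ _
    have h2 : ((ρ / ζ : H) : Ω) = (ρ : Ω) / ζ := map_div₀ (algebraMap H Ω) _ _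
    rw [h1, h2]
    field_simp
  refine ⟨γ / ζ, ρ / ζ, div_ne_zero hN.ρ0 hζ0', ?_, ?_⟩
  · rw [e1]
    exact hY
  · have e2 : ∀ h, (⟨(a - ((γ / ζ : H) : Ω)) / ((ρ / ζ : H) : Ω), h⟩ : V) =
        ⟨(ζ * a - γ) / ρ, hY⟩ := fun h => Subtype.ext e1
    rw [e2]
    exact hη

/-- a Gauss root `x` for the value `ζ y` and a root `t` for the value `y` have different
residues -/
theorem nred_diff {hr : IsRes A V r} {hV : ∀ x ∈ A, x ∈ V} [IsAlgClosed H] {P Q : H[X]}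
    {γ ρ β : H} {P₁ Q₁ : (VH V H)[X]} (h : Nred hr hV H P Q γ ρ β P₁ Q₁) (ζ : H)
    (hζ : V.valuation (ζ : Ω) = 1) (hζ1 : V.valuation ((ζ : Ω) - 1) = 1) (y : Ω) (x t : V)
    (hx : r x ∉ kap hr hV H)
    (hroot : aeval (x : Ω) P = ζ * y * aeval (x : Ω) Q)
    (hroot' : aeval (t : Ω) P = y * aeval (t : Ω) Q) : r x ≠ r t := by
  intro hxt
  have h1 := h.same (ζ * y) y x t hx hxt.symm hroot hroot'
  obtain ⟨hY, hη, -⟩ := h.eta (ζ * y) x hx hroot
  have hρ : (ρ : Ω) ≠ 0 := by simpa using h.ρ0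
  have hvρ : V.valuation (ρ : Ω) ≠ 0 := (_root_.map_ne_zero _).mpr hρ
  have h3 : V.valuation (ζ * y) < V.valuation (ρ : Ω) := by
    have h4 : (ζ : Ω) * y - y = (ζ - 1) * y := by ring
    rw [h4, map_mul, hζ1, one_mul] at h1
    rw [map_mul, hζ, one_mul]
    exact h1
  apply hη
  -- the residue is that of `- γ / ρ`
  have h4 : ((ζ : Ω) * y - γ) / ρ - (-(γ : Ω)) / ρ = (ζ * y) / ρ := by ring
  have h5 : V.valuation (((ζ : Ω) * y - γ) / ρ - (-(γ : Ω)) / ρ) < 1 := by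
    rw [h4, map_div₀, div_lt_one₀ (zero_lt_iff.mpr hvρ)]
    exact h3
  have h6 : (-(γ : Ω)) / ρ ∈ V := by
    have : (-(γ : Ω)) / ρ = (ζ * y - γ) / ρ - ((ζ * y - γ) / ρ - (-(γ : Ω)) / ρ) := by ring
    rw [this]
    exact sub_mem hY ((val_le V _).mpr h5.le)
  rw [(hr.eq_of_sub hV hY h6).mpr h5]
  exact res_mem_kap hr hV H h6 (div_mem (neg_mem γ.2) ρ.2)

theorem GDW.dist [IsAlgClosed Ω] [IsAlgClosed H] [IsAlgClosed A]
    (hc : CfW A H K₀ z φ e a w U t) (haH : a ∉ H)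
    (hG : GDW A H K₀ z e a w U t A₁ A₂ T s ξ f) (hP : Plc A V r)
    (i : Fin m) (α π : H) (hπ : π ≠ 0) (hgen : Gen hP.res hP.mem H α π (T i))
    (σ : Ω ≃ₐ[k] Ω) (hσ : σ ∈ Fx k (H : Set Ω)) (ha : σ a = a) (g : A ≃ₐ[k] A)
    (hg : ∀ x ∈ kA hP.res hP.mem H, g x = x) (hL : Lft A V r σ g) :
    V.valuation (σ (T i) - t) = V.valuation (T i - t) := by
  have hr := hP.res
  have hV := hP.mem
  obtain ⟨ζ, hζ0, hζ1, halg, hζa⟩ := hG.exists_zeta hc i
  have hval := hG.val_T i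
  rw [hζa] at hval
  have hζA : (ζ : Ω) ∈ A := s_mem_of_alg A _ halg
  have hvζ : V.valuation (ζ : Ω) = 1 := Pool.Agent.TBR.V.val_A A V hV ⟨ζ, hζA⟩
    (fun h => hζ0 (congrArg Subtype.val h))
  have hvζ1 : V.valuation ((ζ : Ω) - 1) = 1 :=
    Pool.Agent.TBR.V.val_A A V hV ⟨(ζ : Ω) - 1, sub_mem hζA (one_mem A)⟩
      (fun h => hζ1 (sub_eq_zero.mp (congrArg Subtype.val h)))
  have hπ' : (π : Ω) ≠ 0 := by simpa using hπ
  -- `σ (T i)` is a generic point of the same disc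
  have hgen' : Gen hP.res hP.mem H α π (σ (T i)) := by
    obtain ⟨hT, hT1⟩ := hgen
    have e1 : (σ (T i) - α) / π = σ ((T i - α) / π) := by
      rw [map_div₀, map_sub, hσ α α.2, hσ π π.2]
    have hT' : (σ (T i) - α) / π ∈ V := by
      rw [e1, hL.mem]
      exact hT
    refine ⟨hT', ?_⟩
    have h1 : r ⟨(σ (T i) - α) / π, hT'⟩ = g ⟨r ⟨_, hT⟩, hr.mem _⟩ := by
      have hT'' : σ ((T i - α) / π) ∈ V := by
        rw [hL.mem]
        exact hT
      have e2 : (⟨_, hT'⟩ : V) = ⟨σ ((T i - α) / π), hT''⟩ := Subtype.ext e1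
      rw [e2]
      exact hL.res _ hT _ ⟨r ⟨_, hT⟩, hr.mem _⟩ rfl
    rw [h1, ← mem_kA hr hV]
    intro h2
    have h3 := hg _ h2
    have h4 := g.injective h3
    rw [h4, mem_kA] at h2
    exact hT1 h2
  have hval' : aeval (σ (T i)) A₁ = ζ * a * aeval (σ (T i)) A₂ := by
    have h1 := congrArg σ hval
    rw [Fx.aeval hσ, map_mul, Fx.aeval hσ, map_mul, hσ ζ ζ.2, ha] at h1
    exact h1
  by_cases ht : (t - α) / π ∈ V
  · obtain ⟨γ, ρ, β, P₁, Q₁, hN⟩ := exists_nred hP.res hP.mem H (asub α π A₁) (asub α π A₂)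
      (asub_ne_zero α π hπ A₂ hG.A₂0) (by
        intro γ hγ
        have h1 := congrArg (aeval ((t - α) / π)) hγ
        rw [map_mul, aeval_C, aeval_asub' α π hπ, aeval_asub' α π hπ, ← hG.aeq] at h1
        have h2 := mul_right_cancel₀ hG.A₂t h1
        apply haH
        rw [h2]
        exact γ.2)
    have key : ∀ T' : Ω, Gen hP.res hP.mem H α π T' →
        aeval T' A₁ = ζ * a * aeval T' A₂ → V.valuation (T' - t) = V.valuation (π : Ω) := by
      rintro T' ⟨hT', hT1'⟩ hv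
      refine dist_eq hr hV α π T' t hπ' hT' ht ?_
      refine nred_diff hN ζ hvζ hvζ1 a ⟨_, hT'⟩ ⟨_, ht⟩ hT1' ?_ ?_
      · change aeval ((T' - α) / π) (asub α π A₁) = ζ * a * aeval ((T' - α) / π) (asub α π A₂)
        rw [aeval_asub' α π hπ, aeval_asub' α π hπ, hv]
      · change aeval ((t - α) / π) (asub α π A₁) = a * aeval ((t - α) / π) (asub α π A₂)
        rw [aeval_asub' α π hπ, aeval_asub' α π hπ, hG.aeq]
    rw [key _ hgen hval, key _ hgen' hval']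
  · obtain ⟨hT, -⟩ := hgen
    obtain ⟨hT', -⟩ := hgen'
    rw [dist_eq' V α π _ t hπ' hT ht, dist_eq' V α π _ t hπ' hT' ht]

open scoped IntermediateField.algebraAdjoinAdjoin in
/-- if everything is algebraic over `κ(θ)`, then it is algebraic over `κ(η)` for all `η ∉ κ` -/
theorem alg_exchange {M : Type u} [Field M] [Algebra k M] (κ : IntermediateField k M)
    [IsAlgClosed κ] (θ η : M) (hη : η ∉ κ) (h : ∀ y : M, IsAlgebraic (AA κ {θ}) y) (y : M) :
    IsAlgebraic (AA κ {η}) y := by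
  have h3 : AA κ {θ} = (IntermediateField.adjoin κ ({θ} : Set M)).restrictScalars k := by
    rw [AA, IntermediateField.restrictScalars_adjoin_eq_sup]
  have h4 : ∀ y : M, IsAlgebraic (IntermediateField.adjoin κ ({θ} : Set M)) y := by
    intro y
    have h5 := h y
    rw [h3] at h5
    exact h5
  have h6 : Algebra.trdeg κ M ≤ 1 := by
    have : Algebra.IsAlgebraic (Algebra.adjoin κ {θ}) M := by
      refine ⟨fun y => ?_⟩
      exact (IsFractionRing.isAlgebraic_iff (Algebra.adjoin κ {θ})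
        (IntermediateField.adjoin κ {θ}) M).mpr (h4 y)
    have := Algebra.IsAlgebraic.trdeg_le_cardinalMk κ ({θ} : Set M)
    rwa [Cardinal.mk_singleton] at this
  exact alg_of_trdeg κ h6 η hη y

theorem alg_mono' {M : Type u} [Field M] [Algebra k M] {K L : IntermediateField k M} (h : K ≤ L)
    {x : M} (hx : IsAlgebraic K x) : IsAlgebraic L x := by
  obtain ⟨p, hp, h1⟩ := hx
  refine ⟨p.map (IntermediateField.inclusion h : K →+* L),
    (Polynomial.map_ne_zero_iff (IntermediateField.inclusion h : K →+* L).injective).2 hp, ?_⟩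
  rw [aeval_def, eval₂_map]
  exact h1

/-- the residue field of `H` has transcendence degree one -/
theorem GDW.alg_kA [IsAlgClosed Ω] [IsAlgClosed H] [IsAlgClosed A]
    (hc : CfW A H K₀ z φ e a w U t)
    (hG : GDW A H K₀ z e a w U t A₁ A₂ T s ξ f) (hP : Plc A V r) (hH : ∃ β ∈ H, β ∉ V)
    (i : Fin m) (hi : ∀ x, ξ i x ∈ V) (K₂ : IntermediateField k A) (η : A) (hη : η ∈ K₂)
    (hη' : (η : Ω) ∉ kap hP.res hP.mem H) :
    ∀ x : A, IsAlgebraic (kA hP.res hP.mem H ⊔ K₂ : IntermediateField k A) x := by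
  have hr := hP.res
  have hV := hP.mem
  have hκ := kA_closed hr hV H
  have htr : Algebra.trdeg k A < ℵ₀ := by
    rw [hc.tdA]
    exact Cardinal.ofNat_lt_aleph0
  obtain ⟨θ, hθ, hθ1⟩ := res_AA hr hV hc.trA H hH (T i) (hG.TH i)
  obtain ⟨ε, he⟩ := exists_resE hr ((ξ i).comp K₀.val) fun x => hi x
  have h1 : ∀ x : K₀, ε x ∈ AA (kA hr hV H) {(⟨θ, hθ⟩ : A)} := by
    intro x
    obtain ⟨h2, h3⟩ := he x
    have h4 := hθ1 _ (hG.xi_AA hc i x x.2) h2
    have h5 : AA (kap hr hV H) {θ} = (AA (kA hr hV H) {(⟨θ, hθ⟩ : A)}).map A.val := by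
      rw [AA, AA, IntermediateField.map_sup, IntermediateField.adjoin_map, Set.image_singleton]
      have h6 : (kA hr hV H).map A.val = kap hr hV H :=
        IntermediateField.lift_restrict (kap_le hr hV H)
      rw [h6]
      rfl
    rw [h5, IntermediateField.mem_map] at h4
    obtain ⟨y, hy, hyx⟩ := h4
    have h7 : y = ε x := Subtype.ext (hyx.trans h3)
    rwa [h7] at hy
  have h2 : ∀ y : A, IsAlgebraic (AA (kA hr hV H) {(⟨θ, hθ⟩ : A)}) y :=
    g_alg_of_emb htr K₀ hc.al ε _ fun x =>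
      isAlgebraic_algebraMap (⟨ε x, h1 x⟩ : AA (kA hr hV H) {(⟨θ, hθ⟩ : A)})
  intro x
  refine alg_mono' ?_ (alg_exchange (kA hr hV H) ⟨θ, hθ⟩ η (fun h => hη' ((mem_kA hr hV H η).1 h))
    h2 x)
  refine sup_le_sup le_rfl ?_
  rw [IntermediateField.adjoin_le_iff]
  rintro _ rfl
  exact hη

end

end Pool.Agent.WLD
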