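import Pool.Agent.TBM.Val

/-!
# Artin-Schreier covers: the descent of the constants (row W10b)

A finite family of vectors over an algebraically closed field `M` which is permuted, class by class, by all
automorphisms over `κ K₂` is permuted by all automorphisms over `K₁ K₂`, for a finitely generated subfield `K₁` of `κ`.
-/

set_option autoImplicit false

namespace Pool.Agent.WLD

open Polynomial Pool.Agent.TBR

universe u

section

variable {k M : Type u} [Field k] [Field M] [Algebra k M]

/-- the linear form with coefficients `y` -/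
noncomputable def lf {n : ℕ} (y : Fin n → M) : MvPolynomial (Fin n) M :=
  ∑ j, MvPolynomial.C (y j) * MvPolynomial.X j

theorem coeff_lf {n : ℕ} (y : Fin n → M) (j : Fin n) :
    MvPolynomial.coeff (Finsupp.single j 1) (lf y) = y j := by
  classical
  unfold lf
  rw [MvPolynomial.coeff_sum, Finset.sum_eq_single j]
  · rw [MvPolynomial.coeff_C_mul, MvPolynomial.coeff_X, if_pos rfl, mul_one]
  · intro i _ hi
    rw [MvPolynomial.coeff_C_mul, MvPolynomial.coeff_X, if_neg, mul_zero]
    intro h
    exact hi (Finsupp.single_left_injective one_ne_zero h)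
  · intro h
    exact absurd (Finset.mem_univ j) h

theorem lf_inj {n : ℕ} {y y' : Fin n → M} (h : lf y = lf y') : y = y' := by
  funext j
  rw [← coeff_lf y j, h, coeff_lf]

theorem map_lf {n : ℕ} (g : M →+* M) (y : Fin n → M) :
    MvPolynomial.map g (lf y) = lf fun j => g (y j) := by
  unfold lf
  rw [map_sum]
  refine Finset.sum_congr rfl fun j _ => ?_
  rw [map_mul, MvPolynomial.map_C, MvPolynomial.map_X]

/-- the product of the `X - lf (y i)`, `i ∈ S` -/
noncomputable def PP {I : Type} {n : ℕ} (S : Finset I) (y : I → Fin n → M) : (MvPolynomial (Fin n) M)[X] :=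
  ∏ i ∈ S, (X - C (lf (y i)))

theorem map_PP {I : Type} {n : ℕ} (g : M →+* M) (S : Finset I) (y : I → Fin n → M) :
    (PP S y).map (MvPolynomial.map g) = PP S fun i j => g (y i j) := by
  unfold PP
  rw [Polynomial.map_prod]
  refine Finset.prod_congr rfl fun i _ => ?_
  rw [Polynomial.map_sub, map_X, map_C, map_lf]

theorem roots_PP {I : Type} {n : ℕ} (S : Finset I) (y : I → Fin n → M) :
    (PP S y).roots = S.val.map fun i => lf (y i) := by
  have h := roots_multiset_prod_X_sub_C (S.val.map fun i => lf (y i))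
  rw [Multiset.map_map] at h
  exact h

/-- equal products: the vectors are the same up to order -/
theorem card_of_PP {I : Type} [Fintype I] {n : ℕ} (S : Finset I) (y y' : I → Fin n → M)
    (h : PP S y = PP S y') (v : Fin n → M) [DecidableEq (Fin n → M)] :
    (S.filter fun i => y i = v).card = (S.filter fun i => y' i = v).card := by
  classical
  have h1 := congrArg Polynomial.roots h
  rw [roots_PP, roots_PP] at h1
  have h2 := congrArg (Multiset.count (lf v)) h1
  rw [Multiset.count_map, Multiset.count_map] at h2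
  have h3 : ∀ z : I → Fin n → M, (Multiset.filter (fun a => lf v = lf (z a)) S.val).card =
      (S.filter fun i => z i = v).card := by
    intro z
    rw [Finset.card_def, Finset.filter_val]
    congr 1
    refine Multiset.filter_congr fun i _ => ?_
    constructor
    · intro h
      exact (lf_inj h).symm
    · intro h
      rw [h]
  rw [h3, h3] at h2
  exact h2

/-- a permutation from equal products in all classes -/
theorem exists_perm_of_PP {I C : Type} [Fintype I] [DecidableEq C] (cls : I → C) {n : ℕ} (y y' : I → Fin n → M)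
    (h : ∀ i, PP (Finset.univ.filter fun i' => cls i' = cls i) y =
      PP (Finset.univ.filter fun i' => cls i' = cls i) y') :
    ∃ π : Equiv.Perm I, ∀ i, cls (π i) = cls i ∧ y (π i) = y' i := by
  classical
  have hc : ∀ c v, Fintype.card {i // (cls i, y' i) = (c, v)} = Fintype.card {i // (cls i, y i) = (c, v)} := by
    intro c v
    have hcard : ∀ z : I → Fin n → M, Fintype.card {i // (cls i, z i) = (c, v)} =
        ((Finset.univ.filter fun i' => cls i' = c).filter fun i => z i = v).card := by
      intro z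
      rw [Fintype.card_subtype, Finset.filter_filter]
      congr 1
      refine Finset.filter_congr fun i _ => ?_
      exact Prod.mk.injEq _ _ _ _ ▸ Iff.rfl
    rw [hcard, hcard]
    by_cases hex : ∃ i, cls i = c
    · obtain ⟨i, rfl⟩ := hex
      exact (card_of_PP _ _ _ (h i) v).symm
    · have h0 : (Finset.univ.filter fun i' => cls i' = c) = ∅ := by
        rw [Finset.filter_eq_empty_iff]
        intro i _ hi
        exact hex ⟨i, hi⟩
      rw [h0]
      rfl
  let E : ∀ b : C × (Fin n → M), {i // (cls i, y' i) = b} ≃ {i // (cls i, y i) = b} := fun b =>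
    Fintype.equivOfCardEq (hc b.1 b.2)
  refine ⟨Equiv.ofFiberEquiv E, fun i => ?_⟩
  have h1 := Equiv.ofFiberEquiv_map E i
  exact ⟨congrArg Prod.fst h1, congrArg Prod.snd h1⟩

/-- the coefficients of a product -/
noncomputable def cof {I : Type} {n : ℕ} (S : Finset I) (y : I → Fin n → M) : Finset M :=
  letI := Classical.decEq M
  (PP S y).support.biUnion fun m => ((PP S y).coeff m).support.image fun d => ((PP S y).coeff m).coeff d

theorem map_PP_of_cof {I : Type} {n : ℕ} (g : M →+* M) (S : Finset I) (y : I → Fin n → M)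
    (h : ∀ x ∈ cof S y, g x = x) : (PP S y).map (MvPolynomial.map g) = PP S y := by
  classical
  ext m d
  rw [coeff_map, MvPolynomial.coeff_map]
  by_cases h1 : (PP S y).coeff m = 0
  · rw [h1, MvPolynomial.coeff_zero, map_zero]
  by_cases h2 : MvPolynomial.coeff d ((PP S y).coeff m) = 0
  · rw [h2, map_zero]
  apply h
  unfold cof
  rw [Finset.mem_biUnion]
  refine ⟨m, mem_support_iff.2 h1, ?_⟩
  rw [Finset.mem_image]
  exact ⟨d, MvPolynomial.mem_support_iff.2 h2, rfl⟩

theorem cof_fixed {I : Type} {n : ℕ} (g : M →+* M) (S : Finset I) (y : I → Fin n → M)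
    (h : (PP S y).map (MvPolynomial.map g) = PP S y) : ∀ x ∈ cof S y, g x = x := by
  classical
  intro x hx
  unfold cof at hx
  rw [Finset.mem_biUnion] at hx
  obtain ⟨m, -, hx⟩ := hx
  rw [Finset.mem_image] at hx
  obtain ⟨d, -, rfl⟩ := hx
  have h1 := congrArg (fun P => MvPolynomial.coeff d (Polynomial.coeff P m)) h
  simp only [coeff_map, MvPolynomial.coeff_map] at h1
  exact h1

theorem PP_perm {I C : Type} [Fintype I] [DecidableEq C] (cls : I → C) {n : ℕ} (g : M →+* M)
    (y : I → Fin n → M) (π : Equiv.Perm I) (h : ∀ i, cls (π i) = cls i ∧ ∀ j, g (y i j) = y (π i) j) (c : C) :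
    (PP (Finset.univ.filter fun i' => cls i' = c) y).map (MvPolynomial.map g) =
      PP (Finset.univ.filter fun i' => cls i' = c) y := by
  rw [map_PP]
  unfold PP
  refine Finset.prod_equiv π ?_ ?_
  · intro i
    simp only [Finset.mem_filter, Finset.mem_univ, true_and]
    rw [(h i).1]
  · intro i _
    have h1 : (fun j => g (y i j)) = y (π i) := funext (h i).2
    show X - Polynomial.C (lf fun j => g (y i j)) = _
    rw [h1]

end

section

variable {k M : Type u} [Field k] [Field M] [Algebra k M]

/-- a subfield of transcendence degree at most one is algebraic over a finitely generated subfield -/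
theorem exists_alg_fin (κ : IntermediateField k M) (h : Algebra.trdeg k κ ≤ 1) :
    ∃ S : Finset M, (S : Set M) ⊆ κ ∧ ∀ x ∈ κ, IsAlgebraic (IntermediateField.adjoin k (S : Set M)) x := by
  classical
  obtain ⟨ι, x, hx⟩ := exists_isTranscendenceBasis' k κ
  have h1 : Cardinal.mk ι = Algebra.trdeg k κ := hx.cardinalMk_eq_trdeg
  have hfin : Finite ι := by
    rw [← Cardinal.lt_aleph0_iff_finite, h1]
    exact h.trans_lt Cardinal.one_lt_aleph0
  have hft := Fintype.ofFinite ι
  refine ⟨Finset.univ.image fun i => (x i : M), ?_, ?_⟩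
  · intro y hy
    simp only [Finset.coe_image, Finset.coe_univ, Set.image_univ, Set.mem_range] at hy
    obtain ⟨i, rfl⟩ := hy
    exact (x i).2
  · intro y hy
    let E := IntermediateField.adjoin k (Set.range x)
    have h3 : IsAlgebraic E (⟨y, hy⟩ : κ) := by
      have := hx.isAlgebraic_field
      exact this.isAlgebraic _
    obtain ⟨q, hq, hq0⟩ := h3
    set F := IntermediateField.adjoin k ((Finset.univ.image fun i => (x i : M) : Finset M) : Set M) with hF
    have hEF : ∀ z : κ, z ∈ E → (z : M) ∈ F := by
      intro z hz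
      have h4 : E ≤ F.comap κ.val := by
        rw [IntermediateField.adjoin_le_iff]
        rintro _ ⟨i, rfl⟩
        refine IntermediateField.subset_adjoin _ _ ?_
        exact Finset.mem_coe.2 (Finset.mem_image_of_mem _ (Finset.mem_univ i))
      exact h4 hz
    let j : E →+* F :=
      { toFun := fun z => ⟨((z : κ) : M), hEF z z.2⟩
        map_one' := rfl
        map_mul' := fun _ _ => rfl
        map_zero' := rfl
        map_add' := fun _ _ => rfl }
    refine ⟨q.map j, (Polynomial.map_ne_zero_iff j.injective).2 hq, ?_⟩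
    rw [aeval_def, eval₂_map]
    have h5 := congrArg (algebraMap κ M) hq0
    rw [aeval_def, hom_eval₂, map_zero] at h5
    exact h5

/-- algebraic over a compositum -/
theorem alg_of_le {L F : IntermediateField k M} (h : ∀ x ∈ F, IsAlgebraic L x) (hF : ∀ x : M, IsAlgebraic F x)
    (x : M) : IsAlgebraic L x := by
  let E := algebraicClosure L M
  have hE : Algebra.IsAlgebraic L E := inferInstance
  obtain ⟨q, hq, hq0⟩ := hF x
  let j : F →+* E :=
    { toFun := fun z => ⟨(z : M), (mem_algebraicClosure_iff).2 (h z z.2)⟩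
      map_one' := rfl
      map_mul' := fun _ _ => rfl
      map_zero' := rfl
      map_add' := fun _ _ => rfl }
  have h1 : IsAlgebraic E x := by
    refine ⟨q.map j, (Polynomial.map_ne_zero_iff j.injective).2 hq, ?_⟩
    rw [aeval_def, eval₂_map]
    exact hq0
  exact h1.restrictScalars L

end

section

variable {k : Type u} [Field k]

theorem descent {M : Type u} [Field M] [Algebra k M] [IsAlgClosed M]
    (κ K₂ : IntermediateField k M) (hκ : Algebra.trdeg k κ ≤ 1) (hK₂ : K₂.FG)
    (hal : ∀ x : M, IsAlgebraic (κ ⊔ K₂ : IntermediateField k M) x)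
    {I C : Type} [Fintype I] (cls : I → C) {n : ℕ} (y : I → Fin n → M)
    (h : ∀ g ∈ Fx k ((κ ⊔ K₂ : IntermediateField k M) : Set M), ∃ π : Equiv.Perm I,
      ∀ i, cls (π i) = cls i ∧ ∀ j, g (y i j) = y (π i) j) :
    ∃ K₁ : IntermediateField k M, K₁.FG ∧ K₁ ≤ κ ∧ Algebra.trdeg k K₁ ≤ 1 ∧
      (∀ x : M, IsAlgebraic (K₁ ⊔ K₂ : IntermediateField k M) x) ∧
      ∀ g ∈ Fx k ((K₁ ⊔ K₂ : IntermediateField k M) : Set M), ∃ π : Equiv.Perm I,
        ∀ i, cls (π i) = cls i ∧ ∀ j, g (y i j) = y (π i) j := by
  classical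
  obtain ⟨p, hp⟩ := ExpChar.exists M
  let D : Finset M := Finset.univ.biUnion fun i => cof (Finset.univ.filter fun i' => cls i' = cls i) y
  have hD : ∀ x ∈ D, ∃ r : ℕ, x ^ p ^ r ∈ κ ⊔ K₂ := by
    intro x hx
    refine V.pow_mem_of_fixed p _ hal x fun g hg => ?_
    obtain ⟨π, hπ⟩ := h g hg
    obtain ⟨i, -, hx⟩ := Finset.mem_biUnion.1 hx
    exact cof_fixed (g : M →+* M) _ _ (PP_perm cls (g : M →+* M) y π hπ (cls i)) x hx
  choose! rr hrr using hD
  have hfin : ∀ x ∈ κ ⊔ K₂, ∃ S : Finset M, (S : Set M) ⊆ κ ∧
      x ∈ IntermediateField.adjoin k (S : Set M) ⊔ K₂ := by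
    intro x hx
    have h1 : κ ⊔ K₂ = IntermediateField.adjoin k ((κ : Set M) ∪ K₂) := by
      rw [IntermediateField.adjoin_union, IntermediateField.adjoin_self, IntermediateField.adjoin_self]
    rw [h1] at hx
    obtain ⟨T, hT, hxT⟩ := IntermediateField.exists_finset_of_mem_adjoin hx
    refine ⟨T.filter (· ∈ κ), ?_, ?_⟩
    · intro y hy
      exact (Finset.mem_filter.1 (Finset.mem_coe.1 hy)).2
    · have h2 : IntermediateField.adjoin k (T : Set M) ≤
          IntermediateField.adjoin k ((T.filter (· ∈ κ) : Finset M) : Set M) ⊔ K₂ := by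
        rw [IntermediateField.adjoin_le_iff]
        intro y hy
        rcases hT hy with h3 | h3
        · refine (le_sup_left : _ ≤ _ ⊔ K₂) (IntermediateField.subset_adjoin _ _ ?_)
          exact Finset.mem_coe.2 (Finset.mem_filter.2 ⟨hy, h3⟩)
        · exact (le_sup_right : K₂ ≤ _) h3
      exact h2 hxT
  choose! Sx hSx hSx' using hfin
  obtain ⟨S₀, hS₀, hS₀'⟩ := exists_alg_fin κ hκ
  let S : Finset M := S₀ ∪ D.biUnion fun x => Sx (x ^ p ^ rr x)
  have hSκ : (S : Set M) ⊆ κ := by
    intro x hx
    rcases Finset.mem_union.1 (Finset.mem_coe.1 hx) with h1 | h1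
    · exact hS₀ h1
    · obtain ⟨d, hd, hx⟩ := Finset.mem_biUnion.1 h1
      exact hSx _ (hrr d hd) hx
  let K₁ := IntermediateField.adjoin k (S : Set M)
  have hK₁ : K₁ ≤ κ := IntermediateField.adjoin_le_iff.2 hSκ
  refine ⟨K₁, ⟨S, rfl⟩, hK₁, ?_, ?_, ?_⟩
  · exact (trdeg_le_of_injective (IntermediateField.inclusion hK₁)
      (IntermediateField.inclusion_injective hK₁)).trans hκ
  · refine alg_of_le (F := κ ⊔ K₂) ?_ hal
    let E : IntermediateField k M :=
      (algebraicClosure (K₁ ⊔ K₂ : IntermediateField k M) M).restrictScalars k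
    have hE : κ ⊔ K₂ ≤ E := by
      refine sup_le ?_ ?_
      · intro x hx
        refine (mem_algebraicClosure_iff).2 ?_
        obtain ⟨q, hq, hq0⟩ := hS₀' x hx
        have hle : IntermediateField.adjoin k (S₀ : Set M) ≤ K₁ ⊔ K₂ := by
          refine le_trans ?_ le_sup_left
          exact IntermediateField.adjoin.mono k _ _ (Finset.coe_subset.2 Finset.subset_union_left)
        refine ⟨q.map (IntermediateField.inclusion hle : _ →+* _), ?_, ?_⟩
        · exact (Polynomial.map_ne_zero_iff (RingHom.injective _)).2 hq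
        · rw [aeval_def, eval₂_map]
          exact hq0
      · intro x hx
        refine (mem_algebraicClosure_iff).2 ?_
        exact isAlgebraic_algebraMap (⟨x, (le_sup_right : K₂ ≤ K₁ ⊔ K₂) hx⟩ : (K₁ ⊔ K₂ : IntermediateField k M))
    intro x hx
    exact (mem_algebraicClosure_iff).1 (hE hx)
  · intro g hg
    have hgD : ∀ x ∈ D, g x = x := by
      intro x hx
      have h1 : x ^ p ^ rr x ∈ K₁ ⊔ K₂ := by
        have h2 := hSx' _ (hrr x hx)
        refine sup_le_sup_right (IntermediateField.adjoin.mono k _ _ ?_) _ h2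
        refine Finset.coe_subset.2 (Finset.Subset.trans ?_ Finset.subset_union_right)
        exact Finset.subset_biUnion_of_mem (fun x => Sx (x ^ p ^ rr x)) hx
      have h2 : g (x ^ p ^ rr x) = x ^ p ^ rr x := hg _ h1
      rw [map_pow] at h2
      exact iterateFrobenius_inj M p (rr x) h2
    have h1 : ∀ i, PP (Finset.univ.filter fun i' => cls i' = cls i) y =
        PP (Finset.univ.filter fun i' => cls i' = cls i) fun i j => g (y i j) := by
      intro i
      have h2 := map_PP_of_cof (g : M →+* M) (Finset.univ.filter fun i' => cls i' = cls i) y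
        fun x hx => hgD x (Finset.mem_biUnion.2 ⟨i, Finset.mem_univ i, hx⟩)
      rw [map_PP] at h2
      exact h2.symm
    obtain ⟨π, hπ⟩ := exists_perm_of_PP cls y (fun i j => g (y i j)) h1
    exact ⟨π, fun i => ⟨(hπ i).1, fun j => (congrFun (hπ i).2 j).symm⟩⟩

end

end Pool.Agent.WLD
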