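import Pool.Agent.WLD.Defs
import Pool.Agent.TUQ.S4c

/-!
# Artin-Schreier quotients, row W4: the embeddings and the data
-/

set_option autoImplicit false

namespace Pool.Agent.WLD

open Polynomial Pool.Agent.TBR Pool.Agent.TUQ

universe u

section

variable {k Ω : Type u} [Field k] [Field Ω] [Algebra k Ω]
variable {A H : IntermediateField k Ω}
variable {K₀ : IntermediateField k A} {z : A} {φ : k[X]} {e : ℕ} {a w U t : Ω}
variable {A₁ A₂ : H[X]} {m : ℕ} {T : Fin m → Ω}
  {s : Fin m → (Ω ≃ₐ[k] Ω)} {ξ : Fin m → (A →ₐ[k] Ω)} {f : Polynomial Ω}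

/-- the embedding of `A` which is given by `s` on `K₀` -/
theorem CfW.exists_xi [IsAlgClosed Ω] (hc : CfW A H K₀ z φ e a w U t) (s : Ω ≃ₐ[k] Ω)
    (hs : (s a) ^ e = a ^ e) :
    ∃ ξ : A →ₐ[k] Ω, (∀ x ∈ K₀, ξ x = s x) ∧ ξ z = s w + U := by
  let g : K₀ →+* Ω := (s : Ω →+* Ω).comp ((algebraMap A Ω).comp (algebraMap K₀ A))
  let _ : Algebra K₀ Ω := g.toAlgebra
  have hg : ∀ x : K₀, algebraMap K₀ Ω x = s ((x : A) : Ω) := fun x => rfl
  have hgk : (algebraMap K₀ Ω).comp (algebraMap k K₀) = algebraMap k Ω := by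
    ext c
    rw [RingHom.comp_apply, hg]
    exact s.commutes c
  set p : K₀[X] := φ.map (algebraMap k K₀) - C (⟨aeval z φ, hc.zN⟩ : K₀) with hp
  have hz0 : aeval z p = 0 := by
    rw [hp, map_sub, aeval_C, aeval_map_algebraMap, sub_eq_zero]
    rfl
  have hmin : p * C p.leadingCoeff⁻¹ = minpoly K₀ z := minpoly.eq_of_irreducible hc.irr hz0
  have hφ : ∀ x y : Ω, aeval (x + y) φ = aeval x φ + aeval y φ := hc.ad.add Ω
  have hsφ : ∀ x : Ω, s (aeval x φ) = aeval (s x) φ := fun x =>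
    (aeval_algHom_apply (s : Ω →ₐ[k] Ω) x φ).symm
  have hF : s ((aeval z φ : A) : Ω) = aeval (s w) φ + a ^ e := by
    have h1 : ((aeval z φ : A) : Ω) = aeval (z : Ω) φ := (aeval_algHom_apply A.val z φ).symm
    rw [h1, ← hc.eqz, hφ, map_add, hc.eqU, map_pow, hs, hsφ]
  have hN : aeval (s w + U) (minpoly K₀ z) = 0 := by
    rw [← hmin, map_mul]
    have h2 : aeval (s w + U) p = 0 := by
      rw [hp, map_sub, aeval_C, hg, aeval_def, eval₂_map, hgk, ← aeval_def, hφ, hc.eqU, sub_eq_zero]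
      exact hF.symm
    rw [h2, zero_mul]
  have halg : Algebra.IsAlgebraic K₀ A := ⟨hc.al⟩
  obtain ⟨ψ, hψ⟩ := (IntermediateField.exists_algHom_of_splits_of_aeval (F := K₀) (E := A) (K := Ω)
    (x := z) (y := s w + U) (fun x => ⟨(hc.al x).isIntegral, IsAlgClosed.splits _⟩) hN)
  refine ⟨{ (ψ : A →+* Ω) with commutes' := fun c => ?_ }, fun x hx => ?_, hψ⟩
  · have h1 := ψ.commutes (algebraMap k K₀ c)
    have h2 : algebraMap K₀ Ω (algebraMap k K₀ c) = algebraMap k Ω c := by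
      rw [hg]
      exact s.commutes c
    rw [h2] at h1
    exact h1
  · exact ψ.commutes (⟨x, hx⟩ : K₀)

theorem CfW.a0 (hc : CfW A H K₀ z φ e a w U t) : a ≠ 0 := fun h => hc.aA (h ▸ zero_mem A)

/-- the geometric sum -/
theorem gs_mul (e : ℕ) (x y : Polynomial Ω) :
    (x - y) * ∑ i ∈ Finset.range e, x ^ i * y ^ (e - 1 - i) = x ^ e - y ^ e := by
  rw [mul_comm]
  exact (Commute.all x y).geom_sum₂_mul e

theorem pow_mem_H [IsAlgClosed H] {x : Ω} {e : ℕ} (he : 0 < e) (h : x ^ e ∈ H) : x ∈ H := by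
  apply s_mem_of_alg' H
  refine ⟨X ^ e - C ⟨x ^ e, h⟩, (monic_X_pow_sub_C _ he.ne').ne_zero, ?_⟩
  rw [map_sub, map_pow, aeval_X, aeval_C, sub_eq_zero]
  rfl

/-- existence of the data -/
theorem CfW.exists_GD [IsAlgClosed Ω] [IsAlgClosed H] [IsAlgClosed A]
    (hc : CfW A H K₀ z φ e a w U t) (haH : a ∉ H) :
    ∃ (A₁ A₂ : H[X]) (m : ℕ) (T : Fin m → Ω) (s : Fin m → (Ω ≃ₐ[k] Ω))
      (ξ : Fin m → (A →ₐ[k] Ω)) (f : Polynomial Ω), GDW A H K₀ z e a w U t A₁ A₂ T s ξ f := by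
  classical
  obtain ⟨A₁, A₂, hcop, hA₂, hA₂t, haeq⟩ := exists_frac H t hc.tH a hc.at'
  have ha0 := hc.a0
  have ha' : aeval t A₁ / aeval t A₂ = a := by rw [div_eq_iff hA₂t, haeq]
  have he : 0 < e := by have := hc.ad.e2; omega
  set α₁ : Polynomial Ω := A₁.map (algebraMap H Ω) with hα₁
  set α₂ : Polynomial Ω := A₂.map (algebraMap H Ω) with hα₂
  set f : Polynomial Ω := ∑ i ∈ Finset.range e, α₁ ^ i * (C a * α₂) ^ (e - 1 - i) with hf
  have hfeq : (α₁ - C a * α₂) * f = α₁ ^ e - C (a ^ e) * α₂ ^ e := by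
    rw [hf, gs_mul, mul_pow, ← C_pow]
  have haeH : a ^ e ∉ H := fun h => haH (pow_mem_H he h)
  have heval : ∀ (x : Ω) (P : H[X]), (P.map (algebraMap H Ω)).eval x = aeval x P := fun x P =>
    eval_map_algebraMap P x
  have hfull0 : α₁ ^ e - C (a ^ e) * α₂ ^ e ≠ 0 := by
    intro h
    obtain ⟨j, hj⟩ : ∃ j, (A₂ ^ e).coeff j ≠ 0 := by
      by_contra hcon
      push Not at hcon
      exact pow_ne_zero e hA₂ (Polynomial.ext fun j => by rw [hcon j, coeff_zero])
    have h1 := congrArg (fun p => p.coeff j) h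
    rw [hα₁, hα₂, ← Polynomial.map_pow, ← Polynomial.map_pow] at h1
    simp only [coeff_sub, coeff_C_mul, coeff_map, coeff_zero] at h1
    have hj' : (((A₂ ^ e).coeff j : H) : Ω) ≠ 0 := fun h => hj (Subtype.ext h)
    apply haeH
    have h2 : a ^ e = (((A₁ ^ e).coeff j : H) : Ω) / ((A₂ ^ e).coeff j : H) := by
      rw [eq_div_iff hj']
      exact (sub_eq_zero.1 h1).symm
    rw [h2]
    exact div_mem (Subtype.property _) (Subtype.property _)
  have hf0 : f ≠ 0 := by
    intro h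
    rw [h, mul_zero] at hfeq
    exact hfull0 hfeq.symm
  have hroot : ∀ x, f.IsRoot x → aeval x A₁ ^ e = a ^ e * aeval x A₂ ^ e := by
    intro x hx
    have h1 := congrArg (eval x) hfeq
    rw [eval_mul, hx.eq_zero, mul_zero, eval_sub, eval_mul, eval_C, eval_pow, eval_pow, heval, heval,
      eq_comm, sub_eq_zero] at h1
    exact h1
  have hTH : ∀ x, f.IsRoot x → x ∉ H := by
    intro x hx hxH
    have h1 := hroot x hx
    have hm : ∀ P : H[X], aeval x P ∈ H := by
      intro P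
      have : aeval x P = ((P.eval ⟨x, hxH⟩ : H) : Ω) := by
        have h2 := aeval_algebraMap_apply Ω (⟨x, hxH⟩ : H) P
        exact h2
      rw [this]
      exact Subtype.property _
    have h2 : aeval x A₂ = 0 := by
      by_contra hne
      apply haeH
      have h3 : a ^ e = aeval x A₁ ^ e / aeval x A₂ ^ e := by
        rw [eq_div_iff (pow_ne_zero e hne), h1]
      rw [h3]
      exact div_mem (pow_mem (hm _) _) (pow_mem (hm _) _)
    rw [h2, zero_pow he.ne', mul_zero] at h1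
    have h4 : aeval x A₁ = 0 := pow_eq_zero_iff he.ne' |>.1 h1
    obtain ⟨p, q, hpq⟩ := hcop
    have := congrArg (aeval x) hpq
    rw [map_add, map_mul, map_mul, h4, h2, mul_zero, mul_zero, add_zero, map_one] at this
    exact zero_ne_one this
  -- the roots
  obtain ⟨m, T, hT⟩ : ∃ (m : ℕ) (T : Fin m → Ω), f.roots = Finset.univ.val.map T := by
    refine ⟨f.roots.toList.length, f.roots.toList.get, ?_⟩
    rw [Fin.univ_val_map, List.ofFn_get, Multiset.coe_toList]
  have hTr : ∀ i, f.IsRoot (T i) := by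
    intro i
    rw [← mem_roots hf0, hT, Multiset.mem_map]
    exact ⟨i, Finset.mem_univ_val _, rfl⟩
  have hs : ∀ i, ∃ s ∈ Fx k (H : Set Ω), s t = T i := fun i =>
    exists_s H hc.trH t (T i) hc.tH (hTH _ (hTr i))
  choose s hsH hst using hs
  have hA₂T : ∀ i, aeval (T i) A₂ ≠ 0 := fun i => aeval_ne_zero H _ (hTH _ (hTr i)) A₂ hA₂
  have hsa' : ∀ i, s i a = aeval (T i) A₁ / aeval (T i) A₂ := by
    intro i
    conv_lhs => rw [← ha']
    rw [map_div₀, Fx_aeval H (hsH i), Fx_aeval H (hsH i), hst]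
  have hse : ∀ i, (s i a) ^ e = a ^ e := by
    intro i
    rw [hsa', div_pow, hroot _ (hTr i), mul_div_assoc, div_self (pow_ne_zero e (hA₂T i)), mul_one]
  have hek : ((e : ℕ) : Ω) ≠ 0 := by
    have h1 := (_root_.map_ne_zero (algebraMap k Ω)).2 hc.ad.ek
    rwa [map_natCast] at h1
  have hsa : ∀ i, s i a ≠ a := by
    intro i h
    rw [hsa', div_eq_iff (hA₂T i)] at h
    have h1 : f.eval (T i) = e * (a * aeval (T i) A₂) ^ (e - 1) := by
      rw [hf, eval_finsetSum]
      have h2 : ∀ j ∈ Finset.range e, eval (T i) (α₁ ^ j * (C a * α₂) ^ (e - 1 - j)) =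
          (a * aeval (T i) A₂) ^ (e - 1) := by
        intro j hj
        have hj' := Finset.mem_range.1 hj
        rw [eval_mul, eval_pow, eval_pow, eval_mul, eval_C, heval, heval, h, ← pow_add]
        congr 1
        omega
      rw [Finset.sum_congr rfl h2, Finset.sum_const, Finset.card_range, nsmul_eq_mul]
    rw [(hTr i).eq_zero] at h1
    exact mul_ne_zero hek (pow_ne_zero _ (mul_ne_zero ha0 (hA₂T i))) h1.symm
  have hξ := fun i => hc.exists_xi (s i) (hse i)
  choose ξ hξK hξz using hξ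
  refine ⟨A₁, A₂, m, T, s, ξ, f, hcop, hA₂, hA₂t, haeq, hf0, rfl, hT, fun i => hTH _ (hTr i),
    fun i h => hsa i ?_, hsH, hst, hξK, hξz, hse, hsa⟩
  rw [hsa', h, ha']

/-- two families with the same multiset of values -/
theorem exists_perm_of_map {m : ℕ} {α : Type*} (f g : Fin m → α)
    (h : Finset.univ.val.map f = Finset.univ.val.map g) :
    ∃ π : Equiv.Perm (Fin m), ∀ i, f i = g (π i) := by
  classical
  have hc : ∀ c, Fintype.card {a // f a = c} = Fintype.card {a // g a = c} := by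
    intro c
    have h1 := congrArg (Multiset.count c) h
    rw [Multiset.count_map, Multiset.count_map] at h1
    rw [Fintype.card_subtype, Fintype.card_subtype]
    simpa [Finset.card, Finset.filter, eq_comm] using h1
  exact ⟨Equiv.ofFiberEquiv fun c => Fintype.equivOfCardEq (hc c),
    fun i => (Equiv.ofFiberEquiv_map _ i).symm⟩

/-- an automorphism over `H(a)` permutes the roots -/
theorem GDW.perm (hG : GDW A H K₀ z e a w U t A₁ A₂ T s ξ f) (σ : Ω ≃ₐ[k] Ω)
    (hσ : σ ∈ Fx k (H : Set Ω)) (ha : σ a = a) :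
    ∃ π : Equiv.Perm (Fin m), ∀ i, σ (T i) = T (π i) := by
  let g : Ω →+* Ω := (σ : Ω →+* Ω)
  have hgP : ∀ P : H[X], (P.map (algebraMap H Ω)).map g = P.map (algebraMap H Ω) := by
    intro P
    rw [Polynomial.map_map]
    congr 1
    ext x
    exact hσ _ x.2
  have hgf : f.map g = f := by
    rw [hG.fdef, Polynomial.map_sum]
    refine Finset.sum_congr rfl fun i _ => ?_
    rw [Polynomial.map_mul, Polynomial.map_pow, Polynomial.map_pow, Polynomial.map_mul, hgP, hgP, map_C]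
    have : g a = a := ha
    rw [this]
  have h1 : f.roots.map g = f.roots := by
    have h2 := Polynomial.map_roots_le_of_injective f (f := g) g.injective
    rw [hgf] at h2
    exact Multiset.eq_of_le_of_card_le h2 (by rw [Multiset.card_map])
  rw [hG.roots, Multiset.map_map] at h1
  exact exists_perm_of_map _ _ h1

theorem GDW.conj (hc : CfW A H K₀ z φ e a w U t)
    (hG : GDW A H K₀ z e a w U t A₁ A₂ T s ξ f) (σ : Ω ≃ₐ[k] Ω)
    (hσ : σ ∈ Fx k (H : Set Ω)) (i j : Fin m) (h : σ (T i) = T j) :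
    (∀ x ∈ K₀, σ (ξ i x) = ξ j x) ∧ σ (ξ i z) = ξ j z + (σ U - U) := by
  have hag : ∀ x ∈ AA H {t}, σ (s i x) = s j x := by
    intro x hx
    obtain ⟨p, q, rfl⟩ := (Pool.Agent.TBR.V.mem_AA H t x).mp hx
    rw [map_div₀, map_div₀, map_div₀, Fx_aeval H (hG.sH i), Fx_aeval H (hG.sH i),
      Fx_aeval H (hG.sH j), Fx_aeval H (hG.sH j), Fx_aeval H hσ, Fx_aeval H hσ, hG.st, hG.st, h]
  refine ⟨fun x hx => ?_, ?_⟩
  · rw [hG.ξK i x hx, hG.ξK j x hx]
    exact hag x (hc.K₀t x hx)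
  · rw [hG.ξz, hG.ξz, map_add, hag w hc.wt]
    ring

end

end Pool.Agent.WLD
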