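import Mathlib

/-!
# The decomposition group surjects onto the automorphisms of the residue field (universe polymorphic copy)
-/

set_option autoImplicit false

open IsLocalRing
open scoped Pointwise

namespace Pool.Agent.WLD.SC

universe u

variable {k C : Type u} [Field k] [Field C] [Algebra k C]

/-- `V` lies above `A`. -/
def Above (A : ValuationSubring k) (V : ValuationSubring C) : Prop :=
  ∀ a : k, algebraMap k C a ∈ V ↔ a ∈ A





/-! ## [SC2-A1] valuation rings above `A` (file A1.lean) -/

/-- The image of `A` in `C` is a local ring; a valuation ring of `C` dominates it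
(`LocalSubring.exists_le_valuationSubring`). If `a ∉ A` then `a⁻¹` is in the maximal ideal of `A`,
hence in the maximal ideal of `V`, and `a ∉ V`. -/
theorem exists_above (A : ValuationSubring k) : ∃ V : ValuationSubring C, Above A V := by
  obtain ⟨V, h, hloc⟩ := IsLocalRing.exists_factor_valuationRing
    (R := A) ((algebraMap k C).comp A.subtype)
  refine ⟨V, fun a => ⟨fun ha => ?_, fun ha => h ⟨a, ha⟩⟩⟩
  by_contra hn
  have ha0 : a ≠ 0 := by
    rintro rfl
    exact hn (zero_mem A)
  have hinv : a⁻¹ ∈ A := (A.mem_or_inv_mem a).resolve_left hn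
  have hu : IsUnit ((((algebraMap k C).comp A.subtype).codRestrict V.toSubring h) ⟨a⁻¹, hinv⟩) := by
    refine IsUnit.of_mul_eq_one ⟨algebraMap k C a, ha⟩ ?_
    apply Subtype.ext
    change algebraMap k C a⁻¹ * algebraMap k C a = 1
    rw [← map_mul, inv_mul_cancel₀ ha0, map_one]
  have hu2 := hloc.map_nonunit _ hu
  obtain ⟨⟨c, hc⟩, hc2⟩ := hu2.exists_right_inv
  have hc3 : a⁻¹ * c = 1 := congrArg Subtype.val hc2
  have hc4 : c = a := by
    have := congrArg (fun t => a * t) hc3
    simp only [← mul_assoc, mul_inv_cancel₀ ha0, one_mul, mul_one] at this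
    exact this
  exact hn (hc4 ▸ hc)

/-- the integral closure of `A` is the intersection of the valuation rings which contain `A` -/
theorem a1_integral (A : ValuationSubring k) (y : C)
    (h : ∀ W : ValuationSubring C, (∀ a ∈ A, algebraMap k C a ∈ W) → y ∈ W) :
    ((algebraMap k C).comp A.subtype).IsIntegralElem y := by
  let _ : Algebra A C := ((algebraMap k C).comp A.subtype).toAlgebra
  by_contra hy
  have hy' : y ∉ (integralClosure A C).toSubring := hy
  obtain ⟨W, hW, hyW⟩ := Subring.exists_le_valuationSubring_of_isIntegrallyClosedIn hy'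
  apply hyW
  apply h W
  intro a ha
  apply hW
  exact (integralClosure A C).algebraMap_mem ⟨a, ha⟩

/-- The elements of `V` are fractions of elements integral over `A` with denominators which are
units of `V`. Let `∑ a_i x^i = 0` with `a_i ∈ k`, normalised (divide by a coefficient of largest
value, the last one of this value) so that `a_i ∈ A` for all `i`, `a_j = 1` and `a_i` is in the maximal
ideal for `i > j`. Put `y = 1 + a_{j+1} x + ... + a_n x^(n-j)` and
`z' = a_{j-1} + a_{j-2} x⁻¹ + ... + a_0 x^(1-j)`, so `x y = - z'`. If `W` is any valuation ring of `C`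
containing (the image of) `A`: if `x ∈ W` then `y, x y ∈ W`; if `x⁻¹ ∈ W` then `z' ∈ W` and
`y = - z' x⁻¹ ∈ W`. So `y` and `x y` are in all `W`, hence integral over `A`
(`iInf_valuationSubring_superset`, `Subring.eq_iInf_of_isIntegrallyClosedIn`). `y` is congruent
to `1` modulo the maximal ideal of `V` because `x ∈ V`. -/
theorem val_frac [Algebra.IsAlgebraic k C] {A : ValuationSubring k} {V : ValuationSubring C}
    (h : Above A V) (x : C) (hx : x ∈ V) :
    ∃ y z : C, ((algebraMap k C).comp A.subtype).IsIntegralElem y ∧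
      ((algebraMap k C).comp A.subtype).IsIntegralElem z ∧ V.valuation y = 1 ∧ x * y = z := by
  by_cases hx0 : x = 0
  · refine ⟨1, 0, RingHom.isIntegralElem_one _, RingHom.isIntegralElem_zero _, map_one _, ?_⟩
    rw [hx0, zero_mul]
  obtain ⟨P, hP0, hP⟩ := Algebra.IsAlgebraic.isAlgebraic (R := k) x
  obtain ⟨j, hj, hmax⟩ := Finset.exists_max_image P.support
    (fun i => toLex (A.valuation (P.coeff i), i)) (Polynomial.support_nonempty.2 hP0)
  have hcj : P.coeff j ≠ 0 := Polynomial.mem_support_iff.1 hj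
  have hvj : A.valuation (P.coeff j) ≠ 0 := (Valuation.ne_zero_iff _).2 hcj
  have hmax' : ∀ i, A.valuation (P.coeff i) < A.valuation (P.coeff j) ∨
      (A.valuation (P.coeff i) = A.valuation (P.coeff j) ∧ i ≤ j) := by
    intro i
    by_cases hi : i ∈ P.support
    · exact Prod.Lex.toLex_le_toLex.1 (hmax i hi)
    · left
      rw [Polynomial.notMem_support_iff.1 hi, map_zero]
      exact zero_lt_iff.2 hvj
  set b : ℕ → k := fun i => P.coeff i / P.coeff j with hb
  have hbj : b j = 1 := div_self hcj
  have hb1 : ∀ i, b i ∈ A := by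
    intro i
    rw [← A.valuation_le_one_iff, hb]
    simp only [map_div₀]
    apply div_le_one_of_le₀ _ zero_le
    rcases hmax' i with h1 | h1
    · exact h1.le
    · exact h1.1.le
  have hb2 : ∀ i, j < i → A.valuation (b i) < 1 := by
    intro i hi
    rw [hb]
    simp only [map_div₀]
    rcases hmax' i with h1 | h1
    · exact (div_lt_one₀ (zero_lt_iff.2 hvj)).2 h1
    · exact absurd h1.2 (not_le.2 hi)
  -- the values in `V` of the small coefficients
  have hb3 : ∀ i, j < i → V.valuation (algebraMap k C (b i)) < 1 := by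
    intro i hi
    by_cases h0 : b i = 0
    · rw [h0, map_zero, map_zero]
      exact zero_lt_one
    by_contra hcon
    push Not at hcon
    have h1 : algebraMap k C (b i)⁻¹ ∈ V := by
      rw [← V.valuation_le_one_iff, map_inv₀, map_inv₀]
      exact inv_le_one_of_one_le₀ hcon
    have h2 := (h _).1 h1
    rw [← A.valuation_le_one_iff, map_inv₀] at h2
    have h3 : A.valuation (b i) ≠ 0 := (Valuation.ne_zero_iff _).2 h0
    have h4 : A.valuation (b i) * (A.valuation (b i))⁻¹ < 1 :=
      mul_lt_one_of_lt_of_le (hb2 i hi) h2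
    rw [mul_inv_cancel₀ h3] at h4
    exact lt_irrefl _ h4
  obtain ⟨N, hN⟩ : ∃ N : ℕ, P.natDegree + 1 = j + N := by
    have h1 : j ≤ P.natDegree := Polynomial.le_natDegree_of_ne_zero hcj
    exact ⟨P.natDegree + 1 - j, by omega⟩
  have hN0 : 0 < N := by
    have h1 : j ≤ P.natDegree := Polynomial.le_natDegree_of_ne_zero hcj
    omega
  have hsum : ∑ i ∈ Finset.range (j + N), algebraMap k C (b i) * x ^ i = 0 := by
    have h1 : ∑ i ∈ Finset.range (P.natDegree + 1), algebraMap k C (P.coeff i) * x ^ i = 0 := by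
      rw [← hP, Polynomial.aeval_def, Polynomial.eval₂_eq_sum_range]
    rw [← hN]
    have h2 : ∀ i ∈ Finset.range (P.natDegree + 1), algebraMap k C (b i) * x ^ i =
        (algebraMap k C (P.coeff j))⁻¹ * (algebraMap k C (P.coeff i) * x ^ i) := by
      intro i _
      rw [hb]
      simp only [map_div₀]
      ring
    rw [Finset.sum_congr rfl h2, ← Finset.mul_sum, h1, mul_zero]
  rw [Finset.sum_range_add] at hsum
  set y : C := ∑ i ∈ Finset.range N, algebraMap k C (b (j + i)) * x ^ i with hy
  set z' : C := ∑ i ∈ Finset.range j, algebraMap k C (b i) * (x⁻¹) ^ (j - 1 - i) with hz'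
  have hxy : x * y = -z' := by
    have h1 : ∑ i ∈ Finset.range N, algebraMap k C (b (j + i)) * x ^ (j + i) = x ^ j * y := by
      rw [hy, Finset.mul_sum]
      refine Finset.sum_congr rfl fun i _ => ?_
      rw [pow_add]
      ring
    rw [h1] at hsum
    rcases Nat.eq_zero_or_pos j with hj0 | hj0
    · subst hj0
      rw [Finset.sum_range_zero, zero_add, pow_zero, one_mul] at hsum
      rw [hz', Finset.sum_range_zero, hsum, mul_zero, neg_zero]
    · have h2 : ∑ i ∈ Finset.range j, algebraMap k C (b i) * x ^ i = x ^ (j - 1) * z' := by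
        rw [hz', Finset.mul_sum]
        refine Finset.sum_congr rfl fun i hi => ?_
        rw [Finset.mem_range] at hi
        have h3 : x ^ (j - 1) * (x⁻¹) ^ (j - 1 - i) = x ^ i := by
          have h4 : j - 1 = i + (j - 1 - i) := by omega
          conv_lhs => rw [h4, pow_add]
          rw [Nat.add_sub_cancel_left, mul_assoc, ← mul_pow, mul_inv_cancel₀ hx0, one_pow, mul_one]
        rw [← h3]
        ring
      have h5 : x ^ j = x ^ (j - 1) * x := by
        rw [← pow_succ]
        congr 1
        omega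
      rw [h2, h5, mul_assoc, ← mul_add] at hsum
      have h6 := (mul_eq_zero.1 hsum).resolve_left (pow_ne_zero _ hx0)
      linear_combination h6
  have key : ∀ W : ValuationSubring C, (∀ a ∈ A, algebraMap k C a ∈ W) → y ∈ W ∧ x * y ∈ W := by
    intro W hW
    rcases W.mem_or_inv_mem x with hxW | hxW
    · have h1 : y ∈ W := sum_mem fun i _ => mul_mem (hW _ (hb1 _)) (pow_mem hxW _)
      exact ⟨h1, mul_mem hxW h1⟩
    · have h1 : z' ∈ W := sum_mem fun i _ => mul_mem (hW _ (hb1 _)) (pow_mem hxW _)
      have h2 : x * y ∈ W := by rw [hxy]; exact neg_mem h1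
      refine ⟨?_, h2⟩
      have h3 : y = x⁻¹ * (x * y) := by rw [← mul_assoc, inv_mul_cancel₀ hx0, one_mul]
      rw [h3]
      exact mul_mem hxW h2
  refine ⟨y, x * y, a1_integral A y fun W hW => (key W hW).1,
    a1_integral A _ fun W hW => (key W hW).2, ?_, rfl⟩
  -- the value of `y`
  obtain ⟨N', rfl⟩ : ∃ N', N = N' + 1 := ⟨N - 1, by omega⟩
  have h1 : y = 1 + ∑ i ∈ Finset.range N', algebraMap k C (b (j + (i + 1))) * x ^ (i + 1) := by
    rw [hy, Finset.sum_range_succ', add_comm, add_zero, hbj, map_one, pow_zero, mul_one]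
  rw [h1]
  apply Valuation.map_one_add_of_lt
  apply Valuation.map_sum_lt _ one_ne_zero
  intro i _
  rw [map_mul, map_pow]
  exact mul_lt_one_of_lt_of_le (hb3 _ (by omega))
    (pow_le_one' ((V.valuation_le_one_iff _).2 hx) _)





/-! ## [SC2-A3] the decomposition group surjects onto the automorphisms of the residue field
(file A3.lean; uses A1) -/

private theorem a3_mem {A : ValuationSubring k} {V : ValuationSubring C} (h : Above A V) (x : C)
    (hx : IsIntegral A x) : x ∈ V := by
  obtain ⟨p, hm, he⟩ := hx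
  let φ : A →+* V :=
    { toFun := fun a => ⟨algebraMap k C a, (h a).2 a.2⟩
      map_one' := by ext; simp
      map_mul' := fun a b => by ext; simp
      map_zero' := by ext; simp
      map_add' := fun a b => by ext; simp }
  have h1 : IsIntegral V x := by
    refine ⟨p.map φ, hm.map φ, ?_⟩
    rw [Polynomial.eval₂_map]
    exact he
  obtain ⟨y, hy⟩ := (IsIntegrallyClosed.isIntegral_iff (K := C)).1 h1
  rw [← hy]
  exact y.2

private theorem a3_invariant [IsGalois k C] (A : ValuationSubring k) :
    Algebra.IsInvariant A (integralClosure A C) (C ≃ₐ[k] C) := by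
  refine ⟨fun b hb => ?_⟩
  have h1 : (b : C) ∈ (⊥ : IntermediateField k C) := by
    rw [InfiniteGalois.mem_bot_iff_fixed]
    intro f
    have := congrArg (fun z : integralClosure A C => (z : C)) (hb f)
    exact this
  rw [IntermediateField.mem_bot] at h1
  obtain ⟨x, hx⟩ := h1
  have h2 : IsIntegral A x := by
    have h3 : IsIntegral A (algebraMap k C x) := by rw [hx]; exact b.2
    exact (isIntegral_algebraMap_iff (FaithfulSMul.algebraMap_injective k C)).1 h3
  obtain ⟨a, ha⟩ := (IsIntegrallyClosed.isIntegral_iff (K := k)).1 h2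
  refine ⟨a, ?_⟩
  apply Subtype.ext
  rw [← hx, ← ha]
  rfl

/-- the inclusion of the integral closure in `V` -/
private def a3_incl {A : ValuationSubring k} {V : ValuationSubring C} (h : Above A V) :
    integralClosure A C →+* V where
  toFun b := ⟨b, a3_mem h b b.2⟩
  map_one' := rfl
  map_mul' _ _ := rfl
  map_zero' := rfl
  map_add' _ _ := rfl

private theorem a3_res_zero {V : ValuationSubring C} (z : V) :
    residue V z = 0 ↔ V.valuation (z : C) < 1 := by
  rw [residue_eq_zero_iff, ← ValuationSubring.valuation_lt_one_iff]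

/-- `B`, `Q`, `G` as in A2 (file A2.lean). The map `B / Q → ResidueField V` is an isomorphism: `Q` is
maximal (`B` is integral over the local ring `A`), and by `val_frac` the residue of `z ∈ V` is
`z̄₁ / ȳ₁`, `z₁, y₁ ∈ B`. Transport `θ` to `B / Q` (over `A / m`) and lift it with
`Ideal.Quotient.stabilizerHom_surjective_of_profinite` to `σ` in the stabiliser of `Q`; as in A2,
`σ` stabilises `V`, and it induces `θ` because it does so on `B / Q`. -/
theorem exists_lift [IsGalois k C] {A : ValuationSubring k} {V : ValuationSubring C}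
    (h : Above A V) (θ : ResidueField V ≃+* ResidueField V)
    (hθ : ∀ (a : k) (ha : algebraMap k C a ∈ V),
      θ (residue V ⟨algebraMap k C a, ha⟩) = residue V ⟨algebraMap k C a, ha⟩) :
    ∃ (σ : C ≃ₐ[k] C) (hσ : ∀ z, σ z ∈ V ↔ z ∈ V),
      ∀ (z : C) (hz : z ∈ V), residue V ⟨σ z, (hσ z).2 hz⟩ = θ (residue V ⟨z, hz⟩) := by
  classical
  let B := integralClosure A C
  let f : B →+* ResidueField V := (residue V).comp (a3_incl h)
  let Q : Ideal B := RingHom.ker f
  have hQp : Q.IsPrime := RingHom.ker_isPrime f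
  let P : Ideal A := maximalIdeal A
  have hQmem : ∀ b : B, b ∈ Q ↔ V.valuation (b : C) < 1 := by
    intro b
    change f b = 0 ↔ _
    change residue V (a3_incl h b) = 0 ↔ _
    rw [a3_res_zero]
    rfl
  have hover : P = Q.under A := by
    ext a
    rw [Ideal.under, Ideal.mem_comap, hQmem]
    have h1 : ((algebraMap A B a : B) : C) = algebraMap k C (a : k) := rfl
    rw [h1]
    constructor
    · intro ha
      by_contra hcon
      push Not at hcon
      have h2 : (algebraMap k C (a : k))⁻¹ ∈ V := by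
        rw [← V.valuation_le_one_iff, map_inv₀]
        exact inv_le_one_of_one_le₀ hcon
      rw [← map_inv₀, h] at h2
      have h3 : (a : k) ≠ 0 := by
        intro h0
        rw [h0, map_zero, map_zero] at hcon
        exact absurd hcon (by simp)
      have h4 : IsUnit a := by
        refine ⟨⟨a, ⟨(a : k)⁻¹, h2⟩, ?_, ?_⟩, rfl⟩
        · ext; simp [h3]
        · ext; simp [h3]
      exact (mem_maximalIdeal a).1 ha h4
    · intro ha
      rw [mem_maximalIdeal, mem_nonunits_iff]
      intro hu
      obtain ⟨u, hu⟩ := hu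
      have h2 : ((a : A) : k) * ((u⁻¹ : Aˣ) : A) = 1 := by
        rw [← hu]
        have := congrArg (fun z : A => (z : k)) (u.mul_inv)
        exact this
      have h3 : algebraMap k C (a : k) * algebraMap k C (((u⁻¹ : Aˣ) : A) : k) = 1 := by
        rw [← map_mul, h2, map_one]
      have h4 : V.valuation (algebraMap k C (((u⁻¹ : Aˣ) : A) : k)) ≤ 1 := by
        rw [V.valuation_le_one_iff, h]
        exact ((u⁻¹ : Aˣ) : A).2
      have h5 := congrArg V.valuation h3
      rw [map_mul, map_one] at h5
      have h6 : V.valuation (algebraMap k C (a : k))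
          * V.valuation (algebraMap k C (((u⁻¹ : Aˣ) : A) : k)) < 1 :=
        mul_lt_one_of_lt_of_le ha h4
      rw [h5] at h6
      exact absurd h6 (lt_irrefl _)
  have hlo : Q.LiesOver P := ⟨hover⟩
  have hQmax : Q.IsMaximal := by
    apply Ideal.isMaximal_of_isIntegral_of_isMaximal_comap (R := A) Q
    have : Ideal.comap (algebraMap A B) Q = P := hover.symm
    rw [this]
    exact maximalIdeal.isMaximal A
  -- fractions
  have hfrac : ∀ z : C, z ∈ V → ∃ y1 z1 : B, V.valuation (y1 : C) = 1 ∧ z * (y1 : C) = z1 := by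
    intro z hz
    obtain ⟨y, w, hy, hw, hv, he⟩ := val_frac h z hz
    exact ⟨⟨y, hy⟩, ⟨w, hw⟩, hv, he⟩
  have hfy : ∀ y1 : B, V.valuation (y1 : C) = 1 → f y1 ≠ 0 := by
    intro y1 hy1 h0
    have := (hQmem y1).1 h0
    rw [hy1] at this
    exact absurd this (lt_irrefl _)
  have hfz : ∀ (z : C) (hz : z ∈ V) (y1 z1 : B), z * (y1 : C) = z1 →
      residue V ⟨z, hz⟩ * f y1 = f z1 := by
    intro z hz y1 z1 he
    change residue V ⟨z, hz⟩ * residue V (a3_incl h y1) = residue V (a3_incl h z1)
    rw [← map_mul]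
    congr 1
    exact Subtype.ext he
  have hfield : ∀ b : B, f b ≠ 0 → ∃ b' : B, f b' * f b = 1 := by
    intro b hb
    have hb' : Ideal.Quotient.mk Q b ≠ 0 := by
      rw [Ne, Ideal.Quotient.eq_zero_iff_mem]
      exact hb
    obtain ⟨c, hc⟩ := Ideal.Quotient.exists_inv (I := Q) hb'
    obtain ⟨b', rfl⟩ := Ideal.Quotient.mk_surjective c
    refine ⟨b', ?_⟩
    rw [← map_mul, mul_comm]
    rw [← map_mul, ← map_one (Ideal.Quotient.mk Q), Ideal.Quotient.eq] at hc
    have : f (b * b' - 1) = 0 := hc
    rw [map_sub, map_one, sub_eq_zero] at this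
    exact this
  have hsurj : Function.Surjective f := by
    intro r
    obtain ⟨⟨z, hz⟩, rfl⟩ := residue_surjective r
    obtain ⟨y1, z1, hv, he⟩ := hfrac z hz
    have h1 := hfz z hz y1 z1 he
    obtain ⟨b', hb'⟩ := hfield y1 (hfy y1 hv)
    refine ⟨b' * z1, ?_⟩
    rw [map_mul, ← h1]
    calc f b' * (residue V ⟨z, hz⟩ * f y1) = residue V ⟨z, hz⟩ * (f b' * f y1) := by ring
      _ = _ := by rw [hb', mul_one]
  let e : (B ⧸ Q) ≃+* ResidueField V := RingHom.quotientKerEquivOfSurjective hsurj
  have he : ∀ b : B, e (Ideal.Quotient.mk Q b) = f b := fun b => rfl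
  let θ0 : (B ⧸ Q) ≃+* (B ⧸ Q) := (e.trans θ).trans e.symm
  have hθ0 : ∀ b : B, e (θ0 (Ideal.Quotient.mk Q b)) = θ (f b) := by
    intro b
    simp only [θ0, RingEquiv.trans_apply, RingEquiv.apply_symm_apply, he]
  let θ1 : (B ⧸ Q) ≃ₐ[A ⧸ P] (B ⧸ Q) := AlgEquiv.ofRingEquiv (f := θ0) (by
    intro a
    obtain ⟨a, rfl⟩ := Ideal.Quotient.mk_surjective a
    have h1 : algebraMap (A ⧸ P) (B ⧸ Q) (Ideal.Quotient.mk P a)
        = Ideal.Quotient.mk Q (algebraMap A B a) := rfl
    rw [h1]
    apply e.injective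
    rw [hθ0, he]
    exact hθ (a : k) ((h a).2 a.2))
  let _ : TopologicalSpace B := ⊥
  have _ : DiscreteTopology B := ⟨rfl⟩
  have _ := a3_invariant (C := C) A
  have _ : ContinuousSMul (C ≃ₐ[k] C) B := by
    rw [continuousSMul_iff_stabilizer_isOpen]
    intro b
    have h1 := stabilizer_isOpen_of_isIntegral (K := k) (L := C) (b : C)
    have h2 : (MulAction.stabilizer (C ≃ₐ[k] C) b : Set (C ≃ₐ[k] C))
        = (MulAction.stabilizer (C ≃ₐ[k] C) (b : C) : Set (C ≃ₐ[k] C)) := by
      ext σ
      simp only [SetLike.mem_coe, MulAction.mem_stabilizer_iff]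
      exact Subtype.ext_iff
    rw [h2]
    exact h1
  obtain ⟨σ, hσ⟩ := Ideal.Quotient.stabilizerHom_surjective_of_profinite
    (G := (C ≃ₐ[k] C)) P Q θ1
  have hσQ : ∀ b : B, f (σ.1 • b) = θ (f b) := by
    intro b
    have h1 := DFunLike.congr_fun hσ (Ideal.Quotient.mk Q b)
    rw [Ideal.Quotient.stabilizerHom_apply] at h1
    have h2 := congrArg e h1
    rw [he] at h2
    rw [← hθ0 b]
    exact h2
  have hcoe : ∀ (τ : C ≃ₐ[k] C) (b : B), ((τ • b : B) : C) = τ (b : C) := fun τ b => rfl
  have hle : ∀ (τ : MulAction.stabilizer (C ≃ₐ[k] C) Q) (z : C), z ∈ V → τ.1 z ∈ V := by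
    intro τ z hz
    obtain ⟨y1, z1, hv, he1⟩ := hfrac z hz
    have h1 : τ.1 • y1 ∉ Q := by
      intro h2
      have h3 : y1 ∈ Q := by
        have h4 : τ.1 • y1 ∈ τ.1 • Q := by
          rw [(MulAction.mem_stabilizer_iff.1 τ.2 : τ.1 • Q = Q)]
          exact h2
        exact (Ideal.smul_mem_pointwise_smul_iff).1 h4
      exact hfy y1 hv h3
    rw [hQmem, not_lt, hcoe] at h1
    have h2 : V.valuation (τ.1 z1) ≤ 1 := by
      rw [V.valuation_le_one_iff, ← hcoe]
      exact a3_mem h _ (τ.1 • z1).2
    rw [← he1, map_mul, map_mul] at h2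
    rw [← V.valuation_le_one_iff]
    by_contra hcon
    push Not at hcon
    have h3 : 1 < V.valuation (τ.1 z) * V.valuation (τ.1 (y1 : C)) :=
      one_lt_mul_of_lt_of_le hcon h1
    exact absurd h2 (not_le.2 h3)
  have hstab : ∀ z, σ.1 z ∈ V ↔ z ∈ V := by
    intro z
    constructor
    · intro hz
      have := hle σ⁻¹ _ hz
      have h2 : (σ⁻¹).1 (σ.1 z) = z := by
        change (σ.1⁻¹) (σ.1 z) = z
        rw [← AlgEquiv.mul_apply, inv_mul_cancel, AlgEquiv.one_apply]
      rwa [h2] at this
    · exact hle σ z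
  refine ⟨σ.1, hstab, ?_⟩
  intro z hz
  obtain ⟨y1, z1, hv, he1⟩ := hfrac z hz
  have h1 := hfz z hz y1 z1 he1
  have h2 : σ.1 z * ((σ.1 • y1 : B) : C) = (σ.1 • z1 : B) := by
    rw [hcoe, hcoe, ← he1, map_mul]
  have h3 := hfz (σ.1 z) ((hstab z).2 hz) _ _ h2
  rw [hσQ, hσQ, ← h1, map_mul] at h3
  have h4 : θ (f y1) ≠ 0 := by
    rw [Ne, map_eq_zero_iff θ θ.injective]
    exact hfy y1 hv
  exact mul_right_cancel₀ h4 h3


end Pool.Agent.WLD.SC
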