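import Pool.Agent.WLD.Defs
import Pool.Agent.WLD.W7a
import Pool.Agent.TBM.Val

/-!
# Artin-Schreier covers: the lifting lemma (row W7)
-/

set_option autoImplicit false

namespace Pool.Agent.WLD

open Polynomial Pool.Agent.TBR Pool.Agent.TUQ IsLocalRing

universe u

section

variable {k Ω : Type u} [Field k] [Field Ω] [Algebra k Ω]
variable {A : IntermediateField k Ω} {V : ValuationSubring Ω} {r : V →+* Ω}

/-- the residue field of `V` is `A` -/
theorem exists_resEquiv (hP : Plc A V r) :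
    ∃ ē : ResidueField V ≃+* A, ∀ x : V, ((ē (residue V x) : A) : Ω) = r x := by
  let r' : V →+* A :=
    { toFun := fun x => ⟨r x, hP.res.mem x⟩
      map_one' := Subtype.ext (map_one r)
      map_mul' := fun x y => Subtype.ext (map_mul r x y)
      map_zero' := Subtype.ext (map_zero r)
      map_add' := fun x y => Subtype.ext (map_add r x y) }
  have hker : ∀ x : V, r' x = 0 ↔ x ∈ maximalIdeal V := by
    intro x
    have h1 : r' x = 0 ↔ r x = 0 := Subtype.ext_iff
    rw [h1, hP.res.zero_iff hP.mem, ValuationSubring.valuation_lt_one_iff]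
  have hsurj : Function.Surjective r' := by
    intro a
    refine ⟨⟨a, hP.mem a a.2⟩, ?_⟩
    exact Subtype.ext (hP.res.fix a _ a.2)
  have hk : RingHom.ker r' = maximalIdeal V := by
    ext x
    rw [RingHom.mem_ker, hker]
  let e0 : V ⧸ maximalIdeal V ≃+* A :=
    (Ideal.quotEquivOfEq hk.symm).trans (RingHom.quotientKerEquivOfSurjective hsurj)
  exact ⟨e0, fun x => rfl⟩

theorem exists_lft [IsAlgClosed Ω] (hP : Plc A V r) (E : IntermediateField k Ω)
    (halg : ∀ x : Ω, IsAlgebraic E x) (g : A ≃ₐ[k] A)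
    (hg : ∀ x ∈ E, ∀ (h : x ∈ V) (y : A), r ⟨x, h⟩ = y → g y = y) :
    ∃ σ ∈ Fx k (E : Set Ω), Lft A V r σ g := by
  obtain ⟨p, hpΩ⟩ := ExpChar.exists Ω
  have hA : Algebra.IsAlgebraic E Ω := ⟨halg⟩
  have hp : ExpChar E p := (algebraMap E Ω).expChar (algebraMap E Ω).injective p
  let K₁ := perfectClosure E Ω
  have hA1 : Algebra.IsAlgebraic K₁ Ω := Algebra.IsAlgebraic.tower_top (K := E) K₁
  have hG : IsGalois K₁ Ω := by
    have : IsAlgClosure K₁ Ω := ⟨inferInstance, hA1⟩
    have : Normal K₁ Ω := IsAlgClosure.normal K₁ Ω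
    have : Algebra.IsSeparable K₁ Ω := inferInstance
    exact ⟨⟩
  let W : ValuationSubring K₁ := V.comap (algebraMap K₁ Ω)
  have hW : SC.Above W V := fun a => Iff.rfl
  obtain ⟨e, he⟩ := exists_resEquiv hP
  let θ : ResidueField V ≃+* ResidueField V := (e.trans g.toRingEquiv).trans e.symm
  have hθ : ∀ x, e (θ x) = g (e x) := by
    intro x
    show e (e.symm (g.toRingEquiv (e x))) = _
    rw [e.apply_symm_apply]
    rfl
  have hpA : ExpChar A p := (algebraMap A Ω).expChar (algebraMap A Ω).injective p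
  obtain ⟨σ, hσ, hσr⟩ := SC.exists_lift hW θ (by
    intro a ha
    apply e.injective
    rw [hθ]
    obtain ⟨n, z, hz⟩ := (mem_perfectClosure_iff_pow_mem (F := E) (E := Ω) p).mp a.2
    have hzV : (z : Ω) ∈ V := by
      have h1 : ((a : Ω) ^ p ^ n) ∈ V := pow_mem (show (a : Ω) ∈ V from ha) _
      rw [← hz] at h1
      exact h1
    have h2 : e (residue V ⟨(z : Ω), hzV⟩) = (e (residue V ⟨algebraMap K₁ Ω a, ha⟩)) ^ p ^ n := by
      rw [← map_pow, ← map_pow]
      congr 2
      exact Subtype.ext hz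
    have h3 : g (e (residue V ⟨(z : Ω), hzV⟩)) = e (residue V ⟨(z : Ω), hzV⟩) :=
      hg _ z.2 hzV _ (he _).symm
    rw [h2, map_pow] at h3
    exact iterateFrobenius_inj A p n h3)
  refine ⟨AlgEquiv.ofRingEquiv (f := σ.toRingEquiv) fun c => ?_, fun x hx => ?_, ?_⟩
  · have h1 : algebraMap k Ω c = algebraMap K₁ Ω (algebraMap E K₁ (algebraMap k E c)) := rfl
    show σ (algebraMap k Ω c) = algebraMap k Ω c
    rw [h1]
    exact σ.commutes _
  · have h1 : x = algebraMap K₁ Ω (algebraMap E K₁ ⟨x, hx⟩) := rfl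
    show σ x = x
    conv_lhs => rw [h1]
    exact σ.commutes _
  · refine ⟨fun x => hσ x, fun x h h' y hy => ?_⟩
    have h1 := hσr x h
    have h2 : r ⟨σ x, (hσ x).2 h⟩ = ((e (residue V ⟨σ x, (hσ x).2 h⟩) : A) : Ω) := (he _).symm
    have h3 : (e (residue V ⟨x, h⟩) : A) = y := Subtype.ext ((he _).trans hy)
    show r ⟨σ x, (hσ x).2 h⟩ = ((g y : A) : Ω)
    rw [h2, h1, hθ, h3]

end

end Pool.Agent.WLD
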