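import Pool.Agent.WLD.W6c
import Pool.Agent.WLD.W10

/-!
# Block G
-/

set_option autoImplicit false

namespace Pool.Agent.WLD

open Polynomial Pool.Agent.TBR Pool.Agent.TUQ

universe u

/-- block G: the geometry of the embeddings -/
theorem blockGW (k Ω : Type u) [Field k] [Field Ω] [Algebra k Ω] : BlockGW k Ω := by
  intro hΩ A H hA hH K₀ z φ e a w U t hc hNU
  obtain ⟨t', hc', hCP⟩ := hc.exists_coord
  have haH := hc'.aH hNU
  obtain ⟨A₁, A₂, m, T, s, ξ, f, hG⟩ := hc'.exists_GD haH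
  refine ⟨m, ξ, fun i => T i - t', fun i => sub_ne_zero.2 (hG.Tt i), ?_, ?_⟩
  · intro V r hP
    by_cases hHV : ∀ x ∈ H, x ∈ V
    · by_cases haV : a ∈ V
      · left
        intro i hi hi'
        exact hG.alt1 hc' hCP hP hHV haV i hi hi'
      · right
        exact ⟨K₀, Or.inr rfl, hc'.al, hG.alt2_inf hc' hCP hP hHV haV⟩
    · push Not at hHV
      exact locG_of_notMem hc' hNU hG hP hHV
  · exact hG.exists_pos hc' hNU hCP

end Pool.Agent.WLD
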