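import Pool.Agent.WLD.EA3b
import Pool.Agent.WLD.EAI
import Pool.Agent.WLD.EA2a
import Pool.Agent.WLD.F9
import Pool.Agent.WLD.S7
import Pool.Agent.WLD.W11s
import Pool.Agent.TUQ.R9
import Pool.Agent.TUQ.Inv

/-!
# Towers of Artin-Schreier covers
-/

set_option autoImplicit false

namespace Pool.Agent.WLD

open Polynomial Pool.Agent.TBR Pool.Agent.TUQ Pool.Agent.UQ

universe u

theorem pi_sigma_aux {G H : Type*} [MulOneClass G] [MulOneClass H] (a : G →* H)
    (ha : Function.Injective a) {ι : Type*} {W : ι → Type*} [∀ c, MulOneClass (W c)]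
    (f : H →* ∀ c, W c) (hf : Function.Injective f) {n : ι → ℕ} {V : ∀ c, Fin (n c) → Type*}
    [∀ c j, MulOneClass (V c j)] (b : ∀ c, W c →* ∀ j, V c j)
    (hb : ∀ c, Function.Injective (b c)) {N : ℕ} (ε : Fin N → Σ c, Fin (n c))
    (hε : Function.Surjective ε) :
    ∃ g : G →* ∀ j : Fin N, V (ε j).1 (ε j).2, Function.Injective g := by
  refine ⟨MonoidHom.pi fun j => (Pi.evalMonoidHom (V (ε j).1) (ε j).2).comp ((b (ε j).1).comp
    ((Pi.evalMonoidHom W (ε j).1).comp (f.comp a))), ?_⟩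
  intro x y hxy
  have key : ∀ s : Σ c, Fin (n c), b s.1 (f (a x) s.1) s.2 = b s.1 (f (a y) s.1) s.2 := by
    intro s
    obtain ⟨j, rfl⟩ := hε s
    exact congrFun hxy j
  apply ha
  apply hf
  funext c
  apply hb c
  funext i
  exact key ⟨c, i⟩

section

variable {k M : Type u} [Field k] [Field M] [Algebra k M]

/-- `L` is generated by two finitely generated fields of transcendence degree at most one -/
def Two (L : IntermediateField k M) : Prop :=
  ∃ K₁ K₂ : IntermediateField k M, K₁.FG ∧ K₂.FG ∧ Algebra.trdeg k K₁ ≤ 1 ∧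
    Algebra.trdeg k K₂ ≤ 1 ∧ L = K₁ ⊔ K₂

/-- `K` has the property of the theorem -/
def Emt (K : IntermediateField k M) : Prop :=
  ∃ (n : ℕ) (L : Fin n → IntermediateField k M),
    (∀ j, Two (L j) ∧ ∀ x : M, IsAlgebraic (L j) x) ∧
    ∀ ℓ : ℕ, ℓ.Prime → (ℓ : k) ≠ 0 →
      ∃ f : Vl k K M ℓ →* (∀ j, Vl k (L j) M ℓ), Function.Injective f

/-- the cyclic case -/
theorem emt_cyclic [IsAlgClosed M] (p : ℕ) [Fact p.Prime] [CharP k p]
    (K₀ : IntermediateField k M) (hfg : K₀.FG) (htd : Algebra.trdeg k M = 2)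
    (hal : ∀ x : M, IsAlgebraic K₀ x) (e : ℕ) (he : 2 ≤ e) (hek : (e : k) ≠ 0)
    (z : M) (zN : aeval z (X ^ p - X : k[X]) ∈ K₀) (h : FamW K₀ z (X ^ p - X) e) :
    Emt (K₀ ⊔ IntermediateField.adjoin k {z}) := by
  have had := ad_artin (k := k) p e he hek
  have hsp : Two K₀ := h.split had
  by_cases hz : z ∈ K₀
  · have h1 : K₀ ⊔ IntermediateField.adjoin k {z} = K₀ := by
      refine sup_eq_left.2 ?_
      rw [IntermediateField.adjoin_le_iff]
      rintro y rfl
      exact hz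
    rw [h1]
    exact ⟨1, fun _ => K₀, fun _ => ⟨hsp, hal⟩, fun ℓ _ _ =>
      pi_const_aux (MonoidHom.id _) Function.injective_id⟩
  obtain ⟨L, i1, i2, i3, i4, a, w, ha, hw, hgen⟩ := fam_exists (X ^ p - X : k[X]) e had
    (⟨aeval z (X ^ p - X : k[X]), zN⟩ : K₀)
  obtain ⟨n, L', h1, h2⟩ := finalW (fun Ω _ _ => blockR k Ω) (fun Ω _ _ => blockGW k Ω)
    (fun A _ _ => invSt_aux k A) K₀ hfg htd hal (X ^ p - X) e had z zN
    (irr_of_notMem p K₀ z hz zN) L a w ha hw hgen
    (uniruled_famW K₀ htd hal (X ^ p - X) e had z zN L a w ha hw hgen h)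
  refine ⟨n, L', fun j => ⟨?_, (h1 j).2⟩, h2⟩
  rcases (h1 j).1 with h3 | h3
  · exact h3
  · rw [h3]
    exact hsp

/-- a finite family of extensions -/
theorem emt_of_inj {K K' : IntermediateField k M} {ι : Type} [Fintype ι]
    (hKK' : ∀ ℓ : ℕ, ℓ.Prime → ∃ f : Vl k K M ℓ →* Vl k K' M ℓ, Function.Injective f)
    (E : ι → IntermediateField k M)
    (h : ∀ ℓ : ℕ, ℓ.Prime → (ℓ : k) ≠ 0 →
      ∃ f : Vl k K' M ℓ →* (∀ c, Vl k (E c) M ℓ), Function.Injective f)
    (hE : ∀ c, Emt (E c)) : Emt K := by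
  choose n L hL hψ using hE
  let ε := Fintype.equivFin (Σ c, Fin (n c))
  refine ⟨Fintype.card (Σ c, Fin (n c)), fun j => L (ε.symm j).1 (ε.symm j).2,
    fun j => hL _ _, fun ℓ hℓ hk => ?_⟩
  obtain ⟨a, ha⟩ := hKK' ℓ hℓ
  obtain ⟨f, hf⟩ := h ℓ hℓ hk
  choose b hb using fun c => hψ c ℓ hℓ hk
  exact pi_sigma_aux a ha f hf b hb ε.symm ε.symm.surjective

theorem alg_le {A B : IntermediateField k M} (h : A ≤ B) {x : M} (hx : IsAlgebraic A x) :
    IsAlgebraic B x := by
  obtain ⟨p, hp0, hp⟩ := hx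
  refine ⟨p.map (IntermediateField.inclusion h : A →+* B),
    (Polynomial.map_ne_zero_iff (IntermediateField.inclusion_injective h)).2 hp0, ?_⟩
  rw [Polynomial.aeval_def, Polynomial.eval₂_map]
  exact hp

/-- the values of polynomials over `E` -/
theorem aeval_mem_sup (E : IntermediateField k M) {n : ℕ} (x : Fin n → M)
    (f : MvPolynomial (Fin n) E) :
    MvPolynomial.aeval x f ∈ E ⊔ IntermediateField.adjoin k (Set.range x) := by
  induction f using MvPolynomial.induction_on with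
  | C c =>
    rw [MvPolynomial.aeval_C]
    exact (le_sup_left : E ≤ _) c.2
  | add f g hf hg =>
    rw [map_add]
    exact add_mem hf hg
  | mul_X f i hf =>
    rw [map_mul, MvPolynomial.aeval_X]
    exact mul_mem hf ((le_sup_right : IntermediateField.adjoin k (Set.range x) ≤ _)
      (IntermediateField.subset_adjoin _ _ ⟨i, rfl⟩))

/-- combinations of solutions of Artin-Schreier equations -/
theorem comb_eq (p : ℕ) [Fact p.Prime] [CharP M p] {r : ℕ} (c : Fin r → ℕ) (y : Fin r → M) :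
    (∑ i, (c i : M) * y i) ^ p - ∑ i, (c i : M) * y i = ∑ i, (c i : M) * (y i ^ p - y i) := by
  have h1 : (∑ i, (c i : M) * y i) ^ p = ∑ i, (c i : M) * y i ^ p := by
    rw [← frobenius_def, map_sum]
    refine Finset.sum_congr rfl fun i _ => ?_
    rw [map_mul, map_natCast, frobenius_def]
  rw [h1, ← Finset.sum_sub_distrib]
  exact Finset.sum_congr rfl fun i _ => by ring

theorem tower_inj [IsAlgClosed M] (p : ℕ) [Fact p.Prime] [CharP k p]
    (htd : Algebra.trdeg k M = 2) (x : Fin 2 → M)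
    (hal : ∀ y : M, IsAlgebraic (IntermediateField.adjoin k (Set.range x)) y)
    (q : MvPolynomial (Fin 2) k) (hq : MvPolynomial.aeval x q ≠ 0) (ω : Fin 2 → ℕ)
    (e α γ D : ℕ) (he : 2 ≤ e) (hek : (e : k) ≠ 0) (h1 : e * α ≤ D)
    (h2 : e * MvPolynomial.weightedTotalDegree ω q + max 1 (p * γ) ≤ D)
    (h3 : D ≤ ω 0 + ω 1 + α + γ) (S : Finset M)
    (hS : ∀ z ∈ S, ∃ (φ : k[X]) (f : MvPolynomial (Fin 2) k), AddPoly φ ∧ derivative φ ≠ 0 ∧
      MvPolynomial.weightedTotalDegree ω f ≤ D ∧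
        aeval z φ * MvPolynomial.aeval x q ^ e = MvPolynomial.aeval x f)
    (F : IntermediateField k M)
    (hF : F ≤ IntermediateField.adjoin k (Set.range x ∪ (S : Set M)))
    (hFal : ∀ y : M, IsAlgebraic F y) : Emt F := by
  classical
  have hCM : CharP M p := charP_of_injective_algebraMap (algebraMap k M).injective p
  obtain ⟨C₀, r, y, hC₀, hy, hz⟩ := exists_span p x q hq ω e D S hS
  choose f hf hfy using hy
  obtain ⟨E, hE⟩ : ∃ E, E = IntermediateField.adjoin k (C₀ : Set M) := ⟨_, rfl⟩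
  rw [← hE] at hz
  subst hE
  have hxfg : (IntermediateField.adjoin k (Set.range x) : IntermediateField k M).FG :=
    ⟨Finset.univ.image x, by rw [Finset.coe_image, Finset.coe_univ, Set.image_univ]⟩
  have hyfg : (IntermediateField.adjoin k (Set.range y) : IntermediateField k M).FG :=
    ⟨Finset.univ.image y, by rw [Finset.coe_image, Finset.coe_univ, Set.image_univ]⟩
  have hEfg : (IntermediateField.adjoin k (C₀ : Set M)).FG := ⟨C₀, rfl⟩
  have hEalg : Algebra.IsAlgebraic k (IntermediateField.adjoin k (C₀ : Set M)) :=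
    IntermediateField.isAlgebraic_adjoin fun c hc => (hC₀ c hc).isIntegral
  have hEtd : Algebra.trdeg k (IntermediateField.adjoin k (C₀ : Set M)) = 0 :=
    trdeg_eq_zero_iff.2 hEalg
  obtain ⟨K₀, hK₀⟩ : ∃ K₀, K₀ = IntermediateField.adjoin k (C₀ : Set M) ⊔
    IntermediateField.adjoin k (Set.range x) := ⟨_, rfl⟩
  have hK₀fg : K₀.FG := by
    rw [hK₀]
    exact IntermediateField.fg_sup hEfg hxfg
  have hxK₀ : IntermediateField.adjoin k (Set.range x) ≤ K₀ := by
    rw [hK₀]
    exact le_sup_right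
  have hK₀al : ∀ y : M, IsAlgebraic K₀ y := fun y => alg_le hxK₀ (hal y)
  have hqE : MvPolynomial.aeval x (MvPolynomial.map (algebraMap k
      (IntermediateField.adjoin k (C₀ : Set M))) q) = MvPolynomial.aeval x q :=
    MvPolynomial.aeval_map_algebraMap _ x q
  have hqw : MvPolynomial.weightedTotalDegree ω (MvPolynomial.map (algebraMap k
      (IntermediateField.adjoin k (C₀ : Set M))) q) ≤
      MvPolynomial.weightedTotalDegree ω q := by
    rw [wtd_le_iff]
    intro d hd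
    exact (wtd_le_iff ω q _).1 le_rfl d (MvPolynomial.support_map_subset _ _ hd)
  have hqK₀ : MvPolynomial.aeval x q ∈ K₀ := by
    rw [hK₀, ← hqE]
    exact aeval_mem_sup _ x _
  have hyK₀ : ∀ i, y i ^ p - y i ∈ K₀ := by
    intro i
    have h5 : y i ^ p - y i = MvPolynomial.aeval x (f i) / MvPolynomial.aeval x q ^ e := by
      rw [eq_div_iff (pow_ne_zero _ hq), hfy i]
    rw [h5]
    refine div_mem ?_ (pow_mem hqK₀ _)
    rw [hK₀]
    exact aeval_mem_sup _ x _
  -- the big field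
  have hK'fg : (K₀ ⊔ IntermediateField.adjoin k (Set.range y) : IntermediateField k M).FG :=
    IntermediateField.fg_sup hK₀fg hyfg
  have hFK' : F ≤ K₀ ⊔ IntermediateField.adjoin k (Set.range y) := by
    refine hF.trans ?_
    rw [IntermediateField.adjoin_le_iff]
    rintro u (hu | hu)
    · exact (le_sup_left : K₀ ≤ _) (hxK₀ (IntermediateField.subset_adjoin _ _ hu))
    · rw [hK₀]
      exact hz u hu
  refine emt_of_inj (K' := K₀ ⊔ IntermediateField.adjoin k (Set.range y)) (ι := Fin r → ZMod p)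
    (fun ℓ hℓ => vl_res F _ hFK' hK'fg hFal hℓ) _
    (fun ℓ hℓ _ => ea_inj K₀ hK₀fg hK₀al p y hyK₀ hℓ) fun c => ?_
  -- the cyclic case
  show Emt (K₀ ⊔ IntermediateField.adjoin k {∑ i, ((c i).val : M) * y i})
  have hY := comb_eq p (fun i => (c i).val) y
  set Y := ∑ i, ((c i).val : M) * y i with hYdef
  have hYa : aeval Y (X ^ p - X : k[X]) = Y ^ p - Y := by
    rw [map_sub, map_pow, aeval_X]
  have hYK₀ : aeval Y (X ^ p - X : k[X]) ∈ K₀ := by
    rw [hYa, hY]
    exact sum_mem fun i _ => mul_mem (natCast_mem K₀ _) (hyK₀ i)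
  refine emt_cyclic p K₀ hK₀fg htd hK₀al e he hek Y hYK₀ ?_
  refine ⟨2, IntermediateField.adjoin k (C₀ : Set M), x,
    ∑ i, ((c i).val : IntermediateField.adjoin k (C₀ : Set M)) • f i,
    MvPolynomial.map (algebraMap k _) q, ω, α, γ, D, hEfg, hK₀, ?_, ?_, ?_, ?_, h1, ?_, ?_⟩
  · rw [hEtd]
    norm_num
  · rw [hqE]
    exact hq
  · rw [hYa, hY, hqE, map_sum, Finset.sum_mul]
    refine Finset.sum_congr rfl fun i _ => ?_
    rw [mul_assoc, hfy i, map_smul, Algebra.smul_def, map_natCast]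
  · rw [wtd_le_iff]
    intro d hd
    obtain ⟨i, -, hi⟩ := Finset.mem_biUnion.1 (MvPolynomial.support_sum hd)
    exact (wtd_le_iff ω (f i) D).1 (hf i) d (MvPolynomial.support_smul hi)
  · have h6 : (X ^ p - X : k[X]).natDegree = p := by
      have hp : 1 < p := (Fact.out : p.Prime).one_lt
      rw [natDegree_sub_eq_left_of_natDegree_lt] <;> simp [hp]
    rw [h6]
    exact (Nat.add_le_add_right (Nat.mul_le_mul_left _ hqw) _).trans h2
  · rw [Fin.sum_univ_two]
    exact h3

end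

end Pool.Agent.WLD
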