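import Pool.Agent.WLD.Defs
import Pool.Agent.TUQ.F3

/-!
# The set-up: a uniruled field in a rational function field
-/

set_option autoImplicit false

namespace Pool.Agent.WLD

open Polynomial Pool.Agent.TBR Pool.Agent.TUQ Pool.Agent.UQ Cardinal

universe u

theorem Ad.ne {k : Type u} [Field k] {φ : k[X]} {e : ℕ} (h : Ad φ e) : φ ≠ 0 := by
  rintro rfl
  exact h.sep derivative_zero

/-- `x` is algebraic if `φ(x)` is -/
theorem alg_of_aeval {k E L : Type*} [Field k] [Field E] [Field L] [Algebra k E] [Algebra E L]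
    [Algebra k L] [IsScalarTower k E L] {φ : k[X]} (hφ : 0 < φ.natDegree) {w : L}
    (h : IsAlgebraic E (aeval w φ)) : IsAlgebraic E w := by
  obtain ⟨p, hp, hp0⟩ := h
  have h1 : p.comp (φ.map (algebraMap k E)) ≠ 0 := by
    intro h0
    rcases comp_eq_zero_iff.1 h0 with h2 | ⟨-, h2⟩
    · exact hp h2
    · have h3 := congrArg natDegree h2
      rw [natDegree_map, natDegree_C] at h3
      omega
  refine ⟨_, h1, ?_⟩
  rw [aeval_comp, aeval_map_algebraMap]
  exact hp0

theorem setup_trL {k K₀ L : Type u} [Field k] [Field K₀] [Field L] [Algebra k K₀] [Algebra k L]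
    [Algebra K₀ L] [IsScalarTower k K₀ L] (h2 : Algebra.trdeg k K₀ = 2) (φ : k[X]) (e : ℕ)
    (had : Ad φ e) (a w : L) (c : K₀) (ha : Transcendental K₀ a)
    (hw : aeval w φ + a ^ e = algebraMap K₀ L c)
    (hgen : IntermediateField.adjoin K₀ {a, w} = ⊤) : Algebra.trdeg k L = 3 := by
  have h1 : Algebra.trdeg K₀ L = 1 := by
    set E := IntermediateField.adjoin K₀ ({a} : Set L) with hE
    have haE : a ∈ E := IntermediateField.mem_adjoin_simple_self K₀ a
    have hwalg : IsAlgebraic E w := by
      refine alg_of_aeval (k := K₀) (φ := φ.map (algebraMap k K₀))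
        (by have := had.deg; rw [natDegree_map]; omega) ?_
      rw [aeval_map_algebraMap]
      have h3 : aeval w φ = algebraMap K₀ L c - a ^ e := by rw [← hw, add_sub_cancel_right]
      have h4 : aeval w φ ∈ E := by
        rw [h3]
        exact sub_mem (E.algebraMap_mem c) (pow_mem haE e)
      exact isAlgebraic_algebraMap (⟨_, h4⟩ : E)
    have halg : Algebra.IsAlgebraic E L := by
      have h3 : IntermediateField.adjoin E ({w} : Set L) = ⊤ := by
        apply IntermediateField.restrictScalars_injective K₀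
        rw [IntermediateField.restrictScalars_top, ← hgen, hE,
          IntermediateField.adjoin_adjoin_left]
        rfl
      have h4 := IntermediateField.isAlgebraic_adjoin (K := E) (S := {w}) (by
        intro x hx
        rw [Set.mem_singleton_iff.1 hx]
        exact hwalg.isIntegral)
      rw [h3] at h4
      exact IntermediateField.topEquiv.isAlgebraic_iff.1 h4
    rw [← _root_.trdeg_add_eq K₀ E (A := L), _root_.trdeg_eq_zero (R := E) (A := L), add_zero]
    have h5 : Algebra.trdeg K₀ E = Algebra.trdeg K₀ (RatFunc K₀) :=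
      (RatFunc.algEquivOfTranscendental a ha).symm.trdeg_eq
    rw [h5]
    have h0 : Algebra.IsAlgebraic (Polynomial K₀) (RatFunc K₀) :=
      IsLocalization.isAlgebraic (RatFunc K₀) (nonZeroDivisors (Polynomial K₀))
    rw [← _root_.trdeg_add_eq K₀ (Polynomial K₀) (A := RatFunc K₀),
      _root_.trdeg_eq_zero (R := Polynomial K₀) (A := RatFunc K₀), add_zero,
      Polynomial.trdeg_of_isDomain]
  rw [← _root_.trdeg_add_eq k K₀ (A := L), h1, h2]
  norm_num

theorem irr_congr {k M M' : Type u} [Field k] [Field M] [Field M'] [Algebra k M] [Algebra k M']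
    (e : M ≃ₐ[k] M') (K₀ : IntermediateField k M) (φ : k[X]) (z : M) (zN : aeval z φ ∈ K₀)
    (zN' : aeval (e z) φ ∈ K₀.map (e : M →ₐ[k] M'))
    (irr : Irreducible (φ.map (algebraMap k K₀) - C (⟨aeval z φ, zN⟩ : K₀))) :
    Irreducible (φ.map (algebraMap k (K₀.map (e : M →ₐ[k] M'))) -
      C (⟨aeval (e z) φ, zN'⟩ : K₀.map (e : M →ₐ[k] M'))) := by
  let ε : K₀ ≃+* K₀.map (e : M →ₐ[k] M') := (K₀.intermediateFieldMap e).toRingEquiv
  have h1 : (Polynomial.mapEquiv ε) (φ.map (algebraMap k K₀) - C (⟨aeval z φ, zN⟩ : K₀)) =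
      φ.map (algebraMap k (K₀.map (e : M →ₐ[k] M'))) -
      C (⟨aeval (e z) φ, zN'⟩ : K₀.map (e : M →ₐ[k] M')) := by
    rw [Polynomial.mapEquiv_apply, Polynomial.map_sub, Polynomial.map_map, Polynomial.map_C]
    congr 2
    · apply RingHom.ext
      intro x
      exact (K₀.intermediateFieldMap e).commutes x
    · apply Subtype.ext
      show e (aeval z φ) = aeval (e z) φ
      exact (aeval_algHom_apply (e : M →ₐ[k] M') z φ).symm
  rw [← h1]
  exact (MulEquiv.irreducible_iff (Polynomial.mapEquiv ε)).2 irr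

theorem setupW {k M : Type u} [Field k] [Field M] [Algebra k M] [IsAlgClosed M]
    (K₀ : IntermediateField k M) (hfg : K₀.FG) (htd : Algebra.trdeg k M = 2)
    (hal : ∀ x : M, IsAlgebraic K₀ x) (φ : k[X]) (e₀ : ℕ) (had : Ad φ e₀)
    (z : M) (zN : aeval z φ ∈ K₀)
    (irr : Irreducible (φ.map (algebraMap k K₀) - C (⟨aeval z φ, zN⟩ : K₀)))
    (L : Type u) [Field L] [Algebra k L] [Algebra K₀ L] [IsScalarTower k K₀ L] (a w : L)
    (ha : Transcendental K₀ a)
    (hw : aeval w φ + a ^ e₀ = algebraMap K₀ L ⟨aeval z φ, zN⟩)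
    (hgen : IntermediateField.adjoin K₀ {a, w} = ⊤) (hL : Uniruled k L) :
    ∃ (Ω : Type u) (_ : Field Ω) (_ : Algebra k Ω) (A H : IntermediateField k Ω) (e : M ≃ₐ[k] A)
      (a' w' U t : Ω), IsAlgClosed Ω ∧ IsAlgClosed A ∧ IsAlgClosed H ∧
      CfW A H (K₀.map (e : M →ₐ[k] A)) (e z) φ e₀ a' w' U t := by
  have hKalg : Algebra.IsAlgebraic K₀ M := ⟨hal⟩
  have htd₀ : Algebra.trdeg k K₀ = 2 := by rw [← trdeg_alg k K₀ M, htd]
  have htL := setup_trL htd₀ φ e₀ had a w ⟨aeval z φ, zN⟩ ha hw hgen
  obtain ⟨M', _, _, hM'fg, hM't, ⟨φ'⟩⟩ := hL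
  rw [htL] at hM't
  -- the field `Ω`
  have h0 : Algebra.IsAlgebraic (Polynomial M') (RatFunc M') :=
    IsLocalization.isAlgebraic (RatFunc M') (nonZeroDivisors (Polynomial M'))
  have hR1 : Algebra.trdeg M' (RatFunc M') = 1 := by
    rw [← _root_.trdeg_add_eq M' (Polynomial M') (A := RatFunc M'),
      _root_.trdeg_eq_zero (R := Polynomial M') (A := RatFunc M'), add_zero,
      Polynomial.trdeg_of_isDomain]
  have hR3 : Algebra.trdeg k (RatFunc M') = 3 := by
    rw [← _root_.trdeg_add_eq k M' (A := RatFunc M'), hR1, hM't]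
  have hM'2 : Algebra.trdeg k M' = 2 := by
    have h1 : (2 : Cardinal.{u}) + 1 = 3 := by norm_num
    rw [← h1] at hM't
    exact (Cardinal.add_one_inj).1 hM't
  let Ω := AlgebraicClosure (RatFunc M')
  have hΩR : Algebra.trdeg k Ω = 3 := by rw [trdeg_alg k (RatFunc M') Ω, hR3]
  let ι : RatFunc M' →ₐ[k] Ω := IsScalarTower.toAlgHom k (RatFunc M') Ω
  let j : L →ₐ[k] Ω := ι.comp φ'
  let j₀ : K₀ →ₐ[k] Ω := j.comp (IsScalarTower.toAlgHom k K₀ L)
  -- the field `H`
  let HM : IntermediateField M' Ω := algebraicClosure M' Ω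
  let H : IntermediateField k Ω := HM.restrictScalars k
  have hHcl : IsAlgClosed H := by
    have h1 : IsAlgClosure M' HM := inferInstance
    exact h1.isAlgClosed
  have hM'H : ∀ x : M', algebraMap M' Ω x ∈ H := fun x => HM.algebraMap_mem x
  have hH2 : Algebra.trdeg k H = 2 := by
    have h1 : Algebra.IsAlgebraic M' HM := algebraicClosure.isAlgebraic M' Ω
    have h2 := trdeg_alg k M' HM
    rw [hM'2] at h2
    exact h2
  let t : Ω := ι RatFunc.X
  have htM' : Transcendental M' t := by
    intro h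
    have h1 : IsAlgebraic M' (algebraMap (RatFunc M') Ω RatFunc.X) := h
    rw [isAlgebraic_algebraMap_iff (algebraMap (RatFunc M') Ω).injective] at h1
    exact RatFunc.transcendental_X h1
  have htH : t ∉ H := fun h => htM' (mem_algebraicClosure_iff.1 h)
  have hRH : ∀ x : RatFunc M', ι x ∈ AA H {t} := by
    intro x
    have hpol : ∀ p : M'[X], ι (algebraMap M'[X] (RatFunc M') p) ∈ AA H {t} := by
      intro p
      induction p using Polynomial.induction_on' with
      | add p q hp hq => rw [map_add, map_add]; exact add_mem hp hq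
      | monomial n c =>
        rw [← C_mul_X_pow_eq_monomial, map_mul, map_mul, map_pow, map_pow, RatFunc.algebraMap_C,
          RatFunc.algebraMap_X]
        refine mul_mem ?_ (pow_mem ?_ n)
        · exact (le_sup_left : H ≤ AA H {t}) (hM'H c)
        · exact (le_sup_right : IntermediateField.adjoin k {t} ≤ AA H {t})
            (IntermediateField.subset_adjoin k _ rfl)
    obtain ⟨p, q, hq, rfl⟩ := IsFractionRing.div_surjective (A := M'[X]) x
    rw [map_div₀]
    exact div_mem (hpol p) (hpol q)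
  -- the field `A`
  let _ : Algebra K₀ Ω := j₀.toRingHom.toAlgebra
  have hst : IsScalarTower k K₀ Ω := IsScalarTower.of_algebraMap_eq fun x => (j₀.commutes x).symm
  let lift : M →ₐ[K₀] Ω := IsAlgClosed.lift
  let i : M →ₐ[k] Ω := lift.restrictScalars k
  have hi : ∀ x : K₀, i x = j (algebraMap K₀ L x) := fun x => lift.commutes x
  let A : IntermediateField k Ω := i.fieldRange
  have hAcl : IsAlgClosed A := range_closed i
  let e : M ≃ₐ[k] A := AlgEquiv.ofInjectiveField i
  have he : ∀ x, ((e x : A) : Ω) = i x := fun x => rfl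
  have hA2 : Algebra.trdeg k A = 2 := by rw [← e.trdeg_eq, htd]
  have htrA : Algebra.trdeg A Ω ≤ 1 := by
    have h1 := _root_.trdeg_add_eq k A (A := Ω)
    rw [hΩR, hA2] at h1
    refine trdeg_cancel 2 (a := 2) ?_ (by norm_num)
    rw [h1]
    norm_num
  have htrH : Algebra.trdeg H Ω ≤ 1 := by
    have h1 := _root_.trdeg_add_eq k H (A := Ω)
    rw [hΩR, hH2] at h1
    refine trdeg_cancel 2 (a := 2) ?_ (by norm_num)
    rw [h1]
    norm_num
  have haA : j a ∉ A := by
    rintro ⟨x, hx⟩
    apply ha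
    have h1 : IsAlgebraic K₀ (i x) := (hal x).algHom lift
    have hx' : i x = j a := hx
    rw [hx'] at h1
    obtain ⟨p, hp, hp0⟩ := h1
    refine ⟨p, hp, ?_⟩
    apply j.injective
    rw [map_zero, ← hp0]
    rw [Polynomial.aeval_def, Polynomial.aeval_def, ← AlgHom.coe_toRingHom, Polynomial.hom_eval₂]
    rfl
  let U : Ω := i z - j w
  have hizN : aeval (i z) φ = j (algebraMap K₀ L ⟨aeval z φ, zN⟩) := by
    rw [aeval_algHom_apply, ← hi]
  refine ⟨Ω, inferInstance, inferInstance, A, H, e, j a, j w, U, t, inferInstance, hAcl, hHcl, ?_⟩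
  have zN' : aeval (e z) φ ∈ K₀.map (e : M →ₐ[k] A) :=
    ⟨aeval z φ, zN, (aeval_algHom_apply (e : M →ₐ[k] A) z φ).symm⟩
  exact
    { trA := fun x hx y => alg_of_trdeg A htrA x hx y
      trH := fun x hx y => alg_of_trdeg H htrH x hx y
      tdA := hA2
      tdH := hH2
      fg := by
        obtain ⟨S, hS⟩ := hfg
        classical
        refine ⟨S.image e, ?_⟩
        rw [← hS, IntermediateField.adjoin_map, Finset.coe_image]
        rfl
      al := by
        intro x
        obtain ⟨y, rfl⟩ := e.surjective x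
        obtain ⟨p, hp, hp0⟩ := hal y
        let ε : K₀ ≃ₐ[k] K₀.map (e : M →ₐ[k] A) := K₀.intermediateFieldMap e
        refine ⟨p.map (ε : K₀ →+* K₀.map (e : M →ₐ[k] A)), ?_, ?_⟩
        · exact (Polynomial.map_ne_zero_iff ε.injective).2 hp
        · rw [Polynomial.aeval_def, Polynomial.eval₂_map]
          have h1 : (algebraMap (K₀.map (e : M →ₐ[k] A)) A).comp
              (ε : K₀ →+* K₀.map (e : M →ₐ[k] A)) = (e : M →+* A).comp (algebraMap K₀ M) := by
            ext x
            rfl
          have h2 : e y = (e : M →+* A) y := rfl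
          rw [h1, h2, ← Polynomial.hom_eval₂, ← Polynomial.aeval_def, hp0, map_zero]
      zN := zN'
      irr := irr_congr e K₀ φ z zN zN' irr
      ad := had
      aA := haA
      tH := htH
      K₀t := by
        rintro x ⟨y, hy, rfl⟩
        have h1 : ((((e : M →ₐ[k] A) y : A)) : Ω) = ι (φ' (algebraMap K₀ L ⟨y, hy⟩)) := by
          show i y = _
          exact hi ⟨y, hy⟩
        show (((e : M →ₐ[k] A) y : A) : Ω) ∈ _
        rw [h1]
        exact hRH _
      at' := hRH _
      wt := hRH _
      eqU := by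
        show aeval (i z - j w) φ = (j a) ^ e₀
        have h1 : aeval (i z) φ = aeval (i z - j w) φ + aeval (j w) φ := by
          rw [← had.add, sub_add_cancel]
        have h2 : aeval (j w) φ + (j a) ^ e₀ = aeval (i z) φ := by
          rw [hizN, ← hw, map_add, map_pow, aeval_algHom_apply]
        rw [← h2] at h1
        linear_combination -h1
      eqz := by
        show j w + (i z - j w) = i z
        ring }

end Pool.Agent.WLD
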