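import Pool.Agent.WLD.Defs
import Pool.Agent.TUQ.S3f

/-!
# Artin-Schreier covers: `K₀` and `a` are not in `H`
-/

set_option autoImplicit false

namespace Pool.Agent.WLD

open Polynomial Pool.Agent.TBR Pool.Agent.TUQ Pool.Agent.UQ

universe u

/-! ## Additive polynomials -/

section

variable {k L : Type u} [Field k] [Field L] [Algebra k L]

theorem ap_zero {φ : k[X]} (h : AddPoly φ) : aeval (0 : L) φ = 0 := by
  have := h L 0 0
  rw [add_zero] at this
  exact left_eq_add.1 this

theorem ap_sub {φ : k[X]} (h : AddPoly φ) (x y : L) :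
    aeval (x - y) φ = aeval x φ - aeval y φ := by
  have := h L (x - y) y
  rw [sub_add_cancel] at this
  exact eq_sub_of_add_eq this.symm

/-- the derivative of an additive polynomial is constant -/
theorem ap_deriv {φ : k[X]} (h : AddPoly φ) : derivative φ = C (φ.coeff 1) := by
  classical
  have hinf : Infinite (RatFunc k) :=
    Infinite.of_injective _ (IsFractionRing.injective k[X] (RatFunc k))
  have h1 : ∀ y : RatFunc k, (φ.map (algebraMap k (RatFunc k))).comp (X + C y) =
      φ.map (algebraMap k (RatFunc k)) + C (aeval y φ) := by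
    intro y
    refine Polynomial.funext fun x => ?_
    rw [eval_comp, eval_add, eval_add, eval_X, eval_C, eval_map_algebraMap, eval_map_algebraMap,
      eval_C]
    exact h (RatFunc k) x y
  have h2 : ∀ y : RatFunc k, aeval y (derivative φ) = aeval (0 : RatFunc k) (derivative φ) := by
    intro y
    have h3 := congrArg (fun p => (derivative p).eval 0) (h1 y)
    simp only [derivative_comp, derivative_add, derivative_X, derivative_C, add_zero,
      one_mul, eval_comp, eval_add, eval_X, eval_C, zero_add] at h3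
    rw [derivative_map, eval_map_algebraMap, eval_map_algebraMap] at h3
    exact h3
  have h4 : (derivative φ - C ((derivative φ).coeff 0)).map (algebraMap k (RatFunc k)) = 0 := by
    refine Polynomial.funext fun y => ?_
    rw [eval_map_algebraMap, map_sub, h2 y, aeval_C, eval_zero, sub_eq_zero, aeval_def,
      eval₂_at_zero]
  rw [Polynomial.map_eq_zero, sub_eq_zero] at h4
  rw [h4, coeff_derivative]
  norm_num

theorem ap_sep {φ : k[X]} (h : AddPoly φ) (hd : derivative φ ≠ 0) : φ.Separable := by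
  have h1 := ap_deriv h
  rw [h1] at hd
  have h2 : φ.coeff 1 ≠ 0 := fun h0 => hd (by rw [h0, C_0])
  rw [Separable, h1]
  refine ⟨0, C (φ.coeff 1)⁻¹, ?_⟩
  rw [zero_mul, zero_add, ← C_mul, inv_mul_cancel₀ h2, C_1]

/-- the degree of a separable additive polynomial is a power of the characteristic -/
theorem ap_dvd {φ : k[X]} (h : AddPoly φ) (hd : derivative φ ≠ 0) (e : ℕ) (he : 2 ≤ e)
    (e0 : (e : k) ≠ 0) : ¬ e ∣ φ.natDegree := by
  classical
  intro hdv
  obtain ⟨q, hq, hqe⟩ := Nat.exists_prime_and_dvd (show e ≠ 1 by omega)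
  let L := AlgebraicClosure k
  have h0 : φ ≠ 0 := by
    rintro rfl
    exact hd derivative_zero
  let G : AddSubgroup L :=
    { carrier := φ.rootSet L
      add_mem' := by
        intro a b ha hb
        rw [mem_rootSet] at ha hb ⊢
        refine ⟨h0, ?_⟩
        rw [h L a b, ha.2, hb.2, add_zero]
      zero_mem' := by
        rw [mem_rootSet]
        exact ⟨h0, ap_zero h⟩
      neg_mem' := by
        intro a ha
        rw [mem_rootSet] at ha ⊢
        refine ⟨h0, ?_⟩
        have := ap_sub h (0 : L) a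
        rw [zero_sub, ap_zero h, ha.2, sub_zero] at this
        exact this }
  have hcard : Nat.card G = φ.natDegree := by
    have h1 := card_rootSet_eq_natDegree (K := L) (ap_sep h hd) (IsAlgClosed.splits _)
    rw [← h1, Fintype.card_eq_nat_card]
    exact Nat.card_congr (Equiv.refl _)
  have hfin : Finite G := Nat.finite_of_card_ne_zero (by
    rw [hcard]
    intro h1
    rw [natDegree_eq_zero_iff_degree_le_zero, degree_le_zero_iff] at h1
    apply hd
    rw [h1, derivative_C])
  have := Fact.mk hq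
  obtain ⟨x, hx⟩ := exists_prime_addOrderOf_dvd_card' q
    (by rw [hcard]; exact hqe.trans hdv : q ∣ Nat.card G)
  have hx0 : (x : L) ≠ 0 := by
    intro h1
    have h2 : x = 0 := Subtype.ext h1
    rw [h2, addOrderOf_zero] at hx
    exact hq.one_lt.ne hx
  have h1 : q • (x : L) = 0 := by
    have := addOrderOf_nsmul_eq_zero x
    rw [hx] at this
    exact congrArg Subtype.val this
  rw [nsmul_eq_mul] at h1
  have h2 : (q : L) = 0 := (mul_eq_zero.1 h1).resolve_right hx0
  obtain ⟨m, rfl⟩ := hqe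
  apply e0
  apply (algebraMap k L).injective
  rw [map_natCast, map_zero, Nat.cast_mul, h2, zero_mul]

theorem ap_map {φ : k[X]} (hd : derivative φ ≠ 0) :
    derivative (φ.map (algebraMap k L)) ≠ 0 := by
  rw [derivative_map]
  exact (Polynomial.map_ne_zero_iff (algebraMap k L).injective).2 hd

end

/-! ## The curve `φ(U) = a ^ e` is not rational -/

section

variable {k Ω : Type u} [Field k] [Field Ω] [Algebra k Ω]

/-- a rational parametrization of `φ(U) = a ^ e` is constant -/
theorem as_rat (H : IntermediateField k Ω) [IsAlgClosed H] (t : Ω) (ht : t ∉ H) {φ : k[X]}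
    (hφ : AddPoly φ) (hd : derivative φ ≠ 0) (hQ : 1 < φ.natDegree) (e : ℕ) (he : 2 ≤ e)
    (e0 : (e : k) ≠ 0) (a U : Ω) (ha : a ∈ AA H {t}) (hU : U ∈ AA H {t})
    (h : aeval U φ = a ^ e) : U ∈ H := by
  classical
  by_contra hUH
  obtain ⟨P, Q, hPQ, hQ0, hQt, hU'⟩ := exists_frac H t ht U hU
  obtain ⟨a₁, a₂, -, ha₂, ha₂t, ha'⟩ := exists_frac H t ht a ha
  set φ' := φ.map (algebraMap k H) with hφ'
  have hφ0 : φ ≠ 0 := by
    rintro rfl
    exact hd derivative_zero
  have hφ'0 : φ' ≠ 0 := (Polynomial.map_ne_zero_iff (algebraMap k H).injective).2 hφ0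
  have hdeg : φ'.natDegree = φ.natDegree := natDegree_map _
  have hsep : φ'.Separable := (ap_sep hφ hd).map
  have hroot : ∀ β, φ'.IsRoot β → φ'.rootMultiplicity β = 1 := by
    intro β hβ
    refine le_antisymm ?_ ((rootMultiplicity_pos hφ'0).2 hβ)
    exact rootMultiplicity_le_one_of_separable hsep β
  have hinj : ∀ f g : H[X], aeval t f = aeval t g → f = g := by
    intro f g h
    by_contra hne
    have := aeval_ne_zero H t ht (f - g) (sub_ne_zero.2 hne)
    rw [map_sub, h, sub_self] at this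
    exact this rfl
  have hUPQ : aeval t P / aeval t Q = U := by rw [div_eq_iff hQt, hU']
  have ha0 : a ≠ 0 := by
    rintro rfl
    apply hUH
    apply s_mem_of_alg' H
    refine ⟨φ', hφ'0, ?_⟩
    rw [hφ', aeval_map_algebraMap, h, zero_pow (by omega)]
  have ha₁ : a₁ ≠ 0 := by
    rintro rfl
    rw [map_zero] at ha'
    exact ha0 ((mul_eq_zero.1 ha').resolve_right ha₂t)
  refine rh_main e ?_ φ' 1 hφ'0 one_ne_zero isCoprime_one_right ?_ ?_ ?_ φ'.natDegree le_rfl
    (by rw [natDegree_one]; exact Nat.zero_le _) P Q a₁ a₂ hPQ ?_ ha₁ ha₂ ?_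
  · have h3 : algebraMap k H (e : k) ≠ 0 := (_root_.map_ne_zero _).2 e0
    rwa [map_natCast] at h3
  · rw [natDegree_one, Nat.cast_zero, sub_zero, Int.natAbs_natCast, hdeg]
    exact ap_dvd hφ hd e he e0
  · intro β hβ
    rw [mul_one] at hβ ⊢
    rw [hroot β hβ, Nat.dvd_one]
    omega
  · have h1 : 1 < φ'.roots.toFinset.card := by
      rw [Multiset.toFinset_card_of_nodup (nodup_roots hsep), IsAlgClosed.card_roots_eq_natDegree,
        hdeg]
      exact hQ
    obtain ⟨c₁, h2, c₂, h3, h4⟩ := Finset.one_lt_card.1 h1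
    rw [Multiset.mem_toFinset] at h2 h3
    refine ⟨c₁, c₂, h4, ?_, ?_⟩
    · rw [mul_one]
      exact isRoot_of_mem_roots h2
    · rw [mul_one]
      exact isRoot_of_mem_roots h3
  · by_contra h0
    push Not at h0
    have h3 : max P.natDegree Q.natDegree = 0 := Nat.le_zero.1 h0
    have h4 : P.natDegree = 0 := Nat.le_zero.1 (h3 ▸ le_max_left _ _)
    have h5 : Q.natDegree = 0 := Nat.le_zero.1 (h3 ▸ le_max_right _ _)
    apply hUH
    rw [← hUPQ, eq_C_of_natDegree_eq_zero h4, eq_C_of_natDegree_eq_zero h5, aeval_C, aeval_C]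
    exact div_mem (P.coeff 0).2 (Q.coeff 0).2
  · apply hinj
    have h1 : (1 : H[X]).natDegree ≤ φ'.natDegree := by
      rw [natDegree_one]
      exact Nat.zero_le _
    rw [map_mul, map_mul, map_pow, map_pow, hg_eval _ (1 : H[X]) h1 P Q t hQt,
      hg_eval _ φ' le_rfl P Q t hQt, hUPQ, hφ', aeval_map_algebraMap, h, ← ha', mul_pow, map_one]
    ring

end

/-! ## The configuration -/

section

variable {k Ω : Type u} [Field k] [Field Ω] [Algebra k Ω]

/-- the subfield `H` is contained in `A` only if it is equal to `A` -/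
theorem eq_of_le (A H : IntermediateField k Ω) [IsAlgClosed H]
    (trA : ∀ x : Ω, x ∉ A → ∀ y : Ω, IsAlgebraic (AA A {x}) y) (t : Ω) (tH : t ∉ H) (h1 : A ≤ H) :
    H = A := by
  refine le_antisymm (fun x hx => ?_) h1
  by_contra hxA
  apply tH
  apply s_mem_of_alg' H
  have h3 := trA x hxA t
  have h4 : AA A {x} ≤ H := by
    refine sup_le h1 ?_
    rw [IntermediateField.adjoin_le_iff]
    rintro y rfl
    exact hx
  obtain ⟨p, hp, h5⟩ := h3
  let g : AA A {x} →+* H :=
    { toFun := fun y => ⟨(y : Ω), h4 y.2⟩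
      map_one' := rfl
      map_mul' := fun x y => rfl
      map_zero' := rfl
      map_add' := fun x y => rfl }
  refine ⟨p.map g, (Polynomial.map_ne_zero_iff g.injective).2 hp, ?_⟩
  rw [aeval_def] at h5
  rw [aeval_def, eval₂_map]
  exact h5

theorem le_of_K₀ (A H : IntermediateField k Ω) [IsAlgClosed H] (K₀ : IntermediateField k A)
    (al : ∀ x : A, IsAlgebraic K₀ x) (hcon : ∀ x ∈ K₀, (x : Ω) ∈ H) : A ≤ H := by
  intro x hx
  apply s_mem_of_alg' H
  obtain ⟨p, hp, h1⟩ := al ⟨x, hx⟩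
  let g : K₀ →+* H :=
    { toFun := fun y => ⟨((y : A) : Ω), hcon y y.2⟩
      map_one' := rfl
      map_mul' := fun x y => rfl
      map_zero' := rfl
      map_add' := fun x y => rfl }
  refine ⟨p.map g, (Polynomial.map_ne_zero_iff g.injective).2 hp, ?_⟩
  have h2 := congrArg (algebraMap A Ω) h1
  rw [map_zero, aeval_def, hom_eval₂] at h2
  rw [aeval_def, eval₂_map]
  exact h2

theorem aeval_mem' (A : IntermediateField k Ω) (φ : k[X]) {x : Ω} (hx : x ∈ A) :
    aeval x φ ∈ A := by
  rw [aeval_eq_sum_range]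
  refine sum_mem fun i _ => ?_
  exact A.smul_mem (pow_mem hx i)

variable {A H : IntermediateField k Ω} {V : ValuationSubring Ω} {r : V →+* Ω}
  {K₀ : IntermediateField k A} {z : A} {φ : k[X]} {e : ℕ} {a w U t : Ω}

/-- valuation rings which contain `k` are integrally closed -/
theorem mem_of_aeval' (hV : ∀ c : k, algebraMap k Ω c ∈ V) (φ : k[X]) (h0 : φ.natDegree ≠ 0)
    {x : Ω} (hx : aeval x φ ∈ V) : x ∈ V := by
  classical
  let g : k →+* V :=
    { toFun := fun c => ⟨algebraMap k Ω c, hV c⟩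
      map_one' := Subtype.ext (map_one _)
      map_mul' := fun x y => Subtype.ext (map_mul _ x y)
      map_zero' := Subtype.ext (map_zero _)
      map_add' := fun x y => Subtype.ext (map_add _ x y) }
  have hφ0 : φ ≠ 0 := fun h => h0 (by rw [h, natDegree_zero])
  have hu : g φ.leadingCoeff ≠ 0 := (_root_.map_ne_zero g).2 (leadingCoeff_ne_zero.2 hφ0)
  let P : V[X] := φ.map g - C ⟨aeval x φ, hx⟩
  have hdeg : (C (⟨aeval x φ, hx⟩ : V)).degree < (φ.map g).degree := by
    refine lt_of_le_of_lt degree_C_le ?_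
    rw [degree_map]
    exact natDegree_pos_iff_degree_pos.1 (Nat.pos_of_ne_zero h0)
  have hlead : P.leadingCoeff = g φ.leadingCoeff := by
    rw [leadingCoeff_sub_of_degree_lt hdeg, leadingCoeff_map]
  have hP : aeval x P = 0 := by
    have h1 : aeval x (φ.map g) = aeval x φ := by
      rw [aeval_def, eval₂_map, aeval_def]
      rfl
    rw [map_sub, h1, aeval_C, sub_eq_zero]
    rfl
  have h1 : IsIntegral V (P.leadingCoeff • x) := isIntegral_leadingCoeff_smul P x hP
  obtain ⟨y, hy⟩ := (IsIntegrallyClosed.isIntegral_iff (R := V)).1 h1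
  have h2 : x = algebraMap k Ω (φ.leadingCoeff)⁻¹ * y := by
    have h3 : (y : Ω) = algebraMap k Ω φ.leadingCoeff * x := by
      rw [← show algebraMap V Ω y = (y : Ω) from rfl, hy, hlead]
      rfl
    rw [h3, ← mul_assoc, ← map_mul, inv_mul_cancel₀ (leadingCoeff_ne_zero.2 hφ0), map_one, one_mul]
  rw [h2]
  exact mul_mem (hV _) y.2

theorem plc_mem_of_aeval (hP : Plc A V r) (φ : k[X]) (h0 : φ.natDegree ≠ 0)
    {x : Ω} (hx : aeval x φ ∈ V) : x ∈ V :=
  mem_of_aeval' hP.k_mem φ h0 hx

theorem CfW.mem_of_pow (E : IntermediateField k Ω) [IsAlgClosed E]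
    (hc : CfW A H K₀ z φ e a w U t) (h : a ^ e ∈ E) : a ∈ E := by
  apply s_mem_of_alg' E
  refine IsAlgebraic.of_pow (n := e) (by have := hc.ad.e2; omega) ?_
  exact isAlgebraic_algebraMap (⟨a ^ e, h⟩ : E)

/-- `U` is transcendental over an algebraically closed field which does not contain `a` -/
theorem CfW.U_notMem (E : IntermediateField k Ω) [IsAlgClosed E]
    (hc : CfW A H K₀ z φ e a w U t) (h : a ∉ E) : U ∉ E := by
  intro hU
  apply h
  apply hc.mem_of_pow E
  rw [← hc.eqU]
  exact aeval_mem' E φ hU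

theorem CfW.UA [IsAlgClosed A] (hc : CfW A H K₀ z φ e a w U t) : U ∉ A :=
  hc.U_notMem A hc.aA

/-- the elements of `K₀` are not all in `H` -/
theorem CfW.K₀H [IsAlgClosed Ω] [IsAlgClosed A] [IsAlgClosed H]
    (hc : CfW A H K₀ z φ e a w U t) : ∃ x ∈ K₀, (x : Ω) ∉ H := by
  by_contra hcon
  push Not at hcon
  have h1 := le_of_K₀ A H K₀ hc.al hcon
  have h2 := eq_of_le A H hc.trA t hc.tH h1
  have hU : U ∈ AA H {t} := by
    have h3 : U = z - w := by rw [← hc.eqz, add_sub_cancel_left]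
    rw [h3]
    exact sub_mem (mem_AA_le H t (h1 z.2)) hc.wt
  have h4 := as_rat H t hc.tH hc.ad.add hc.ad.sep hc.ad.deg e hc.ad.e2 hc.ad.ek a U hc.at' hU hc.eqU
  rw [h2] at h4
  exact hc.UA h4

/-- the places at which `a` has a finite value which is algebraic over `k` contain `H` -/
theorem CfW.H_mem' [IsAlgClosed H] [IsAlgClosed A] (hc : CfW A H K₀ z φ e a w U t)
    (hNU : NU (KZ K₀ z)) (hP : Plc A V r) (β₀ : Ω)
    (hβ₀ : IsAlgebraic k β₀) (ha : V.valuation (a - β₀) < 1) :
    ∀ x ∈ H, x ∈ V := by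
  by_contra hcon
  push Not at hcon
  have hr := hP.res
  have hV := hP.mem
  have hβA : β₀ ∈ A := s_mem_of_alg A β₀ hβ₀
  obtain ⟨θ, hθ, h1⟩ := res_AA hr hV hc.trA H hcon t hc.tH
  obtain ⟨haV, hra⟩ := hP.sub_lt hβA ha
  have hkc := kap_closed hr hV H
  have hφ0 : φ ≠ 0 := by
    rintro rfl
    exact hc.ad.sep derivative_zero
  -- `U` is integral over `V`
  have hUV : U ∈ V := by
    have h2 : aeval U φ ∈ V := by
      rw [hc.eqU]
      exact pow_mem haV e
    exact plc_mem_of_aeval hP φ (by have := hc.ad.deg; omega) h2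
  -- the residue of `U` is algebraic over `k`
  have hu : aeval (r ⟨U, hUV⟩) φ = β₀ ^ e := by
    rw [← hP.res_aeval φ hUV, ← hra, ← map_pow]
    congr 1
    exact Subtype.ext hc.eqU
  have hualg : IsAlgebraic k (r ⟨U, hUV⟩) := by
    refine IsAlgebraic.of_aeval φ (by have := hc.ad.deg; omega)
      (mem_nonZeroDivisors_of_ne_zero (leadingCoeff_ne_zero.2 hφ0)) ?_
    rw [hu]
    exact hβ₀.pow e
  have huk : r ⟨U, hUV⟩ ∈ AA (kap hr hV H) {θ} :=
    mem_AA_le _ _ (s_mem_of_alg (kap hr hV H) _ hualg)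
  -- the element `z`
  have hwV : w ∈ V := by
    have h2 : w = z - U := by rw [← hc.eqz, add_sub_cancel_right]
    rw [h2]
    exact sub_mem (hV _ z.2) hUV
  have hz : (z : Ω) = r ⟨w, hwV⟩ + r ⟨U, hUV⟩ := by
    rw [← map_add]
    have h2 : (⟨w, hwV⟩ + ⟨U, hUV⟩ : V) = ⟨(z : Ω), hV _ z.2⟩ := Subtype.ext hc.eqz
    rw [h2, hr.fix _ _ z.2]
  refine hNU.not (kap hr hV H) (kap_le hr hV H) ?_ θ hθ ?_
  · have h2 := trdeg_kap hr hV H hcon
    rw [hc.tdH] at h2
    have h3 : (2 : Cardinal) = 1 + 1 := by norm_num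
    rw [h3] at h2
    exact (Cardinal.add_one_le_add_one_iff).1 h2
  · have h2 : K₀ ⊔ IntermediateField.adjoin k {z} ≤ (AA (kap hr hV H) {θ}).comap A.val := by
      refine sup_le ?_ ?_
      · intro x hx
        show (x : Ω) ∈ AA (kap hr hV H) {θ}
        have h3 := h1 x (hc.K₀t x hx) (hV _ x.2)
        rwa [hr.fix _ _ x.2] at h3
      · rw [IntermediateField.adjoin_le_iff]
        rintro x rfl
        show (x : Ω) ∈ AA (kap hr hV H) {θ}
        rw [hz]
        exact add_mem (h1 w hc.wt hwV) huk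
    exact fun x hx => h2 hx

theorem CfW.H_mem [IsAlgClosed H] [IsAlgClosed A] (hc : CfW A H K₀ z φ e a w U t)
    (hNU : NU (KZ K₀ z)) (hP : Plc A V r) (ha : V.valuation a < 1) :
    ∀ x ∈ H, x ∈ V :=
  hc.H_mem' hNU hP 0 isAlgebraic_zero (by rwa [sub_zero])

/-- `a` is not in `H` -/
theorem CfW.aH [IsAlgClosed Ω] [IsAlgClosed H] [IsAlgClosed A]
    (hc : CfW A H K₀ z φ e a w U t) (hNU : NU (KZ K₀ z)) :
    a ∉ H := by
  intro haH
  obtain ⟨V, r, hP, hv⟩ := exists_plc A hc.trA a hc.aA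
  have h1 := hc.H_mem hNU hP hv
  have h2 : a⁻¹ ∈ V := h1 _ (inv_mem haH)
  have h0 : a ≠ 0 := fun h => hc.aA (by rw [h]; exact zero_mem A)
  rw [val_le, map_inv₀, inv_le_one₀ (zero_lt_iff.mpr ((_root_.map_ne_zero _).mpr h0))] at h2
  exact absurd hv (not_lt.mpr h2)

theorem CfW.UH [IsAlgClosed Ω] [IsAlgClosed H] [IsAlgClosed A]
    (hc : CfW A H K₀ z φ e a w U t) (hNU : NU (KZ K₀ z)) :
    U ∉ H :=
  hc.U_notMem H (hc.aH hNU)

end

end Pool.Agent.WLD
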