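import Pool.Agent.WLD.W3
import Pool.Agent.TUQ.S5b

/-!
# The places which contain `H` and `a`; existence of a place with a positive contribution
-/

set_option autoImplicit false

namespace Pool.Agent.WLD

open Polynomial Pool.Agent.TBR Pool.Agent.TUQ

universe u

section

variable {k Ω : Type u} [Field k] [Field Ω] [Algebra k Ω]
variable {A H : IntermediateField k Ω} {V : ValuationSubring Ω} {r : V →+* Ω}
variable {K₀ : IntermediateField k A} {z : A} {φ : k[X]} {e : ℕ} {a w U t : Ω}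
variable {A₁ A₂ : H[X]} {m : ℕ} {T : Fin m → Ω}
  {s : Fin m → (Ω ≃ₐ[k] Ω)} {ξ : Fin m → (A →ₐ[k] Ω)} {f : Polynomial Ω}

/-- (3.5) a good coordinate -/
theorem CfW.exists_coord [IsAlgClosed Ω] [IsAlgClosed H] [IsAlgClosed A]
    (hc : CfW A H K₀ z φ e a w U t) :
    ∃ t', CfW A H K₀ z φ e a w U t' ∧ CP A H K₀ t' := by
  obtain ⟨x₁, hx₁, hx₁H⟩ := hc.K₀H
  obtain ⟨P, Q, hPQ, hQ, hQt, hx⟩ := exists_frac H t hc.tH (x₁ : Ω) (hc.K₀t x₁ hx₁)
  set n := max P.natDegree Q.natDegree with hn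
  have hxPQ : (x₁ : Ω) = aeval t P / aeval t Q := by rw [eq_div_iff hQt, hx]
  have hn0 : 0 < n := by
    by_contra h0
    have h3 : n = 0 := by omega
    have h4 : P.natDegree = 0 := Nat.le_zero.1 (h3 ▸ le_max_left _ _)
    have h5 : Q.natDegree = 0 := Nat.le_zero.1 (h3 ▸ le_max_right _ _)
    apply hx₁H
    rw [hxPQ, eq_C_of_natDegree_eq_zero h4, eq_C_of_natDegree_eq_zero h5, aeval_C, aeval_C]
    exact div_mem (P.coeff 0).2 (Q.coeff 0).2
  -- the choice of `c₀`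
  have hco : (C (P.coeff n : Ω) - X * C (Q.coeff n : Ω) : Polynomial Ω) ≠ 0 := by
    intro h
    have h1 := congrArg (fun p => p.coeff 0) h
    have h2 := congrArg (fun p => p.coeff 1) h
    simp only [coeff_sub, coeff_C_zero, coeff_zero, sub_eq_zero, mul_coeff_zero,
      coeff_X_zero, zero_mul] at h1
    have h3 : (C (P.coeff n : Ω)).coeff 1 = 0 := coeff_C_of_ne_zero one_ne_zero
    simp only [coeff_sub, h3, coeff_X_mul, coeff_C_zero, coeff_zero, zero_sub, neg_eq_zero] at h2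
    have h1' : P.coeff n = 0 := Subtype.ext h1
    have h2' : Q.coeff n = 0 := Subtype.ext h2
    rcases le_total P.natDegree Q.natDegree with h | h
    · rw [hn, max_eq_right h, coeff_natDegree, leadingCoeff_eq_zero] at h2'
      exact hQ h2'
    · rw [hn, max_eq_left h, coeff_natDegree, leadingCoeff_eq_zero] at h1'
      have : n = 0 := by
        rw [hn, max_eq_left h, h1', natDegree_zero]
      omega
  obtain ⟨c₀, hc₀, hc₀'⟩ := exists_alg_point (k := k) _ hco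
  rw [eval_sub, eval_mul, eval_C, eval_C, eval_X] at hc₀'
  have hc₀H : c₀ ∈ H := s_mem_of_alg H c₀ hc₀
  set γ : H := ⟨c₀, hc₀H⟩ with hγ
  have hcn : (P - C γ * Q).coeff n ≠ 0 := by
    intro h
    apply hc₀'
    rw [coeff_sub, coeff_C_mul] at h
    have := congrArg (Subtype.val) h
    exact this
  have hdeg : (P - C γ * Q).degree ≠ 0 := by
    have h1 : n ≤ (P - C γ * Q).natDegree := le_natDegree_of_ne_zero hcn
    intro h0
    rw [natDegree_eq_zero_iff_degree_le_zero.2 h0.le] at h1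
    omega
  obtain ⟨T₀, hT₀⟩ := IsAlgClosed.exists_root _ hdeg
  rw [IsRoot.def, eval_sub, eval_mul, eval_C] at hT₀
  have hQT₀ : Q.eval T₀ ≠ 0 := by
    intro h
    rw [h, mul_zero, sub_zero] at hT₀
    obtain ⟨u, v, huv⟩ := hPQ
    have := congrArg (eval T₀) huv
    rw [eval_add, eval_mul, eval_mul, h, hT₀, mul_zero, mul_zero, add_zero, eval_one] at this
    exact zero_ne_one this
  have htT₀ : t - T₀ ≠ 0 := fun h => hc.tH (by
    rw [sub_eq_zero.1 h]
    exact T₀.2)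
  have htH' : (t - T₀)⁻¹ ∉ H := fun h => hc.tH (by
    have h1 := add_mem (inv_mem h) T₀.2
    rwa [inv_inv, sub_add_cancel] at h1)
  have hle : AA H {t} ≤ AA H {(t - T₀)⁻¹} := by
    refine sup_le (Pool.Agent.TBR.V.le_AA H _) ?_
    rw [IntermediateField.adjoin_le_iff]
    rintro x rfl
    have h1 := add_mem (inv_mem (self_mem_AA H (x - T₀)⁻¹)) (mem_AA_le H (x - T₀)⁻¹ T₀.2)
    rwa [inv_inv, sub_add_cancel] at h1
  refine ⟨(t - T₀)⁻¹, ⟨hc.trA, hc.trH, hc.tdA, hc.tdH, hc.fg, hc.al, hc.zN, hc.irr, hc.ad,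
    hc.aA, htH', fun x hx => hle (hc.K₀t x hx), hle hc.at', hle hc.wt, hc.eqU, hc.eqz⟩, ?_⟩
  intro V r hP hH s hs hgood
  by_contra hcon
  have hsT₀ : s (T₀ : Ω) = T₀ := hs _ T₀.2
  have h1 : V.valuation (s t - T₀) < 1 := by
    rw [map_inv₀, map_sub, hsT₀, val_le, map_inv₀, not_le] at hcon
    by_contra hge
    rw [not_lt] at hge
    exact absurd hcon (not_lt.2 (inv_le_one_of_one_le₀ hge))
  have hTV : (T₀ : Ω) ∈ V := hH _ T₀.2
  have hstV : s t ∈ V := by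
    have := add_mem ((val_le V _).2 h1.le) hTV
    rwa [sub_add_cancel] at this
  have hres : r ⟨s t, hstV⟩ = r ⟨(T₀ : Ω), hTV⟩ := (hP.res.eq_of_sub hP.mem hstV hTV).2 h1
  have hev : ∀ G : H[X], aeval (T₀ : Ω) G = (G.eval T₀ : H) := fun G =>
    aeval_algebraMap_apply Ω T₀ G
  have h2 : s x₁ * aeval (s t) Q = aeval (s t) P := by
    rw [← Fx_aeval H hs, ← Fx_aeval H hs, ← map_mul, hx]
  have hsame : ∀ G : H[X], r ⟨aeval (s t) G, aeval_memV hH G hstV⟩ =
      r ⟨((G.eval T₀ : H) : Ω), hH _ (G.eval T₀).2⟩ := by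
    intro G
    rw [res_aevalH r hH G hstV, hres, ← res_aevalH r hH G hTV]
    congr 1
    exact Subtype.ext (hev G)
  have hQ1 : V.valuation (aeval (s t) Q) = 1 := by
    refine hP.unit (aeval_memV hH Q hstV) ?_
    rw [hsame, Ne, hP.res_eq_zero, val_H hH (Q.eval T₀).2 (by simpa using hQT₀)]
    exact lt_irrefl 1
  have hsx : s x₁ ∈ V := by
    rw [val_le]
    have h3 := congrArg V.valuation h2
    rw [map_mul, hQ1, mul_one] at h3
    rw [h3, ← val_le]
    exact aeval_memV hH P hstV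
  have hc₀V : c₀ ∈ V := hH _ hc₀H
  have hc₀A : c₀ ∈ A := s_mem_of_alg A c₀ hc₀
  have h4 : r ⟨s x₁, hsx⟩ = c₀ := by
    have h5 : r ⟨s x₁, hsx⟩ * r ⟨aeval (s t) Q, aeval_memV hH Q hstV⟩ =
        c₀ * r ⟨aeval (s t) Q, aeval_memV hH Q hstV⟩ := by
      rw [← map_mul]
      have h6 : (⟨s x₁, hsx⟩ * ⟨aeval (s t) Q, aeval_memV hH Q hstV⟩ : V) =
          ⟨aeval (s t) P, aeval_memV hH P hstV⟩ := Subtype.ext h2
      rw [h6, hsame, hsame]
      have h7 : (⟨((P.eval T₀ : H) : Ω), hH _ (P.eval T₀).2⟩ : V) =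
          ⟨c₀, hc₀V⟩ * ⟨((Q.eval T₀ : H) : Ω), hH _ (Q.eval T₀).2⟩ := by
        apply Subtype.ext
        show ((P.eval T₀ : H) : Ω) = c₀ * ((Q.eval T₀ : H) : Ω)
        rw [sub_eq_zero.1 hT₀]
        rfl
      rw [h7, map_mul, hP.res.fix c₀ hc₀V hc₀A]
    refine mul_right_cancel₀ ?_ h5
    rw [Ne, hP.res_eq_zero, hQ1]
    exact lt_irrefl 1
  -- the contradiction
  have h5 : aeval x₁ (minpoly k c₀) ∈ K₀ := by
    have := aeval_algebraMap_apply A (⟨x₁, hx₁⟩ : K₀) (minpoly k c₀)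
    have h6 : aeval x₁ (minpoly k c₀) = algebraMap K₀ A (aeval (⟨x₁, hx₁⟩ : K₀) (minpoly k c₀)) := this
    rw [h6]
    exact Subtype.property _
  have h6 : (aeval x₁ (minpoly k c₀) : A) ≠ 0 := by
    intro h
    apply hx₁H
    refine s_mem_of_alg H _ ⟨minpoly k c₀, minpoly.ne_zero hc₀.isIntegral, ?_⟩
    have h7 := congrArg (algebraMap A Ω) h
    rw [map_zero, ← aeval_algebraMap_apply] at h7
    exact h7
  have h7 := hgood _ h5 h6
  have h8 : s ((aeval x₁ (minpoly k c₀) : A) : Ω) = aeval (s x₁) (minpoly k c₀) := by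
    have h9 : ((aeval x₁ (minpoly k c₀) : A) : Ω) = aeval (x₁ : Ω) (minpoly k c₀) :=
      (aeval_algebraMap_apply Ω x₁ (minpoly k c₀)).symm
    rw [h9]
    exact (aeval_algHom_apply (s : Ω →ₐ[k] Ω) (x₁ : Ω) (minpoly k c₀)).symm
  rw [h8] at h7
  have h9 := hP.res_aeval (minpoly k c₀) hsx
  rw [h4, minpoly.aeval, hP.res_eq_zero, h7] at h9
  exact lt_irrefl 1 h9

theorem GDW.T_mem (hG : GDW A H K₀ z e a w U t A₁ A₂ T s ξ f) (hCP : CP A H K₀ t)
    (hP : Plc A V r) (hH : ∀ x ∈ H, x ∈ V) (i : Fin m) (hi : ∀ x, ξ i x ∈ V) : T i ∈ V := by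
  rw [← hG.st i]
  refine hCP V r hP hH (s i) (hG.sH i) fun x hx h0 => ?_
  rw [← hG.ξK i x hx]
  exact good_unit (ξ i) hi x h0

/-- (5.1) the embeddings at the roots near `t` are residually the identity on `K₀` -/
theorem GDW.K₀_res [IsAlgClosed H] (hc : CfW A H K₀ z φ e a w U t)
    (hG : GDW A H K₀ z e a w U t A₁ A₂ T s ξ f)
    (hP : Plc A V r) (hH : ∀ x ∈ H, x ∈ V) (ht : t ∈ V) (i : Fin m)
    (hi : V.valuation (T i - t) < 1) (x : A) (hx : x ∈ K₀) :
    ∃ h : ξ i x ∈ V, r ⟨ξ i x, h⟩ = x := by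
  obtain ⟨hT, hr⟩ := res_of_lt hP ht hi
  have hst : s i t ∈ V := by
    rw [hG.st]
    exact hT
  have hr' : r ⟨s i t, hst⟩ = r ⟨t, ht⟩ := by
    rw [← hr]
    congr 1
    exact Subtype.ext (hG.st i)
  obtain ⟨h1, h2⟩ := frac_res_eq hP hH hc.tH ht (hc.K₀t x hx) (hP.mem _ x.2) (hG.sH i) hst hr'
  have h3 : ξ i x = s i x := hG.ξK i x hx
  refine ⟨by rw [h3]; exact h1, ?_⟩
  have h4 : (⟨ξ i x, by rw [h3]; exact h1⟩ : V) = ⟨s i x, h1⟩ := Subtype.ext h3
  rw [h4, h2, hP.res.fix _ _ x.2]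

/-- the embeddings at the roots near `t` have values in `V` -/
theorem GDW.good_of_lt [IsAlgClosed H] (hc : CfW A H K₀ z φ e a w U t)
    (hG : GDW A H K₀ z e a w U t A₁ A₂ T s ξ f)
    (hP : Plc A V r) (hH : ∀ x ∈ H, x ∈ V) (ht : t ∈ V) (i : Fin m)
    (hi : V.valuation (T i - t) < 1) (x : A) : ξ i x ∈ V := by
  refine Pool.Agent.TBR.V.mem_of_isAlgebraic V (K₀.map (ξ i)) ?_ _ ?_
  · rintro _ ⟨y, hy, rfl⟩
    exact (hG.K₀_res hc hP hH ht i hi y hy).1
  · obtain ⟨p, hp, h1⟩ := hc.al x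
    let g : K₀ →+* K₀.map (ξ i) :=
      { toFun := fun y => ⟨ξ i y, ⟨y, y.2, rfl⟩⟩
        map_one' := Subtype.ext (map_one (ξ i))
        map_mul' := fun x y => Subtype.ext (map_mul (ξ i) (x : A) y)
        map_zero' := Subtype.ext (map_zero (ξ i))
        map_add' := fun x y => Subtype.ext (map_add (ξ i) (x : A) y) }
    refine ⟨p.map g, (Polynomial.map_ne_zero_iff g.injective).2 hp, ?_⟩
    have h2 := congrArg (ξ i) h1
    rw [map_zero, aeval_def] at h2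
    have h3 := hom_eval₂ p (algebraMap K₀ A) (ξ i : A →+* Ω) x
    rw [aeval_def, eval₂_map]
    exact h3.symm.trans h2

/-- the indices which occur in the local statement -/
theorem GDW.idx_iff [IsAlgClosed H] (hc : CfW A H K₀ z φ e a w U t) (hCP : CP A H K₀ t)
    (hG : GDW A H K₀ z e a w U t A₁ A₂ T s ξ f)
    (hP : Plc A V r) (hH : ∀ x ∈ H, x ∈ V) (i : Fin m) :
    ((∀ x, ξ i x ∈ V) ∧ V.valuation (T i - t) ≠ 1) ↔ V.valuation (T i - t) < 1 := by
  have ht := hCP.t_mem hP hH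
  constructor
  · rintro ⟨h1, h2⟩
    exact lt_of_le_of_ne ((val_le V _).1 (sub_mem (hG.T_mem hCP hP hH i h1) ht)) h2
  · intro h
    exact ⟨hG.good_of_lt hc hP hH ht i h, h.ne⟩

theorem GDW.psi_K₀ [IsAlgClosed H] (hc : CfW A H K₀ z φ e a w U t)
    (hG : GDW A H K₀ z e a w U t A₁ A₂ T s ξ f)
    (hP : Plc A V r) (hH : ∀ x ∈ H, x ∈ V) (ht : t ∈ V) (i : Fin m)
    (hi : V.valuation (T i - t) < 1) (ψ : A ≃ₐ[k] A) (hψ : ResE A V r (ξ i) ψ) (x : A)
    (hx : x ∈ K₀) : ψ x = x := by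
  obtain ⟨h1, h2⟩ := hG.K₀_res hc hP hH ht i hi x hx
  have h3 := hψ.eq x h1
  rw [h2] at h3
  exact Subtype.ext h3.symm

/-- an element whose value under a nonconstant polynomial over `k` is in `V` -/
theorem mem_of_aeval_mem (hP : Plc A V r) (p : k[X]) (hp : 0 < p.natDegree) (x : Ω)
    (hx : aeval x p ∈ V) : x ∈ V := by
  have hlc : p.leadingCoeff ≠ 0 := leadingCoeff_ne_zero.2 (by
    rintro rfl
    rw [natDegree_zero] at hp
    exact absurd hp (lt_irrefl 0))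
  set c : V := jk hP p.leadingCoeff⁻¹ with hc
  set q : V[X] := C c * p.map (jk hP) with hq
  have hinj : Function.Injective (jk hP) := (jk hP).injective
  have hd : q.natDegree = p.natDegree := by
    have hu : c ≠ 0 := by
      rw [hc]
      exact (_root_.map_ne_zero _).2 (inv_ne_zero hlc)
    rw [hq, natDegree_C_mul hu, natDegree_map_eq_of_injective hinj]
  have hm : q.Monic := by
    rw [Monic, leadingCoeff, hd, hq, coeff_C_mul, coeff_map, hc, ← map_mul]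
    show jk hP (p.leadingCoeff⁻¹ * p.leadingCoeff) = 1
    rw [inv_mul_cancel₀ hlc, map_one]
  set y : V := c * ⟨aeval x p, hx⟩ with hy
  have hm2 : (q - C y).Monic := by
    refine hm.sub_of_left ?_
    refine lt_of_le_of_lt degree_C_le ?_
    rw [← natDegree_pos_iff_degree_pos, hd]
    exact hp
  have hroot : eval₂ (algebraMap V Ω) x (q - C y) = 0 := by
    rw [eval₂_sub, eval₂_C, hq, eval₂_mul, eval₂_C, eval₂_map, hy, map_mul, ← mul_sub]
    have h1 : eval₂ ((algebraMap V Ω).comp (jk hP)) x p = aeval x p := rfl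
    rw [h1]
    show algebraMap V Ω c * (aeval x p - aeval x p) = 0
    rw [sub_self, mul_zero]
  have hint : IsIntegral V x := ⟨q - C y, hm2, hroot⟩
  obtain ⟨v, hv⟩ := IsIntegrallyClosed.isIntegral_iff.1 hint
  rw [← hv]
  exact v.2

theorem GDW.psi_z [IsAlgClosed H] (hc : CfW A H K₀ z φ e a w U t)
    (hG : GDW A H K₀ z e a w U t A₁ A₂ T s ξ f)
    (hP : Plc A V r) (hH : ∀ x ∈ H, x ∈ V) (ht : t ∈ V) (haV : a ∈ V) (i : Fin m)
    (hi : V.valuation (T i - t) < 1) (ψ : A ≃ₐ[k] A) (hψ : ResE A V r (ξ i) ψ) : ψ z = z := by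
  have hUV : U ∈ V := mem_of_aeval_mem hP φ (lt_trans one_pos hc.ad.deg) U (by
    rw [hc.eqU]
    exact pow_mem haV e)
  have hwV : w ∈ V := by
    have h1 : w = (z : Ω) - U := by
      rw [← hc.eqz]
      ring
    rw [h1]
    exact sub_mem (hP.mem _ z.2) hUV
  obtain ⟨hT, hr⟩ := res_of_lt hP ht hi
  have hst : s i t ∈ V := by
    rw [hG.st]
    exact hT
  have hr' : r ⟨s i t, hst⟩ = r ⟨t, ht⟩ := by
    rw [← hr]
    congr 1
    exact Subtype.ext (hG.st i)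
  obtain ⟨h1, h2⟩ := frac_res_eq hP hH hc.tH ht hc.wt hwV (hG.sH i) hst hr'
  have h3 := hψ.eq z (hψ.mem z)
  have h4 : (⟨ξ i z, hψ.mem z⟩ : V) = ⟨s i w, h1⟩ + ⟨U, hUV⟩ := Subtype.ext (hG.ξz i)
  have h5 : (⟨w, hwV⟩ + ⟨U, hUV⟩ : V) = ⟨(z : Ω), hP.mem _ z.2⟩ := Subtype.ext hc.eqz
  rw [h4, map_add, h2, ← map_add, h5, hP.res.fix _ _ z.2] at h3
  exact Subtype.ext h3.symm

/-- (5.2) at a place which contains `H` and `a` the embeddings near `t` are residually the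
identity -/
theorem GDW.alt1 [IsAlgClosed H] (hc : CfW A H K₀ z φ e a w U t) (hCP : CP A H K₀ t)
    (hG : GDW A H K₀ z e a w U t A₁ A₂ T s ξ f)
    (hP : Plc A V r) (hH : ∀ x ∈ H, x ∈ V) (haV : a ∈ V) (i : Fin m) (hi : ∀ x, ξ i x ∈ V)
    (hi' : V.valuation (T i - t) ≠ 1) : V.valuation (T i - t) < 1 ∧
      ∀ ψ, ResE A V r (ξ i) ψ → ∀ x ∈ KZ K₀ z, ψ x = x := by
  have h1 := (hG.idx_iff hc hCP hP hH i).1 ⟨hi, hi'⟩
  have ht := hCP.t_mem hP hH
  refine ⟨h1, fun ψ hψ => ?_⟩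
  exact ext_z (ψ : A →ₐ[k] A) (AlgHom.id k A) (fun x hx => hG.psi_K₀ hc hP hH ht i h1 ψ hψ x hx)
    (hG.psi_z hc hP hH ht haV i h1 ψ hψ)

/-- (5.3) there is a place with a positive contribution of the identity only -/
theorem GDW.exists_pos [IsAlgClosed Ω] [IsAlgClosed H] [IsAlgClosed A]
    (hc : CfW A H K₀ z φ e a w U t)
    (hNU : NU (KZ K₀ z)) (hCP : CP A H K₀ t)
    (hG : GDW A H K₀ z e a w U t A₁ A₂ T s ξ f) :
    ∃ (V : ValuationSubring Ω) (r : V →+* Ω), Plc A V r ∧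
        (∃ i, (∀ x, ξ i x ∈ V) ∧ V.valuation (T i - t) < 1) ∧
        ∀ i, (∀ x, ξ i x ∈ V) → V.valuation (T i - t) ≠ 1 → V.valuation (T i - t) < 1 ∧
          ∀ ψ, ResE A V r (ξ i) ψ → ∀ x ∈ KZ K₀ z, ψ x = x := by
  classical
  obtain ⟨V, r, hP, hv⟩ := exists_plc A hc.trA a hc.aA
  have hH := hc.H_mem hNU hP hv
  have haV : a ∈ V := (val_le V _).2 hv.le
  have hra : r ⟨a, haV⟩ = 0 := (hP.res_eq_zero haV).2 hv
  have ht := hCP.t_mem hP hH
  refine ⟨V, r, hP, ?_, fun i hi hi' => hG.alt1 hc hCP hP hH haV i hi hi'⟩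
  set τ := r ⟨t, ht⟩ with hτ
  -- the reduction of `f`
  set F : V[X] := ∑ i ∈ Finset.range e, (A₁.map (jH hH)) ^ i *
    (C (⟨a, haV⟩ : V) * A₂.map (jH hH)) ^ (e - 1 - i) with hF0
  have hF : F.map (algebraMap V Ω) = f := by
    rw [hG.fdef, hF0, Polynomial.map_sum]
    refine Finset.sum_congr rfl fun i _ => ?_
    rw [Polynomial.map_mul, Polynomial.map_pow, Polynomial.map_pow, Polynomial.map_mul, map_C,
      Polynomial.map_map, Polynomial.map_map]
    rfl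
  have hFr : F.map r = (A₁.map (rho r hH)) ^ (e - 1) := by
    rw [hF0, Polynomial.map_sum, Finset.sum_eq_single (e - 1)]
    · rw [Nat.sub_self, pow_zero, mul_one, Polynomial.map_pow, Polynomial.map_map]
      rfl
    · intro i hi hne
      have h1 : e - 1 - i ≠ 0 := by
        have := Finset.mem_range.1 hi
        omega
      rw [Polynomial.map_mul, Polynomial.map_pow, Polynomial.map_pow, Polynomial.map_mul, map_C, hra,
        C_0, zero_mul, zero_pow h1, mul_zero]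
    · intro h
      exact absurd (Finset.mem_range.2 (by have := hc.ad.e2; omega)) h
  have hA₁0 : A₁ ≠ 0 := by
    intro h0
    have h1 := hG.aeq
    rw [h0, map_zero] at h1
    have h2 : a = 0 := (mul_eq_zero.1 h1).resolve_right hG.A₂t
    exact hc.aA (by rw [h2]; exact zero_mem A)
  have hne : F.map r ≠ 0 := by
    rw [hFr]
    exact pow_ne_zero _ ((Polynomial.map_ne_zero_iff (rho r hH).injective).2 hA₁0)
  have hA₁τ : (A₁.map (rho r hH)).eval τ = 0 := by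
    rw [hτ, ← res_aevalH r hH A₁ ht]
    have h1 : (⟨aeval t A₁, aeval_memV hH A₁ ht⟩ : V) = ⟨a, haV⟩ * ⟨aeval t A₂, aeval_memV hH A₂ ht⟩ :=
      Subtype.ext hG.aeq.symm
    rw [h1, map_mul, hra, zero_mul]
  have hroot : (F.map r).eval τ = 0 := by
    rw [hFr, eval_pow, hA₁τ, zero_pow]
    have := hc.ad.e2
    omega
  -- a root of `f` near `t`
  obtain ⟨S, hS₁, hS₂⟩ := roots_map hP.res hP.mem F hne
  have h1 : τ ∈ (F.map r).roots := (mem_roots hne).2 hroot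
  rw [hS₂, Multiset.mem_map] at h1
  obtain ⟨x, hxS, hx⟩ := h1
  have h2 : (x : Ω) ∈ (F.map (algebraMap V Ω)).roots.filter (· ∈ V) := by
    rw [hS₁, Multiset.mem_map]
    exact ⟨x, hxS, rfl⟩
  rw [Multiset.mem_filter, hF, hG.roots, Multiset.mem_map] at h2
  obtain ⟨⟨i, -, hi⟩, -⟩ := h2
  have h3 : V.valuation (T i - t) < 1 := by
    rw [hi]
    exact (hP.res.eq_of_sub hP.mem x.2 ht).1 hx
  exact ⟨i, hG.good_of_lt hc hP hH ht i h3, h3⟩

end

end Pool.Agent.WLD
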