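import Pool.Agent.WLD.W8e
import Pool.Agent.TUQ.S5c
import Pool.Agent.TUQ.S3f

/-!
# W6a: the inertia at `a = ∞`
-/

set_option autoImplicit false

namespace Pool.Agent.WLD

open Polynomial Pool.Agent.TBR Pool.Agent.TUQ

universe u

section

variable {k Ω : Type u} [Field k] [Field Ω] [Algebra k Ω]

/-- `v x < 1` in terms of `V` -/
theorem val_lt_one_iff (V : ValuationSubring Ω) (x : Ω) :
    V.valuation x < 1 ↔ x = 0 ∨ x⁻¹ ∉ V := by
  by_cases h0 : x = 0
  · simp [h0]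
  have hv0 : 0 < V.valuation x := zero_lt_iff.2 ((_root_.map_ne_zero _).2 h0)
  rw [← V.valuation_le_one_iff, map_inv₀, not_le, one_lt_inv₀ hv0]
  simp [h0]

/-- an automorphism which preserves `V` preserves the maximal ideal -/
theorem val_lt_one_map {V : ValuationSubring Ω} (σ : Ω ≃ₐ[k] Ω) (hσ : ∀ x, σ x ∈ V ↔ x ∈ V)
    (x : Ω) : V.valuation (σ x) < 1 ↔ V.valuation x < 1 := by
  rw [val_lt_one_iff, val_lt_one_iff, ← map_inv₀, hσ, map_eq_zero_iff σ σ.injective]

variable {A H : IntermediateField k Ω} {V : ValuationSubring Ω} {r : V →+* Ω}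

/-- an automorphism over `H` which preserves `V` is in the inertia group, if `H` contains
representatives of all residues -/
theorem res_fix [IsAlgClosed H] (hP : Plc A V r) (hH : ∀ x ∈ H, x ∈ V)
    (hA2 : Algebra.trdeg k A = 2) (hH2 : Algebra.trdeg k H = 2)
    (σ : Ω ≃ₐ[k] Ω) (hσH : σ ∈ Fx k (H : Set Ω)) (hσ : ∀ x, σ x ∈ V ↔ x ∈ V)
    (x : Ω) (h : x ∈ V) (h' : σ x ∈ V) : r ⟨σ x, h'⟩ = r ⟨x, h⟩ := by
  obtain ⟨x₀, hx₀⟩ := exists_liftH hP hH hA2 hH2 (r ⟨x, h⟩) (hP.res.mem _)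
  rw [rho_apply] at hx₀
  have h1 : V.valuation ((x₀ : Ω) - x) < 1 := (hP.res.eq_of_sub hP.mem _ h).1 hx₀
  have h2 : V.valuation ((x₀ : Ω) - σ x) < 1 := by
    have h3 : (x₀ : Ω) - σ x = σ ((x₀ : Ω) - x) := by
      rw [map_sub, hσH (x₀ : Ω) x₀.2]
    rw [h3, val_lt_one_map σ hσ]
    exact h1
  rw [← (hP.res.eq_of_sub hP.mem (hH x₀ x₀.2) h').2 h2, hx₀]

theorem alg_up {E F : IntermediateField k Ω} (hEF : E ≤ F) {x : Ω} (h : IsAlgebraic E x) :
    IsAlgebraic F x := by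
  obtain ⟨p, hp0, hp⟩ := h
  refine ⟨p.map (IntermediateField.inclusion hEF : E →+* F), ?_, ?_⟩
  · rwa [Ne, Polynomial.map_eq_zero]
  · rw [aeval_def, eval₂_map]
    exact hp

/-- conjugation: an automorphism which preserves the values on `F` can be changed by an
automorphism over `F` such that it preserves `V` -/
theorem exists_dec [IsAlgClosed Ω] (V : ValuationSubring Ω) (F : IntermediateField k Ω)
    (halg : ∀ x : Ω, IsAlgebraic F x) (τ : Ω ≃ₐ[k] Ω)
    (hτ : ∀ x ∈ F, V.valuation (τ x) = V.valuation x) :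
    ∃ σ : Ω ≃ₐ[k] Ω, (∀ x ∈ F, σ x = τ x) ∧ ∀ x, σ x ∈ V ↔ x ∈ V := by
  obtain ⟨δ, hδ, hδV⟩ := Pool.Agent.TBR.V.transit F halg V
    (V.comap (τ : Ω →+* Ω)) (fun x hx => by
      rw [ValuationSubring.mem_comap, ← V.valuation_le_one_iff, ← V.valuation_le_one_iff]
      exact (by rw [hτ x hx] : V.valuation (τ x) ≤ 1 ↔ V.valuation x ≤ 1).symm)
  refine ⟨τ * δ, fun x hx => ?_, fun x => ?_⟩
  · rw [AlgEquiv.mul_apply, hδ x hx]
  · rw [AlgEquiv.mul_apply]
    exact (hδV x).symm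

variable {K₀ : IntermediateField k A} {z : A} {φ : k[X]} {e : ℕ} {a w U t : Ω}

/-- an element of degree at least `Q` over `E` is conjugate to each root of a polynomial over `E`
of degree `Q` which it satisfies -/
theorem exists_conj_of_deg [IsAlgClosed Ω] (E : IntermediateField k Ω)
    (halg : ∀ x : Ω, IsAlgebraic E x) (P : E[X]) (hP0 : P ≠ 0) (u v : Ω)
    (hu : aeval u P = 0) (hv : aeval v P = 0)
    (hind : ∀ q : E[X], q.natDegree < P.natDegree → aeval u q = 0 → q = 0) :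
    ∃ σ ∈ Fx k (E : Set Ω), σ u = v := by
  have hA : Algebra.IsAlgebraic E Ω := ⟨halg⟩
  have hC : IsAlgClosure E Ω := ⟨inferInstance, hA⟩
  have hN : Normal E Ω := IsAlgClosure.normal E Ω
  have hint : IsIntegral E u := (halg u).isIntegral
  obtain ⟨q, hq⟩ := minpoly.dvd E u hu
  have hq0 : q ≠ 0 := by
    rintro rfl
    exact hP0 (by rw [hq, mul_zero])
  have hdeg : P.natDegree ≤ (minpoly E u).natDegree := by
    by_contra hcon
    exact minpoly.ne_zero hint (hind _ (not_le.1 hcon) (minpoly.aeval E u))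
  have hqd : q.natDegree = 0 := by
    have h1 : P.natDegree = (minpoly E u).natDegree + q.natDegree := by
      conv_lhs => rw [hq]
      exact natDegree_mul (minpoly.ne_zero hint) hq0
    omega
  obtain ⟨c, hc⟩ := natDegree_eq_zero.1 hqd
  have hc0 : c ≠ 0 := by
    rintro rfl
    exact hq0 (by rw [← hc, C_0])
  have hev : aeval v (minpoly E u) = 0 := by
    have h1 : aeval v (minpoly E u) * algebraMap E Ω c = 0 := by
      rw [← aeval_C, ← map_mul, hc, ← hq, hv]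
    exact (mul_eq_zero.1 h1).resolve_right ((_root_.map_ne_zero _).2 hc0)
  obtain ⟨σ, hσ⟩ := minpoly.exists_algEquiv_of_root (halg u) hev
  refine ⟨σ.symm.restrictScalars k, fun x hx => σ.symm.commutes ⟨x, hx⟩, ?_⟩
  change σ.symm u = v
  rw [← hσ, AlgEquiv.symm_apply_apply]

/-- W6a: the conjugates of `U` over `H(a)` -/
theorem CfW.exists_conj [IsAlgClosed Ω]
    (hc : CfW A H K₀ z φ e a w U t) (hH : ∀ x ∈ H, x ∈ V) (ha : a ∉ V)
    (c : Ω) (hc0 : aeval c φ = 0) :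
    ∃ σ ∈ Fx k (H : Set Ω), σ a = a ∧ σ U = U - c := by
  have haH : a ∉ H := fun h => ha (hH a h)
  obtain ⟨p, n, hp, -, -, hQ, hpe⟩ := hc.ad.exists_p
  have hα : 1 < V.valuation a := not_le.1 fun h => ha ((V.valuation_le_one_iff _).1 h)
  have he2 := hc.ad.e2
  have hQe : Nat.Coprime e φ.natDegree := by
    rw [hQ]
    exact Nat.Coprime.pow_right n ((hp.coprime_iff_not_dvd.2 hpe).symm)
  have hv1 : 1 < V.valuation (aeval U (φ.map (algebraMap k H))) := by
    rw [aeval_map_algebraMap, hc.eqU, map_pow]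
    exact one_lt_pow₀ hα (by omega)
  obtain ⟨h1, -⟩ := val_root_inf H V hH (φ.map (algebraMap k H)) U hv1
  rw [natDegree_map, aeval_map_algebraMap, hc.eqU, map_pow] at h1
  have o1 := orth_inf H V hH a hα U φ.natDegree e hQe h1
  have hU0 : U ≠ 0 := by
    rintro rfl
    rw [map_zero, zero_pow (by have := hc.ad.deg; omega)] at h1
    exact absurd h1 (pow_ne_zero _ (zero_lt_one.trans hα).ne').symm
  set E : IntermediateField k Ω := AA H {a} with hE
  have haE : a ∈ E := self_mem_AA H a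
  let P : E[X] := φ.map (algebraMap k E) - C ⟨a ^ e, pow_mem haE e⟩
  have hPd : P.natDegree = φ.natDegree := by rw [natDegree_sub_C, natDegree_map]
  have hP0 : P ≠ 0 := by
    intro h0
    have := hc.ad.deg
    rw [h0, natDegree_zero] at hPd
    omega
  have hPx : ∀ x : Ω, aeval x P = aeval x φ - a ^ e := by
    intro x
    rw [map_sub, aeval_map_algebraMap, aeval_C]
    rfl
  obtain ⟨σ, hσ, hσU⟩ := exists_conj_of_deg E (hc.trH a haH) P hP0 U (U - c)
    (by rw [hPx, hc.eqU, sub_self])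
    (by rw [hPx, add_sub' hc.ad.add, hc.eqU, hc0, sub_zero, sub_self]) (by
      intro q hq hq0
      rw [hPd] at hq
      ext i
      rw [coeff_zero]
      by_cases hi : i < φ.natDegree
      · have h2 := o1.eq_zero (c := fun j => ((q.coeff (j : ℕ) : E) : Ω))
          (fun j => pow_ne_zero _ hU0) (fun j => Subtype.coe_prop _) (by
            rw [aeval_eq_sum_range' hq] at hq0
            rw [Finset.sum_range] at hq0
            rw [← hq0]
            refine Finset.sum_congr rfl fun j _ => ?_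
            rw [Algebra.smul_def]
            rfl) ⟨i, hi⟩
        exact congrArg _ (Subtype.ext h2)
      · rw [coeff_eq_zero_of_natDegree_lt (lt_of_lt_of_le hq (not_lt.1 hi))])
  exact ⟨σ, fun x hx => hσ x (Pool.Agent.TBR.V.le_AA H {a} hx), hσ a haE, hσU⟩

/-- W6a: the inertia at `a = ∞` -/
theorem CfW.exists_tau [IsAlgClosed Ω] [IsAlgClosed H] [IsAlgClosed A]
    (hc : CfW A H K₀ z φ e a w U t) (hP : Plc A V r) (hH : ∀ x ∈ H, x ∈ V) (ha : a ∉ V)
    (c : Ω) (hc0 : aeval c φ = 0) :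
    ∃ σ ∈ Fx k (H : Set Ω), σ a = a ∧ σ U = U - c ∧ (∀ x, σ x ∈ V ↔ x ∈ V) ∧
      ∀ (x : Ω) (h : x ∈ V) (h' : σ x ∈ V), r ⟨σ x, h'⟩ = r ⟨x, h⟩ := by
  obtain ⟨τ, hτH, hτa, hτU⟩ := hc.exists_conj hH ha c hc0
  have haH : a ∉ H := fun h => ha (hH a h)
  have hHE : H ≤ AA H {a} := Pool.Agent.TBR.V.le_AA H {a}
  have hEF : AA H {a} ≤ AA (AA H {a}) {U} := Pool.Agent.TBR.V.le_AA _ {U}
  have hval := hc.tau_val hH ha τ hτH hτa
  obtain ⟨σ, hσF, hσV⟩ := exists_dec V (AA (AA H {a}) {U}) (fun x => by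
    exact alg_up hEF (hc.trH a haH x)) τ hval
  have hσH : σ ∈ Fx k (H : Set Ω) := fun x hx => by
    rw [hσF x (hEF (hHE hx))]
    exact hτH x hx
  refine ⟨σ, hσH, ?_, ?_, hσV, fun x h h' => res_fix hP hH hc.tdA hc.tdH σ hσH hσV x h h'⟩
  · rw [hσF a (hEF (self_mem_AA H a)), hτa]
  · rw [hσF U (self_mem_AA _ U), hτU]

end

end Pool.Agent.WLD
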