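import Pool.Agent.WLD.W6
import Pool.Agent.WLD.W4
import Pool.Agent.WLD.W5
import Pool.Agent.WLD.W6a

/-!
# The local statement at the places which contain `H` and not `a`
-/

set_option autoImplicit false

namespace Pool.Agent.WLD

open Polynomial Pool.Agent.TBR Pool.Agent.TUQ

universe u

section

variable {k Ω : Type u} [Field k] [Field Ω] [Algebra k Ω]
variable {A H : IntermediateField k Ω} {V : ValuationSubring Ω} {r : V →+* Ω}
variable {K₀ : IntermediateField k A} {z : A} {φ : k[X]} {e : ℕ} {a w U t : Ω}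
variable {A₁ A₂ : H[X]} {m : ℕ} {T : Fin m → Ω}
  {s : Fin m → (Ω ≃ₐ[k] Ω)} {ξ : Fin m → (A →ₐ[k] Ω)} {f : Polynomial Ω}

/-- W6c: at the places which contain `H` and not `a` the residues of the embeddings are permuted
by the automorphisms over `K₀` -/
theorem GDW.alt2_inf [IsAlgClosed Ω] [IsAlgClosed H] [IsAlgClosed A]
    (hc : CfW A H K₀ z φ e a w U t) (hCP : CP A H K₀ t)
    (hG : GDW A H K₀ z e a w U t A₁ A₂ T s ξ f)
    (hP : Plc A V r) (hH : ∀ x ∈ H, x ∈ V) (ha : a ∉ V) :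
    ∀ g ∈ Fx k (K₀ : Set A),
      ∃ π : Equiv.Perm {i : Fin m // (∀ x, ξ i x ∈ V) ∧ V.valuation (T i - t) ≠ 1},
        ∀ i, V.valuation (T (π i) - t) = V.valuation (T i - t) ∧
          ∀ ψ ψ', ResE A V r (ξ i) ψ → ResE A V r (ξ (π i)) ψ' →
            ∀ x ∈ KZ K₀ z, g (ψ x) = ψ' x := by
  classical
  intro g hg
  have ht := hCP.t_mem hP hH
  have hlt : ∀ i : {i : Fin m // (∀ x, ξ i x ∈ V) ∧ V.valuation (T i - t) ≠ 1},
      V.valuation (T i - t) < 1 := fun i => (hG.idx_iff hc hCP hP hH i).1 i.2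
  have htd : Algebra.trdeg k A < Cardinal.aleph0 := by
    rw [hc.tdA]
    exact Cardinal.natCast_lt_aleph0
  choose ψ hψ using fun i : {i : Fin m // (∀ x, ξ i x ∈ V) ∧ V.valuation (T i - t) ≠ 1} =>
    exists_resE_F A htd V r hP (ξ i) i.2.1
  have hK : ∀ (i : {i : Fin m // (∀ x, ξ i x ∈ V) ∧ V.valuation (T i - t) ≠ 1}), ∀ x ∈ K₀,
      ψ i x = x := fun i x hx => hG.psi_K₀ hc hP hH ht i (hlt i) (ψ i) (hψ i) x hx
  -- the differences are zeros of `φ`
  have hadd : ∀ x y : A, aeval (x - y) φ = aeval x φ - aeval y φ := by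
    intro x y
    have h1 := hc.ad.add A (x - y) y
    rw [sub_add_cancel] at h1
    rw [h1, add_sub_cancel_right]
  have hφ : ∀ i, aeval (ψ i z) φ = aeval z φ := by
    intro i
    have h1 : aeval (ψ i z) φ = ψ i (aeval z φ) := aeval_algHom_apply (ψ i : A →ₐ[k] A) z φ
    rw [h1]
    exact hK i _ hc.zN
  have hc0 : ∀ i, aeval (g (ψ i z) - ψ i z) φ = 0 := by
    intro i
    have h1 : aeval (g (ψ i z)) φ = g (aeval (ψ i z) φ) :=
      aeval_algHom_apply (g : A →ₐ[k] A) (ψ i z) φ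
    rw [hadd, h1, hφ, hg _ hc.zN, sub_self]
  -- the inertia elements
  have hτ : ∀ c : A, ∃ π : Equiv.Perm (Fin m), aeval c φ = 0 →
      ∀ (i : {i : Fin m // (∀ x, ξ i x ∈ V) ∧ V.valuation (T i - t) ≠ 1}),
        V.valuation (T (π i) - t) < 1 ∧ ∀ ψ', ResE A V r (ξ (π i)) ψ' → ψ' z = ψ i z + c := by
    intro c
    by_cases h : aeval c φ = 0
    swap
    · exact ⟨1, fun h' => absurd h' h⟩
    have h' : aeval (c : Ω) φ = 0 := by
      have h1 : aeval (c : Ω) φ = ((aeval c φ : A) : Ω) := aeval_algebraMap_apply Ω c φ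
      rw [h1, h]
      rfl
    obtain ⟨σ, hσH, hσa, hσU, hσV, hσr⟩ := hc.exists_tau hP hH ha (c : Ω) h'
    obtain ⟨π, hπ⟩ := hG.perm σ hσH hσa
    refine ⟨π, fun _ i => ?_⟩
    obtain ⟨hTV, hTr⟩ := res_of_lt hP ht (hlt i)
    have hT2 : T (π i) ∈ V := by
      rw [← hπ, hσV]
      exact hTV
    refine ⟨?_, fun ψ' hψ' => ?_⟩
    · refine (hP.res.eq_of_sub hP.mem hT2 ht).1 ?_
      rw [← hTr, ← hσr (T i) hTV ((hσV _).2 hTV)]
      congr 1
      exact Subtype.ext (hπ i).symm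
    · have h1 := (hG.conj hc σ hσH i (π i) (hπ i)).2
      rw [hσU] at h1
      have h2 : ξ (π i) z = σ (ξ i z) + c := by
        rw [h1]
        ring
      have hm : ξ i z ∈ V := i.2.1 z
      have h3 := hψ'.eq z (hψ'.mem z)
      have h4 : (⟨ξ (π i) z, hψ'.mem z⟩ : V) = ⟨σ (ξ i z), (hσV _).2 hm⟩ + ⟨(c : Ω), hP.mem _ c.2⟩ :=
        Subtype.ext h2
      rw [h4, map_add, hσr (ξ i z) hm, hP.res.fix _ _ c.2, (hψ i).eq z hm] at h3
      exact Subtype.ext h3.symm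
  choose Pf hPf using hτ
  -- the permutation
  let F : {i : Fin m // (∀ x, ξ i x ∈ V) ∧ V.valuation (T i - t) ≠ 1} →
      {i : Fin m // (∀ x, ξ i x ∈ V) ∧ V.valuation (T i - t) ≠ 1} := fun i =>
    ⟨Pf (g (ψ i z) - ψ i z) i, (hG.idx_iff hc hCP hP hH _).2 (hPf _ (hc0 i) i).1⟩
  have hF : ∀ i, ψ (F i) z = g (ψ i z) := by
    intro i
    rw [(hPf _ (hc0 i) i).2 (ψ (F i)) (hψ (F i)), add_sub_cancel]
  have hinj : Function.Injective F := by
    intro i j hij
    have h1 : ψ i z = ψ j z := by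
      apply g.injective
      rw [← hF, ← hF, hij]
    have h2 := congrArg Subtype.val hij
    have h3 : Pf (g (ψ i z) - ψ i z) i = Pf (g (ψ j z) - ψ j z) j := h2
    rw [h1] at h3
    exact Subtype.ext ((Pf _).injective h3)
  refine ⟨Equiv.ofBijective F (Finite.injective_iff_bijective.1 hinj), fun i => ⟨?_, ?_⟩⟩
  · exact hG.val_inf hc hCP hP hH ha _ _ (hlt (F i)) (hlt i)
  · intro ψ₁ ψ₂ h₁ h₂
    rw [h₁.unique (hψ i), h₂.unique (hψ (F i))]
    refine ext_z ((g : A →ₐ[k] A).comp (ψ i : A →ₐ[k] A)) (ψ (F i) : A →ₐ[k] A) ?_ ?_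
    · intro x hx
      show g (ψ i x) = ψ (F i) x
      rw [hK i x hx, hK (F i) x hx, hg x hx]
    · exact (hF i).symm

end

end Pool.Agent.WLD
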