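import Pool.Agent.TUQ.S4b
import Pool.Agent.TUQ.F8

/-!
# Artin-Schreier covers with a uniruled quotient threefold: definitions
-/

set_option autoImplicit false

namespace Pool.Agent.WLD

open Polynomial Pool.Agent.TBR Pool.Agent.TUQ

universe u

/-- the conditions on `φ` and `e`: `φ` is additive and separable of degree more than one, `e ≥ 2` is
invertible -/
structure Ad {k : Type u} [Field k] (φ : k[X]) (e : ℕ) : Prop where
  add : Pool.Agent.UQ.AddPoly φ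
  sep : derivative φ ≠ 0
  deg : 1 < φ.natDegree
  e2 : 2 ≤ e
  ek : (e : k) ≠ 0

section

variable {k Ω : Type u} [Field k] [Field Ω] [Algebra k Ω]

/-- `K₀(z)` -/
abbrev KZ {A : Type u} [Field A] [Algebra k A] (K₀ : IntermediateField k A) (z : A) :
    IntermediateField k A := K₀ ⊔ IntermediateField.adjoin k {z}

/-- The situation after the embedding of `L = K₀(a, w)`, `φ(w) + a ^ e = φ(z)`, in `H(t)`. -/
structure CfW (A H : IntermediateField k Ω) (K₀ : IntermediateField k A) (z : A) (φ : k[X])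
    (e : ℕ) (a w U t : Ω) : Prop where
  trA : ∀ x : Ω, x ∉ A → ∀ y : Ω, IsAlgebraic (AA A {x}) y
  trH : ∀ x : Ω, x ∉ H → ∀ y : Ω, IsAlgebraic (AA H {x}) y
  tdA : Algebra.trdeg k A = 2
  tdH : Algebra.trdeg k H = 2
  fg : K₀.FG
  al : ∀ x : A, IsAlgebraic K₀ x
  zN : aeval z φ ∈ K₀
  irr : Irreducible (φ.map (algebraMap k K₀) - C (⟨aeval z φ, zN⟩ : K₀))
  ad : Ad φ e
  aA : a ∉ A
  tH : t ∉ H
  K₀t : ∀ x ∈ K₀, (x : Ω) ∈ AA H {t}
  at' : a ∈ AA H {t}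
  wt : w ∈ AA H {t}
  eqU : aeval U φ = a ^ e
  eqz : w + U = z

/-- the fields which occur in the theorem -/
def GoodW {A : Type u} [Field A] [Algebra k A] (K₀ : IntermediateField k A)
    (L : IntermediateField k A) : Prop :=
  (∃ K₁ K₂ : IntermediateField k A, K₁.FG ∧ K₂.FG ∧ Algebra.trdeg k K₁ ≤ 1 ∧
    Algebra.trdeg k K₂ ≤ 1 ∧ L = K₁ ⊔ K₂) ∨ L = K₀

/-- The local statement at the place `V` for the embeddings `ξ i` and the functions `h i`. -/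
def LocG (A : IntermediateField k Ω) (Gd : IntermediateField k A → Prop)
    (K : IntermediateField k A) {m : ℕ} (ξ : Fin m → (A →ₐ[k] Ω)) (h : Fin m → Ω)
    (V : ValuationSubring Ω) (r : V →+* Ω) : Prop :=
  (∀ i, (∀ x, ξ i x ∈ V) → V.valuation (h i) ≠ 1 → V.valuation (h i) < 1 ∧
    ∀ ψ, ResE A V r (ξ i) ψ → ∀ x ∈ K, ψ x = x) ∨
  ∃ L : IntermediateField k A, Gd L ∧ (∀ x : A, IsAlgebraic L x) ∧
    ∀ g ∈ Fx k (L : Set A),
      ∃ π : Equiv.Perm {i : Fin m // (∀ x, ξ i x ∈ V) ∧ V.valuation (h i) ≠ 1},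
        ∀ i, V.valuation (h (π i)) = V.valuation (h i) ∧
          ∀ ψ ψ', ResE A V r (ξ i) ψ → ResE A V r (ξ (π i)) ψ' →
            ∀ x ∈ K, g (ψ x) = ψ' x

/-- the conclusion of block G -/
def GSt (A : IntermediateField k Ω) (Gd : IntermediateField k A → Prop)
    (K : IntermediateField k A) : Prop :=
  ∃ (m : ℕ) (ξ : Fin m → (A →ₐ[k] Ω)) (h : Fin m → Ω), (∀ i, h i ≠ 0) ∧
    (∀ (V : ValuationSubring Ω) (r : V →+* Ω), Plc A V r → LocG A Gd K ξ h V r) ∧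
    ∃ (V : ValuationSubring Ω) (r : V →+* Ω), Plc A V r ∧
      (∃ i, (∀ x, ξ i x ∈ V) ∧ V.valuation (h i) < 1) ∧
      ∀ i, (∀ x, ξ i x ∈ V) → V.valuation (h i) ≠ 1 → V.valuation (h i) < 1 ∧
        ∀ ψ, ResE A V r (ξ i) ψ → ∀ x ∈ K, ψ x = x

/-- block G: the geometry of the embeddings -/
def BlockGW (k Ω : Type u) [Field k] [Field Ω] [Algebra k Ω] : Prop :=
  ∀ (_ : IsAlgClosed Ω) (A H : IntermediateField k Ω) (_ : IsAlgClosed A) (_ : IsAlgClosed H)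
    (K₀ : IntermediateField k A) (z : A) (φ : k[X]) (e : ℕ) (a w U t : Ω),
    CfW A H K₀ z φ e a w U t → NU (KZ K₀ z) → GSt A (GoodW K₀) (KZ K₀ z)

/-- the data: `a = A₁(t) / A₂(t)`, the roots `T i` of `(a(X) ^ e - a ^ e) / (a(X) - a)`,
automorphisms over `H` which map `t` to `T i` and the embeddings of `A` -/
structure GDW (A H : IntermediateField k Ω) (K₀ : IntermediateField k A) (z : A) (e : ℕ)
    (a w U t : Ω) (A₁ A₂ : H[X]) {m : ℕ} (T : Fin m → Ω)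
    (s : Fin m → (Ω ≃ₐ[k] Ω)) (ξ : Fin m → (A →ₐ[k] Ω)) (f : Polynomial Ω) : Prop where
  cop : IsCoprime A₁ A₂
  A₂0 : A₂ ≠ 0
  A₂t : aeval t A₂ ≠ 0
  aeq : a * aeval t A₂ = aeval t A₁
  f0 : f ≠ 0
  fdef : f = ∑ i ∈ Finset.range e, (A₁.map (algebraMap H Ω)) ^ i *
    (C a * A₂.map (algebraMap H Ω)) ^ (e - 1 - i)
  roots : f.roots = Finset.univ.val.map T
  TH : ∀ i, T i ∉ H
  Tt : ∀ i, T i ≠ t
  sH : ∀ i, s i ∈ Fx k (H : Set Ω)
  st : ∀ i, s i t = T i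
  ξK : ∀ i, ∀ x ∈ K₀, ξ i x = s i x
  ξz : ∀ i, ξ i z = s i w + U
  se : ∀ i, (s i a) ^ e = a ^ e
  sa : ∀ i, s i a ≠ a

/-- `σ` preserves the place `V` and induces `g` on the residue field -/
structure Lft (A : IntermediateField k Ω) (V : ValuationSubring Ω) (r : V →+* Ω)
    (σ : Ω ≃ₐ[k] Ω) (g : A ≃ₐ[k] A) : Prop where
  mem : ∀ x, σ x ∈ V ↔ x ∈ V
  res : ∀ (x : Ω) (h : x ∈ V) (h' : σ x ∈ V) (y : A), r ⟨x, h⟩ = y → r ⟨σ x, h'⟩ = g y

end

end Pool.Agent.WLD
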