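import Pool.Agent.WLD.P

/-!
# The dual additive polynomials of a separable additive polynomial
-/

set_option autoImplicit false

namespace Pool.Agent.WLD

open Polynomial Pool.Agent.TBR Pool.Agent.TUQ

universe u

/-- a polynomial which is additive on a finite subgroup of order larger than its degree is
additive -/
theorem addPoly_of_finset {k : Type u} [Field k] (S : Finset k) (h0 : (0 : k) ∈ S) (P : k[X])
    (hP : P.degree < (S.card : WithBot ℕ))
    (hadd : ∀ a ∈ S, ∀ b ∈ S, eval (a + b) P = eval a P + eval b P) :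
    Pool.Agent.UQ.AddPoly P := by
  classical
  have hc : ((0 : ℕ) : WithBot ℕ) < (S.card : WithBot ℕ) := by
    exact_mod_cast Finset.card_pos.2 ⟨0, h0⟩
  have h1 : ∀ w ∈ S, taylor w P = P + C (eval w P) := by
    intro w hw
    refine eq_of_degrees_lt_of_eval_finset_eq S ?_ ?_ ?_
    · rw [degree_taylor]
      exact hP
    · refine lt_of_le_of_lt (degree_add_le _ _) (max_lt hP (lt_of_le_of_lt degree_C_le hc))
    · intro x hx
      rw [taylor_eval, eval_add, eval_C]
      exact hadd x hx w hw
  intro L _ _ x y
  have hinj : Function.Injective (algebraMap k L) := (algebraMap k L).injective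
  have hdm : (P.map (algebraMap k L)).degree = P.degree := degree_map P _
  have hcm : ((S.image (algebraMap k L)).card : WithBot ℕ) = (S.card : WithBot ℕ) := by
    rw [Finset.card_image_of_injective S hinj]
  have h2 : taylor x (P.map (algebraMap k L)) = P.map (algebraMap k L) + C (aeval x P) := by
    refine eq_of_degrees_lt_of_eval_finset_eq (S.image (algebraMap k L)) ?_ ?_ ?_
    · rw [degree_taylor, hdm, hcm]
      exact hP
    · rw [hcm]
      refine lt_of_le_of_lt (degree_add_le _ _) (max_lt (by rw [hdm]; exact hP)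
        (lt_of_le_of_lt degree_C_le hc))
    · intro z hz
      obtain ⟨w, hw, rfl⟩ := Finset.mem_image.1 hz
      have h3 := congrArg (fun q => aeval x q) (h1 w hw)
      simp only [taylor_apply, aeval_comp, map_add, aeval_X, aeval_C] at h3
      rw [taylor_eval, eval_add, eval_C, eval_map_algebraMap, add_comm _ x, h3,
        eval_map_algebraMap, aeval_algebraMap_apply, add_comm]
      simp
  have h3 := congrArg (fun q => eval y q) h2
  simp only [taylor_eval, eval_add, eval_C, eval_map_algebraMap] at h3
  rw [add_comm x y, h3, add_comm]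

/-- the coefficients of an additive polynomial of degree `< p ^ n` vanish above `p ^ (n - 1)` -/
theorem add_deg_le {k : Type u} [Field k] {P : k[X]} (h : Pool.Agent.UQ.AddPoly P) (p : ℕ)
    (hp : p.Prime) [CharP k p] (n : ℕ) (hd : P.degree < ((p ^ n : ℕ) : WithBot ℕ)) :
    p * P.natDegree ≤ p ^ n := by
  rcases eq_or_ne P 0 with h0 | h0
  · rw [h0, natDegree_zero, mul_zero]
    exact Nat.zero_le _
  · have hlc : P.coeff P.natDegree ≠ 0 := by
      rw [coeff_natDegree]
      exact leadingCoeff_ne_zero.2 h0
    obtain ⟨m, hm⟩ := add_coeff h p hp P.natDegree hlc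
    rw [degree_eq_natDegree h0] at hd
    have hd1 : P.natDegree < p ^ n := by exact_mod_cast hd
    rw [hm] at hd1
    have hmn : m < n := (Nat.pow_lt_pow_iff_right hp.one_lt).1 hd1
    rw [hm, ← pow_succ']
    exact Nat.pow_le_pow_right hp.pos hmn

/-- a separable additive polynomial whose roots are in `k`: dual additive polynomials -/
theorem exists_dual {k : Type u} [Field k] (p : ℕ) [Fact p.Prime] [CharP k p] (φ : k[X])
    (hadd : Pool.Agent.UQ.AddPoly φ) (hsep : derivative φ ≠ 0) (hdeg : 1 < φ.natDegree)
    (hspl : φ.Splits) :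
    ∃ (n : ℕ) (w c : Fin n → k) (P : Fin n → k[X]),
      (∀ j, (P j) ^ p - P j = C (c j) * φ) ∧ ∑ j, C (w j) * P j = X := by
  classical
  have hp : p.Prime := Fact.out
  have hφ0 : φ ≠ 0 := by
    rintro rfl
    rw [natDegree_zero] at hdeg
    omega
  have hlc : φ.coeff φ.natDegree ≠ 0 := by
    rw [coeff_natDegree]
    exact leadingCoeff_ne_zero.2 hφ0
  obtain ⟨m, hm⟩ := add_coeff hadd p hp φ.natDegree hlc
  -- separable
  have hder : derivative φ = C (φ.coeff 1) := by
    rw [← add_hasse hadd 1 one_pos, hasseDeriv_one]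
  have hc1 : φ.coeff 1 ≠ 0 := by
    intro h
    apply hsep
    rw [hder, h, C_0]
  have hS : φ.Separable := by
    rw [Polynomial.separable_def, hder]
    obtain ⟨u, hu⟩ := isUnit_C.2 (isUnit_iff_ne_zero.2 hc1)
    refine ⟨0, ↑u⁻¹, ?_⟩
    rw [zero_mul, zero_add, ← hu, Units.inv_mul]
  set S : Finset k := φ.roots.toFinset with hSdef
  have hcard : S.card = p ^ m := by
    rw [hSdef, Multiset.toFinset_card_of_nodup (nodup_roots hS), ← hspl.natDegree_eq_card_roots, hm]
  have hmem : ∀ x, x ∈ S ↔ aeval x φ = 0 := by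
    intro x
    rw [hSdef, Multiset.mem_toFinset, mem_roots hφ0, IsRoot.def, coe_aeval_eq_eval]
  -- the subspace
  let _ : Algebra (ZMod p) k := ZMod.algebra k p
  let W0 : AddSubgroup k :=
    { carrier := {x | aeval x φ = 0}
      add_mem' := fun {a b} ha hb => by
        simp only [Set.mem_ofPred_eq] at ha hb ⊢
        rw [hadd k a b, ha, hb, add_zero]
      zero_mem' := add_zero' hadd
      neg_mem' := fun {a} ha => by
        simp only [Set.mem_ofPred_eq] at ha ⊢
        rw [add_neg' hadd, ha, neg_zero] }
  let W : Submodule (ZMod p) k := AddSubgroup.toZModSubmodule p W0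
  have hW : ∀ x, x ∈ W ↔ x ∈ S := by
    intro x
    rw [hmem]
    exact Iff.rfl
  have : Finite W := by
    apply Finite.of_injective (fun x : W => (⟨(x : k), (hW x).1 x.2⟩ : S))
    intro a b hab
    apply Subtype.ext
    exact congrArg (fun y : S => (y : k)) hab
  have : Module.Finite (ZMod p) W := inferInstance
  let b := Module.finBasis (ZMod p) W
  let χ : Fin (Module.finrank (ZMod p) W) → k → k := fun j x =>
    if h : x ∈ W then algebraMap (ZMod p) k (b.repr ⟨x, h⟩ j) else 0
  have hχ : ∀ j, ∀ x, ∀ h : x ∈ W, χ j x = algebraMap (ZMod p) k (b.repr ⟨x, h⟩ j) := by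
    intro j x h
    simp only [χ, dif_pos h]
  have hidS : Set.InjOn (id : k → k) (S : Set k) := Set.injOn_id _
  let P : Fin (Module.finrank (ZMod p) W) → k[X] := fun j => Lagrange.interpolate S id (χ j)
  have hPdeg : ∀ j, (P j).degree < ((p ^ m : ℕ) : WithBot ℕ) := by
    intro j
    have := Lagrange.degree_interpolate_lt (χ j) hidS
    rw [hcard] at this
    exact this
  have hPev : ∀ j, ∀ x ∈ S, eval x (P j) = χ j x := by
    intro j x hx
    exact Lagrange.eval_interpolate_at_node (χ j) hidS hx
  have h0S : (0 : k) ∈ S := by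
    rw [hmem]
    exact add_zero' hadd
  have hPadd : ∀ j, Pool.Agent.UQ.AddPoly (P j) := by
    intro j
    apply addPoly_of_finset S h0S
    · rw [hcard]
      exact hPdeg j
    · intro x hx y hy
      have hx' := (hW x).2 hx
      have hy' := (hW y).2 hy
      have hxy := W.add_mem hx' hy'
      rw [hPev j x hx, hPev j y hy, hPev j _ ((hW _).1 hxy), hχ j _ hx', hχ j _ hy', hχ j _ hxy,
        ← map_add, ← Finsupp.add_apply, ← map_add]
      rfl
  have hPn : ∀ j, p * (P j).natDegree ≤ p ^ m := fun j => add_deg_le (hPadd j) p hp m (hPdeg j)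
  have hpm1 : 1 < p ^ m := by
    rw [← hm]
    exact hdeg
  refine ⟨Module.finrank (ZMod p) W, fun j => ((b j : W) : k),
    fun j => ((P j) ^ p - P j).coeff (p ^ m) / φ.coeff (p ^ m), P, ?_, ?_⟩
  · intro j
    rw [← sub_eq_zero]
    apply eq_zero_of_degree_lt_of_eval_finset_eq_zero S
    · rw [hcard, degree_lt_iff_coeff_zero]
      intro i hi
      rw [coeff_sub, coeff_C_mul]
      rcases hi.eq_or_lt with h | h
      · rw [← h, div_mul_cancel₀, sub_self]
        rw [← hm]
        exact hlc
      · have h1 : ((P j) ^ p).natDegree ≤ p ^ m := natDegree_pow_le.trans (hPn j)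
        have h2 : (P j).natDegree ≤ p ^ m :=
          le_trans (Nat.le_mul_of_pos_left _ hp.pos) (hPn j)
        have h3 : φ.coeff i = 0 := coeff_eq_zero_of_natDegree_lt (by rw [hm]; exact h)
        rw [coeff_sub, coeff_eq_zero_of_natDegree_lt (lt_of_le_of_lt h1 h),
          coeff_eq_zero_of_natDegree_lt (lt_of_le_of_lt h2 h), h3, mul_zero, sub_zero, sub_zero]
    · intro x hx
      have h1 : eval x φ = 0 := by
        rw [← coe_aeval_eq_eval]
        exact (hmem x).1 hx
      rw [eval_sub, eval_sub, eval_mul, h1, mul_zero, sub_zero, eval_pow, hPev j x hx,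
        hχ j x ((hW x).2 hx), ← map_pow, ZMod.pow_card, sub_self]
  · refine eq_of_degrees_lt_of_eval_finset_eq S ?_ ?_ ?_
    · rw [hcard]
      refine lt_of_le_of_lt (degree_sum_le _ _) ?_
      rw [Finset.sup_lt_iff (by exact_mod_cast WithBot.bot_lt_coe _)]
      intro j _
      refine lt_of_le_of_lt ?_ (hPdeg j)
      refine (degree_mul_le _ _).trans ?_
      refine (add_le_add_left degree_C_le _).trans ?_
      rw [zero_add]
    · rw [hcard, degree_X]
      exact_mod_cast hpm1
    · intro x hx
      have hx' := (hW x).2 hx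
      rw [eval_finsetSum, eval_X]
      have h1 := congrArg (fun y : W => (y : k)) (b.sum_repr ⟨x, hx'⟩)
      simp only [Submodule.coe_sum, Submodule.coe_smul] at h1
      rw [← h1]
      apply Finset.sum_congr rfl
      intro j _
      rw [eval_mul, eval_C, h1, hPev j x hx, hχ j x hx', Algebra.smul_def, mul_comm]

end Pool.Agent.WLD
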