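import Pool.Agent.WLD.EA3a
import Pool.Agent.WLD.W11b

/-!
# Solutions of `φ(z) = f / q ^ e` are combinations of solutions of `y ^ p - y = f' / q ^ e`
-/

set_option autoImplicit false

namespace Pool.Agent.WLD

open Polynomial Pool.Agent.TBR Pool.Agent.TUQ Pool.Agent.UQ

universe u

section

variable {k M : Type u} [Field k] [Field M] [Algebra k M]

theorem addPoly_map {φ : k[X]} (h : AddPoly φ) (K : Type u) [Field K] [Algebra k K] :
    AddPoly (φ.map (algebraMap k K)) := by
  intro L _ _ a b
  let _ : Algebra k L := ((algebraMap K L).comp (algebraMap k K)).toAlgebra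
  have : IsScalarTower k K L := IsScalarTower.of_algebraMap_eq' rfl
  rw [aeval_map_algebraMap, aeval_map_algebraMap, aeval_map_algebraMap]
  exact h L a b

theorem mv_aeval_mem (x : Fin 2 → M) (f : MvPolynomial (Fin 2) k) :
    MvPolynomial.aeval x f ∈ IntermediateField.adjoin k (Set.range x) := by
  apply IntermediateField.algebra_adjoin_le_adjoin
  rw [Algebra.adjoin_range_eq_range_aeval]
  exact ⟨f, rfl⟩

theorem mem_sup_l' {E F : IntermediateField k M} {a : M} (h : a ∈ E) : a ∈ E ⊔ F :=
  (le_sup_left : E ≤ E ⊔ F) h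

theorem mem_sup_r' {E F : IntermediateField k M} {a : M} (h : a ∈ F) : a ∈ E ⊔ F :=
  (le_sup_right : F ≤ E ⊔ F) h

/-- one function -/
theorem exists_span_one [IsAlgClosed M] (p : ℕ) [Fact p.Prime] [CharP k p] (x : Fin 2 → M)
    (q : MvPolynomial (Fin 2) k) (hq : MvPolynomial.aeval x q ≠ 0) (ω : Fin 2 → ℕ) (e D : ℕ)
    (z : M) (φ : k[X]) (f : MvPolynomial (Fin 2) k) (hadd : AddPoly φ) (hsep : derivative φ ≠ 0)
    (hf : MvPolynomial.weightedTotalDegree ω f ≤ D)
    (hz : aeval z φ * MvPolynomial.aeval x q ^ e = MvPolynomial.aeval x f) :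
    ∃ (C₀ : Finset M) (n : ℕ) (y : Fin n → M), (∀ c ∈ C₀, IsAlgebraic k c) ∧
      (∀ i, ∃ c ∈ C₀, ∃ f : MvPolynomial (Fin 2) k, MvPolynomial.weightedTotalDegree ω f ≤ D ∧
        (y i ^ p - y i) * MvPolynomial.aeval x q ^ e = c * MvPolynomial.aeval x f) ∧
      z ∈ IntermediateField.adjoin k (C₀ : Set M) ⊔ IntermediateField.adjoin k (Set.range x) ⊔
        IntermediateField.adjoin k (Set.range y) := by
  classical
  rcases lt_or_ge 1 φ.natDegree with hdeg | hdeg
  · let K : IntermediateField k M := algebraicClosure k M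
    have hKc : IsAlgClosed K := (inferInstance : IsAlgClosure k (algebraicClosure k M)).isAlgClosed
    have hKp : CharP K p := charP_of_injective_algebraMap (algebraMap k K).injective p
    have hd' : (φ.map (algebraMap k K)).natDegree = φ.natDegree := natDegree_map _
    have hsep' : derivative (φ.map (algebraMap k K)) ≠ 0 := by
      rw [derivative_map]
      intro h0
      exact hsep ((Polynomial.map_eq_zero _).1 h0)
    obtain ⟨n, w, c, P, hP, hw⟩ := exists_dual p (φ.map (algebraMap k K)) (addPoly_map hadd K)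
      hsep' (by rw [hd']; exact hdeg) (IsAlgClosed.splits _)
    have hy : ∀ j, (aeval z (P j)) ^ p - aeval z (P j) = (c j : M) * aeval z φ := by
      intro j
      have h1 := congrArg (fun r => aeval z r) (hP j)
      simp only [map_sub, map_pow, map_mul, aeval_C, aeval_map_algebraMap] at h1
      exact h1
    have hzs : z = ∑ j, (w j : M) * aeval z (P j) := by
      have h1 := congrArg (fun r => aeval z r) hw
      simp only [map_sum, map_mul, aeval_C, aeval_X] at h1
      exact h1.symm
    refine ⟨Finset.univ.image (fun j => (c j : M)) ∪ Finset.univ.image (fun j => (w j : M)), n,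
      fun j => aeval z (P j), ?_, ?_, ?_⟩
    · intro a ha
      rcases Finset.mem_union.1 ha with h | h
      · obtain ⟨j, -, rfl⟩ := Finset.mem_image.1 h
        exact mem_algebraicClosure_iff.1 (c j).2
      · obtain ⟨j, -, rfl⟩ := Finset.mem_image.1 h
        exact mem_algebraicClosure_iff.1 (w j).2
    · intro j
      refine ⟨(c j : M), Finset.mem_union_left _ (Finset.mem_image_of_mem _ (Finset.mem_univ j)),
        f, hf, ?_⟩
      rw [hy, mul_assoc, hz]
    · rw [hzs]
      refine sum_mem fun j _ => mul_mem ?_ ?_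
      · refine mem_sup_l' (mem_sup_l' (IntermediateField.subset_adjoin k _ ?_))
        exact Finset.mem_coe.2 (Finset.mem_union_right _
          (Finset.mem_image_of_mem _ (Finset.mem_univ j)))
      · rw [← hzs]
        exact mem_sup_r' (IntermediateField.subset_adjoin k _ ⟨j, rfl⟩)
  · refine ⟨∅, 0, Fin.elim0, fun c hc => absurd hc (Finset.notMem_empty c), fun i => i.elim0, ?_⟩
    have h1 := eq_X_add_C_of_natDegree_le_one hdeg
    have h0 : aeval (0 : k) φ = 0 := add_zero' hadd
    have hb : φ.coeff 0 = 0 := by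
      rw [← h0, coe_aeval_eq_eval, ← coeff_zero_eq_eval_zero]
    rw [hb, C_0, add_zero] at h1
    have ha : φ.coeff 1 ≠ 0 := by
      intro h
      rw [h, C_0, zero_mul] at h1
      rw [h1, derivative_zero] at hsep
      exact hsep rfl
    have ha' : algebraMap k M (φ.coeff 1) ≠ 0 := (_root_.map_ne_zero _).2 ha
    rw [h1, map_mul, aeval_C, aeval_X] at hz
    have hz' : z = MvPolynomial.aeval x f /
        (algebraMap k M (φ.coeff 1) * MvPolynomial.aeval x q ^ e) := by
      rw [eq_div_iff (mul_ne_zero ha' (pow_ne_zero _ hq)), ← hz]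
      ring
    refine mem_sup_l' (mem_sup_r' ?_)
    rw [hz']
    exact div_mem (mv_aeval_mem x f) (mul_mem (IntermediateField.algebraMap_mem _ _)
      (pow_mem (mv_aeval_mem x q) _))

theorem wle_C_mul_map (ω : Fin 2 → ℕ) (E : IntermediateField k M) (c : E)
    (f : MvPolynomial (Fin 2) k) (D : ℕ) (hf : MvPolynomial.weightedTotalDegree ω f ≤ D) :
    MvPolynomial.weightedTotalDegree ω (MvPolynomial.C c * MvPolynomial.map (algebraMap k E) f) ≤
      D := by
  classical
  rw [wle_iff] at hf ⊢
  intro d hd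
  apply hf
  rw [MvPolynomial.mem_support_iff, MvPolynomial.coeff_C_mul, MvPolynomial.coeff_map] at hd
  rw [MvPolynomial.mem_support_iff]
  intro h0
  exact hd (by rw [h0, map_zero, mul_zero])

/-- finitely many functions -/
theorem exists_span [IsAlgClosed M] (p : ℕ) [Fact p.Prime] [CharP k p] (x : Fin 2 → M)
    (q : MvPolynomial (Fin 2) k) (hq : MvPolynomial.aeval x q ≠ 0) (ω : Fin 2 → ℕ) (e D : ℕ)
    (S : Finset M) (hS : ∀ z ∈ S, ∃ (φ : k[X]) (f : MvPolynomial (Fin 2) k),
      AddPoly φ ∧ derivative φ ≠ 0 ∧ MvPolynomial.weightedTotalDegree ω f ≤ D ∧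
        aeval z φ * MvPolynomial.aeval x q ^ e = MvPolynomial.aeval x f) :
    ∃ (C₀ : Finset M) (r : ℕ) (y : Fin r → M), (∀ c ∈ C₀, IsAlgebraic k c) ∧
      (∀ i, ∃ f : MvPolynomial (Fin 2) (IntermediateField.adjoin k (C₀ : Set M)),
        MvPolynomial.weightedTotalDegree ω f ≤ D ∧
          (y i ^ p - y i) * MvPolynomial.aeval x q ^ e = MvPolynomial.aeval x f) ∧
      ∀ z ∈ S, z ∈ IntermediateField.adjoin k (C₀ : Set M) ⊔
        IntermediateField.adjoin k (Set.range x) ⊔ IntermediateField.adjoin k (Set.range y) := by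
  classical
  have key : ∃ (C₀ : Finset M) (r : ℕ) (y : Fin r → M), (∀ c ∈ C₀, IsAlgebraic k c) ∧
      (∀ i, ∃ c ∈ C₀, ∃ f : MvPolynomial (Fin 2) k, MvPolynomial.weightedTotalDegree ω f ≤ D ∧
        (y i ^ p - y i) * MvPolynomial.aeval x q ^ e = c * MvPolynomial.aeval x f) ∧
      ∀ z ∈ S, z ∈ IntermediateField.adjoin k (C₀ : Set M) ⊔
        IntermediateField.adjoin k (Set.range x) ⊔ IntermediateField.adjoin k (Set.range y) := by
    induction S using Finset.induction_on with
    | empty =>
      exact ⟨∅, 0, Fin.elim0, fun c hc => absurd hc (Finset.notMem_empty c), fun i => i.elim0,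
        fun z hz => absurd hz (Finset.notMem_empty z)⟩
    | insert z S _ ih =>
      obtain ⟨C₁, r₁, y₁, a₁, b₁, c₁⟩ := ih fun z hz => hS z (Finset.mem_insert_of_mem hz)
      obtain ⟨φ, f, h1, h2, h3, h4⟩ := hS z (Finset.mem_insert_self z S)
      obtain ⟨C₂, r₂, y₂, a₂, b₂, c₂⟩ := exists_span_one p x q hq ω e D z φ f h1 h2 h3 h4
      have hl1 : IntermediateField.adjoin k (C₁ : Set M) ⊔
          IntermediateField.adjoin k (Set.range x) ⊔ IntermediateField.adjoin k (Set.range y₁) ≤
          IntermediateField.adjoin k ((C₁ ∪ C₂ : Finset M) : Set M) ⊔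
          IntermediateField.adjoin k (Set.range x) ⊔
          IntermediateField.adjoin k (Set.range (Fin.append y₁ y₂)) := by
        refine sup_le_sup (sup_le_sup_right (IntermediateField.adjoin.mono k _ _ ?_) _)
          (IntermediateField.adjoin.mono k _ _ ?_)
        · exact Finset.coe_subset.2 Finset.subset_union_left
        · rintro _ ⟨i, rfl⟩
          exact ⟨Fin.castAdd r₂ i, Fin.append_left _ _ _⟩
      have hl2 : IntermediateField.adjoin k (C₂ : Set M) ⊔
          IntermediateField.adjoin k (Set.range x) ⊔ IntermediateField.adjoin k (Set.range y₂) ≤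
          IntermediateField.adjoin k ((C₁ ∪ C₂ : Finset M) : Set M) ⊔
          IntermediateField.adjoin k (Set.range x) ⊔
          IntermediateField.adjoin k (Set.range (Fin.append y₁ y₂)) := by
        refine sup_le_sup (sup_le_sup_right (IntermediateField.adjoin.mono k _ _ ?_) _)
          (IntermediateField.adjoin.mono k _ _ ?_)
        · exact Finset.coe_subset.2 Finset.subset_union_right
        · rintro _ ⟨i, rfl⟩
          exact ⟨Fin.natAdd r₁ i, Fin.append_right _ _ _⟩
      refine ⟨C₁ ∪ C₂, r₁ + r₂, Fin.append y₁ y₂, ?_, ?_, ?_⟩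
      · intro c hc
        rcases Finset.mem_union.1 hc with h | h
        · exact a₁ c h
        · exact a₂ c h
      · intro i
        refine Fin.addCases (fun i => ?_) (fun i => ?_) i
        · rw [Fin.append_left]
          obtain ⟨c, hc, f, h⟩ := b₁ i
          exact ⟨c, Finset.mem_union_left _ hc, f, h⟩
        · rw [Fin.append_right]
          obtain ⟨c, hc, f, h⟩ := b₂ i
          exact ⟨c, Finset.mem_union_right _ hc, f, h⟩
      · intro z' hz'
        rcases Finset.mem_insert.1 hz' with rfl | h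
        · exact hl2 c₂
        · exact hl1 (c₁ z' h)
  obtain ⟨C₀, r, y, a, b, c⟩ := key
  refine ⟨C₀, r, y, a, fun i => ?_, c⟩
  obtain ⟨d, hd, f, hf, hy⟩ := b i
  have hdE : d ∈ IntermediateField.adjoin k (C₀ : Set M) :=
    IntermediateField.subset_adjoin k _ (Finset.mem_coe.2 hd)
  refine ⟨MvPolynomial.C ⟨d, hdE⟩ * MvPolynomial.map (algebraMap k _) f,
    wle_C_mul_map ω _ _ f D hf, ?_⟩
  rw [hy, map_mul, MvPolynomial.aeval_C, MvPolynomial.aeval_map_algebraMap]
  rfl

end

end Pool.Agent.WLD
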