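import Pool.Agent.WLD.Defs

/-!
# Additive polynomials: the degree, differences and the kernel
-/

set_option autoImplicit false

namespace Pool.Agent.WLD

open Polynomial Pool.Agent.TBR Pool.Agent.TUQ

universe u

theorem add_zero' {k : Type u} [Field k] {φ : k[X]} (h : Pool.Agent.UQ.AddPoly φ) {L : Type u}
    [Field L] [Algebra k L] : aeval (0 : L) φ = 0 := by
  have h1 := h L 0 0
  rw [add_zero] at h1
  exact left_eq_add.1 h1

theorem add_sub' {k : Type u} [Field k] {φ : k[X]} (h : Pool.Agent.UQ.AddPoly φ) {L : Type u}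
    [Field L] [Algebra k L] (a b : L) : aeval (a - b) φ = aeval a φ - aeval b φ := by
  have h1 := h L (a - b) b
  rw [sub_add_cancel] at h1
  rw [h1, add_sub_cancel_right]

theorem add_neg' {k : Type u} [Field k] {φ : k[X]} (h : Pool.Agent.UQ.AddPoly φ) {L : Type u}
    [Field L] [Algebra k L] (a : L) : aeval (-a) φ = -aeval a φ := by
  have h1 := add_sub' h 0 a
  rw [zero_sub, add_zero' h, zero_sub] at h1
  exact h1

theorem hasse_map {R S : Type*} [Semiring R] [Semiring S] (g : R →+* S) (i : ℕ) (p : R[X]) :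
    hasseDeriv i (p.map g) = (hasseDeriv i p).map g := by
  ext n
  rw [hasseDeriv_coeff, coeff_map, coeff_map, hasseDeriv_coeff, map_mul, map_natCast]

/-- the Hasse derivatives of an additive polynomial are constant -/
theorem add_hasse {k : Type u} [Field k] {φ : k[X]} (h : Pool.Agent.UQ.AddPoly φ) (i : ℕ)
    (hi : 0 < i) : hasseDeriv i φ = C (φ.coeff i) := by
  have hinf : Infinite (RatFunc k) := by
    apply Infinite.of_injective _ (IsFractionRing.injective k[X] (RatFunc k))
  set y : RatFunc k := RatFunc.X with hy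
  have h1 : (φ.map (algebraMap k (RatFunc k))).comp (X + C y) =
      φ.map (algebraMap k (RatFunc k)) + C (aeval y φ) := by
    apply Polynomial.funext
    intro x
    rw [eval_comp, eval_add, eval_X, eval_C, eval_add, eval_C, eval_map_algebraMap,
      eval_map_algebraMap]
    exact h _ x y
  have h2 := congrArg (fun p => p.coeff i) h1
  simp only [coeff_add, coeff_C, hi.ne', if_false, add_zero] at h2
  rw [← taylor_apply, taylor_coeff, hasse_map, eval_map_algebraMap, coeff_map] at h2
  have h3 : aeval y (hasseDeriv i φ - C (φ.coeff i)) = 0 := by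
    rw [map_sub, h2, aeval_C, sub_self]
  rw [hy, RatFunc.aeval_X_left_eq_algebraMap] at h3
  exact sub_eq_zero.1 ((map_eq_zero_iff _ (IsFractionRing.injective k[X] (RatFunc k))).1 h3)

theorem add_choose {k : Type u} [Field k] {φ : k[X]} (h : Pool.Agent.UQ.AddPoly φ) (n i : ℕ)
    (hi : 0 < i) (hn : i < n) (h0 : φ.coeff n ≠ 0) : ((n.choose i : ℕ) : k) = 0 := by
  have h1 : (hasseDeriv i φ).coeff (n - i) = (C (φ.coeff i)).coeff (n - i) := by
    rw [add_hasse h i hi]
  rw [hasseDeriv_coeff, coeff_C, if_neg (by omega), Nat.sub_add_cancel hn.le] at h1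
  exact (mul_eq_zero.1 h1).resolve_right h0

theorem choose_pp (p : ℕ) [Fact p.Prime] (n b : ℕ) :
    (p ^ n * b).choose (p ^ n) ≡ b [MOD p] := by
  induction n with
  | zero => simp [Nat.ModEq]
  | succ n ih =>
    have h1 := Choose.choose_modEq_choose_mod_mul_choose_div_nat (p := p) (n := p ^ (n + 1) * b)
      (k := p ^ (n + 1))
    have hp := (Fact.out : p.Prime).pos
    have e1 : p ^ (n + 1) * b % p = 0 := by
      rw [pow_succ', mul_assoc]
      exact Nat.mul_mod_right _ _
    have e2 : p ^ (n + 1) % p = 0 := by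
      rw [pow_succ']
      exact Nat.mul_mod_right _ _
    have e3 : p ^ (n + 1) * b / p = p ^ n * b := by
      rw [pow_succ', mul_assoc]
      exact Nat.mul_div_cancel_left _ hp
    have e4 : p ^ (n + 1) / p = p ^ n := by
      rw [pow_succ']
      exact Nat.mul_div_cancel_left _ hp
    rw [e1, e2, e3, e4, Nat.choose_self, one_mul] at h1
    exact h1.trans ih

/-- the coefficients of an additive polynomial -/
theorem add_coeff {k : Type u} [Field k] {φ : k[X]} (h : Pool.Agent.UQ.AddPoly φ) (p : ℕ)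
    (hp : p.Prime) [CharP k p] (n : ℕ) (h0 : φ.coeff n ≠ 0) : ∃ m, n = p ^ m := by
  have hpf : Fact p.Prime := ⟨hp⟩
  have hn : n ≠ 0 := by
    rintro rfl
    apply h0
    have h1 := add_zero' h (L := k)
    rw [coeff_zero_eq_aeval_zero]
    exact h1
  obtain ⟨m, b, hb, hnb⟩ := Nat.exists_eq_pow_mul_and_not_dvd hn p hp.ne_one
  refine ⟨m, ?_⟩
  by_contra hne
  have hb1 : b ≠ 1 := by
    rintro rfl
    rw [mul_one] at hnb
    exact hne hnb
  have hb0 : b ≠ 0 := by
    rintro rfl
    exact hb (dvd_zero p)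
  have hlt : p ^ m < n := by
    rw [hnb]
    exact lt_mul_of_one_lt_right (pow_pos hp.pos m) (by omega)
  have h1 := add_choose h n (p ^ m) (pow_pos hp.pos m) hlt h0
  rw [CharP.cast_eq_zero_iff k p] at h1
  have h2 := choose_pp p m b
  rw [← hnb] at h2
  apply hb
  exact (h2.dvd_iff dvd_rfl).1 h1

theorem Ad.ne_zero {k : Type u} [Field k] {φ : k[X]} {e : ℕ} (h : Ad φ e) : φ ≠ 0 := by
  rintro rfl
  have := h.deg
  rw [natDegree_zero] at this
  omega

/-- the degree of `φ` is a power of the characteristic -/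
theorem Ad.exists_p {k : Type u} [Field k] {φ : k[X]} {e : ℕ} (h : Ad φ e) :
    ∃ p n : ℕ, p.Prime ∧ CharP k p ∧ 0 < n ∧ φ.natDegree = p ^ n ∧ ¬ p ∣ e := by
  obtain ⟨p, hp⟩ := CharP.exists k
  have hdeg := h.deg
  have hlc : φ.coeff φ.natDegree ≠ 0 := by
    rw [coeff_natDegree]
    exact leadingCoeff_ne_zero.2 h.ne_zero
  have h1 := add_choose h.add φ.natDegree 1 one_pos hdeg hlc
  rw [Nat.choose_one_right] at h1
  have hp0 : p ≠ 0 := by
    rintro rfl
    have := CharP.charP_to_charZero k
    rw [Nat.cast_eq_zero] at h1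
    omega
  have hpp : p.Prime := (CharP.char_is_prime_or_zero k p).resolve_right hp0
  obtain ⟨n, hn⟩ := add_coeff h.add p hpp φ.natDegree hlc
  refine ⟨p, n, hpp, hp, ?_, hn, ?_⟩
  · rcases Nat.eq_zero_or_pos n with h0 | h0
    · rw [h0, pow_zero] at hn
      omega
    · exact h0
  · intro hd
    exact h.ek ((CharP.cast_eq_zero_iff k p e).2 hd)

/-- the kernel of `φ` is algebraic over `k` -/
theorem Ad.alg {k : Type u} [Field k] {φ : k[X]} {e : ℕ} (h : Ad φ e) {L : Type u}
    [Field L] [Algebra k L] {c : L} (hc : aeval c φ = 0) : IsAlgebraic k c :=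
  ⟨φ, h.ne_zero, hc⟩

end Pool.Agent.WLD
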