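import Pool.Agent.WLD.Defs
import Pool.Agent.WLD.W11b

/-!
# The explicit families of Artin-Schreier covers
-/

set_option autoImplicit false

namespace Pool.Agent.WLD

open Polynomial Pool.Agent.UQ

universe u

section

variable {k M : Type u} [Field k] [Field M] [Algebra k M]

/-- the explicit families: `K₀ = E(x_1, …, x_r)`, `E / k` finitely generated of transcendence degree
`2 - r`, `φ(z) = f(x) / q(x) ^ e`, and the equation `(a q) ^ e = f - q ^ e φ(w)` over `E` has degree
at most `D` for weights `ω` of the `x_i`, `α` of `a q` and `γ` of `w` whose sum is at least `D` -/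
def FamW (K₀ : IntermediateField k M) (z : M) (φ : k[X]) (e : ℕ) : Prop :=
  ∃ (r : ℕ) (E : IntermediateField k M) (x : Fin r → M) (f q : MvPolynomial (Fin r) E)
    (ω : Fin r → ℕ) (α γ D : ℕ),
    E.FG ∧ K₀ = E ⊔ IntermediateField.adjoin k (Set.range x) ∧ Algebra.trdeg k E + r = 2 ∧
      MvPolynomial.aeval x q ≠ 0 ∧
      aeval z φ * MvPolynomial.aeval x q ^ e = MvPolynomial.aeval x f ∧
      MvPolynomial.weightedTotalDegree ω f ≤ D ∧ e * α ≤ D ∧
      e * MvPolynomial.weightedTotalDegree ω q + max 1 (φ.natDegree * γ) ≤ D ∧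
      D ≤ ∑ i, ω i + α + γ

/-- existence of the threefold -/
theorem fam_exists {K₀ : Type u} [Field K₀] [Algebra k K₀] (φ : k[X]) (e : ℕ) (had : Ad φ e)
    (F : K₀) :
    ∃ (L : Type u) (_ : Field L) (_ : Algebra k L) (_ : Algebra K₀ L) (_ : IsScalarTower k K₀ L)
      (a w : L), Transcendental K₀ a ∧ aeval w φ + a ^ e = algebraMap K₀ L F ∧
        IntermediateField.adjoin K₀ {a, w} = ⊤ := exists_threefold φ e had.deg F

/-- the threefolds of the families are uniruled -/
theorem uniruled_famW [IsAlgClosed M] (K₀ : IntermediateField k M)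
    (htd : Algebra.trdeg k M = 2) (hal : ∀ x : M, IsAlgebraic K₀ x) (φ : k[X]) (e : ℕ)
    (had : Ad φ e) (z : M) (zN : aeval z φ ∈ K₀)
    (L : Type u) [Field L] [Algebra k L] [Algebra K₀ L] [IsScalarTower k K₀ L] (a w : L)
    (ha : Transcendental K₀ a)
    (hw : aeval w φ + a ^ e = algebraMap K₀ L ⟨aeval z φ, zN⟩)
    (hgen : IntermediateField.adjoin K₀ {a, w} = ⊤) (hF : FamW K₀ z φ e) : Uniruled k L := by
  obtain ⟨r, E, x, f, q, ω, α, γ, D, hEfg, hK₀, htr, hq, hzf, h1, h2, h3, h4⟩ := hF
  have hle : E ≤ K₀ := by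
    rw [hK₀]
    exact le_sup_left
  have hxK : ∀ i, x i ∈ K₀ := fun i => by
    rw [hK₀]
    exact (le_sup_right : IntermediateField.adjoin k (Set.range x) ≤ _)
      (IntermediateField.subset_adjoin _ _ ⟨i, rfl⟩)
  let ι : E →ₐ[k] K₀ := IntermediateField.inclusion hle
  let algE : Algebra E K₀ := ι.toRingHom.toAlgebra
  let algL : Algebra E L := ((algebraMap K₀ L).comp ι.toRingHom).toAlgebra
  have tow1 : IsScalarTower E K₀ L := IsScalarTower.of_algebraMap_eq (fun _ => rfl)
  have tow2 : IsScalarTower k E K₀ := IsScalarTower.of_algebraMap_eq (fun b => (ι.commutes b).symm)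
  have tow3 : IsScalarTower k E L := IsScalarTower.of_algebraMap_eq (fun b => by
    rw [IsScalarTower.algebraMap_apply k K₀ L, ← ι.commutes b]
    rfl)
  have tow4 : IsScalarTower E K₀ M := IsScalarTower.of_algebraMap_eq (fun _ => rfl)
  let ξ : Fin r → K₀ := fun i => ⟨x i, hxK i⟩
  have hval : ∀ P : MvPolynomial (Fin r) E, ((MvPolynomial.aeval ξ P : K₀) : M) =
      MvPolynomial.aeval x P := fun P =>
    (MvPolynomial.aeval_algebraMap_apply (A := K₀) (B := M) ξ P).symm
  have hgen₀ : IntermediateField.adjoin E (Set.range ξ) = ⊤ := by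
    rw [eq_top_iff]
    intro b _
    let N' : IntermediateField k M :=
      ((IntermediateField.adjoin E (Set.range ξ)).restrictScalars k).map K₀.val
    have hE : E ≤ N' := fun c hc => ⟨⟨c, hle hc⟩,
      (IntermediateField.adjoin E (Set.range ξ)).algebraMap_mem ⟨c, hc⟩, rfl⟩
    have hx : IntermediateField.adjoin k (Set.range x) ≤ N' := by
      rw [IntermediateField.adjoin_le_iff]
      rintro _ ⟨i, rfl⟩
      exact ⟨ξ i, IntermediateField.subset_adjoin E _ ⟨i, rfl⟩, rfl⟩
    have hb : (b : M) ∈ E ⊔ IntermediateField.adjoin k (Set.range x) := by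
      rw [← hK₀]
      exact b.2
    obtain ⟨c, hc, hcb⟩ := (sup_le hE hx) hb
    have e : c = b := Subtype.ext hcb
    rw [← e]
    exact hc
  have htd₀ : Algebra.trdeg k K₀ = 2 := by
    have h1 : Algebra.IsAlgebraic K₀ M := ⟨hal⟩
    have h3 := trdeg_add_eq k K₀ (A := M)
    rwa [trdeg_eq_zero_iff.2 h1, add_zero, htd] at h3
  have htdE : Algebra.trdeg E K₀ = r := by
    have h5 := trdeg_add_eq k E (A := K₀)
    rw [htd₀, ← htr] at h5
    refine Cardinal.eq_of_add_eq_add_left h5 ?_
    have h6 : Algebra.trdeg k E ≤ 2 := by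
      rw [← htr]
      exact self_le_add_right _ _
    exact h6.trans_lt (by exact_mod_cast Cardinal.natCast_lt_aleph0 (n := 2))
  have hEfg' : (⊤ : IntermediateField k E).FG := by
    rw [IntermediateField.fg_top_iff]
    exact IntermediateField.essFiniteType_iff.2 hEfg
  have hq' : MvPolynomial.aeval ξ q ≠ 0 := by
    intro h
    apply hq
    rw [← hval, h]
    rfl
  have hw' : (aeval w (φ.map (algebraMap k E)) + a ^ e) *
      algebraMap K₀ L (MvPolynomial.aeval ξ q) ^ e =
      algebraMap K₀ L (MvPolynomial.aeval ξ f) := by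
    rw [aeval_map_algebraMap, hw, ← map_pow, ← map_mul]
    congr 1
    apply Subtype.ext
    show aeval z φ * ((MvPolynomial.aeval ξ q : K₀) : M) ^ e = ((MvPolynomial.aeval ξ f : K₀) : M)
    rw [hval, hval, hzf]
  refine Uniruled.tower (E := E) hEfg' (fam_uniW (κ := E) (φ.map (algebraMap k E))
    (AddPoly.map' had.add) ?_ e ξ hgen₀ htdE f q hq' a w ha hw' hgen ω α γ D h1 h2 ?_ h4)
  · rw [natDegree_map]
    exact had.deg
  · rw [natDegree_map]
    exact h3

end

end Pool.Agent.WLD
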