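import Pool.Agent.UQ.Gen

/-!
# Arcs on `G φ(w) = H` for an additive polynomial `φ`: the equality case
-/

set_option autoImplicit false

namespace Pool.Agent.WLD

open Polynomial Pool.Agent.UQ

universe u v

section Poly

variable {k : Type u} {R : Type v} [Field k] [CommRing R] [Algebra k R]

theorem natDegree_aeval_poly (φ : k[X]) (p : R[X]) :
    (aeval p φ).natDegree ≤ φ.natDegree * p.natDegree := by
  rw [aeval_eq_sum_range]
  refine natDegree_sum_le_of_forall_le _ _ (fun i hi => ?_)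
  refine (natDegree_smul_le _ _).trans (natDegree_pow_le.trans (Nat.mul_le_mul_right _ ?_))
  exact Nat.lt_succ_iff.1 (Finset.mem_range.1 hi)

theorem map_aeval_poly {S : Type*} [CommRing S] [Algebra k S] (f : R →+* S)
    (hf : ∀ a : k, f (algebraMap k R a) = algebraMap k S a) (φ : k[X]) (p : R[X]) :
    (aeval p φ).map f = aeval (p.map f) φ := by
  rw [aeval_def, aeval_def, ← coe_mapRingHom, hom_eval₂]
  congr 1
  ext a
  · have h1 : algebraMap k R[X] a = C (algebraMap k R a) := rfl
    have h2 : algebraMap k S[X] a = C (algebraMap k S a) := rfl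
    rw [RingHom.comp_apply, h1, h2, coe_mapRingHom, map_C, hf]

theorem eval_aeval_poly (φ : k[X]) (p : R[X]) (c : R) :
    (aeval p φ).eval c = aeval (p.eval c) φ := by
  rw [aeval_def, aeval_def, ← coe_evalRingHom, hom_eval₂]
  congr 1
  ext a
  · have h1 : algebraMap k R[X] a = C (algebraMap k R a) := rfl
    rw [RingHom.comp_apply, h1, coe_evalRingHom, eval_C]

end Poly

section Arc

variable {k : Type u} {K : Type v} [Field k] [Field K] [Algebra k K] [IsAlgClosed K] {m : ℕ}

theorem arc_phi (φ : k[X]) (H G : MvPolynomial (Fin m) k) (i₀ : Fin m) (w : Fin m → ℕ) (D : ℕ)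
    (hdH : MvPolynomial.weightedTotalDegree w H ≤ D)
    (hdG : MvPolynomial.weightedTotalDegree w G + φ.natDegree * w i₀ ≤ D)
    (hdG1 : MvPolynomial.weightedTotalDegree w G + 1 ≤ D) (hsum : D ≤ ∑ i, w i) (ξ : Fin m → K)
    (h0 : MvPolynomial.aeval ξ G * aeval (ξ i₀) φ = MvPolynomial.aeval ξ H) :
    ∃ (𝒳 : Fin m → K[X]) (c : K), (∀ i, (𝒳 i).eval 0 = ξ i) ∧
      MvPolynomial.aeval 𝒳 G * (aeval (𝒳 i₀) φ + C c * X) = MvPolynomial.aeval 𝒳 H ∧
      (c ≠ 0 ∨ ∃ i, (𝒳 i).natDegree ≠ 0) := by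
  classical
  let ι := (Σ i : Fin m, Fin (w i)) ⊕ Unit
  let R := MvPolynomial ι K
  let 𝒴 : Fin m → R[X] := fun i => ser (MvPolynomial.C (ξ i))
    (fun j => MvPolynomial.X (Sum.inl ⟨i, j⟩))
  let r : R[X] := C (MvPolynomial.X (Sum.inr ())) * X
  have hcard : Fintype.card ι = (∑ i, w i) + 1 := by
    simp [ι, Fintype.card_sigma]
  have halg : ∀ a : k, algebraMap k R a = MvPolynomial.C (algebraMap k K a) := fun a => rfl
  have hRaev : ∀ P : MvPolynomial (Fin m) k,
      MvPolynomial.aeval (fun i => (MvPolynomial.C (ξ i) : R)) P =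
        MvPolynomial.C (MvPolynomial.aeval ξ P) := fun P =>
    MvPolynomial.aeval_algebraMap_apply (R := k) (A := K) R ξ P
  have hKaev : ∀ P : MvPolynomial (Fin m) k, MvPolynomial.aeval (fun i => (C (ξ i) : K[X])) P =
      C (MvPolynomial.aeval ξ P) := fun P =>
    MvPolynomial.aeval_algebraMap_apply (R := k) (A := K) K[X] ξ P
  have hRφ : aeval (MvPolynomial.C (ξ i₀) : R) φ = MvPolynomial.C (aeval (ξ i₀) φ) :=
    Polynomial.aeval_algebraMap_apply (R := k) (A := K) R (ξ i₀) φ
  have hKφ : aeval (C (ξ i₀) : K[X]) φ = C (aeval (ξ i₀) φ) :=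
    Polynomial.aeval_algebraMap_apply (R := k) (A := K) K[X] (ξ i₀) φ
  obtain ⟨y, hy, hy'⟩ := exists_map_eq_zero (K := K) (ι := ι)
    (MvPolynomial.aeval 𝒴 G * (aeval (𝒴 i₀) φ + r) - MvPolynomial.aeval 𝒴 H)
    (by
      rw [hcard]
      have h1 : (MvPolynomial.aeval 𝒴 G).natDegree ≤ MvPolynomial.weightedTotalDegree w G :=
        natDegree_aeval_le G w 𝒴 (fun i => ser_natDegree _ _)
      have h2 : (MvPolynomial.aeval 𝒴 H).natDegree ≤ MvPolynomial.weightedTotalDegree w H :=
        natDegree_aeval_le H w 𝒴 (fun i => ser_natDegree _ _)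
      have h3 : (aeval (𝒴 i₀) φ).natDegree ≤ φ.natDegree * w i₀ :=
        (natDegree_aeval_poly φ (𝒴 i₀)).trans (Nat.mul_le_mul_left _ (ser_natDegree _ _))
      have h4 : r.natDegree ≤ 1 := (natDegree_C_mul_le _ _).trans natDegree_X_le
      have h5 := natDegree_add_le (aeval (𝒴 i₀) φ) r
      have h6 := natDegree_mul_le (p := MvPolynomial.aeval 𝒴 G) (q := aeval (𝒴 i₀) φ + r)
      have h7 := natDegree_sub_le (MvPolynomial.aeval 𝒴 G * (aeval (𝒴 i₀) φ + r))
        (MvPolynomial.aeval 𝒴 H)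
      omega)
    (by
      rw [coeff_zero_eq_eval_zero, eval_sub, eval_mul, eval_add, eval_aeval_mv, eval_aeval_mv,
        eval_aeval_poly]
      simp only [𝒴, r, ser_eval, eval_mul, eval_C, eval_X, mul_zero, add_zero]
      rw [hRaev, hRaev, hRφ, ← map_mul, h0, sub_self])
    (by
      have hcc : ∀ a : k, (MvPolynomial.constantCoeff : MvPolynomial ι K →+* K)
          (algebraMap k R a) = algebraMap k K a := fun a => by
        have h : algebraMap k (MvPolynomial ι K) a = MvPolynomial.C (algebraMap k K a) := rfl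
        rw [h, MvPolynomial.constantCoeff_C]
      rw [Polynomial.map_sub, Polynomial.map_mul, Polynomial.map_add,
        map_aeval_mv (k := k) (MvPolynomial.constantCoeff : MvPolynomial ι K →+* K) hcc G 𝒴,
        map_aeval_mv (k := k) (MvPolynomial.constantCoeff : MvPolynomial ι K →+* K) hcc H 𝒴,
        map_aeval_poly (k := k) (MvPolynomial.constantCoeff : MvPolynomial ι K →+* K) hcc φ (𝒴 i₀)]
      simp only [𝒴, r, ser_map, Polynomial.map_mul, map_C, map_X, MvPolynomial.constantCoeff_C,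
        MvPolynomial.constantCoeff_X, ser_zero, C_0, zero_mul, add_zero]
      rw [hKaev, hKaev, hKφ, ← C_mul, h0, sub_self])
  have hC : ∀ c : K, (MvPolynomial.aeval y : MvPolynomial ι K →ₐ[K] K).toRingHom
      (MvPolynomial.C c) = c := fun c => (MvPolynomial.aeval_C y c).trans rfl
  have hX : ∀ i, (MvPolynomial.aeval y : MvPolynomial ι K →ₐ[K] K).toRingHom
      (MvPolynomial.X i) = y i := fun i => MvPolynomial.aeval_X y i
  have hyc : ∀ a : k, (MvPolynomial.aeval y : MvPolynomial ι K →ₐ[K] K).toRingHom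
      (algebraMap k R a) = algebraMap k K a := fun a => by
    rw [halg]
    exact hC _
  rw [Polynomial.map_sub, Polynomial.map_mul, Polynomial.map_add,
    map_aeval_mv (k := k) (MvPolynomial.aeval y : MvPolynomial ι K →ₐ[K] K).toRingHom hyc G 𝒴,
    map_aeval_mv (k := k) (MvPolynomial.aeval y : MvPolynomial ι K →ₐ[K] K).toRingHom hyc H 𝒴,
    map_aeval_poly (k := k) (MvPolynomial.aeval y : MvPolynomial ι K →ₐ[K] K).toRingHom hyc φ
      (𝒴 i₀)] at hy'
  simp only [𝒴, r, ser_map, Polynomial.map_mul, map_C, map_X, hC, hX] at hy'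
  refine ⟨fun i => ser (ξ i) (fun j => y (Sum.inl ⟨i, j⟩)), y (Sum.inr ()),
    fun i => ser_eval _ _, sub_eq_zero.1 hy', ?_⟩
  by_contra hcon
  push Not at hcon
  apply hy
  ext i
  rcases i with ⟨i, j⟩ | i
  · exact ser_natDegree_eq_zero _ _ (hcon.2 i) j
  · exact hcon.1

end Arc

section Uni

variable {k : Type u} [Field k]

/-- additivity on polynomials -/
theorem add_poly {φ : k[X]} (hadd : AddPoly φ) {R : Type u} [Field R] [Algebra k R] (p q : R[X]) :
    aeval (p + q) φ = aeval p φ + aeval q φ := by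
  apply IsFractionRing.injective R[X] (RatFunc R)
  rw [map_add, ← Polynomial.aeval_algebraMap_apply, ← Polynomial.aeval_algebraMap_apply,
    ← Polynomial.aeval_algebraMap_apply, map_add]
  exact hadd (RatFunc R) _ _

theorem addPoly_zero {φ : k[X]} (hadd : AddPoly φ) {R : Type u} [Field R] [Algebra k R] :
    aeval (0 : R) φ = 0 := by
  have h := hadd R 0 0
  rw [add_zero] at h
  exact left_eq_add.1 h

variable {L : Type u} [Field L] [Algebra k L] {m : ℕ}

/-- **The threefolds `G φ(w) = H` of low weighted degree are uniruled.** -/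
theorem uniruled_phi (φ : k[X]) (hadd : AddPoly φ) (hdeg : 1 < φ.natDegree) (ξ : Fin m → L)
    (hgen : IntermediateField.adjoin k (Set.range ξ) = ⊤)
    (hfin : Algebra.trdeg k L < Cardinal.aleph0)
    (htr : (m : Cardinal) ≤ Algebra.trdeg k L + 1) (i₀ : Fin m) (H G : MvPolynomial (Fin m) k)
    (hH : i₀ ∉ H.vars) (hG : i₀ ∉ G.vars) (hG0 : MvPolynomial.aeval ξ G ≠ 0)
    (h0 : MvPolynomial.aeval ξ G * aeval (ξ i₀) φ = MvPolynomial.aeval ξ H) (w : Fin m → ℕ) (D : ℕ)
    (hdH : MvPolynomial.weightedTotalDegree w H ≤ D)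
    (hdG : MvPolynomial.weightedTotalDegree w G + φ.natDegree * w i₀ ≤ D)
    (hdG1 : MvPolynomial.weightedTotalDegree w G + 1 ≤ D) (hsum : D ≤ ∑ i, w i) :
    Uniruled k L := by
  classical
  let F : MvPolynomial (Fin m) k := G * aeval (MvPolynomial.X i₀) φ - H
  -- values of `F`
  have hFv : ∀ {A : Type u} [CommRing A] [Algebra k A] (η : Fin m → A),
      MvPolynomial.aeval η F = MvPolynomial.aeval η G * aeval (η i₀) φ - MvPolynomial.aeval η H := by
    intro A _ _ η
    simp only [F, map_sub, map_mul]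
    rw [← Polynomial.aeval_algHom_apply, MvPolynomial.aeval_X]
  have hF0 : MvPolynomial.aeval ξ F = 0 := by rw [hFv, h0, sub_self]
  have hF : F ≠ 0 := by
    intro h
    let η : Fin m → L[X] := fun i => if i = i₀ then X else C (ξ i)
    have h1 := hFv η
    rw [h, map_zero, eq_comm, sub_eq_zero] at h1
    have hv : ∀ P : MvPolynomial (Fin m) k, i₀ ∉ P.vars →
        MvPolynomial.aeval η P = C (MvPolynomial.aeval ξ P) := by
      intro P hP
      rw [aeval_congr_vars P i₀ hP η (fun i => C (ξ i)) (fun i hi => by simp [η, hi])]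
      exact MvPolynomial.aeval_algebraMap_apply (R := k) (A := L) L[X] ξ P
    have hX : aeval (η i₀) φ = φ.map (algebraMap k L) := by
      simp only [η, if_true]
      rfl
    rw [hv G hG, hv H hH, hX] at h1
    have h2 := congrArg natDegree h1
    rw [natDegree_C_mul hG0, natDegree_C, natDegree_map] at h2
    omega
  let K := AlgebraicClosure L
  let j : L →ₐ[k] K := IsScalarTower.toAlgHom k L K
  obtain ⟨𝒳, c, h1, h2, h3⟩ := arc_phi (K := K) φ H G i₀ w D hdH hdG hdG1 hsum (fun i => j (ξ i)) (by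
    rw [← MvPolynomial.comp_aeval_apply, ← MvPolynomial.comp_aeval_apply,
      Polynomial.aeval_algHom_apply, ← map_mul, h0])
  by_cases hc : c = 0
  · subst hc
    obtain ⟨i, hi⟩ := h3.resolve_left (fun h => h rfl)
    refine uniruled_of_arc ξ hgen hfin htr F hF hF0 𝒳 h1 ?_ i hi
    rw [hFv, ← h2, C_0, zero_mul, add_zero, sub_self]
  · -- the substitution
    let f : K[X] := φ.map (algebraMap k K)
    let s : K[X] := C c⁻¹ * f
    have hfX : aeval (X : K[X]) φ = f := rfl
    have hf0 : f.eval 0 = 0 := by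
      have h4 : f.eval 0 = aeval (0 : K) φ := by
        rw [← hfX, eval_aeval_poly, eval_X]
      rw [h4, addPoly_zero hadd]
    have hs0 : s.eval 0 = 0 := by simp [s, hf0]
    have hcs : C c * s = f := by
      simp only [s]
      rw [← mul_assoc, ← C_mul, mul_inv_cancel₀ hc, C_1, one_mul]
    let σ : K[X] →ₐ[K] K[X] := aeval s
    let σk : K[X] →ₐ[k] K[X] := σ.restrictScalars k
    have hσ : ∀ p, σk p = p.comp s := fun p => rfl
    have he : ∀ p : K[X], (σk p).eval 0 = p.eval 0 := by
      intro p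
      rw [hσ, eval_comp, hs0]
    let 𝒵 : Fin m → K[X] := fun i => if i = i₀ then σk (𝒳 i) + X else σk (𝒳 i)
    have h𝒵₀ : 𝒵 i₀ = σk (𝒳 i₀) + X := by simp only [𝒵, if_true]
    have hvz : ∀ P : MvPolynomial (Fin m) k, i₀ ∉ P.vars →
        MvPolynomial.aeval 𝒵 P = σk (MvPolynomial.aeval 𝒳 P) := by
      intro P hP
      rw [aeval_congr_vars P i₀ hP 𝒵 (fun i => σk (𝒳 i)) (fun i hi => by simp [𝒵, hi])]
      exact (MvPolynomial.comp_aeval_apply 𝒳 σk P).symm
    refine uniruled_of_arc ξ hgen hfin htr F hF hF0 𝒵 (fun i => ?_) ?_ i₀ ?_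
    · by_cases hi : i = i₀
      · subst hi
        rw [h𝒵₀, eval_add, eval_X, add_zero, he]
        exact h1 i
      · have h4 : 𝒵 i = σk (𝒳 i) := by simp only [𝒵, if_neg hi]
        rw [h4, he]
        exact h1 i
    · have h4 := congrArg σk h2
      rw [map_mul, map_add, ← hvz G hG, ← hvz H hH, ← Polynomial.aeval_algHom_apply] at h4
      have h5 : σk (C c * X) = aeval (X : K[X]) φ := by
        rw [hσ, mul_comp, C_comp, X_comp, hcs, hfX]
      rw [h5, ← add_poly hadd, ← h𝒵₀] at h4
      rw [hFv, h4, sub_self]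
    · intro h4
      rw [h𝒵₀] at h4
      have h5 : σk (𝒳 i₀) = C ((σk (𝒳 i₀) + X).coeff 0) - X := by
        rw [← eq_C_of_natDegree_eq_zero h4]
        ring
      have h6 : (σk (𝒳 i₀)).natDegree = 1 := by
        rw [h5]
        have h7 : (C ((σk (𝒳 i₀) + X).coeff 0) - X : K[X]) = -(X - C ((σk (𝒳 i₀) + X).coeff 0)) := by ring
        rw [h7, natDegree_neg, natDegree_X_sub_C]
      rw [hσ, natDegree_comp] at h6
      have h7 : s.natDegree = φ.natDegree := by
        simp only [s, f]
        rw [natDegree_C_mul (inv_ne_zero hc), natDegree_map]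
      rw [h7] at h6
      have h8 := Nat.eq_one_of_mul_eq_one_left h6
      omega

/-- existence of the threefold `φ(w) + a ^ e = F` -/
theorem exists_threefold {K₀ : Type u} [Field K₀] [Algebra k K₀] (φ : k[X]) (e : ℕ)
    (hdeg : 1 < φ.natDegree) (F : K₀) :
    ∃ (L : Type u) (_ : Field L) (_ : Algebra k L) (_ : Algebra K₀ L) (_ : IsScalarTower k K₀ L)
      (a w : L), Transcendental K₀ a ∧ aeval w φ + a ^ e = algebraMap K₀ L F ∧
        IntermediateField.adjoin K₀ {a, w} = ⊤ := by
  let Ω := AlgebraicClosure (RatFunc K₀)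
  let a : Ω := algebraMap (RatFunc K₀) Ω RatFunc.X
  have ha : Transcendental K₀ a := by
    have h1 : Transcendental K₀ (RatFunc.X : RatFunc K₀) := RatFunc.transcendental_X
    exact (transcendental_algebraMap_iff (algebraMap (RatFunc K₀) Ω).injective).2 h1
  let ψ : K₀[X] := φ.map (algebraMap k K₀)
  let b : Ω := algebraMap K₀ Ω F - a ^ e
  obtain ⟨w, hw⟩ := IsAlgClosed.exists_root (ψ.map (algebraMap K₀ Ω) - C b) (by
    have h1 : (ψ.map (algebraMap K₀ Ω) - C b).natDegree = φ.natDegree := by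
      rw [natDegree_sub_C, natDegree_map, natDegree_map]
    intro h2
    have h3 := natDegree_eq_zero_iff_degree_le_zero.2 h2.le
    rw [h1] at h3
    omega)
  have hw' : aeval w ψ + a ^ e = algebraMap K₀ Ω F := by
    rw [IsRoot, eval_sub, eval_C, eval_map_algebraMap, sub_eq_zero] at hw
    rw [hw]
    simp only [b]
    ring
  let L := IntermediateField.adjoin K₀ {a, w}
  have haL : a ∈ L := IntermediateField.subset_adjoin _ _ (Or.inl rfl)
  have hwL : w ∈ L := IntermediateField.subset_adjoin _ _ (Or.inr rfl)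
  let algkL : Algebra k L := ((algebraMap K₀ L).comp (algebraMap k K₀)).toAlgebra
  have tow2 : IsScalarTower k K₀ L := IsScalarTower.of_algebraMap_eq (fun _ => rfl)
  refine ⟨L, inferInstance, algkL, inferInstance, tow2, ⟨a, haL⟩, ⟨w, hwL⟩, ?_, ?_, ?_⟩
  · have := (transcendental_algebraMap_iff (R := K₀) (S := L) (A := Ω) (a := ⟨a, haL⟩)
      (algebraMap L Ω).injective).1 ha
    exact this
  · apply (algebraMap L Ω).injective
    rw [map_add, ← aeval_map_algebraMap K₀ (⟨w, hwL⟩ : L) φ, ← Polynomial.aeval_algebraMap_apply, map_pow]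
    exact hw'
  · apply IntermediateField.lift_injective L
    rw [IntermediateField.lift_adjoin, IntermediateField.lift_top, Set.image_pair]

end Uni

end Pool.Agent.WLD
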