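import Pool.Agent.WLD.W11
import Pool.Agent.TUQ.F11

/-!
# The fields of the families, and the first examples
-/

set_option autoImplicit false

namespace Pool.Agent.WLD

open Polynomial Pool.Agent.UQ

universe u

section

variable {k M : Type u} [Field k] [Field M] [Algebra k M]

/-- an additive polynomial of degree two exists only in characteristic two -/
theorem two_eq_zero_of_addPoly {φ : k[X]} (hadd : AddPoly φ) (hd : φ.natDegree = 2) :
    (2 : k) = 0 := by
  have h := hadd (RatFunc k) RatFunc.X 1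
  have e1 : ∀ x : RatFunc k, aeval x φ = algebraMap k (RatFunc k) (φ.coeff 0) +
      algebraMap k (RatFunc k) (φ.coeff 1) * x + algebraMap k (RatFunc k) (φ.coeff 2) * x ^ 2 := by
    intro x
    rw [aeval_eq_sum_range, hd, Finset.sum_range_succ, Finset.sum_range_succ,
      Finset.sum_range_succ, Finset.sum_range_zero]
    simp only [Algebra.smul_def]
    ring
  rw [e1, e1, e1] at h
  have h2 : algebraMap k (RatFunc k) (φ.coeff 2) * 2 * RatFunc.X =
      algebraMap k (RatFunc k) (φ.coeff 0) := by linear_combination h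
  have h3 : algebraMap k[X] (RatFunc k) (C (φ.coeff 2 * 2) * X - C (φ.coeff 0)) = 0 := by
    have h4 : ∀ c : k, algebraMap k (RatFunc k) c = algebraMap k[X] (RatFunc k) (C c) := fun c =>
      (IsScalarTower.algebraMap_apply k k[X] (RatFunc k) c)
    rw [h4, h4, ← RatFunc.algebraMap_X] at h2
    rw [map_sub, map_mul, C_mul, map_mul, ← h2, sub_eq_zero]
    congr 2
    have h5 : (C (2 : k) : k[X]) = 2 := rfl
    rw [h5, map_ofNat]
  have h4 : C (φ.coeff 2 * 2) * X - C (φ.coeff 0) = 0 :=
    (map_eq_zero_iff _ (IsFractionRing.injective k[X] (RatFunc k))).1 h3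
  have h5 := congrArg (fun p : k[X] => p.coeff 1) h4
  simp only [coeff_sub, coeff_C_mul, coeff_X_one, mul_one, coeff_C_succ, sub_zero, coeff_zero] at h5
  rcases mul_eq_zero.1 h5 with h6 | h6
  · exfalso
    have h7 : φ.leadingCoeff = 0 := by
      rw [leadingCoeff, hd, h6]
    rw [leadingCoeff_eq_zero] at h7
    rw [h7, natDegree_zero] at hd
    exact absurd hd (by norm_num)
  · exact h6

theorem trdeg_adjoin_singleton_le (x : M) :
    Algebra.trdeg k (IntermediateField.adjoin k {x}) ≤ 1 := by
  have := Pool.Agent.T1B.trdeg_adjoin_le_mk (k := k) ({x} : Set M)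
  rwa [Cardinal.mk_singleton] at this

theorem trdeg_sup_singleton_le (E : IntermediateField k M) (x : M) :
    Algebra.trdeg k (E ⊔ IntermediateField.adjoin k {x} : IntermediateField k M) ≤
      Algebra.trdeg k E + 1 := by
  have h1 : (E ⊔ IntermediateField.adjoin k {x} : IntermediateField k M) =
      (IntermediateField.adjoin E {x}).restrictScalars k := by
    rw [IntermediateField.restrictScalars_adjoin, IntermediateField.adjoin_union,
      IntermediateField.adjoin_self]
  rw [h1]
  have h2 := trdeg_add_eq k E (A := IntermediateField.adjoin E {x})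
  have h3 : Algebra.trdeg E (IntermediateField.adjoin E {x}) ≤ 1 := trdeg_adjoin_singleton_le x
  calc Algebra.trdeg k ((IntermediateField.adjoin E {x}).restrictScalars k) =
      Algebra.trdeg k (IntermediateField.adjoin E {x}) := rfl
    _ = Algebra.trdeg k E + Algebra.trdeg E (IntermediateField.adjoin E {x}) := h2.symm
    _ ≤ _ := by gcongr

/-- the field `K₀` of a family is generated by two finitely generated fields of transcendence
degree at most one -/
theorem FamW.split {K₀ : IntermediateField k M} {z : M} {φ : k[X]} {e : ℕ} (had : Ad φ e)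
    (h : FamW K₀ z φ e) :
    ∃ E₁ E₂ : IntermediateField k M, E₁.FG ∧ E₂.FG ∧ Algebra.trdeg k E₁ ≤ 1 ∧
      Algebra.trdeg k E₂ ≤ 1 ∧ K₀ = E₁ ⊔ E₂ := by
  obtain ⟨r, E, x, f, q, ω, α, γ, D, hE, hK, htr, -, -, hf, h2, h3, h4⟩ := h
  rcases Nat.lt_or_ge r 3 with hr | hr
  swap
  · exfalso
    have h5 : ((3 : ℕ) : Cardinal) ≤ 2 := by
      rw [← htr]
      calc ((3 : ℕ) : Cardinal) ≤ (r : Cardinal) := by exact_mod_cast hr
        _ ≤ Algebra.trdeg k E + r := le_add_self
    norm_num at h5
  interval_cases r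
  · exfalso
    rw [Fin.sum_univ_zero, zero_add] at h4
    have hd := had.deg
    have he := had.e2
    have h5 := le_max_left 1 (φ.natDegree * γ)
    have h6 := le_max_right 1 (φ.natDegree * γ)
    have hQ : φ.natDegree * γ ≤ D := by omega
    have h7 : 2 * α ≤ e * α := Nat.mul_le_mul_right _ he
    have h8 : 2 * γ ≤ φ.natDegree * γ := Nat.mul_le_mul_right _ hd
    have hα : 2 * α = D := by omega
    have hγ : 2 * γ = D := by omega
    have hα0 : 0 < α := by omega
    have hγ0 : 0 < γ := by omega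
    have he2 : e = 2 := by
      have h9 : e * α ≤ 2 * α := by omega
      exact le_antisymm (Nat.le_of_mul_le_mul_right h9 hα0) he
    have hd2 : φ.natDegree = 2 := by
      have h9 : φ.natDegree * γ ≤ 2 * γ := by omega
      exact le_antisymm (Nat.le_of_mul_le_mul_right h9 hγ0) hd
    apply had.ek
    rw [he2]
    exact_mod_cast two_eq_zero_of_addPoly had.add hd2
  · refine ⟨E, IntermediateField.adjoin k {x 0}, hE,
      IntermediateField.fg_adjoin_of_finite (Set.toFinite _), ?_, trdeg_adjoin_singleton_le _, ?_⟩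
    · have h5 : Algebra.trdeg k E + (1 : ℕ) = 1 + 1 := by rw [htr]; norm_num
      rw [Nat.cast_one] at h5
      exact le_of_eq (Cardinal.add_one_inj.1 h5)
    · rw [hK]
      congr 2
      ext b
      constructor
      · rintro ⟨i, rfl⟩
        fin_cases i
        rfl
      · rintro rfl
        exact ⟨0, rfl⟩
  · have h0 : Algebra.trdeg k E = 0 := by
      have h5 : Algebra.trdeg k E + 1 + 1 = 0 + 1 + 1 := by
        rw [add_assoc]
        have h6 : (1 + 1 : Cardinal) = ((2 : ℕ) : Cardinal) := by norm_num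
        rw [h6, htr]
        norm_num
      exact Cardinal.add_one_inj.1 (Cardinal.add_one_inj.1 h5)
    refine ⟨E ⊔ IntermediateField.adjoin k {x 0}, IntermediateField.adjoin k {x 1}, ?_,
      IntermediateField.fg_adjoin_of_finite (Set.toFinite _), ?_, trdeg_adjoin_singleton_le _, ?_⟩
    · exact IntermediateField.fg_sup hE (IntermediateField.fg_adjoin_of_finite (Set.toFinite _))
    · refine (trdeg_sup_singleton_le E (x 0)).trans ?_
      rw [h0, zero_add]
    · rw [hK, sup_assoc, ← IntermediateField.adjoin_union]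
      congr 2
      ext b
      constructor
      · rintro ⟨i, rfl⟩
        fin_cases i
        · exact Or.inl rfl
        · exact Or.inr rfl
      · rintro (rfl | rfl)
        · exact ⟨0, rfl⟩
        · exact ⟨1, rfl⟩

/-- the families over `k(x, y)` -/
theorem famW_of (x : Fin 2 → M) (f q : MvPolynomial (Fin 2) k) (ω : Fin 2 → ℕ) (α γ D : ℕ)
    (z : M) (φ : k[X]) (e : ℕ) (hq : MvPolynomial.aeval x q ≠ 0)
    (hz : aeval z φ * MvPolynomial.aeval x q ^ e = MvPolynomial.aeval x f)
    (h1 : MvPolynomial.weightedTotalDegree ω f ≤ D) (h2 : e * α ≤ D)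
    (h3 : e * MvPolynomial.weightedTotalDegree ω q + max 1 (φ.natDegree * γ) ≤ D)
    (h4 : D ≤ ω 0 + ω 1 + α + γ) :
    FamW (IntermediateField.adjoin k (Set.range x)) z φ e := by
  have hE : ∀ g : MvPolynomial (Fin 2) k,
      MvPolynomial.aeval x (MvPolynomial.map (algebraMap k (⊥ : IntermediateField k M)) g) =
        MvPolynomial.aeval x g := fun g => MvPolynomial.aeval_map_algebraMap _ x g
  have hw : ∀ g : MvPolynomial (Fin 2) k, MvPolynomial.weightedTotalDegree ω
      (MvPolynomial.map (algebraMap k (⊥ : IntermediateField k M)) g) ≤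
        MvPolynomial.weightedTotalDegree ω g := by
    intro g
    rw [wtd_le_iff]
    intro d hd
    exact (wtd_le_iff ω g _).1 le_rfl d (MvPolynomial.support_map_subset _ _ hd)
  refine ⟨2, ⊥, x, MvPolynomial.map (algebraMap k _) f, MvPolynomial.map (algebraMap k _) q, ω,
    α, γ, D, IntermediateField.fg_bot, ?_, ?_, ?_, ?_, (hw f).trans h1, h2, ?_, ?_⟩
  · rw [bot_sup_eq]
  · have h5 : Algebra.trdeg k (⊥ : IntermediateField k M) = 0 :=
      trdeg_eq_zero_iff.2 inferInstance
    rw [h5]
    norm_num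
  · rw [hE]
    exact hq
  · rw [hE, hE]
    exact hz
  · exact (Nat.add_le_add_right (Nat.mul_le_mul_left _ (hw q)) _).trans h3
  · rw [Fin.sum_univ_two]
    exact h4

theorem ad_artin (p : ℕ) [Fact p.Prime] [CharP k p] (e : ℕ) (he : 2 ≤ e) (hk : (e : k) ≠ 0) :
    Ad (X ^ p - X : k[X]) e := by
  have hp : 1 < p := (Fact.out : p.Prime).one_lt
  refine ⟨?_, ?_, ?_, he, hk⟩
  · intro L _ _ a b
    have : CharP L p := charP_of_injective_algebraMap (algebraMap k L).injective p
    simp only [map_sub, map_pow, aeval_X]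
    rw [add_pow_char]
    ring
  · rw [derivative_sub, derivative_X_pow, derivative_X, CharP.cast_eq_zero, C_0, zero_mul, zero_sub]
    exact neg_ne_zero.2 one_ne_zero
  · rw [natDegree_sub_eq_left_of_natDegree_lt] <;> simp [hp]

/-- characteristic three: all surfaces `z ^ 3 - z = f(x, y)`, `deg f ≤ 12` -/
theorem famW_three [CharP k 3] (x : Fin 2 → M) (f : MvPolynomial (Fin 2) k)
    (hf : f.totalDegree ≤ 12) (z : M) (hz : z ^ 3 - z = MvPolynomial.aeval x f) :
    Ad (X ^ 3 - X : k[X]) 2 ∧
      FamW (IntermediateField.adjoin k (Set.range x)) z (X ^ 3 - X : k[X]) 2 := by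
  have : Fact (Nat.Prime 3) := ⟨by norm_num⟩
  have hd : (X ^ 3 - X : k[X]).natDegree = 3 := by compute_degree!
  refine ⟨ad_artin 3 2 le_rfl ?_, famW_of x f 1 (fun _ => 1) 6 4 12 z _ 2 ?_ ?_ ?_ ?_ ?_ ?_⟩
  · intro h
    have := (CharP.cast_eq_zero_iff k 3 2).1 h
    norm_num at this
  · rw [map_one]
    exact one_ne_zero
  · rw [map_one, one_pow, mul_one, map_sub, map_pow, aeval_X, hz]
  · have h1 := MvPolynomial.weightedTotalDegree_one f
    rw [← h1] at hf
    exact hf
  · norm_num
  · rw [hd, Pool.Agent.TUQ.wtd_one]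
    norm_num
  · norm_num

/-- characteristic two: all surfaces `z ^ 2 - z = f(x, y)`, `deg f ≤ 12` -/
theorem famW_two [CharP k 2] (x : Fin 2 → M) (f : MvPolynomial (Fin 2) k)
    (hf : f.totalDegree ≤ 12) (z : M) (hz : z ^ 2 - z = MvPolynomial.aeval x f) :
    Ad (X ^ 2 - X : k[X]) 3 ∧
      FamW (IntermediateField.adjoin k (Set.range x)) z (X ^ 2 - X : k[X]) 3 := by
  have : Fact (Nat.Prime 2) := ⟨by norm_num⟩
  have hd : (X ^ 2 - X : k[X]).natDegree = 2 := by compute_degree!
  refine ⟨ad_artin 2 3 (by norm_num) ?_, famW_of x f 1 (fun _ => 1) 4 6 12 z _ 3 ?_ ?_ ?_ ?_ ?_ ?_⟩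
  · intro h
    have := (CharP.cast_eq_zero_iff k 2 3).1 h
    norm_num at this
  · rw [map_one]
    exact one_ne_zero
  · rw [map_one, one_pow, mul_one, map_sub, map_pow, aeval_X, hz]
  · have h1 := MvPolynomial.weightedTotalDegree_one f
    rw [← h1] at hf
    exact hf
  · norm_num
  · rw [hd, Pool.Agent.TUQ.wtd_one]
    norm_num
  · norm_num

/-- characteristic five: all surfaces `z ^ 5 - z = f(x, y)`, `deg f ≤ 6` -/
theorem famW_five [CharP k 5] (x : Fin 2 → M) (f : MvPolynomial (Fin 2) k)
    (hf : f.totalDegree ≤ 6) (z : M) (hz : z ^ 5 - z = MvPolynomial.aeval x f) :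
    Ad (X ^ 5 - X : k[X]) 2 ∧
      FamW (IntermediateField.adjoin k (Set.range x)) z (X ^ 5 - X : k[X]) 2 := by
  have : Fact (Nat.Prime 5) := ⟨by norm_num⟩
  have hd : (X ^ 5 - X : k[X]).natDegree = 5 := by compute_degree!
  refine ⟨ad_artin 5 2 le_rfl ?_, famW_of x f 1 (fun _ => 1) 3 1 6 z _ 2 ?_ ?_ ?_ ?_ ?_ ?_⟩
  · intro h
    have := (CharP.cast_eq_zero_iff k 5 2).1 h
    norm_num at this
  · rw [map_one]
    exact one_ne_zero
  · rw [map_one, one_pow, mul_one, map_sub, map_pow, aeval_X, hz]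
  · have h1 := MvPolynomial.weightedTotalDegree_one f
    rw [← h1] at hf
    exact hf
  · norm_num
  · rw [hd, Pool.Agent.TUQ.wtd_one]
    norm_num
  · norm_num

/-- the curves `z ^ p - z = f(y)`, `deg f ≤ 6`, over a function field `E` of one variable of
characteristic `p = 2` or `3` -/
theorem famW_curve (p e α γ : ℕ) [Fact p.Prime] [CharP k p] (he : 2 ≤ e) (hk : (e : k) ≠ 0)
    (hα : e * α ≤ 6) (hγ : p * γ ≤ 6) (hs : 5 ≤ α + γ) (E : IntermediateField k M) (hE : E.FG)
    (hE1 : Algebra.trdeg k E = 1) (y : M) (f : MvPolynomial (Fin 1) E) (hf : f.totalDegree ≤ 6)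
    (z : M) (hz : z ^ p - z = MvPolynomial.aeval (fun _ => y) f) :
    Ad (X ^ p - X : k[X]) e ∧
      FamW (E ⊔ IntermediateField.adjoin k {y}) z (X ^ p - X : k[X]) e := by
  have hp : 1 < p := (Fact.out : p.Prime).one_lt
  have hd : (X ^ p - X : k[X]).natDegree = p := by
    rw [natDegree_sub_eq_left_of_natDegree_lt] <;> simp [hp]
  refine ⟨ad_artin p e he hk, 1, E, fun _ => y, f, 1, fun _ => 1, α, γ, 6, hE, ?_, ?_, ?_, ?_, ?_,
    hα, ?_, ?_⟩
  · congr 2
    ext b
    constructor
    · rintro rfl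
      exact ⟨0, rfl⟩
    · rintro ⟨i, rfl⟩
      rfl
  · rw [hE1]
    norm_num
  · rw [map_one]
    exact one_ne_zero
  · rw [map_one, one_pow, mul_one, map_sub, map_pow, aeval_X, hz]
  · have h1 := MvPolynomial.weightedTotalDegree_one f
    rw [← h1] at hf
    exact hf
  · have h1 : MvPolynomial.weightedTotalDegree (fun _ : Fin 1 => 1)
        (1 : MvPolynomial (Fin 1) E) = 0 := by
      have h2 := MvPolynomial.weightedTotalDegree_one (1 : MvPolynomial (Fin 1) E)
      rw [MvPolynomial.totalDegree_one] at h2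
      exact h2
    rw [hd, h1, mul_zero, zero_add]
    exact max_le (by norm_num) hγ
  · rw [Fin.sum_univ_one]
    omega

end

end Pool.Agent.WLD
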