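import Pool.Agent.WLD.Defs
import Pool.Agent.TUQ.S5c

/-!
# Places which contain `H` and not `a`
-/

set_option autoImplicit false

namespace Pool.Agent.WLD

open Polynomial Pool.Agent.TBR Pool.Agent.TUQ

universe u

section

variable {k Ω : Type u} [Field k] [Field Ω] [Algebra k Ω]
variable {A H : IntermediateField k Ω} {V : ValuationSubring Ω} {r : V →+* Ω}
variable {K₀ : IntermediateField k A} {z : A} {φ : k[X]} {e : ℕ} {a w U t : Ω}
variable {A₁ A₂ : H[X]} {m : ℕ} {T : Fin m → Ω}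
  {s : Fin m → (Ω ≃ₐ[k] Ω)} {ξ : Fin m → (A →ₐ[k] Ω)} {f : Polynomial Ω}

/-- the value of `a` at the other points -/
theorem GDW.sa_eq (hG : GDW A H K₀ z e a w U t A₁ A₂ T s ξ f) (i : Fin m) :
    s i a * aeval (T i) A₂ = aeval (T i) A₁ := by
  have h := congrArg (s i) hG.aeq
  rw [map_mul, Fx_aeval H (hG.sH i), Fx_aeval H (hG.sH i), hG.st] at h
  exact h

/-- the distance of `T i` and `t` -/
theorem GDW.val_eq_lam [IsAlgClosed H] (hc : CfW A H K₀ z φ e a w U t)
    (hG : GDW A H K₀ z e a w U t A₁ A₂ T s ξ f)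
    (hP : Plc A V r) (hH : ∀ x ∈ H, x ∈ V) (ha : a ∉ V) (ht : t ∈ V) (T₀ : H)
    (h0 : rho r hH T₀ = r ⟨t, ht⟩) (i : Fin m) (hi : V.valuation (T i - t) < 1) :
    V.valuation (T i - t) = V.valuation (t - T₀) := by
  have he : e ≠ 0 := by
    have := hc.ad.e2
    omega
  -- `A₂` vanishes at `T₀`
  have hA₂0 : A₂.eval T₀ = 0 := by
    by_contra hne
    apply ha
    have h1 := congrArg V.valuation hG.aeq
    rw [map_mul, unit_at hP hH ht T₀ h0 A₂ hne, mul_one] at h1
    rw [val_le, h1, ← val_le]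
    exact aeval_memV hH A₁ ht
  have hA₁0 : A₁.eval T₀ ≠ 0 := by
    intro h
    obtain ⟨p, q, hpq⟩ := hG.cop
    have := congrArg (eval T₀) hpq
    rw [eval_add, eval_mul, eval_mul, h, hA₂0, mul_zero, mul_zero, add_zero, eval_one] at this
    exact zero_ne_one this
  obtain ⟨P₀, hP₁, hP₂⟩ := exists_eq_pow_rootMultiplicity_mul_and_not_dvd A₂ hG.A₂0 T₀
  rw [dvd_iff_isRoot, IsRoot.def] at hP₂
  set q := A₂.rootMultiplicity T₀ with hq
  have hq0 : q ≠ 0 := ((rootMultiplicity_pos hG.A₂0).2 hA₂0).ne'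
  have hfac : ∀ x : Ω, aeval x A₂ = (x - T₀) ^ q * aeval x P₀ := by
    intro x
    conv_lhs => rw [hP₁]
    rw [map_mul, map_pow, map_sub, aeval_X, aeval_C]
    rfl
  obtain ⟨hTV, hTr⟩ := res_of_lt hP ht hi
  have h0' : rho r hH T₀ = r ⟨T i, hTV⟩ := by rw [hTr, h0]
  have hsa := hG.sa_eq i
  have a0 : a ≠ 0 := fun h => ha (by rw [h]; exact zero_mem V)
  have hva : V.valuation (s i a) = V.valuation a := by
    have h1 := congrArg V.valuation (hG.se i)
    rw [map_pow, map_pow] at h1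
    exact (pow_left_inj₀ zero_le zero_le he).1 h1
  have hlam : V.valuation (T i - T₀) = V.valuation (t - T₀) := by
    have h1 := congrArg V.valuation hsa
    have h2 := congrArg V.valuation hG.aeq
    rw [map_mul, hfac, map_mul, map_pow, unit_at hP hH hTV T₀ h0' P₀ hP₂,
      unit_at hP hH hTV T₀ h0' A₁ hA₁0, mul_one, hva] at h1
    rw [map_mul, hfac, map_mul, map_pow, unit_at hP hH ht T₀ h0 P₀ hP₂,
      unit_at hP hH ht T₀ h0 A₁ hA₁0, mul_one, ← h1] at h2
    have h3 := mul_left_cancel₀ ((_root_.map_ne_zero V.valuation).2 a0) h2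
    exact (pow_left_inj₀ zero_le zero_le hq0).1 h3.symm
  have hne := lam_ne hc.tH T₀
  have hle : V.valuation (T i - t) ≤ V.valuation (t - T₀) := by
    have h1 : T i - t = (T i - T₀) - (t - T₀) := by ring
    rw [h1]
    refine (V.valuation.map_sub _ _).trans ?_
    rw [hlam, max_self]
  refine le_antisymm hle (not_lt.1 fun hlt => ?_)
  -- the case of equal residues
  set y : Ω := (T i - T₀) / (t - T₀) with hy
  have hy1 : V.valuation (y - 1) < 1 := by
    have h1 : y - 1 = (T i - t) / (t - T₀) := by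
      rw [hy]
      field_simp
      ring
    rw [h1, map_div₀]
    exact (div_lt_one₀ (zero_lt_iff.2 ((_root_.map_ne_zero _).2 hne))).2 hlt
  obtain ⟨hyV, hyr⟩ := hP.sub_lt (one_mem A) hy1
  have hyT : y * (t - T₀) = T i - T₀ := div_mul_cancel₀ _ hne
  set ζ : Ω := s i a / a with hζ
  have hζa : ζ * a = s i a := div_mul_cancel₀ _ a0
  have hζe : ζ ^ e = 1 := by
    rw [hζ, div_pow, hG.se, div_self (pow_ne_zero _ a0)]
  have hζV : ζ ∈ V := by
    rw [val_le]
    have h1 := congrArg V.valuation hζe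
    rw [map_pow, map_one] at h1
    exact ((pow_eq_one_iff_of_nonneg zero_le he).1 h1).le
  have key : ζ * y ^ q * aeval (T i) P₀ * aeval t A₁ = aeval (T i) A₁ * aeval t P₀ := by
    rw [← hsa, ← hG.aeq, hfac, hfac, ← hζa, ← hyT, mul_pow]
    ring
  have hk : (⟨ζ, hζV⟩ * ⟨y, hyV⟩ ^ q * ⟨aeval (T i) P₀, aeval_memV hH P₀ hTV⟩ *
      ⟨aeval t A₁, aeval_memV hH A₁ ht⟩ : V) =
      ⟨aeval (T i) A₁, aeval_memV hH A₁ hTV⟩ * ⟨aeval t P₀, aeval_memV hH P₀ ht⟩ :=
    Subtype.ext key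
  have hr := congrArg r hk
  rw [map_mul, map_mul, map_mul, map_mul, map_pow, hyr, one_pow, mul_one,
    res_at hH hTV T₀ h0', res_at hH ht T₀ h0, res_at hH hTV T₀ h0', res_at hH ht T₀ h0] at hr
  have n1 : rho r hH (P₀.eval T₀) ≠ 0 := (_root_.map_ne_zero _).2 hP₂
  have n2 : rho r hH (A₁.eval T₀) ≠ 0 := (_root_.map_ne_zero _).2 hA₁0
  have hrζ : r ⟨ζ, hζV⟩ = 1 := by
    have h1 : (r ⟨ζ, hζV⟩ - 1) * (rho r hH (P₀.eval T₀) * rho r hH (A₁.eval T₀)) = 0 := by
      linear_combination hr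
    exact sub_eq_zero.1 ((mul_eq_zero.1 h1).resolve_right (mul_ne_zero n1 n2))
  have hζ1 : ζ = 1 := by
    by_contra hζ1
    have h1 := mul_geom_sum ζ e
    rw [hζe, sub_self] at h1
    have h2 := (mul_eq_zero.1 h1).resolve_left (sub_ne_zero.2 hζ1)
    have h3 : (∑ j ∈ Finset.range e, (⟨ζ, hζV⟩ : V) ^ j) = 0 := by
      apply Subtype.ext
      rw [AddSubmonoidClass.coe_finsetSum]
      exact h2
    have h4 := congrArg r h3
    rw [map_sum, map_zero] at h4
    simp only [map_pow, hrζ, one_pow, Finset.sum_const, Finset.card_range, nsmul_eq_mul,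
      mul_one] at h4
    apply hc.ad.ek
    apply (algebraMap k Ω).injective
    rw [map_natCast, map_zero]
    exact h4
  rw [hζ1, one_mul] at hζa
  exact hG.sa i hζa.symm

/-- W6b: the values of the `T i - t` -/
theorem GDW.val_inf [IsAlgClosed H] (hc : CfW A H K₀ z φ e a w U t) (hCP : CP A H K₀ t)
    (hG : GDW A H K₀ z e a w U t A₁ A₂ T s ξ f)
    (hP : Plc A V r) (hH : ∀ x ∈ H, x ∈ V) (ha : a ∉ V) (i j : Fin m)
    (hi : V.valuation (T i - t) < 1) (hj : V.valuation (T j - t) < 1) :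
    V.valuation (T i - t) = V.valuation (T j - t) := by
  have ht := hCP.t_mem hP hH
  obtain ⟨T₀, h0⟩ := exists_liftH hP hH hc.tdA hc.tdH (r ⟨t, ht⟩) (hP.res.mem _)
  rw [hG.val_eq_lam hc hP hH ha ht T₀ h0 i hi, hG.val_eq_lam hc hP hH ha ht T₀ h0 j hj]

end

end Pool.Agent.WLD
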