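import Pool.Agent.WLD.Defs
import Pool.Agent.TUQ.S3e

/-!
# W8: residually independent bases, orthogonal families
-/

set_option autoImplicit false

namespace Pool.Agent.WLD

open Polynomial Pool.Agent.TBR Pool.Agent.TUQ

universe u

section

variable {Ω : Type u} [Field Ω]

/-- the family `b` is orthogonal over `E`: the value of a linear combination with coefficients in
`E` is the largest value of its terms -/
def Orth (V : ValuationSubring Ω) (E : Set Ω) {ι : Type*} [Fintype ι] (b : ι → Ω) : Prop :=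
  ∀ c : ι → Ω, (∀ j, c j ∈ E) → ∀ j, V.valuation (c j * b j) ≤ V.valuation (∑ i, c i * b i)

variable {V : ValuationSubring Ω} {E : Set Ω} {ι : Type*} [Fintype ι] {b : ι → Ω}

theorem Orth.mono {E' : Set Ω} (h : Orth V E b) (hE : E' ⊆ E) : Orth V E' b :=
  fun c hc j => h c (fun i => hE (hc i)) j

theorem Orth.mem_iff (h : Orth V E b) {c : ι → Ω} (hc : ∀ j, c j ∈ E) :
    ∑ i, c i * b i ∈ V ↔ ∀ j, c j * b j ∈ V := by
  constructor
  · intro h1 j
    rw [← V.valuation_le_one_iff] at h1 ⊢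
    exact (h c hc j).trans h1
  · intro h1
    exact sum_mem fun i _ => h1 i

theorem Orth.eq_zero (h : Orth V E b) (hb : ∀ j, b j ≠ 0) {c : ι → Ω} (hc : ∀ j, c j ∈ E)
    (h0 : ∑ i, c i * b i = 0) (j : ι) : c j = 0 := by
  have h1 := h c hc j
  rw [h0, map_zero, le_zero_iff, _root_.map_eq_zero] at h1
  exact (mul_eq_zero.1 h1).resolve_right (hb j)

/-- families with values in different classes are orthogonal -/
theorem orth_of_val (h : ∀ i j, i ≠ j → ∀ c ∈ E, ∀ d ∈ E, c ≠ 0 → d ≠ 0 →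
    V.valuation (c * b i) ≠ V.valuation (d * b j)) : Orth V E b := by
  classical
  intro c hc j
  by_cases hj : c j * b j = 0
  · rw [hj, map_zero]
    exact zero_le
  obtain ⟨i₀, -, hi₀⟩ := Finset.exists_max_image Finset.univ (fun i => V.valuation (c i * b i))
    ⟨j, Finset.mem_univ j⟩
  have hne : c i₀ * b i₀ ≠ 0 := by
    intro h0
    have h1 := hi₀ j (Finset.mem_univ j)
    simp only [h0, map_zero, le_zero_iff, _root_.map_eq_zero] at h1
    exact hj h1
  have hv0 : V.valuation (c i₀ * b i₀) ≠ 0 := (_root_.map_ne_zero _).2 hne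
  have hlt : V.valuation (∑ i ∈ Finset.univ.erase i₀, c i * b i) < V.valuation (c i₀ * b i₀) := by
    refine Valuation.map_sum_lt _ hv0 fun i hi => ?_
    have hii : i ≠ i₀ := (Finset.mem_erase.1 hi).1
    by_cases h0 : c i * b i = 0
    · rw [h0, map_zero]
      exact zero_lt_iff.2 hv0
    · refine lt_of_le_of_ne (hi₀ i (Finset.mem_univ i)) ?_
      exact h i i₀ hii _ (hc i) _ (hc i₀) (left_ne_zero_of_mul h0) (left_ne_zero_of_mul hne)
  have hsum : V.valuation (∑ i, c i * b i) = V.valuation (c i₀ * b i₀) := by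
    rw [← Finset.add_sum_erase _ _ (Finset.mem_univ i₀)]
    exact Valuation.map_add_eq_of_lt_left _ hlt
  rw [hsum]
  exact hi₀ j (Finset.mem_univ j)

/-- families with residually independent members are orthogonal -/
theorem orth_of_res {F : Type*} [Field F] (r : V →+* F)
    (hr : ∀ x : V, r x = 0 ↔ V.valuation (x : Ω) < 1)
    (hE : ∀ x ∈ E, ∀ y ∈ E, x / y ∈ E) (hb : ∀ j, b j ∈ V)
    (hind : ∀ c : ι → V, (∀ j, (c j : Ω) ∈ E) → ∑ j, r (c j) * r ⟨b j, hb j⟩ = 0 →
      ∀ j, r (c j) = 0) : Orth V E b := by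
  classical
  intro c hc j
  by_cases hj : c j * b j = 0
  · rw [hj, map_zero]
    exact zero_le
  obtain ⟨i₀, -, hi₀⟩ := Finset.exists_max_image Finset.univ (fun i => V.valuation (c i))
    ⟨j, Finset.mem_univ j⟩
  have hne : c i₀ ≠ 0 := by
    intro h0
    have h1 := hi₀ j (Finset.mem_univ j)
    simp only [h0, map_zero, le_zero_iff, _root_.map_eq_zero] at h1
    exact hj (by rw [h1, zero_mul])
  have hv0 : V.valuation (c i₀) ≠ 0 := (_root_.map_ne_zero _).2 hne
  have hd : ∀ i, c i / c i₀ ∈ V := by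
    intro i
    rw [← V.valuation_le_one_iff, map_div₀, div_le_one₀ (zero_lt_iff.2 hv0)]
    exact hi₀ i (Finset.mem_univ i)
  have hne1 : ∑ i, r ⟨c i / c i₀, hd i⟩ * r ⟨b i, hb i⟩ ≠ 0 := by
    intro h0
    have h1 := hind (fun i => ⟨c i / c i₀, hd i⟩) (fun i => hE _ (hc i) _ (hc i₀)) h0 i₀
    have h2 : (⟨c i₀ / c i₀, hd i₀⟩ : V) = 1 := Subtype.ext (div_self hne)
    rw [h2, map_one] at h1
    exact one_ne_zero h1
  have hsumV : ∑ i, c i / c i₀ * b i ∈ V := sum_mem fun i _ => mul_mem (hd i) (hb i)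
  have hrs : r ⟨∑ i, c i / c i₀ * b i, hsumV⟩ = ∑ i, r ⟨c i / c i₀, hd i⟩ * r ⟨b i, hb i⟩ := by
    have h1 : (⟨∑ i, c i / c i₀ * b i, hsumV⟩ : V) =
        ∑ i, (⟨c i / c i₀, hd i⟩ : V) * ⟨b i, hb i⟩ := by
      apply Subtype.ext
      rw [AddSubmonoidClass.coe_finsetSum]
      rfl
    rw [h1, map_sum]
    exact Finset.sum_congr rfl fun i _ => map_mul _ _ _
  have hv1 : V.valuation (∑ i, c i / c i₀ * b i) = 1 := by
    refine le_antisymm ((V.valuation_le_one_iff _).2 hsumV) (not_lt.1 fun hlt => ?_)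
    exact hne1 (hrs ▸ (hr ⟨_, hsumV⟩).2 hlt)
  have hfac : ∑ i, c i * b i = c i₀ * ∑ i, c i / c i₀ * b i := by
    rw [Finset.mul_sum]
    refine Finset.sum_congr rfl fun i _ => ?_
    rw [← mul_assoc, mul_div_cancel₀ _ hne]
  rw [hfac, map_mul, map_mul, hv1, mul_one]
  exact (mul_le_of_le_one_right' ((V.valuation_le_one_iff _).2 (hb j))).trans
    (hi₀ j (Finset.mem_univ j))

/-- a homomorphism which preserves the values of the coefficients and of the basis preserves all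
values -/
theorem Orth.val_map {E' : Set Ω} {b' : ι → Ω} (h : Orth V E b) (h' : Orth V E' b') (τ : Ω →+* Ω)
    (hE : ∀ x ∈ E, τ x ∈ E' ∧ V.valuation (τ x) = V.valuation x) (hb : ∀ j, τ (b j) = b' j)
    (hv : ∀ j, V.valuation (b' j) = V.valuation (b j)) {c : ι → Ω} (hc : ∀ j, c j ∈ E) :
    V.valuation (τ (∑ i, c i * b i)) = V.valuation (∑ i, c i * b i) := by
  have h1 : τ (∑ i, c i * b i) = ∑ i, τ (c i) * b' i := by
    rw [map_sum]
    exact Finset.sum_congr rfl fun i _ => by rw [map_mul, hb]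
  have h2 : ∀ i, V.valuation (τ (c i) * b' i) = V.valuation (c i * b i) := fun i => by
    rw [map_mul, map_mul, (hE _ (hc i)).2, hv]
  rw [h1]
  refine le_antisymm ?_ ?_
  · refine V.valuation.map_sum_le fun i _ => ?_
    rw [h2]
    exact h c hc i
  · refine V.valuation.map_sum_le fun i _ => ?_
    rw [← h2]
    exact h' (fun i => τ (c i)) (fun i => (hE _ (hc i)).1) i

/-- the residue of a linear combination of orthogonal units -/
theorem Orth.res_eq {F : Type*} [Field F] (r : V →+* F) (h : Orth V E b)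
    (hb : ∀ j, V.valuation (b j) = 1) {c : ι → Ω} (hc : ∀ j, c j ∈ E)
    (hx : ∑ i, c i * b i ∈ V) :
    ∃ (hcV : ∀ j, c j ∈ V) (hbV : ∀ j, b j ∈ V),
      r ⟨∑ i, c i * b i, hx⟩ = ∑ i, r ⟨c i, hcV i⟩ * r ⟨b i, hbV i⟩ := by
  have hcV : ∀ j, c j ∈ V := by
    intro j
    have h1 := (h.mem_iff hc).1 hx j
    rw [← V.valuation_le_one_iff, map_mul, hb, mul_one] at h1
    exact (V.valuation_le_one_iff _).1 h1
  have hbV : ∀ j, b j ∈ V := fun j => (V.valuation_le_one_iff _).1 (hb j).le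
  refine ⟨hcV, hbV, ?_⟩
  have h1 : (⟨∑ i, c i * b i, hx⟩ : V) = ∑ i, (⟨c i, hcV i⟩ : V) * ⟨b i, hbV i⟩ := by
    apply Subtype.ext
    rw [AddSubmonoidClass.coe_finsetSum]
    rfl
  rw [h1, map_sum]
  exact Finset.sum_congr rfl fun i _ => map_mul _ _ _

/-- if all values but one are not values of elements of `E`, an element of `V` is congruent to its
first coefficient -/
theorem Orth.sub_lt (h : Orth V E b) (i₀ : ι) (hb0 : b i₀ = 1)
    (hb : ∀ j, j ≠ i₀ → ∀ c ∈ E, V.valuation (c * b j) ≠ 1) {c : ι → Ω} (hc : ∀ j, c j ∈ E)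
    (hx : ∑ i, c i * b i ∈ V) : c i₀ ∈ V ∧ V.valuation (∑ i, c i * b i - c i₀) < 1 := by
  classical
  have h1 := (h.mem_iff hc).1 hx
  refine ⟨by simpa [hb0] using h1 i₀, ?_⟩
  have h2 : ∑ i, c i * b i - c i₀ = ∑ i ∈ Finset.univ.erase i₀, c i * b i := by
    rw [← Finset.add_sum_erase _ _ (Finset.mem_univ i₀), hb0, mul_one, add_sub_cancel_left]
  rw [h2]
  refine Valuation.map_sum_lt _ one_ne_zero fun i hi => ?_
  exact lt_of_le_of_ne ((V.valuation_le_one_iff _).2 (h1 i))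
    (hb i (Finset.mem_erase.1 hi).1 _ (hc i))

end

section

variable {k Ω : Type u} [Field k] [Field Ω] [Algebra k Ω]

/-- the elements of `E(u)` as polynomials in `u` of degree less than `n` -/
theorem exists_coeffs (E : IntermediateField k Ω) (u : Ω) (P : E[X]) (hP : P.Monic)
    (hu : aeval u P = 0) {x : Ω} (hx : x ∈ AA E {u}) :
    ∃ c : Fin P.natDegree → Ω, (∀ j, c j ∈ E) ∧ x = ∑ j, c j * u ^ (j : ℕ) := by
  have hint : IsIntegral E u := ⟨P, hP, hu⟩
  have h1 : x ∈ IntermediateField.adjoin E ({u} : Set Ω) := by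
    have h2 : AA E {u} = (IntermediateField.adjoin E ({u} : Set Ω)).restrictScalars k := by
      rw [IntermediateField.restrictScalars_adjoin_eq_sup]
      rfl
    rw [h2] at hx
    exact hx
  have h3 : x ∈ Algebra.adjoin E ({u} : Set Ω) := by
    rw [← IntermediateField.adjoin_simple_toSubalgebra_of_isAlgebraic hint.isAlgebraic]
    exact h1
  rw [Algebra.adjoin_singleton_eq_range_aeval] at h3
  obtain ⟨p, rfl⟩ := h3
  have hP1 : P ≠ 1 := by
    rintro rfl
    rw [map_one] at hu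
    exact one_ne_zero hu
  have hdeg : (p %ₘ P).natDegree < P.natDegree := natDegree_modByMonic_lt p hP hP1
  have h4 : aeval u p = aeval u (p %ₘ P) := (aeval_modByMonic_eq_self_of_root hu).symm
  refine ⟨fun j => ((p %ₘ P).coeff j : E), fun j => Subtype.coe_prop _, ?_⟩
  show aeval u p = _
  rw [h4, aeval_eq_sum_range' hdeg, Finset.sum_range]
  refine Finset.sum_congr rfl fun j _ => ?_
  rw [Algebra.smul_def]
  rfl

/-- the value of a polynomial at a point at infinity -/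
theorem val_aeval_inf (κ : IntermediateField k Ω) (V : ValuationSubring Ω) (hκ : ∀ x ∈ κ, x ∈ V)
    (α : Ω) (hα : 1 < V.valuation α) (f : κ[X]) (hf : f ≠ 0) :
    V.valuation (aeval α f) = V.valuation α ^ f.natDegree := by
  have hα0 : V.valuation α ≠ 0 := (zero_lt_one.trans hα).ne'
  have hc : ∀ c : κ, V.valuation (c : Ω) ≤ 1 := fun c => (V.valuation_le_one_iff _).2 (hκ _ c.2)
  have hlead : V.valuation ((f.coeff f.natDegree : κ) : Ω) = 1 :=
    Pool.Agent.TBR.V.val_A κ V hκ _ (leadingCoeff_ne_zero.2 hf)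
  have hsum : aeval α f = ∑ i ∈ Finset.range f.natDegree, ((f.coeff i : κ) : Ω) * α ^ i +
      ((f.coeff f.natDegree : κ) : Ω) * α ^ f.natDegree := by
    rw [aeval_eq_sum_range, Finset.sum_range_succ]
    simp only [Algebra.smul_def]
    rfl
  have h1 : V.valuation (((f.coeff f.natDegree : κ) : Ω) * α ^ f.natDegree) =
      V.valuation α ^ f.natDegree := by rw [map_mul, hlead, one_mul, map_pow]
  have h2 : V.valuation (∑ i ∈ Finset.range f.natDegree, ((f.coeff i : κ) : Ω) * α ^ i) <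
      V.valuation α ^ f.natDegree := by
    refine Valuation.map_sum_lt _ (pow_ne_zero _ hα0) fun i hi => ?_
    rw [map_mul, map_pow]
    refine lt_of_le_of_lt (mul_le_of_le_one_left' (hc _)) ?_
    exact pow_lt_pow_right₀ hα (Finset.mem_range.1 hi)
  rw [hsum, Valuation.map_add_eq_of_lt_right _ (by rw [h1]; exact h2), h1]

/-- the values of the elements of `κ(α)`, `α` at infinity -/
theorem val_AA_inf (κ : IntermediateField k Ω) (V : ValuationSubring Ω) (hκ : ∀ x ∈ κ, x ∈ V)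
    (α : Ω) (hα : 1 < V.valuation α) (x : Ω) (hx : x ∈ AA κ {α}) (hx0 : x ≠ 0) :
    ∃ m : ℤ, V.valuation x = V.valuation α ^ m := by
  have hα0 : V.valuation α ≠ 0 := (zero_lt_one.trans hα).ne'
  obtain ⟨p, q, rfl⟩ := (Pool.Agent.TBR.V.mem_AA κ α x).1 hx
  have hp : p ≠ 0 := by
    rintro rfl
    exact hx0 (by rw [map_zero, zero_div])
  have hq : q ≠ 0 := by
    rintro rfl
    exact hx0 (by rw [map_zero, div_zero])
  refine ⟨(p.natDegree : ℤ) - q.natDegree, ?_⟩
  rw [map_div₀, val_aeval_inf κ V hκ α hα p hp, val_aeval_inf κ V hκ α hα q hq,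
    zpow_sub₀ hα0, zpow_natCast, zpow_natCast]

/-- the powers of `β` are orthogonal over `κ(α)` if `|β| ^ Q = |α| ^ e` with `e`, `Q` coprime -/
theorem orth_inf (κ : IntermediateField k Ω) (V : ValuationSubring Ω) (hκ : ∀ x ∈ κ, x ∈ V)
    (α : Ω) (hα : 1 < V.valuation α) (β : Ω) (Q e : ℕ) (hQe : Nat.Coprime e Q)
    (hβ : V.valuation β ^ Q = V.valuation α ^ e) :
    Orth V (AA κ {α} : Set Ω) (fun j : Fin Q => β ^ (j : ℕ)) := by
  have hα0 : V.valuation α ≠ 0 := (zero_lt_one.trans hα).ne'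
  refine orth_of_val fun i j hij c hc d hd hc0 hd0 h => ?_
  obtain ⟨m, hm⟩ := val_AA_inf κ V hκ α hα c hc hc0
  obtain ⟨n, hn⟩ := val_AA_inf κ V hκ α hα d hd hd0
  have h1 := congrArg (fun y => y ^ Q) h
  simp only [map_mul, map_pow, mul_pow] at h1
  rw [hm, hn, ← pow_mul, ← pow_mul, mul_comm (i : ℕ) Q, mul_comm (j : ℕ) Q, pow_mul, pow_mul, hβ,
    ← pow_mul, ← pow_mul, ← zpow_natCast, ← zpow_natCast, ← zpow_natCast, ← zpow_natCast,
    ← zpow_mul, ← zpow_mul, ← zpow_add₀ hα0, ← zpow_add₀ hα0] at h1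
  have h2 : m * (Q : ℤ) + ((e * (i : ℕ) : ℕ) : ℤ) = n * (Q : ℤ) + ((e * (j : ℕ) : ℕ) : ℤ) :=
    zpow_right_injective₀ (zero_lt_one.trans hα) hα.ne' h1
  have h3 : (Q : ℤ) ∣ (e : ℤ) * ((i : ℕ) - (j : ℕ) : ℤ) := by
    refine ⟨n - m, ?_⟩
    push_cast at h2
    linear_combination h2
  have h4 : (Q : ℤ) ∣ ((i : ℕ) - (j : ℕ) : ℤ) := by
    refine IsCoprime.dvd_of_dvd_mul_left ?_ h3
    exact (Nat.isCoprime_iff_coprime.2 hQe).symm
  have h5 : ((i : ℕ) - (j : ℕ) : ℤ) = 0 := by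
    refine Int.eq_zero_of_abs_lt_dvd h4 ?_
    rw [abs_lt]
    have hi := i.2
    have hj := j.2
    omega
  exact hij (Fin.ext (by omega))

/-- the value of a root of a polynomial over `κ` -/
theorem val_root_inf (κ : IntermediateField k Ω) (V : ValuationSubring Ω) (hκ : ∀ x ∈ κ, x ∈ V)
    (P : κ[X]) (β : Ω) (h : 1 < V.valuation (aeval β P)) :
    V.valuation β ^ P.natDegree = V.valuation (aeval β P) ∧ 1 < V.valuation β := by
  have hP : P ≠ 0 := by
    rintro rfl
    rw [map_zero, map_zero] at h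
    exact absurd h (not_lt.2 zero_le_one)
  have h1 : 1 < V.valuation β := by
    by_contra hcon
    rw [not_lt] at hcon
    have h2 : aeval β P ∈ V := by
      rw [aeval_eq_sum_range]
      refine sum_mem fun i _ => ?_
      rw [Algebra.smul_def]
      exact mul_mem (hκ _ (Subtype.coe_prop _))
        (pow_mem ((V.valuation_le_one_iff _).1 hcon) i)
    exact absurd ((V.valuation_le_one_iff _).2 h2) (not_le.2 h)
  exact ⟨(val_aeval_inf κ V hκ β h1 P hP).symm, h1⟩

/-- a valuation ring at infinity -/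
theorem exists_inf (κ : IntermediateField k Ω) [IsAlgClosed κ] (η : Ω) (hη : η ∉ κ) :
    ∃ V : ValuationSubring Ω, (∀ x ∈ κ, x ∈ V) ∧ 1 < V.valuation η := by
  have hη' : η⁻¹ ∉ κ := fun h => hη (by simpa using inv_mem h)
  have hx1 : η⁻¹ ∈ Algebra.adjoin κ {η⁻¹} := Algebra.subset_adjoin rfl
  let A₀ : Subring Ω := (Algebra.adjoin κ {η⁻¹}).toSubring
  let I : Ideal A₀ := Ideal.span {(⟨η⁻¹, hx1⟩ : A₀)}
  have hI : I ≠ ⊤ := by
    intro h
    rw [Ideal.span_singleton_eq_top] at h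
    obtain ⟨b, hb⟩ := h.exists_right_inv
    obtain ⟨f, hf⟩ : ∃ f : κ[X], aeval η⁻¹ f = (b : Ω) := by
      have h2 : (b : Ω) ∈ (aeval η⁻¹ : κ[X] →ₐ[κ] Ω).range := by
        rw [← Algebra.adjoin_singleton_eq_range_aeval]
        exact b.2
      exact h2
    have h3 : aeval η⁻¹ (X * f - 1 : κ[X]) = 0 := by
      rw [map_sub, map_mul, hf, aeval_X, map_one, sub_eq_zero]
      exact congrArg Subtype.val hb
    have h4 : (X * f - 1 : κ[X]) ≠ 0 := by
      intro h4
      have h5 := congrArg (eval 0) h4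
      simp at h5
    exact aeval_ne_zero κ η⁻¹ hη' _ h4 h3
  obtain ⟨V, hV, hIV⟩ := Ideal.image_subset_nonunits_valuationSubring I hI
  refine ⟨V, fun y hy => hV ((Algebra.adjoin κ {η⁻¹}).algebraMap_mem ⟨y, hy⟩), ?_⟩
  have hxV : V.valuation η⁻¹ < 1 := by
    rw [← ValuationSubring.mem_nonunits_iff]
    exact hIV ⟨⟨η⁻¹, hx1⟩, Ideal.subset_span rfl, rfl⟩
  have hη0 : η ≠ 0 := by
    rintro rfl
    exact hη (zero_mem κ)
  rw [map_inv₀] at hxV
  exact (inv_lt_one₀ (zero_lt_iff.2 ((_root_.map_ne_zero _).2 hη0))).1 hxV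

/-- a root of a polynomial relation of degree `Q` between `v` and `η ^ j` has degree `Q` over
`κ(η)` -/
theorem ind_gen (κ : IntermediateField k Ω) [IsAlgClosed κ] (η : Ω) (hη : η ∉ κ) (Q j : ℕ)
    (hj : Nat.Coprime j Q) (hj0 : j ≠ 0) (P : κ[X]) (hP : P.natDegree = Q) (c : Ω) (hc : c ∈ κ)
    (hc0 : c ≠ 0) (v : Ω) (hv : aeval v P = c * η ^ j) :
    ∀ q : (AA κ {η})[X], q.natDegree < Q → aeval v q = 0 → q = 0 := by
  obtain ⟨V, hκ, hVη⟩ := exists_inf κ η hη
  have hc1 : V.valuation c = 1 := by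
    have h := Pool.Agent.TBR.V.val_A κ V hκ ⟨c, hc⟩ (fun h => hc0 (congrArg Subtype.val h))
    exact h
  have h1 : V.valuation (aeval v P) = V.valuation η ^ j := by
    rw [hv, map_mul, hc1, one_mul, map_pow]
  obtain ⟨h2, h3⟩ := val_root_inf κ V hκ P v (by rw [h1]; exact one_lt_pow₀ hVη hj0)
  rw [hP, h1] at h2
  have h4 := orth_inf κ V hκ η hVη v Q j hj h2
  intro q hq hq0
  have hv0 : v ≠ 0 := by
    rintro rfl
    rw [map_zero] at h3
    exact absurd h3 (not_lt.2 zero_le_one)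
  have h5 : ∑ i : Fin Q, ((q.coeff i : AA κ {η}) : Ω) * v ^ (i : ℕ) = 0 := by
    rw [← hq0, aeval_eq_sum_range' hq, Finset.sum_range]
    refine Finset.sum_congr rfl fun i _ => ?_
    rw [Algebra.smul_def]
    rfl
  ext i
  rw [coeff_zero]
  by_cases hi : i < Q
  · exact h4.eq_zero (fun j => pow_ne_zero _ hv0) (fun j => Subtype.coe_prop _) h5 ⟨i, hi⟩
  · rw [coeff_eq_zero_of_natDegree_lt (by omega)]

/-- W8c: a root of `X ^ Q = c η ^ j` has degree `Q` over `κ(η)` -/
theorem ind_pow (κ : IntermediateField k Ω) [IsAlgClosed κ] (η : Ω) (hη : η ∉ κ) (p n j : ℕ)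
    [Fact p.Prime] [CharP k p] (hj : ¬ p ∣ j) (c : Ω) (hc : c ∈ κ) (hc0 : c ≠ 0) (v : Ω)
    (hv : v ^ p ^ n = c * η ^ j) :
    ∀ q : (AA κ {η})[X], q.natDegree < p ^ n → aeval v q = 0 → q = 0 := by
  have hp : p.Prime := Fact.out
  refine ind_gen κ η hη (p ^ n) j ?_ ?_ (X ^ p ^ n) (natDegree_X_pow _) c hc hc0 v ?_
  · exact Nat.Coprime.pow_right n ((hp.coprime_iff_not_dvd.2 hj).symm)
  · rintro rfl
    exact hj (dvd_zero p)
  · rw [map_pow, aeval_X, hv]

variable {A H : IntermediateField k Ω} {V : ValuationSubring Ω} {r : V →+* Ω}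

/-- W8b: a root `u` of a monic polynomial of degree `Q` over `E` whose residue has degree at least
`Q` over the residue field of `E`: the residue field of `E(u)` is generated by the residue of `u` -/
theorem res_basis (hP : Plc A V r) (E κ' : IntermediateField k Ω)
    (hE : ∀ x ∈ E, ∀ h : x ∈ V, r ⟨x, h⟩ ∈ κ') (u : Ω) (hu : u ∈ V) (Q : ℕ)
    (p : E[X]) (hp : p.Monic) (hpQ : p.natDegree = Q) (hpu : aeval u p = 0)
    (hind : ∀ q : κ'[X], q.natDegree < Q → aeval (r ⟨u, hu⟩) q = 0 → q = 0) :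
    ∀ x ∈ AA E {u}, ∀ h : x ∈ V, r ⟨x, h⟩ ∈ AA κ' {r ⟨u, hu⟩} := by
  classical
  subst hpQ
  have hpow : ∀ j : Fin p.natDegree, u ^ (j : ℕ) ∈ V := fun j => pow_mem hu j
  have hrpow : ∀ j : Fin p.natDegree, r ⟨u ^ (j : ℕ), hpow j⟩ = r ⟨u, hu⟩ ^ (j : ℕ) := by
    intro j
    rw [← map_pow]
    rfl
  have horth : Orth V (E : Set Ω) (fun j : Fin p.natDegree => u ^ (j : ℕ)) := by
    refine orth_of_res r (hP.res.zero_iff hP.mem) (fun x hx y hy => div_mem hx hy) hpow ?_
    intro c hc h0 i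
    have h1 := hind (∑ j : Fin p.natDegree, C (⟨r (c j), hE _ (hc j) (c j).2⟩ : κ') * X ^ (j : ℕ))
      ?_ ?_
    · have h2 := congrArg (fun q => q.coeff (i : ℕ)) h1
      simp only [finsetSum_coeff, coeff_C_mul, coeff_X_pow, coeff_zero] at h2
      rw [Finset.sum_eq_single i] at h2
      · simpa using congrArg Subtype.val h2
      · intro j _ hji
        rw [if_neg (fun h => hji (Fin.ext h.symm)), mul_zero]
      · intro h
        exact absurd (Finset.mem_univ i) h
    · have hpos : 0 < p.natDegree := lt_of_le_of_lt (Nat.zero_le _) i.2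
      rw [Nat.lt_iff_le_pred hpos]
      refine natDegree_sum_le_of_forall_le _ _ fun j _ => ?_
      refine (natDegree_C_mul_X_pow_le _ _).trans ?_
      have := j.2
      omega
    · rw [map_sum]
      refine Eq.trans (Finset.sum_congr rfl fun j _ => ?_) h0
      rw [map_mul, aeval_C, map_pow, aeval_X, hrpow]
      rfl
  have hne : ∀ j : Fin p.natDegree, V.valuation (u ^ (j : ℕ)) = 1 := by
    intro j
    refine le_antisymm ((V.valuation_le_one_iff _).2 (hpow j)) (not_lt.1 fun hlt => ?_)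
    have h1 := (hP.res.zero_iff hP.mem ⟨u ^ (j : ℕ), hpow j⟩).2 hlt
    rw [hrpow] at h1
    have h2 := hind (X ^ (j : ℕ)) (by rw [natDegree_X_pow]; exact j.2)
      (by rw [map_pow, aeval_X]; exact h1)
    exact pow_ne_zero _ X_ne_zero h2
  intro x hx h
  obtain ⟨c, hc, hxc⟩ := exists_coeffs E u p hp hpu hx
  subst hxc
  obtain ⟨hcV, hbV, h3⟩ := horth.res_eq r hne hc h
  rw [h3]
  refine sum_mem fun j _ => mul_mem ?_ ?_
  · exact Pool.Agent.TBR.V.le_AA _ _ (hE _ (hc j) (hcV j))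
  · rw [hrpow]
    refine pow_mem ?_ _
    have h4 : r ⟨u, hu⟩ ∈ IntermediateField.adjoin k {r ⟨u, hu⟩} :=
      IntermediateField.mem_adjoin_simple_self k _
    exact (le_sup_right : IntermediateField.adjoin k {r ⟨u, hu⟩} ≤ AA κ' {r ⟨u, hu⟩}) h4

/-- W8d: the residue field of `H(a)`, `a` Gauss -/
theorem res_Ha [IsAlgClosed H] (hP : Plc A V r) (a : Ω) (α π : H) (hπ : π ≠ 0)
    (hV : (a - α) / π ∈ V) (hη : r ⟨(a - α) / π, hV⟩ ∉ kap hP.res hP.mem H) :
    ∀ x ∈ AA H {a}, ∀ h : x ∈ V,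
      r ⟨x, h⟩ ∈ AA (kap hP.res hP.mem H) {r ⟨(a - α) / π, hV⟩} := by
  have hgen : Gen hP.res hP.mem H α π a := ⟨hV, hη⟩
  intro x hx h
  have h1 := res_gauss hP.res hP.mem H hπ hgen hgen.notMem x hx h
  rwa [rT_of α π hV] at h1

end

end Pool.Agent.WLD
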