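import Pool.Agent.WLD.W8
import Pool.Agent.WLD.P

/-!
# W8e: automorphisms over `H(a)` at the place `a = ∞`
-/

set_option autoImplicit false

namespace Pool.Agent.WLD

open Polynomial Pool.Agent.TBR Pool.Agent.TUQ

universe u

section

variable {k Ω : Type u} [Field k] [Field Ω] [Algebra k Ω]

/-- the values of the elements of `κ(α, β)` are preserved by all automorphisms over `κ(α)`, if `β`
is totally ramified at infinity -/
theorem tau_val (κ : IntermediateField k Ω) (V : ValuationSubring Ω) (hκ : ∀ x ∈ κ, x ∈ V)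
    (α : Ω) (hα : 1 < V.valuation α) (β : Ω) (P : κ[X]) (e : ℕ) (he : e ≠ 0)
    (hQe : Nat.Coprime e P.natDegree) (hβ : aeval β P = α ^ e) (σ : Ω →ₐ[k] Ω)
    (hσ : ∀ x ∈ κ, σ x = x) (hσα : σ α = α) :
    ∀ x ∈ AA (AA κ {α}) {β}, V.valuation (σ x) = V.valuation x := by
  classical
  set E : IntermediateField k Ω := AA κ {α} with hE
  have hκE : κ ≤ E := Pool.Agent.TBR.V.le_AA _ _
  have hαE : α ∈ E := by
    have h4 : α ∈ IntermediateField.adjoin k {α} := IntermediateField.mem_adjoin_simple_self k _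
    exact (le_sup_right : IntermediateField.adjoin k {α} ≤ AA κ {α}) h4
  -- `σ` fixes `E`
  have hσE : ∀ x ∈ E, σ x = x := by
    intro x hx
    obtain ⟨p, q, rfl⟩ := (Pool.Agent.TBR.V.mem_AA κ α x).1 hx
    have h1 : ∀ p : κ[X], σ (aeval α p) = aeval α p := by
      intro p
      rw [aeval_eq_sum_range, map_sum]
      refine Finset.sum_congr rfl fun i _ => ?_
      rw [Algebra.smul_def, map_mul, map_pow, hσα]
      congr 1
      exact hσ _ (Subtype.coe_prop _)
    rw [map_div₀, h1, h1]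
  have hσP : aeval (σ β) P = α ^ e := by
    have h1 : aeval (σ β) P = σ (aeval β P) := by
      rw [aeval_eq_sum_range, aeval_eq_sum_range, map_sum]
      refine Finset.sum_congr rfl fun i _ => ?_
      rw [Algebra.smul_def, Algebra.smul_def, map_mul, map_pow]
      congr 1
      exact (hσ _ (Subtype.coe_prop _)).symm
    rw [h1, hβ, map_pow, hσα]
  have hv1 : 1 < V.valuation (α ^ e) := by
    rw [map_pow]
    exact one_lt_pow₀ hα he
  obtain ⟨h1, h1'⟩ := val_root_inf κ V hκ P β (by rw [hβ]; exact hv1)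
  obtain ⟨h2, h2'⟩ := val_root_inf κ V hκ P (σ β) (by rw [hσP]; exact hv1)
  rw [hβ, map_pow] at h1
  rw [hσP, map_pow] at h2
  have hQ0 : P.natDegree ≠ 0 := by
    intro h0
    rw [h0, pow_zero] at h1
    exact absurd h1.symm (one_lt_pow₀ hα he).ne'
  have hveq : V.valuation (σ β) = V.valuation β :=
    (pow_left_inj₀ zero_le zero_le hQ0).1 (h2.trans h1.symm)
  have o1 := orth_inf κ V hκ α hα β P.natDegree e hQe h1
  have o2 := orth_inf κ V hκ α hα (σ β) P.natDegree e hQe h2
  -- the monic polynomial of `β`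
  let P' : E[X] := P.map (IntermediateField.inclusion hκE : κ →+* E) - C ⟨α ^ e, pow_mem hαE e⟩
  have hPdeg : (P.map (IntermediateField.inclusion hκE : κ →+* E)).natDegree = P.natDegree :=
    natDegree_map _
  have hP'deg : P'.natDegree = P.natDegree := by
    rw [natDegree_sub_C, hPdeg]
  have hP'0 : P' ≠ 0 := by
    intro h0
    rw [h0, natDegree_zero] at hP'deg
    exact hQ0 hP'deg.symm
  let l : E := P'.leadingCoeff
  have hl : l ≠ 0 := leadingCoeff_ne_zero.2 hP'0
  have hmon : (C l⁻¹ * P').Monic :=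
    monic_C_mul_of_mul_leadingCoeff_eq_one (inv_mul_cancel₀ hl)
  have hdeg : (C l⁻¹ * P').natDegree = P.natDegree := by
    rw [natDegree_C_mul (inv_ne_zero hl), hP'deg]
  have hroot : aeval β (C l⁻¹ * P') = 0 := by
    have h3 : aeval β P' = 0 := by
      rw [map_sub, aeval_C, sub_eq_zero]
      have h4 : aeval β (P.map (IntermediateField.inclusion hκE : κ →+* E)) = aeval β P := by
        rw [aeval_def, eval₂_map]
        rfl
      rw [h4, hβ]
      rfl
    rw [map_mul, h3, mul_zero]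
  intro x hx
  obtain ⟨c, hc, rfl⟩ := exists_coeffs E β _ hmon hroot hx
  have o1' : Orth V (E : Set Ω) (fun j : Fin (C l⁻¹ * P').natDegree => β ^ (j : ℕ)) := by
    rw [hdeg]
    exact o1
  have o2' : Orth V (E : Set Ω) (fun j : Fin (C l⁻¹ * P').natDegree => (σ β) ^ (j : ℕ)) := by
    rw [hdeg]
    exact o2
  exact o1'.val_map o2' (σ : Ω →+* Ω)
    (fun x hx => ⟨by rw [RingHom.coe_coe, hσE x hx]; exact hx, by rw [RingHom.coe_coe, hσE x hx]⟩)
    (fun j => by rw [RingHom.coe_coe, map_pow])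
    (fun j => by rw [map_pow, map_pow, hveq]) hc

end

section

variable {k Ω : Type u} [Field k] [Field Ω] [Algebra k Ω]
variable {A H : IntermediateField k Ω} {V : ValuationSubring Ω}
variable {K₀ : IntermediateField k A} {z : A} {φ : k[X]} {e : ℕ} {a w U t : Ω}

/-- the automorphisms over `H(a)` preserve the values of the elements of `H(a, U)` if `V` contains
`H` and `a ∉ V` -/
theorem CfW.tau_val (hc : CfW A H K₀ z φ e a w U t) (hH : ∀ x ∈ H, x ∈ V) (ha : a ∉ V)
    (σ : Ω ≃ₐ[k] Ω) (hσ : σ ∈ Fx k (H : Set Ω)) (hσa : σ a = a) :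
    ∀ x ∈ AA (AA H {a}) {U}, V.valuation (σ x) = V.valuation x := by
  obtain ⟨p, n, hp, -, -, hQ, hpe⟩ := hc.ad.exists_p
  have hα : 1 < V.valuation a := not_le.1 fun h => ha ((V.valuation_le_one_iff _).1 h)
  refine Pool.Agent.WLD.tau_val H V hH a hα U (φ.map (algebraMap k H)) e ?_ ?_ ?_
    (σ : Ω →ₐ[k] Ω) hσ hσa
  · have := hc.ad.e2
    omega
  · rw [natDegree_map, hQ]
    exact Nat.Coprime.pow_right n ((hp.coprime_iff_not_dvd.2 hpe).symm)
  · rw [aeval_map_algebraMap, hc.eqU]

end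

end Pool.Agent.WLD
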