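import Pool.Agent.WLD.W8
import Pool.Agent.WLD.P
import Pool.Agent.TUQ.G10t
import Pool.Agent.TUQ.G11
import Pool.Agent.TBM.Main

/-!
# W9, the totally ramified case: `U` has a purely inseparable residue
-/

set_option autoImplicit false

namespace Pool.Agent.WLD

open Polynomial Pool.Agent.TBR Pool.Agent.TUQ

universe u

section

variable {k Ω : Type u} [Field k] [Field Ω] [Algebra k Ω]
variable {A H : IntermediateField k Ω} {V : ValuationSubring Ω} {r : V →+* Ω}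
variable {K₀ : IntermediateField k A} {z : A} {φ : k[X]} {e : ℕ} {a w U t : Ω}

theorem exists_monic {F S : Type*} [Field F] [Field S] [Algebra F S] (u : S) (P : F[X])
    (hP : P ≠ 0) (hu : aeval u P = 0) :
    ∃ p : F[X], p.Monic ∧ p.natDegree = P.natDegree ∧ aeval u p = 0 := by
  have hl : P.leadingCoeff ≠ 0 := leadingCoeff_ne_zero.2 hP
  refine ⟨C P.leadingCoeff⁻¹ * P, monic_C_mul_of_mul_leadingCoeff_eq_one (inv_mul_cancel₀ hl),
    natDegree_C_mul (inv_ne_zero hl), ?_⟩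
  rw [map_mul, hu, mul_zero]

/-- an automorphism of `A` which fixes `κ`, `η` and `v` fixes `κ(η, v)` -/
theorem fixed_of_mem (g : A ≃ₐ[k] A) (κ : IntermediateField k Ω) (hκA : κ ≤ A)
    (hκ : ∀ x : A, (x : Ω) ∈ κ → g x = x) (η v : A) (hη : g η = η) (hv : g v = v) (y : A)
    (hy : (y : Ω) ∈ AA (AA κ {(η : Ω)}) {(v : Ω)}) : g y = y := by
  let F : IntermediateField k A :=
    { carrier := {x | g x = x}
      mul_mem' := fun {x y} hx hy => by
        show g (x * y) = x * y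
        rw [map_mul, show g x = x from hx, show g y = y from hy]
      one_mem' := map_one g
      add_mem' := fun {x y} hx hy => by
        show g (x + y) = x + y
        rw [map_add, show g x = x from hx, show g y = y from hy]
      zero_mem' := map_zero g
      algebraMap_mem' := fun c => g.commutes c
      inv_mem' := fun x hx => by
        show g x⁻¹ = x⁻¹
        rw [map_inv₀, show g x = x from hx] }
  have hle : AA (AA κ {(η : Ω)}) {(v : Ω)} ≤ F.map A.val := by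
    refine sup_le (sup_le ?_ ?_) ?_
    · intro x hx
      exact ⟨⟨x, hκA hx⟩, hκ _ hx, rfl⟩
    · rw [IntermediateField.adjoin_le_iff, Set.singleton_subset_iff]
      exact ⟨η, hη, rfl⟩
    · rw [IntermediateField.adjoin_le_iff, Set.singleton_subset_iff]
      exact ⟨v, hv, rfl⟩
  obtain ⟨x, hx, hxy⟩ := hle hy
  have h1 : x = y := Subtype.ext hxy
  rw [← h1]
  exact hx

theorem notMem_of_kap (hP : Plc A V r) (α π : H) (hV : (a - α) / π ∈ V)
    (hη : r ⟨(a - α) / π, hV⟩ ∉ kap hP.res hP.mem H) : a ∉ H := by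
  intro ha
  exact hη (res_mem_kap hP.res hP.mem H hV (div_mem (sub_mem ha α.2) π.2))

/-- the conclusion from a description of the residue field of `H(a, U)` -/
theorem exists_K2_of_res [IsAlgClosed A]
    (hlft : ∀ (E : IntermediateField k Ω), (∀ x : Ω, IsAlgebraic E x) → ∀ g : A ≃ₐ[k] A,
      (∀ x ∈ E, ∀ (h : x ∈ V) (y : A), r ⟨x, h⟩ = y → g y = y) →
      ∃ σ ∈ Fx k (E : Set Ω), Lft A V r σ g)
    (hc : CfW A H K₀ z φ e a w U t) (hP : Plc A V r) (haH : a ∉ H) (η v : A)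
    (hη : (η : Ω) ∉ kap hP.res hP.mem H)
    (hv : IsAlgebraic (IntermediateField.adjoin k {η}) v)
    (hres : ∀ x ∈ AA (AA H {a}) {U}, ∀ h : x ∈ V,
      r ⟨x, h⟩ ∈ AA (AA (kap hP.res hP.mem H) {(η : Ω)}) {(v : Ω)}) :
    ∃ K₂ : IntermediateField k A, K₂.FG ∧ Algebra.trdeg k K₂ ≤ 1 ∧
      (∃ η ∈ K₂, (η : Ω) ∉ kap hP.res hP.mem H) ∧
      ∀ g : A ≃ₐ[k] A, (∀ x ∈ kA hP.res hP.mem H, g x = x) → (∀ x ∈ K₂, g x = x) →
        ∃ σ ∈ Fx k (H : Set Ω), σ a = a ∧ σ U = U ∧ Lft A V r σ g := by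
  classical
  obtain ⟨hfg, htr⟩ := trdeg_adjoin_of_alg (k := k) η ({η, v} : Finset A) (by
    intro x hx
    rw [Finset.mem_insert, Finset.mem_singleton] at hx
    rcases hx with rfl | rfl
    · exact isAlgebraic_algebraMap (⟨x, IntermediateField.mem_adjoin_simple_self k x⟩ :
        IntermediateField.adjoin k {x})
    · exact hv)
  have hmem : ∀ x ∈ ({η, v} : Finset A),
      x ∈ IntermediateField.adjoin k (({η, v} : Finset A) : Set A) := fun x hx =>
    IntermediateField.subset_adjoin k _ (Finset.mem_coe.2 hx)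
  have hηm : η ∈ IntermediateField.adjoin k (({η, v} : Finset A) : Set A) :=
    hmem η (Finset.mem_insert_self _ _)
  have hvm : v ∈ IntermediateField.adjoin k (({η, v} : Finset A) : Set A) :=
    hmem v (Finset.mem_insert_of_mem (Finset.mem_singleton_self _))
  refine ⟨_, hfg, htr, ⟨η, hηm, hη⟩, fun g hgκ hgK => ?_⟩
  have hle : AA H {a} ≤ AA (AA H {a}) {U} := le_sup_left
  obtain ⟨σ, hσ, hL⟩ := hlft (AA (AA H {a}) {U})
    (fun x => isAlg_mono hle (hc.trH a haH x)) g (by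
      intro x hx h y hy
      refine fixed_of_mem g (kap hP.res hP.mem H) (kap_le _ _ _)
        (fun x hx => hgκ x ((mem_kA _ _ _ _).2 hx)) η v (hgK η hηm) (hgK v hvm) y ?_
      rw [← hy]
      exact hres x hx h)
  have hHE : H ≤ AA (AA H {a}) {U} := le_sup_left.trans hle
  refine ⟨σ, fun x hx => hσ x (hHE hx), hσ a (hle ?_), hσ U ?_, hL⟩
  · exact (le_sup_right : IntermediateField.adjoin k {a} ≤ AA H {a})
      (IntermediateField.mem_adjoin_simple_self k a)
  · exact (le_sup_right : IntermediateField.adjoin k {U} ≤ AA (AA H {a}) {U})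
      (IntermediateField.mem_adjoin_simple_self k U)

/-- W9, case c2 -/
theorem exists_K2_of_pow [IsAlgClosed Ω] [IsAlgClosed H] [IsAlgClosed A]
    (hlft : ∀ (E : IntermediateField k Ω), (∀ x : Ω, IsAlgebraic E x) → ∀ g : A ≃ₐ[k] A,
      (∀ x ∈ E, ∀ (h : x ∈ V) (y : A), r ⟨x, h⟩ = y → g y = y) →
      ∃ σ ∈ Fx k (E : Set Ω), Lft A V r σ g)
    (hc : CfW A H K₀ z φ e a w U t) (hP : Plc A V r) (α π : H) (hπ : π ≠ 0)
    (hV : (a - α) / π ∈ V) (hη : r ⟨(a - α) / π, hV⟩ ∉ kap hP.res hP.mem H)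
    (β ρ : H) (hρ : ρ ≠ 0) (hu : (U - β) / ρ ∈ V) (p j : ℕ) (hp : p.Prime) (hk : CharP k p)
    (hj : ¬ p ∣ j)
    (h : r ⟨(U - β) / ρ, hu⟩ ^ φ.natDegree = r ⟨(a - α) / π, hV⟩ ^ j) :
    ∃ K₂ : IntermediateField k A, K₂.FG ∧ Algebra.trdeg k K₂ ≤ 1 ∧
      (∃ η ∈ K₂, (η : Ω) ∉ kap hP.res hP.mem H) ∧
      ∀ g : A ≃ₐ[k] A, (∀ x ∈ kA hP.res hP.mem H, g x = x) → (∀ x ∈ K₂, g x = x) →
        ∃ σ ∈ Fx k (H : Set Ω), σ a = a ∧ σ U = U ∧ Lft A V r σ g := by
  classical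
  obtain ⟨p', n, hp', hk', hn, hQ, -⟩ := hc.ad.exists_p
  obtain rfl : p = p' := CharP.eq k hk hk'
  have hkc := kap_closed hP.res hP.mem H
  have := Fact.mk hp
  have haH := notMem_of_kap hP α π hV hη
  have hρ' : (ρ : Ω) ≠ 0 := fun h0 => hρ (Subtype.ext h0)
  refine exists_K2_of_res hlft hc hP haH ⟨r ⟨(a - α) / π, hV⟩, hP.res.mem _⟩
    ⟨r ⟨(U - β) / ρ, hu⟩, hP.res.mem _⟩ hη ?_ ?_
  · -- algebraic
    refine IsAlgebraic.of_pow (n := φ.natDegree) (Nat.pos_of_ne_zero ?_) ?_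
    · have := hc.ad.deg
      omega
    have h1 : (⟨r ⟨(U - β) / ρ, hu⟩, hP.res.mem _⟩ : A) ^ φ.natDegree =
        ⟨r ⟨(a - α) / π, hV⟩, hP.res.mem _⟩ ^ j := Subtype.ext h
    rw [h1]
    exact isAlgebraic_algebraMap (⟨_, pow_mem (IntermediateField.mem_adjoin_simple_self k _) j⟩ :
      IntermediateField.adjoin k {(⟨r ⟨(a - α) / π, hV⟩, hP.res.mem _⟩ : A)})
  · have hind := ind_pow (kap hP.res hP.mem H) (r ⟨(a - α) / π, hV⟩) hη p n j hj 1 (one_mem _)
      one_ne_zero (r ⟨(U - β) / ρ, hu⟩) (by rw [one_mul, ← hQ]; exact h)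
    have hHE : H ≤ AA H {a} := le_sup_left
    have haE : a ∈ AA H {a} := (le_sup_right : IntermediateField.adjoin k {a} ≤ AA H {a})
      (IntermediateField.mem_adjoin_simple_self k a)
    let ρ' : AA H {a} := ⟨ρ, hHE ρ.2⟩
    let β' : AA H {a} := ⟨β, hHE β.2⟩
    let a' : AA H {a} := ⟨a, haE⟩
    have hρ0 : ρ' ≠ 0 := fun h0 => hρ' (congrArg Subtype.val h0)
    let P : (AA H {a})[X] := (φ.map (algebraMap k (AA H {a}))).comp (C ρ' * X + C β') - C (a' ^ e)
    have hPdeg : P.natDegree = p ^ n := by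
      show ((φ.map (algebraMap k (AA H {a}))).comp (C ρ' * X + C β') - C (a' ^ e)).natDegree = _
      rw [natDegree_sub_C, natDegree_comp, natDegree_map, hQ, natDegree_linear hρ0, mul_one]
    have hP0 : P ≠ 0 := by
      intro h0
      rw [h0, natDegree_zero] at hPdeg
      exact (pow_pos hp.pos n).ne hPdeg
    have hval : (ρ : Ω) * ((U - β) / ρ) + β = U := by
      rw [mul_div_cancel₀ _ hρ']
      ring
    have hroot : aeval ((U - β) / (ρ : Ω)) P = 0 := by
      show aeval ((U - β) / (ρ : Ω))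
        ((φ.map (algebraMap k (AA H {a}))).comp (C ρ' * X + C β') - C (a' ^ e)) = 0
      rw [map_sub, aeval_comp, map_add, map_mul, aeval_C, aeval_C, aeval_X, aeval_C]
      have h2 : (algebraMap (AA H {a}) Ω ρ') * ((U - β) / (ρ : Ω)) + algebraMap (AA H {a}) Ω β' =
        U := hval
      rw [h2, aeval_map_algebraMap, hc.eqU, map_pow]
      exact sub_self _
    obtain ⟨P', hm, hd, hr'⟩ := exists_monic ((U - β) / (ρ : Ω)) P hP0 hroot
    have hb := res_basis hP (AA H {a}) (AA (kap hP.res hP.mem H) {r ⟨(a - α) / π, hV⟩})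
      (res_Ha hP a α π hπ hV hη) ((U - β) / ρ) hu (p ^ n) P' hm (hd.trans hPdeg) hr' hind
    intro x hx hxV
    refine hb x ?_ hxV
    have hle : AA (AA H {a}) {U} ≤ AA (AA H {a}) {(U - β) / (ρ : Ω)} := by
      refine sup_le le_sup_left ?_
      rw [IntermediateField.adjoin_le_iff, Set.singleton_subset_iff]
      have h3 : H ≤ AA (AA H {a}) {(U - β) / (ρ : Ω)} := hHE.trans le_sup_left
      have h4 : (U - β) / (ρ : Ω) ∈ AA (AA H {a}) {(U - β) / (ρ : Ω)} :=
        (le_sup_right : IntermediateField.adjoin k {(U - β) / (ρ : Ω)} ≤ _)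
          (IntermediateField.mem_adjoin_simple_self k _)
      have h5 : (ρ : Ω) * ((U - β) / ρ) + β ∈ AA (AA H {a}) {(U - β) / (ρ : Ω)} :=
        add_mem (mul_mem (h3 ρ.2) h4) (h3 β.2)
      rw [hval] at h5
      exact h5
    exact hle hx

/-- a scaling which makes `x` a unit, for `φ(x) = δ y` with `|δ| > 1` -/
theorem exists_rho [IsAlgClosed H] {φ : k[X]} (hφ : 1 < φ.natDegree) (hP : Plc A V r) (x : Ω)
    (δ : H) (hδ : 1 < V.valuation (δ : Ω)) (y : Ω) (hy : y ∈ V) (hx : aeval x φ = δ * y) :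
    ∃ ρ : H, ρ ≠ 0 ∧ ∃ hu : x / ρ ∈ V, r ⟨x / ρ, hu⟩ ^ φ.natDegree = r ⟨y, hy⟩ := by
  classical
  have hφ0 : φ ≠ 0 := by
    rintro rfl
    rw [natDegree_zero] at hφ
    omega
  have hlc : φ.leadingCoeff ≠ 0 := leadingCoeff_ne_zero.2 hφ0
  have hk1 : ∀ c : k, V.valuation (algebraMap k Ω c) ≤ 1 := fun c =>
    (V.valuation_le_one_iff _).2 (hP.mem _ (A.algebraMap_mem c))
  have hk2 : ∀ c : k, c ≠ 0 → V.valuation (algebraMap k Ω c) = 1 := fun c hc0 => by
    have h := Pool.Agent.TBR.V.val_A A V hP.mem ⟨_, A.algebraMap_mem c⟩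
      (fun h => hc0 ((_root_.map_eq_zero (algebraMap k Ω)).1 (congrArg Subtype.val h)))
    exact h
  set Q := φ.natDegree with hQdef
  have hQ0 : Q ≠ 0 := by omega
  obtain ⟨ρ, hρQ⟩ := IsAlgClosed.exists_pow_nat_eq (δ / algebraMap k H φ.leadingCoeff)
    (Nat.pos_of_ne_zero hQ0)
  have hρQ' : (ρ : Ω) ^ Q = δ / algebraMap k Ω φ.leadingCoeff := congrArg Subtype.val hρQ
  have hδ0 : (δ : Ω) ≠ 0 := by
    intro h0
    rw [h0, map_zero] at hδ
    exact absurd hδ (not_lt.2 zero_le_one)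
  have hvρQ : V.valuation (ρ : Ω) ^ Q = V.valuation (δ : Ω) := by
    rw [← map_pow, hρQ', map_div₀, hk2 _ hlc, div_one]
  have hvρ : 1 < V.valuation (ρ : Ω) := by
    by_contra hcon
    rw [not_lt] at hcon
    have h1 : V.valuation (ρ : Ω) ^ Q ≤ 1 := pow_le_one₀ zero_le hcon
    rw [hvρQ] at h1
    exact absurd hδ (not_lt.2 h1)
  have hρ0 : (ρ : Ω) ≠ 0 := by
    intro h0
    rw [h0, map_zero] at hvρ
    exact absurd hvρ (not_lt.2 zero_le_one)
  have hvρ0 : V.valuation (ρ : Ω) ≠ 0 := (_root_.map_ne_zero _).2 hρ0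
  have hlc' : algebraMap k Ω φ.leadingCoeff ≠ 0 := (_root_.map_ne_zero _).2 hlc
  -- `φ(x)` as a sum
  have hsum : aeval x φ = ∑ i ∈ Finset.range Q, algebraMap k Ω (φ.coeff i) * x ^ i +
      algebraMap k Ω φ.leadingCoeff * x ^ Q := by
    rw [aeval_eq_sum_range, Finset.sum_range_succ]
    simp only [Algebra.smul_def]
    rfl
  -- `x / ρ ∈ V`
  have hxρ : V.valuation x ≤ V.valuation (ρ : Ω) := by
    by_contra hcon
    rw [not_le] at hcon
    have hx1 : 1 < V.valuation x := hvρ.trans hcon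
    have h1 : V.valuation (∑ i ∈ Finset.range Q, algebraMap k Ω (φ.coeff i) * x ^ i) <
        V.valuation x ^ Q := by
      refine Valuation.map_sum_lt _ (pow_ne_zero _ (zero_lt_one.trans hx1).ne') fun i hi => ?_
      rw [map_mul, map_pow]
      exact lt_of_le_of_lt (mul_le_of_le_one_left' (hk1 _))
        (pow_lt_pow_right₀ hx1 (Finset.mem_range.1 hi))
    have h2 : V.valuation (algebraMap k Ω φ.leadingCoeff * x ^ Q) = V.valuation x ^ Q := by
      rw [map_mul, hk2 _ hlc, one_mul, map_pow]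
    have h3 : V.valuation (aeval x φ) = V.valuation x ^ Q := by
      rw [hsum, Valuation.map_add_eq_of_lt_right _ (by rw [h2]; exact h1), h2]
    have h4 : V.valuation (aeval x φ) ≤ V.valuation (δ : Ω) := by
      rw [hx, map_mul]
      exact mul_le_of_le_one_right' ((V.valuation_le_one_iff _).2 hy)
    rw [h3, ← hvρQ] at h4
    exact absurd (pow_lt_pow_left₀ hcon zero_le hQ0) (not_lt.2 h4)
  have hu : x / ρ ∈ V := by
    rw [← V.valuation_le_one_iff, map_div₀]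
    exact div_le_one_of_le₀ hxρ zero_le
  refine ⟨ρ, fun h0 => hρ0 (congrArg Subtype.val h0), hu, ?_⟩
  have hpow : r ⟨x / ρ, hu⟩ ^ Q = r ⟨(x / ρ) ^ Q, pow_mem hu Q⟩ := by
    rw [← map_pow]
    rfl
  rw [hpow, hP.res.eq_of_sub hP.mem]
  have hdiff : (x / ρ) ^ Q - y =
      -(∑ i ∈ Finset.range Q, algebraMap k Ω (φ.coeff i) * x ^ i) / δ := by
    have h1 : (x / (ρ : Ω)) ^ Q = algebraMap k Ω φ.leadingCoeff * x ^ Q / δ := by
      rw [div_pow, hρQ']
      field_simp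
    have h2 : y = aeval x φ / δ := by
      rw [hx, mul_div_cancel_left₀ _ hδ0]
    rw [h1, h2, hsum]
    ring
  rw [hdiff, map_div₀, Valuation.map_neg, div_lt_one₀ (zero_lt_one.trans hδ)]
  refine Valuation.map_sum_lt _ (zero_lt_one.trans hδ).ne' fun i hi => ?_
  rw [map_mul, map_pow, ← hvρQ]
  refine lt_of_le_of_lt (mul_le_of_le_one_left' (hk1 _)) ?_
  exact lt_of_le_of_lt (pow_le_pow_left₀ zero_le hxρ i)
    (pow_lt_pow_right₀ hvρ (Finset.mem_range.1 hi))

/-- the center may be taken to be `0` or large -/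
theorem exists_center (hP : Plc A V r) (α π : H) (hπ : π ≠ 0)
    (hV : (a - α) / π ∈ V) (hη : r ⟨(a - α) / π, hV⟩ ∉ kap hP.res hP.mem H) :
    (∃ hV' : (a - (0 : H)) / π ∈ V, r ⟨(a - (0 : H)) / π, hV'⟩ ∉ kap hP.res hP.mem H) ∨
      V.valuation (π : Ω) < V.valuation (α : Ω) := by
  have hπ' : (π : Ω) ≠ 0 := fun h0 => hπ (Subtype.ext h0)
  rcases lt_or_ge (V.valuation (π : Ω)) (V.valuation (α : Ω)) with h | h
  · exact Or.inr h
  left
  have h1 : (α : Ω) / π ∈ V := by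
    rw [← V.valuation_le_one_iff, map_div₀]
    exact div_le_one_of_le₀ h zero_le
  have h2 : (a - (0 : H)) / π = (a - α) / π + α / π := by
    rw [show ((0 : H) : Ω) = 0 from rfl]
    field_simp
    ring
  have h3 : (a - (0 : H)) / (π : Ω) ∈ V := by
    rw [h2]
    exact add_mem hV h1
  refine ⟨h3, fun hmem => hη ?_⟩
  have h4 : r ⟨(a - (0 : H)) / π, h3⟩ = r ⟨(a - α) / π, hV⟩ + r ⟨(α : Ω) / π, h1⟩ := by
    rw [← map_add]
    congr 1
    exact Subtype.ext h2
  have h5 : r ⟨(α : Ω) / π, h1⟩ ∈ kap hP.res hP.mem H :=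
    res_mem_kap hP.res hP.mem H h1 (div_mem α.2 π.2)
  rw [h4] at hmem
  have h6 := sub_mem hmem h5
  rwa [add_sub_cancel_right] at h6

/-- the value of `a ^ e` near a large center -/
theorem pow_center (hP : Plc A V r) {e : ℕ} (he : (e : k) ≠ 0) (α π : H) (hπ : π ≠ 0)
    (hV : (a - α) / π ∈ V) (h : V.valuation (π : Ω) < V.valuation (α : Ω)) :
    ∃ (δ : H) (y : Ω) (hy : y ∈ V), (δ : Ω) = e * α ^ (e - 1) * π ∧
      a ^ e - α ^ e = δ * y ∧ r ⟨y, hy⟩ = r ⟨(a - α) / π, hV⟩ := by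
  classical
  have hπ' : (π : Ω) ≠ 0 := fun h0 => hπ (Subtype.ext h0)
  have hα' : (α : Ω) ≠ 0 := by
    intro h0
    rw [h0, map_zero] at h
    exact absurd h (not_lt.2 zero_le)
  have hvα : V.valuation (α : Ω) ≠ 0 := (_root_.map_ne_zero _).2 hα'
  have he0 : e ≠ 0 := by
    rintro rfl
    exact he Nat.cast_zero
  have heΩ : (e : Ω) ≠ 0 := by
    have h1 : algebraMap k Ω (e : k) ≠ 0 := (_root_.map_ne_zero _).2 he
    rwa [map_natCast] at h1
  have heV : (e : Ω) ∈ A := by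
    have h1 := A.algebraMap_mem (e : k)
    rwa [map_natCast] at h1
  have hve : V.valuation (e : Ω) = 1 := hP.val_A heV heΩ
  set b : Ω := a / α with hb
  set s : Ω := (a - α) / π with hs
  have hbs : b = 1 + π / α * s := by
    rw [hb, hs]
    field_simp
    ring
  have hπα : V.valuation ((π : Ω) / α) < 1 := by
    rw [map_div₀, div_lt_one₀ (zero_lt_iff.2 hvα)]
    exact h
  have hb1 : V.valuation (b - 1) < 1 := by
    rw [hbs, add_sub_cancel_left, map_mul]
    exact lt_of_le_of_lt (mul_le_of_le_one_right' ((V.valuation_le_one_iff _).2 hV)) hπα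
  have hbV : b ∈ V := by
    have h1 : b = 1 + (b - 1) := by ring
    rw [h1]
    exact add_mem (one_mem _) ((V.valuation_le_one_iff _).1 hb1.le)
  have hrb : r ⟨b, hbV⟩ = 1 := by
    rw [← map_one r]
    exact (hP.res.eq_of_sub hP.mem hbV (one_mem V)).2 hb1
  have hgV : ∑ i ∈ Finset.range e, b ^ i ∈ V := sum_mem fun i _ => pow_mem hbV i
  have heinv : (e : Ω)⁻¹ ∈ V := by
    rw [← V.valuation_le_one_iff, map_inv₀, hve, inv_one]
  have hyV : s * ((e : Ω)⁻¹ * ∑ i ∈ Finset.range e, b ^ i) ∈ V :=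
    mul_mem hV (mul_mem heinv hgV)
  refine ⟨e * α ^ (e - 1) * π, s * ((e : Ω)⁻¹ * ∑ i ∈ Finset.range e, b ^ i), hyV, ?_, ?_, ?_⟩
  · push_cast
    rfl
  · have h1 : (∑ i ∈ Finset.range e, b ^ i) * (b - 1) = b ^ e - 1 := geom_sum_mul b e
    have h2 : a = α * b := by
      rw [hb, mul_div_cancel₀ _ hα']
    have h3 : (α : Ω) ^ e = α ^ (e - 1) * α := by
      rw [← pow_succ, Nat.sub_add_cancel (Nat.one_le_iff_ne_zero.2 he0)]
    have h4 : a ^ e - (α : Ω) ^ e = α ^ e * (b ^ e - 1) := by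
      rw [h2, mul_pow]
      ring
    have h5 : b - 1 = π / α * s := by
      rw [hbs]
      ring
    rw [h4, ← h1, h5, h3]
    push_cast
    field_simp
  · have h1 : (⟨s * ((e : Ω)⁻¹ * ∑ i ∈ Finset.range e, b ^ i), hyV⟩ : V) =
        ⟨s, hV⟩ * (⟨(e : Ω)⁻¹, heinv⟩ * ∑ i ∈ Finset.range e, ⟨b, hbV⟩ ^ i) := by
      apply Subtype.ext
      push_cast
      rfl
    rw [h1, map_mul, map_mul, map_sum]
    have h2 : ∑ i ∈ Finset.range e, r (⟨b, hbV⟩ ^ i) = e := by
      rw [Finset.sum_congr rfl (fun i _ => by rw [map_pow, hrb, one_pow]), Finset.sum_const,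
        Finset.card_range, nsmul_eq_mul, mul_one]
    have h3 : r ⟨(e : Ω)⁻¹, heinv⟩ = (e : Ω)⁻¹ := hP.res.fix _ _ (inv_mem heV)
    rw [h2, h3, inv_mul_cancel₀ heΩ, mul_one]

end

end Pool.Agent.WLD
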